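import Pool.Agent.ZRI.Defs

open scoped BigOperators ENNReal Topology
open MeasureTheory Filter

namespace ZRI

section Abs

variable {S ι : Type*} [Fintype ι]

/-- A0 -/
theorem sg_zero (A : (S → ℝ) → S → ℝ) (F : S → ℝ) (s : S) : sg A 0 F s = F s := by
  unfold sg
  rw [tsum_eq_single 0]
  · simp
  · intro k hk
    simp [hk]

theorem A1_step (r : ι → S → ℝ) (τ : ι → S → S) (q : S → ℝ) (P : S → Prop) (C B : ℝ)
    (hP : ∀ s, P s → ∀ j, r j s ≠ 0 → P (τ j s))
    (hC : ∀ s, P s → ∑ j, |r j s| + |q s| ≤ C)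
    (G : S → ℝ) (hG : ∀ s, P s → |G s| ≤ B) (s : S) (hs : P s) :
    |Op r τ q G s| ≤ C * B := by
  have hB : 0 ≤ B := (abs_nonneg _).trans (hG s hs)
  unfold Op
  calc |∑ j, r j s * G (τ j s) + q s * G s|
      ≤ |∑ j, r j s * G (τ j s)| + |q s * G s| := abs_add_le _ _
    _ ≤ ∑ j, |r j s * G (τ j s)| + |q s * G s| := by
        have := Finset.abs_sum_le_sum_abs (fun j => r j s * G (τ j s)) Finset.univ
        linarith
    _ ≤ ∑ j, |r j s| * B + |q s| * B := by
        refine add_le_add (Finset.sum_le_sum fun j _ => ?_) ?_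
        · rw [abs_mul]
          by_cases hj : r j s = 0
          · rw [hj, abs_zero, zero_mul, zero_mul]
          · exact mul_le_mul_of_nonneg_left (hG _ (hP s hs j hj)) (abs_nonneg _)
        · rw [abs_mul]
          exact mul_le_mul_of_nonneg_left (hG s hs) (abs_nonneg _)
    _ = (∑ j, |r j s| + |q s|) * B := by
        rw [← Finset.sum_mul, add_mul]
    _ ≤ C * B := mul_le_mul_of_nonneg_right (hC s hs) hB

theorem A1_iter (r : ι → S → ℝ) (τ : ι → S → S) (q : S → ℝ) (P : S → Prop) (C M : ℝ)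
    (hP : ∀ s, P s → ∀ j, r j s ≠ 0 → P (τ j s))
    (hC : ∀ s, P s → ∑ j, |r j s| + |q s| ≤ C)
    (F : S → ℝ) (hM : ∀ s, P s → |F s| ≤ M) (k : ℕ) :
    ∀ s, P s → |((Op r τ q)^[k] F) s| ≤ C ^ k * M := by
  induction k with
  | zero => intro s hs; simpa using hM s hs
  | succ k ih =>
    intro s hs
    rw [Function.iterate_succ_apply']
    have := A1_step r τ q P C (C ^ k * M) hP hC _ ih s hs
    rw [pow_succ', mul_assoc]
    exact this

theorem A1_term (C M t a : ℝ) (k : ℕ) (ha : |a| ≤ C ^ k * M) :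
    |t ^ k / (k.factorial : ℝ) * a| ≤ (C * |t|) ^ k / (k.factorial : ℝ) * M := by
  have hk : (0 : ℝ) < (k.factorial : ℝ) := by exact_mod_cast k.factorial_pos
  rw [abs_mul, abs_div, abs_pow, abs_of_pos hk]
  calc |t| ^ k / (k.factorial : ℝ) * |a| ≤ |t| ^ k / (k.factorial : ℝ) * (C ^ k * M) :=
        mul_le_mul_of_nonneg_left ha (by positivity)
    _ = (C * |t|) ^ k / (k.factorial : ℝ) * M := by
        rw [mul_pow]
        ring

theorem A1_summable_bd (C M t : ℝ) :
    Summable fun k : ℕ => (C * |t|) ^ k / (k.factorial : ℝ) * M :=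
  (Real.summable_pow_div_factorial _).mul_right M

theorem A1_summable (r : ι → S → ℝ) (τ : ι → S → S) (q : S → ℝ) (P : S → Prop) (C M : ℝ)
    (hP : ∀ s, P s → ∀ j, r j s ≠ 0 → P (τ j s))
    (hC : ∀ s, P s → ∑ j, |r j s| + |q s| ≤ C)
    (F : S → ℝ) (hM : ∀ s, P s → |F s| ≤ M) (t : ℝ) (s : S) (hs : P s) :
    Summable fun k : ℕ => t ^ k / (k.factorial : ℝ) * ((Op r τ q)^[k] F) s := by
  refine Summable.of_norm_bounded (A1_summable_bd C M t) fun k => ?_
  rw [Real.norm_eq_abs]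
  exact A1_term C M t _ k (A1_iter r τ q P C M hP hC F hM k s hs)

/-- A1 -/
theorem sg_bound (r : ι → S → ℝ) (τ : ι → S → S) (q : S → ℝ) (P : S → Prop) (C M : ℝ)
    (hP : ∀ s, P s → ∀ j, r j s ≠ 0 → P (τ j s))
    (hC : ∀ s, P s → ∑ j, |r j s| + |q s| ≤ C)
    (F : S → ℝ) (hM : ∀ s, P s → |F s| ≤ M) (t : ℝ) (s : S) (hs : P s) :
    |sg (Op r τ q) t F s| ≤ Real.exp (C * |t|) * M := by
  have h1 : ∀ k : ℕ, ‖t ^ k / (k.factorial : ℝ) * ((Op r τ q)^[k] F) s‖ ≤
      (C * |t|) ^ k / (k.factorial : ℝ) * M := fun k => by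
    rw [Real.norm_eq_abs]
    exact A1_term C M t _ k (A1_iter r τ q P C M hP hC F hM k s hs)
  have h2 := tsum_of_norm_bounded (A1_summable_bd C M t).hasSum h1
  rw [tsum_mul_right] at h2
  have h3 : ∑' k : ℕ, (C * |t|) ^ k / (k.factorial : ℝ) = Real.exp (C * |t|) := by
    rw [Real.exp_eq_exp_ℝ, NormedSpace.exp_eq_tsum_div]
  rw [h3, Real.norm_eq_abs] at h2
  exact h2

theorem A1_hasSum_Op (r : ι → S → ℝ) (τ : ι → S → S) (q : S → ℝ) (P : S → Prop) (C M : ℝ)
    (hP : ∀ s, P s → ∀ j, r j s ≠ 0 → P (τ j s))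
    (hC : ∀ s, P s → ∑ j, |r j s| + |q s| ≤ C)
    (F : S → ℝ) (hM : ∀ s, P s → |F s| ≤ M) (t : ℝ) (s : S) (hs : P s) :
    HasSum (fun k : ℕ => t ^ k / (k.factorial : ℝ) * ((Op r τ q)^[k + 1] F) s)
      (Op r τ q (sg (Op r τ q) t F) s) := by
  have h1 : ∀ j, HasSum (fun k : ℕ => r j s *
      (t ^ k / (k.factorial : ℝ) * ((Op r τ q)^[k] F) (τ j s)))
      (r j s * sg (Op r τ q) t F (τ j s)) := by
    intro j
    by_cases hj : r j s = 0
    · simp only [hj, zero_mul]
      exact hasSum_zero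
    · exact (A1_summable r τ q P C M hP hC F hM t _ (hP s hs j hj)).hasSum.mul_left _
  have h2 : HasSum (fun k : ℕ => q s * (t ^ k / (k.factorial : ℝ) * ((Op r τ q)^[k] F) s))
      (q s * sg (Op r τ q) t F s) :=
    (A1_summable r τ q P C M hP hC F hM t s hs).hasSum.mul_left _
  have h3 := (hasSum_sum (s := Finset.univ) fun j _ => h1 j).add h2
  refine h3.congr_fun ?_
  intro k
  rw [Function.iterate_succ_apply']
  show t ^ k / (k.factorial : ℝ) * (∑ j, r j s * ((Op r τ q)^[k] F) (τ j s) +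
    q s * ((Op r τ q)^[k] F) s) = _
  rw [mul_add, Finset.mul_sum]
  congr 1
  · exact Finset.sum_congr rfl fun j _ => by ring
  · ring

/-- A1 -/
theorem sg_deriv (r : ι → S → ℝ) (τ : ι → S → S) (q : S → ℝ) (P : S → Prop) (C M : ℝ)
    (hP : ∀ s, P s → ∀ j, r j s ≠ 0 → P (τ j s))
    (hC : ∀ s, P s → ∑ j, |r j s| + |q s| ≤ C)
    (F : S → ℝ) (hM : ∀ s, P s → |F s| ≤ M) (t : ℝ) (s : S) (hs : P s) :
    HasDerivAt (fun u => sg (Op r τ q) u F s) (Op r τ q (sg (Op r τ q) t F) s) t := by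
  set a : ℕ → ℝ := fun k => ((Op r τ q)^[k] F) s with ha
  have hak : ∀ k, |a k| ≤ C ^ k * M := fun k => A1_iter r τ q P C M hP hC F hM k s hs
  have hC0 : 0 ≤ C := by
    have h1 := hC s hs
    have h2 : 0 ≤ ∑ j, |r j s| := Finset.sum_nonneg fun j _ => abs_nonneg _
    have h3 := abs_nonneg (q s)
    linarith
  have hM0 : 0 ≤ M := (abs_nonneg _).trans (hM s hs)
  set R : ℝ := |t| + 1 with hR
  have hR0 : 0 < R := by positivity
  let u : ℕ → ℝ := fun k => (k : ℝ) * R ^ (k - 1) / (k.factorial : ℝ) * (C ^ k * M)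
  have hu : Summable u := by
    rw [← summable_nat_add_iff 1]
    have h1 : Summable fun k : ℕ => (C * R) ^ k / (k.factorial : ℝ) * (C * M) :=
      (Real.summable_pow_div_factorial _).mul_right _
    refine h1.congr fun k => ?_
    have hk : (k.factorial : ℝ) ≠ 0 := by exact_mod_cast k.factorial_ne_zero
    have hk1 : ((k : ℝ) + 1) ≠ 0 := by positivity
    simp only [u, Nat.add_sub_cancel, Nat.factorial_succ]
    push_cast
    rw [mul_pow, pow_succ]
    field_simp
  have hmem : t ∈ Set.Ioo (-R) R := by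
    have := abs_lt.1 (show |t| < R by rw [hR]; linarith)
    exact ⟨this.1, this.2⟩
  have key := hasDerivAt_tsum_of_isPreconnected (g := fun k z => z ^ k / (k.factorial : ℝ) * a k)
    (g' := fun k z => (k : ℝ) * z ^ (k - 1) / (k.factorial : ℝ) * a k) (u := u) hu
    isOpen_Ioo isPreconnected_Ioo (t := Set.Ioo (-R) R) (y₀ := t) (y := t) ?_ ?_ hmem ?_ hmem
  · have h4 : (∑' k : ℕ, (k : ℝ) * t ^ (k - 1) / (k.factorial : ℝ) * a k) =
        Op r τ q (sg (Op r τ q) t F) s := by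
      have h5 : HasSum (fun k : ℕ => (((k + 1 : ℕ) : ℝ)) * t ^ (k + 1 - 1) /
          ((k + 1).factorial : ℝ) * a (k + 1)) (Op r τ q (sg (Op r τ q) t F) s) := by
        refine (A1_hasSum_Op r τ q P C M hP hC F hM t s hs).congr_fun fun k => ?_
        have hk : (k.factorial : ℝ) ≠ 0 := by exact_mod_cast k.factorial_ne_zero
        have hk1 : ((k : ℝ) + 1) ≠ 0 := by positivity
        rw [Nat.add_sub_cancel, Nat.factorial_succ]
        push_cast
        field_simp
        rfl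
      have h6 := (hasSum_nat_add_iff (f := fun k : ℕ => (k : ℝ) * t ^ (k - 1) /
        (k.factorial : ℝ) * a k) 1).1 h5
      rw [h6.tsum_eq]
      simp
    rw [h4] at key
    exact key
  · intro k z _
    have := ((hasDerivAt_pow k z).div_const (k.factorial : ℝ)).mul_const (a k)
    exact this
  · intro k z hz
    have hz' : |z| ≤ R := (abs_lt.2 ⟨hz.1, hz.2⟩).le
    have hk : (0 : ℝ) < (k.factorial : ℝ) := by exact_mod_cast k.factorial_pos
    rw [Real.norm_eq_abs, abs_mul, abs_div, abs_mul, abs_pow, abs_of_pos hk, Nat.abs_cast]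
    simp only [u]
    gcongr
    exact hak k
  · exact A1_summable r τ q P C M hP hC F hM t s hs

end Abs

end ZRI
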