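import Pool.Agent.ZRI.Defs

open scoped BigOperators ENNReal Topology
open MeasureTheory Filter

namespace ZRI

section Abs

variable {S ι : Type*} [Fintype ι]

theorem A2_step (P : S → Prop) (y y' : ℝ → S → ℝ) (q : S → ℝ) (C M T : ℝ) (hC : 0 ≤ C)
    (hM0 : 0 ≤ M)
    (hq : ∀ s, P s → |q s| ≤ C)
    (hd : ∀ s, P s → ∀ t, 0 ≤ t → t ≤ T → HasDerivAt (fun u => y u s) (y' t s) t)
    (hM : ∀ s, P s → ∀ t, 0 ≤ t → t ≤ T → y t s ≤ M)
    (hI : ∀ s, P s → ∀ t, 0 ≤ t → t ≤ T → ∀ B, 0 ≤ B → (∀ s', P s' → y t s' ≤ B) →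
      y' t s ≤ q s * y t s + C * B)
    (h0 : ∀ s, P s → y 0 s ≤ 0) (k : ℕ) :
    ∀ s, P s → ∀ t, 0 ≤ t → t ≤ T →
      y t s ≤ M * (Real.exp (C * t) * ((C * t) ^ k / (k.factorial : ℝ))) := by
  induction k with
  | zero =>
    intro s hs t ht htT
    have h1 : (1 : ℝ) ≤ Real.exp (C * t) := Real.one_le_exp (mul_nonneg hC ht)
    have h2 := hM s hs t ht htT
    simp only [pow_zero, Nat.factorial_zero, Nat.cast_one, div_one, mul_one]
    nlinarith
  | succ k ih =>
    intro s hs t ht htT
    have hqs := abs_le.mp (hq s hs)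
    set Q : ℝ := q s with hQ
    -- the function whose monotonicity we use
    set z : ℝ → ℝ := fun u => Real.exp (-(Q * u)) * y u s -
      M * (Real.exp ((C - Q) * u) * ((C * u) ^ (k + 1) / ((k + 1).factorial : ℝ))) with hz
    have hkf : (((k + 1).factorial : ℕ) : ℝ) = ((k : ℝ) + 1) * (k.factorial : ℝ) := by
      rw [Nat.factorial_succ]; push_cast; ring
    have hk0 : (0 : ℝ) < (k.factorial : ℝ) := by exact_mod_cast Nat.factorial_pos k
    have hk1 : (0 : ℝ) < (k : ℝ) + 1 := by positivity
    have hder : ∀ u, 0 ≤ u → u ≤ T → HasDerivAt z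
        ((Real.exp (-(Q * u)) * (-Q) * y u s + Real.exp (-(Q * u)) * y' u s) -
          M * (Real.exp ((C - Q) * u) * (C - Q) * ((C * u) ^ (k + 1) / ((k + 1).factorial : ℝ)) +
            Real.exp ((C - Q) * u) * (C * ((C * u) ^ k / (k.factorial : ℝ))))) u := by
      intro u hu huT
      have e1 : HasDerivAt (fun u : ℝ => Real.exp (-(Q * u))) (Real.exp (-(Q * u)) * (-Q)) u := by
        have h1 : HasDerivAt (fun u : ℝ => -(Q * u)) (-Q) u := by
          have h := ((hasDerivAt_id u).const_mul Q).neg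
          rw [mul_one] at h
          exact h
        exact h1.exp
      have e2 : HasDerivAt (fun u : ℝ => Real.exp ((C - Q) * u))
          (Real.exp ((C - Q) * u) * (C - Q)) u := by
        have h1 : HasDerivAt (fun u : ℝ => (C - Q) * u) (C - Q) u := by
          have := (hasDerivAt_id u).const_mul (C - Q)
          simpa using this
        exact h1.exp
      have e3 : HasDerivAt (fun u : ℝ => (C * u) ^ (k + 1) / ((k + 1).factorial : ℝ))
          (C * ((C * u) ^ k / (k.factorial : ℝ))) u := by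
        have h1 : HasDerivAt (fun u : ℝ => C * u) C u := by
          have := (hasDerivAt_id u).const_mul C
          simpa using this
        have h2 := (h1.pow (k + 1)).div_const ((k + 1).factorial : ℝ)
        have h3 : C * ((C * u) ^ k / (k.factorial : ℝ)) =
            (((k + 1 : ℕ) : ℝ) * (C * u) ^ (k + 1 - 1) * C) / ((k + 1).factorial : ℝ) := by
          rw [hkf]
          have : k + 1 - 1 = k := by omega
          rw [this]
          push_cast
          field_simp
        rw [h3]
        exact h2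
      have := (e1.mul (hd s hs u hu huT)).sub ((e2.mul e3).const_mul M)
      exact this
    have hneg : ∀ u, 0 ≤ u → u ≤ T →
        ((Real.exp (-(Q * u)) * (-Q) * y u s + Real.exp (-(Q * u)) * y' u s) -
          M * (Real.exp ((C - Q) * u) * (C - Q) * ((C * u) ^ (k + 1) / ((k + 1).factorial : ℝ)) +
            Real.exp ((C - Q) * u) * (C * ((C * u) ^ k / (k.factorial : ℝ))))) ≤ 0 := by
      intro u hu huT
      have hCu : 0 ≤ C * u := mul_nonneg hC hu
      have hB : 0 ≤ M * (Real.exp (C * u) * ((C * u) ^ k / (k.factorial : ℝ))) := by positivity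
      have h1 := hI s hs u hu huT _ hB (fun s' hs' => ih s' hs' u hu huT)
      have h2 : Real.exp ((C - Q) * u) = Real.exp (-(Q * u)) * Real.exp (C * u) := by
        rw [← Real.exp_add]; congr 1; ring
      have h3 : 0 ≤ M * (Real.exp ((C - Q) * u) * (C - Q) *
          ((C * u) ^ (k + 1) / ((k + 1).factorial : ℝ))) := by
        have : 0 ≤ C - Q := by linarith [hqs.2]
        positivity
      have h4 : Real.exp (-(Q * u)) * y' u s ≤ Real.exp (-(Q * u)) *
          (Q * y u s + C * (M * (Real.exp (C * u) * ((C * u) ^ k / (k.factorial : ℝ))))) :=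
        mul_le_mul_of_nonneg_left h1 (Real.exp_pos _).le
      have h5 : M * (Real.exp ((C - Q) * u) * (C * ((C * u) ^ k / (k.factorial : ℝ)))) =
          Real.exp (-(Q * u)) *
            (C * (M * (Real.exp (C * u) * ((C * u) ^ k / (k.factorial : ℝ))))) := by
        rw [h2]; ring
      have h6 : M * (Real.exp ((C - Q) * u) * (C - Q) *
          ((C * u) ^ (k + 1) / ((k + 1).factorial : ℝ)) +
            Real.exp ((C - Q) * u) * (C * ((C * u) ^ k / (k.factorial : ℝ)))) =
          M * (Real.exp ((C - Q) * u) * (C - Q) *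
          ((C * u) ^ (k + 1) / ((k + 1).factorial : ℝ))) +
          M * (Real.exp ((C - Q) * u) * (C * ((C * u) ^ k / (k.factorial : ℝ)))) := by ring
      rw [h6, h5]
      nlinarith [h3, h4]
    have hanti : AntitoneOn z (Set.Icc 0 T) := by
      apply antitoneOn_of_deriv_nonpos (convex_Icc 0 T)
      · intro u hu
        exact (hder u hu.1 hu.2).continuousAt.continuousWithinAt
      · intro u hu
        rw [interior_Icc] at hu
        exact (hder u hu.1.le hu.2.le).differentiableAt.differentiableWithinAt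
      · intro u hu
        rw [interior_Icc] at hu
        rw [(hder u hu.1.le hu.2.le).deriv]
        exact hneg u hu.1.le hu.2.le
    have hz0 : z 0 ≤ 0 := by
      have := h0 s hs
      simp only [hz, mul_zero, neg_zero, Real.exp_zero, one_mul]
      rw [zero_pow (by omega)]
      simpa using this
    have hzt : z t ≤ 0 := (hanti ⟨le_refl _, ht.trans htT⟩ ⟨ht, htT⟩ ht).trans hz0
    have h7 : Real.exp (Q * t) * z t ≤ 0 :=
      mul_nonpos_of_nonneg_of_nonpos (Real.exp_pos _).le hzt
    have h8 : Real.exp (Q * t) * z t = y t s -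
        M * (Real.exp (C * t) * ((C * t) ^ (k + 1) / ((k + 1).factorial : ℝ))) := by
      simp only [hz]
      have a1 : Real.exp (Q * t) * Real.exp (-(Q * t)) = 1 := by
        rw [← Real.exp_add]; simp
      have a2 : Real.exp (Q * t) * Real.exp ((C - Q) * t) = Real.exp (C * t) := by
        rw [← Real.exp_add]; congr 1; ring
      calc Real.exp (Q * t) * (Real.exp (-(Q * t)) * y t s -
            M * (Real.exp ((C - Q) * t) * ((C * t) ^ (k + 1) / ((k + 1).factorial : ℝ)))) =
          (Real.exp (Q * t) * Real.exp (-(Q * t))) * y t s -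
            M * ((Real.exp (Q * t) * Real.exp ((C - Q) * t)) *
              ((C * t) ^ (k + 1) / ((k + 1).factorial : ℝ))) := by ring
        _ = _ := by rw [a1, a2]; ring
    linarith

theorem cmp (P : S → Prop) (y y' : ℝ → S → ℝ) (q : S → ℝ) (C M T : ℝ) (hC : 0 ≤ C)
    (hq : ∀ s, P s → |q s| ≤ C)
    (hd : ∀ s, P s → ∀ t, 0 ≤ t → t ≤ T → HasDerivAt (fun u => y u s) (y' t s) t)
    (hM : ∀ s, P s → ∀ t, 0 ≤ t → t ≤ T → y t s ≤ M)
    (hI : ∀ s, P s → ∀ t, 0 ≤ t → t ≤ T → ∀ B, 0 ≤ B → (∀ s', P s' → y t s' ≤ B) →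
      y' t s ≤ q s * y t s + C * B)
    (h0 : ∀ s, P s → y 0 s ≤ 0) (t : ℝ) (ht : 0 ≤ t) (htT : t ≤ T) (s : S) (hs : P s) :
    y t s ≤ 0 := by
  have h1 := fun k => A2_step P y y' q C (max M 0) T hC (le_max_right _ _) hq hd
    (fun s hs t ht htT => (hM s hs t ht htT).trans (le_max_left _ _)) hI h0 k s hs t ht htT
  have h2 : Tendsto (fun k : ℕ => max M 0 * (Real.exp (C * t) * ((C * t) ^ k /
      (k.factorial : ℝ)))) atTop (𝓝 (max M 0 * (Real.exp (C * t) * 0))) :=
    ((FloorSemiring.tendsto_pow_div_factorial_atTop (C * t)).const_mul _).const_mul _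
  simp only [mul_zero] at h2
  exact ge_of_tendsto' h2 h1

end Abs

end ZRI
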