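import Pool.Agent.ZRI.Defs

open scoped BigOperators ENNReal Topology
open MeasureTheory Filter

namespace ZRI

section B

variable {d L : ℕ} {g : ℕ → ℝ} {Γm Γp : ℝ}

/-- B1 -/
theorem g_lo (hg : IsRate g Γm Γp) (n : ℕ) : Γm * n ≤ g n := by
  induction n with
  | zero => rw [hg.zero, Nat.cast_zero, mul_zero]
  | succ n ih =>
    have := hg.lower n
    push_cast
    linarith

/-- B1 -/
theorem g_hi (hg : IsRate g Γm Γp) (n : ℕ) : g n ≤ Γp * n := by
  induction n with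
  | zero => rw [hg.zero, Nat.cast_zero, mul_zero]
  | succ n ih =>
    have := hg.upper n
    push_cast
    linarith

/-- B1 -/
theorem g_nonneg (hg : IsRate g Γm Γp) (n : ℕ) : 0 ≤ g n :=
  (mul_nonneg hg.pos.le (Nat.cast_nonneg n)).trans (g_lo hg n)

/-- B1 -/
theorem g_ne (hg : IsRate g Γm Γp) (n : ℕ) (h : g n ≠ 0) : 1 ≤ n := by
  rw [Nat.one_le_iff_ne_zero]
  rintro rfl
  exact h hg.zero

/-- B1 -/
theorem g_pos (hg : IsRate g Γm Γp) (n : ℕ) (h : 1 ≤ n) : Γm ≤ g n := by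
  refine le_trans ?_ (g_lo hg n)
  have h1 : (1 : ℝ) ≤ n := by exact_mod_cast h
  have h2 := hg.pos
  nlinarith

end B

end ZRI
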