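import Pool.Agent.ZRI.Defs

open scoped BigOperators ENNReal Topology
open MeasureTheory Filter

namespace ZRI

variable {d L : ℕ} {g : ℕ → ℝ} {Γm Γp : ℝ}

theorem B2_sub (η : Cfg d L) (x : Tor d L) (h : 1 ≤ η x) : (η - Pi.single x 1) + Pi.single x 1 = η := by
  funext z
  rw [Pi.add_apply, Pi.sub_apply]
  by_cases hz : z = x
  · subst hz
    rw [Pi.single_eq_same]
    omega
  · rw [Pi.single_eq_of_ne hz]
    omega

/-- B2 -/
theorem sum_mv (η : Cfg d L) (x y : Tor d L) (h : 1 ≤ η x) : ∑ z, mv η x y z = ∑ z, η z := by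
  have h1 : ∀ w : Tor d L, ∑ z, (Pi.single w 1 : Cfg d L) z = 1 := by
    intro w
    exact Finset.sum_pi_single' w 1 Finset.univ |>.trans (by rw [if_pos (Finset.mem_univ w)])
  have h2 : ∀ (a : Cfg d L) (w : Tor d L), ∑ z, (a + Pi.single w 1 : Cfg d L) z = ∑ z, a z + 1 := by
    intro a w
    have e : ∑ z, (a + Pi.single w 1 : Cfg d L) z = ∑ z, a z + ∑ z, (Pi.single w 1 : Cfg d L) z :=
      Finset.sum_add_distrib
    exact e.trans (congrArg (fun k => ∑ z, a z + k) (h1 w))
  have h3 := h2 (η - Pi.single x 1) x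
  rw [B2_sub η x h] at h3
  exact (h2 (η - Pi.single x 1) y).trans h3.symm

/-- B2 -/
theorem mv_add_ne (η : Cfg d L) (c x y : Tor d L) (h : 1 ≤ η x) :
    mv (η + Pi.single c 1) x y = mv η x y + Pi.single c 1 := by
  funext z
  unfold mv
  simp only [Pi.add_apply, Pi.sub_apply]
  by_cases hz : z = x
  · subst hz
    rw [Pi.single_eq_same]
    omega
  · rw [Pi.single_eq_of_ne hz]
    omega

/-- B2 -/
theorem mv_add_self (η : Cfg d L) (x y : Tor d L) :
    mv (η + Pi.single x 1) x y = η + Pi.single y 1 := by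
  funext z
  unfold mv
  simp only [Pi.add_apply, Pi.sub_apply]
  omega

/-- B2 -/
theorem mv_sub (η : Cfg d L) (x y : Tor d L) (h : 1 ≤ η x) :
    mv η x y = (η - Pi.single x 1) + Pi.single y 1 ∧ η = (η - Pi.single x 1) + Pi.single x 1 :=
  ⟨rfl, (B2_sub η x h).symm⟩

theorem B2_stp_same (e : Dir d) : (stp e : Tor d L) e.1 = if e.2 then 1 else -1 := by
  unfold stp
  rw [Pi.single_eq_same]

/-- B2 -/
theorem stp_ne (hL : 1 ≤ L) (x : Tor d L) (e : Dir d) : x + stp e ≠ x := by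
  intro h
  have h1 : (stp e : Tor d L) = 0 := by
    have := h.trans (add_zero x).symm
    exact add_left_cancel this
  have h2 := congrFun h1 e.1
  rw [B2_stp_same, Pi.zero_apply] at h2
  have : Fact (1 < L + 1) := ⟨by omega⟩
  have h3 : (1 : ZMod (L + 1)) ≠ 0 := one_ne_zero
  split_ifs at h2
  · exact h3 h2
  · exact h3 (neg_eq_zero.1 h2)

theorem B2_one : (1 : ZMod (L + 1)).valMinAbs.natAbs ≤ 1 := by
  rw [ZMod.valMinAbs_natAbs_eq_min]
  refine (min_le_left _ _).trans ?_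
  rw [ZMod.val_one_eq_one_mod]
  exact Nat.mod_le 1 (L + 1)

theorem B2_stp_le (e : Dir d) : ((stp e : Tor d L) e.1).valMinAbs.natAbs ≤ 1 := by
  rw [B2_stp_same]
  split_ifs
  · exact B2_one
  · rw [ZMod.natAbs_valMinAbs_neg]
    exact B2_one

/-- B2: the front moves by at most one -/
theorem nrm_step (x : Tor d L) (e : Dir d) : nrm (x + stp e) ≤ nrm x + 1 := by
  unfold nrm
  rw [← Finset.add_sum_erase _ _ (Finset.mem_univ e.1), ← Finset.add_sum_erase (a := e.1) _ (fun i => (x i).valMinAbs.natAbs) (Finset.mem_univ e.1)]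
  have h1 : ∑ i ∈ Finset.univ.erase e.1, ((x + stp e : Tor d L) i).valMinAbs.natAbs =
      ∑ i ∈ Finset.univ.erase e.1, (x i).valMinAbs.natAbs := by
    refine Finset.sum_congr rfl fun i hi => ?_
    have h2 : (stp e : Tor d L) i = 0 := by
      unfold stp
      exact Pi.single_eq_of_ne (Finset.ne_of_mem_erase hi) _
    rw [Pi.add_apply, h2, add_zero]
  have h3 : ((x + stp e : Tor d L) e.1).valMinAbs.natAbs ≤ (x e.1).valMinAbs.natAbs + 1 := by
    rw [Pi.add_apply]
    refine (ZMod.natAbs_valMinAbs_add_le _ _).trans ?_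
    refine (Int.natAbs_add_le _ _).trans ?_
    exact Nat.add_le_add_left (B2_stp_le e) _
  rw [h1]
  omega

end ZRI
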