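import Pool.Agent.ZRI.Defs
import Pool.Agent.ZRI.B1
import Pool.Agent.ZRI.B2

open scoped BigOperators ENNReal Topology
open MeasureTheory Filter

namespace ZRI

section B

variable {d L : ℕ} {g : ℕ → ℝ} {Γm Γp : ℝ}

theorem B3_dir (hd : 1 ≤ d) (a : ℝ) : ∑ _e : Dir d, a / (2 * d) = a := by
  have h : (d : ℝ) ≠ 0 := by
    have : d ≠ 0 := by omega
    exact_mod_cast this
  rw [Finset.sum_const, Finset.card_univ, Fintype.card_prod, Fintype.card_fin, Fintype.card_bool,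
    nsmul_eq_mul]
  push_cast
  field_simp

/-- B3 -/
theorem sum_rate (hd : 1 ≤ d) (hg : IsRate g Γm Γp) (η : Cfg d L) :
    ∑ z, ∑ _e : Dir d, g (η z) / (2 * d) ≤ Γp * ((∑ z, η z : ℕ) : ℝ) := by
  simp only [B3_dir hd]
  rw [Nat.cast_sum, Finset.mul_sum]
  exact Finset.sum_le_sum fun z _ => ZRI.g_hi hg (η z)

/-- B3 -/
theorem Gen_op (δ : ℝ≥0∞) :
    (Gen g δ : (St d L → ℝ) → St d L → ℝ) = Op (rG g δ) (tG δ) (fun s => -∑ j, rG g δ j s) := by
  funext F s
  unfold Gen Op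
  beta_reduce
  rw [Fintype.sum_sum_type, Fintype.sum_sum_type, Fintype.sum_prod_type, Fintype.sum_prod_type,
    Finset.sum_filter]
  have h1 : ∑ x, ∑ e : Dir d, g (s.1 x) / (2 * d) * (F (jmp δ s x (x + stp e)) - F s) =
      ∑ x, ∑ e : Dir d, rG g δ (.inl (x, e)) s * F (tG δ (.inl (x, e)) s) -
        (∑ x, ∑ e : Dir d, rG g δ (.inl (x, e)) s) * F s := by
    rw [Finset.sum_mul, ← Finset.sum_sub_distrib]
    refine Finset.sum_congr rfl fun x _ => ?_
    rw [Finset.sum_mul, ← Finset.sum_sub_distrib]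
    refine Finset.sum_congr rfl fun e _ => ?_
    simp only [rG, tG]
    ring
  have h2 : ∑ x, (if s.1 x = 1 then (if x ∈ s.2.1 then δ.toReal * (F (heal s x) - F s) else 0)
      else 0) = ∑ x, rG g δ (.inr x) s * F (tG δ (.inr x) s) -
        (∑ x, rG g δ (.inr x) s) * F s := by
    rw [Finset.sum_mul, ← Finset.sum_sub_distrib]
    refine Finset.sum_congr rfl fun x _ => ?_
    simp only [rG, tG]
    by_cases h3 : x ∈ s.2.1 <;> by_cases h4 : s.1 x = 1
    · rw [if_pos h4, if_pos h3, if_pos ⟨h3, h4⟩]; ring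
    · rw [if_neg h4, if_neg (fun h => h4 h.2)]; ring
    · rw [if_pos h4, if_neg h3, if_neg (fun h => h3 h.1)]; ring
    · rw [if_neg h4, if_neg (fun h => h4 h.2)]; ring
  have h3 : ∑ x ∈ s.2.1, (if s.1 x = 1 then δ.toReal * (F (heal s x) - F s) else 0) =
      ∑ x, (if s.1 x = 1 then (if x ∈ s.2.1 then δ.toReal * (F (heal s x) - F s) else 0)
      else 0) := by
    have h4 : ∀ x, (if s.1 x = 1 then (if x ∈ s.2.1 then δ.toReal * (F (heal s x) - F s) else 0)
      else 0) = if x ∈ s.2.1 then (if s.1 x = 1 then δ.toReal * (F (heal s x) - F s) else 0)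
        else 0 := by
      intro x
      by_cases h3 : x ∈ s.2.1 <;> by_cases h4 : s.1 x = 1 <;> simp [h3, h4]
    simp only [h4]
    rw [Finset.sum_ite_mem, Finset.univ_inter]
  rw [h1, h3, h2]
  ring

/-- B3: the moves of positive rate preserve the number of particles -/
theorem rG_inv (hg : IsRate g Γm Γp) (δ : ℝ≥0∞) (n : ℕ) (s : St d L) (hs : ∑ z, s.1 z = n)
    (j : (Tor d L × Dir d) ⊕ Tor d L) (hj : rG g δ j s ≠ 0) : ∑ z, (tG δ j s).1 z = n := by
  rcases j with p | x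
  · have h1 : g (s.1 p.1) ≠ 0 := by
      intro h
      apply hj
      simp only [rG, h, zero_div]
    have h2 := ZRI.g_ne hg _ h1
    change ∑ z, mv s.1 p.1 (p.1 + stp p.2) z = n
    rw [ZRI.sum_mv s.1 p.1 _ h2, hs]
  · exact hs

/-- B3 -/
theorem rG_bound (hd : 1 ≤ d) (hg : IsRate g Γm Γp) (δ : ℝ≥0∞) (s : St d L) :
    (∀ j, 0 ≤ rG g δ j s) ∧
      ∑ j, |rG g δ j s| + |-∑ j, rG g δ j s| ≤ 2 * (Γp + δ.toReal) * ((∑ z, s.1 z : ℕ) : ℝ) := by
  have h0 : ∀ j, 0 ≤ rG g δ j s := by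
    rintro (p | x)
    · simp only [rG]
      exact div_nonneg (ZRI.g_nonneg hg _) (by positivity)
    · simp only [rG]
      split_ifs
      · exact ENNReal.toReal_nonneg
      · exact le_rfl
  refine ⟨h0, ?_⟩
  have h1 : ∑ j, |rG g δ j s| = ∑ j, rG g δ j s :=
    Finset.sum_congr rfl fun j _ => abs_of_nonneg (h0 j)
  rw [abs_neg, abs_of_nonneg (Finset.sum_nonneg fun j _ => h0 j), h1]
  have h2 : ∑ j, rG g δ j s ≤ (Γp + δ.toReal) * ((∑ z, s.1 z : ℕ) : ℝ) := by
    rw [Fintype.sum_sum_type, Fintype.sum_prod_type, add_mul]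
    refine add_le_add (sum_rate hd hg s.1) ?_
    rw [Nat.cast_sum, Finset.mul_sum]
    refine Finset.sum_le_sum fun x _ => ?_
    simp only [rG]
    split_ifs with h
    · rw [h.2]; simp
    · exact mul_nonneg ENNReal.toReal_nonneg (Nat.cast_nonneg _)
  linarith

end B

end ZRI
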