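import Pool.Agent.ZRI.Defs
import Pool.Agent.ZRI.A1
import Pool.Agent.ZRI.A2

open scoped BigOperators ENNReal Topology
open MeasureTheory Filter

namespace ZRI

section Abs

variable {S ι : Type*} [Fintype ι]

theorem A3_C (r : ι → S → ℝ) (q : S → ℝ) (C : ℝ) (s : S)
    (h : ∑ j, |r j s| + |q s| ≤ C) : 0 ≤ C ∧ |q s| ≤ C ∧ ∑ j, r j s ≤ C := by
  have h1 : 0 ≤ ∑ j, |r j s| := Finset.sum_nonneg fun j _ => abs_nonneg _
  have h2 := abs_nonneg (q s)
  have h3 : ∑ j, r j s ≤ ∑ j, |r j s| := Finset.sum_le_sum fun j _ => le_abs_self _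
  exact ⟨by linarith, by linarith, by linarith⟩

theorem A3_sum (r : ι → S → ℝ) (τ : ι → S → S) (P : S → Prop) (C B : ℝ) (s : S) (hs : P s)
    (hr : ∀ s, P s → ∀ j, 0 ≤ r j s)
    (hP : ∀ s, P s → ∀ j, r j s ≠ 0 → P (τ j s)) (hC : ∑ j, r j s ≤ C) (hB : 0 ≤ B)
    (y : S → ℝ) (hy : ∀ s', P s' → y s' ≤ B) : ∑ j, r j s * y (τ j s) ≤ C * B := by
  calc ∑ j, r j s * y (τ j s) ≤ ∑ j, r j s * B := by
        apply Finset.sum_le_sum
        intro j _
        by_cases h : r j s = 0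
        · simp [h]
        · exact mul_le_mul_of_nonneg_left (hy _ (hP s hs j h)) (hr s hs j)
    _ = (∑ j, r j s) * B := by rw [Finset.sum_mul]
    _ ≤ C * B := mul_le_mul_of_nonneg_right hC hB

theorem sg_nonneg (r : ι → S → ℝ) (τ : ι → S → S) (q : S → ℝ) (P : S → Prop) (C M : ℝ)
    (hr : ∀ s, P s → ∀ j, 0 ≤ r j s)
    (hP : ∀ s, P s → ∀ j, r j s ≠ 0 → P (τ j s))
    (hC : ∀ s, P s → ∑ j, |r j s| + |q s| ≤ C)
    (F : S → ℝ) (hM : ∀ s, P s → |F s| ≤ M) (hF : ∀ s, P s → 0 ≤ F s) (t : ℝ) (ht : 0 ≤ t)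
    (s : S) (hs : P s) : 0 ≤ sg (Op r τ q) t F s := by
  have hC0 := (A3_C r q C s (hC s hs)).1
  have hM0 : 0 ≤ M := (abs_nonneg _).trans (hM s hs)
  have h := ZRI.cmp P (fun u s => - sg (Op r τ q) u F s)
    (fun u s => - (Op r τ q (sg (Op r τ q) u F) s)) q C (Real.exp (C * t) * M) t hC0
    (fun s hs => (A3_C r q C s (hC s hs)).2.1)
    (fun s hs u _ _ => (ZRI.sg_deriv r τ q P C M hP hC F hM u s hs).neg)
    (fun s hs u hu hut => by
      have h1 := ZRI.sg_bound r τ q P C M hP hC F hM u s hs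
      have h2 : Real.exp (C * |u|) * M ≤ Real.exp (C * t) * M := by
        apply mul_le_mul_of_nonneg_right _ hM0
        apply Real.exp_le_exp.mpr
        rw [abs_of_nonneg hu]
        exact mul_le_mul_of_nonneg_left hut hC0
      have h3 := neg_le_abs (sg (Op r τ q) u F s)
      show - sg (Op r τ q) u F s ≤ _
      linarith)
    (fun s hs u hu hut B hB hy => by
      have h1 := A3_sum r τ P C B s hs hr hP (A3_C r q C s (hC s hs)).2.2 hB
        (fun s => - sg (Op r τ q) u F s) hy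
      show - (Op r τ q (sg (Op r τ q) u F) s) ≤ q s * (- sg (Op r τ q) u F s) + C * B
      have h2 : - (Op r τ q (sg (Op r τ q) u F) s) =
          ∑ j, r j s * (- sg (Op r τ q) u F (τ j s)) + q s * (- sg (Op r τ q) u F s) := by
        unfold Op
        rw [neg_add]
        congr 1
        · rw [← Finset.sum_neg_distrib]
          exact Finset.sum_congr rfl fun j _ => by ring
        · ring
      rw [h2]
      linarith)
    (fun s hs => by
      show - sg (Op r τ q) 0 F s ≤ 0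
      rw [ZRI.sg_zero]
      linarith [hF s hs]) t ht le_rfl s hs
  have h' : - sg (Op r τ q) t F s ≤ 0 := h
  linarith

theorem sg_le_one (r : ι → S → ℝ) (τ : ι → S → S) (q : S → ℝ) (P : S → Prop) (C : ℝ)
    (hr : ∀ s, P s → ∀ j, 0 ≤ r j s)
    (hP : ∀ s, P s → ∀ j, r j s ≠ 0 → P (τ j s))
    (hC : ∀ s, P s → ∑ j, |r j s| + |q s| ≤ C) (hq : ∀ s, P s → ∑ j, r j s + q s ≤ 0)
    (F : S → ℝ) (hF : ∀ s, P s → 0 ≤ F s) (hF1 : ∀ s, P s → F s ≤ 1) (t : ℝ) (ht : 0 ≤ t)
    (s : S) (hs : P s) : sg (Op r τ q) t F s ≤ 1 := by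
  have hC0 := (A3_C r q C s (hC s hs)).1
  have hM : ∀ s, P s → |F s| ≤ (1 : ℝ) := fun s hs => by
    rw [abs_of_nonneg (hF s hs)]; exact hF1 s hs
  have h := ZRI.cmp P (fun u s => sg (Op r τ q) u F s - 1)
    (fun u s => Op r τ q (sg (Op r τ q) u F) s) q C (Real.exp (C * t) * 1) t hC0
    (fun s hs => (A3_C r q C s (hC s hs)).2.1)
    (fun s hs u _ _ => (ZRI.sg_deriv r τ q P C 1 hP hC F hM u s hs).sub_const 1)
    (fun s hs u hu hut => by
      have h1 := ZRI.sg_bound r τ q P C 1 hP hC F hM u s hs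
      have h2 : Real.exp (C * |u|) * 1 ≤ Real.exp (C * t) * 1 := by
        apply mul_le_mul_of_nonneg_right _ zero_le_one
        apply Real.exp_le_exp.mpr
        rw [abs_of_nonneg hu]
        exact mul_le_mul_of_nonneg_left hut hC0
      have h3 := le_abs_self (sg (Op r τ q) u F s)
      show sg (Op r τ q) u F s - 1 ≤ _
      linarith)
    (fun s hs u hu hut B hB hy => by
      have h1 := A3_sum r τ P C B s hs hr hP (A3_C r q C s (hC s hs)).2.2 hB
        (fun s => sg (Op r τ q) u F s - 1) hy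
      show Op r τ q (sg (Op r τ q) u F) s ≤ q s * (sg (Op r τ q) u F s - 1) + C * B
      have h2 : Op r τ q (sg (Op r τ q) u F) s =
          ∑ j, r j s * (sg (Op r τ q) u F (τ j s) - 1) + q s * (sg (Op r τ q) u F s - 1) +
            (∑ j, r j s + q s) := by
        unfold Op
        have : ∑ j, r j s * (sg (Op r τ q) u F (τ j s) - 1) =
            ∑ j, r j s * sg (Op r τ q) u F (τ j s) - ∑ j, r j s := by
          rw [← Finset.sum_sub_distrib]
          exact Finset.sum_congr rfl fun j _ => by ring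
        unfold Op at this
        rw [this]
        ring
      rw [h2]
      linarith [hq s hs])
    (fun s hs => by
      show sg (Op r τ q) 0 F s - 1 ≤ 0
      rw [ZRI.sg_zero]
      linarith [hF1 s hs]) t ht le_rfl s hs
  have h' : sg (Op r τ q) t F s - 1 ≤ 0 := h
  linarith

end Abs

end ZRI
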