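import Pool.Agent.ZRI.Defs
import Pool.Agent.ZRI.A1
import Pool.Agent.ZRI.A3
import Pool.Agent.ZRI.B3

open scoped BigOperators ENNReal Topology
open MeasureTheory Filter

namespace ZRI

variable {d L : ℕ} {g : ℕ → ℝ} {Γm Γp : ℝ}

/-- B4 -/
theorem Gen_deriv (hd : 1 ≤ d) (hg : IsRate g Γm Γp) (δ : ℝ≥0∞) (F : St d L → ℝ) (M : ℝ)
    (hM : ∀ s, |F s| ≤ M) (t : ℝ) (s : St d L) :
    HasDerivAt (fun u => sg (Gen g δ) u F s) (Gen g δ (sg (Gen g δ) t F) s) t := by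
  rw [ZRI.Gen_op]
  refine ZRI.sg_deriv _ _ _ (fun s' => ∑ z, s'.1 z = ∑ z, s.1 z)
    (2 * (Γp + δ.toReal) * ((∑ z, s.1 z : ℕ) : ℝ)) M ?_ ?_ F (fun s' _ => hM s') t s rfl
  · intro s' hs' j hj
    exact ZRI.rG_inv hg δ _ s' hs' j hj
  · intro s' hs'
    have h := (ZRI.rG_bound hd hg δ s').2
    rw [hs'] at h
    exact h

/-- B4 -/
theorem Gen_mem (hd : 1 ≤ d) (hg : IsRate g Γm Γp) (δ : ℝ≥0∞) (F : St d L → ℝ)
    (hF : ∀ s, 0 ≤ F s) (hF1 : ∀ s, F s ≤ 1) (t : ℝ) (ht : 0 ≤ t) (s : St d L) :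
    0 ≤ sg (Gen g δ) t F s ∧ sg (Gen g δ) t F s ≤ 1 := by
  rw [ZRI.Gen_op]
  have hP : ∀ s' : St d L, (∑ z, s'.1 z = ∑ z, s.1 z) → ∀ j, rG g δ j s' ≠ 0 →
      ∑ z, (tG δ j s').1 z = ∑ z, s.1 z := fun s' hs' j hj => ZRI.rG_inv hg δ _ s' hs' j hj
  have hC : ∀ s' : St d L, (∑ z, s'.1 z = ∑ z, s.1 z) →
      ∑ j, |rG g δ j s'| + |-∑ j, rG g δ j s'| ≤
        2 * (Γp + δ.toReal) * ((∑ z, s.1 z : ℕ) : ℝ) := by
    intro s' hs'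
    have h := (ZRI.rG_bound hd hg δ s').2
    rw [hs'] at h
    exact h
  have hr : ∀ s' : St d L, (∑ z, s'.1 z = ∑ z, s.1 z) → ∀ j, 0 ≤ rG g δ j s' :=
    fun s' _ => (ZRI.rG_bound hd hg δ s').1
  constructor
  · exact ZRI.sg_nonneg _ _ _ (fun s' => ∑ z, s'.1 z = ∑ z, s.1 z) _ 1 hr hP hC F
      (fun s' _ => by rw [abs_of_nonneg (hF s')]; exact hF1 s') (fun s' _ => hF s') t ht s rfl
  · exact ZRI.sg_le_one _ _ _ (fun s' => ∑ z, s'.1 z = ∑ z, s.1 z) _ hr hP hC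
      (fun s' _ => by simp) F (fun s' _ => hF s') (fun s' _ => hF1 s') t ht s rfl

end ZRI
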