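import Pool.Agent.ZRI.Defs
import Pool.Agent.ZRI.B1

open scoped BigOperators ENNReal Topology
open MeasureTheory Filter

namespace ZRI

variable {d L : ℕ} {g : ℕ → ℝ} {Γm Γp : ℝ}

theorem C6a_prod (hg : IsRate g Γm Γp) (n : ℕ) :
    Γm ^ n * (n.factorial : ℝ) ≤ ∏ i ∈ Finset.range n, g (i + 1) := by
  induction n with
  | zero => simp
  | succ n ih =>
    rw [Finset.prod_range_succ, pow_succ, Nat.factorial_succ]
    have h1 := ZRI.g_lo hg (n + 1)
    have h2 : 0 ≤ Γm ^ n * (n.factorial : ℝ) := by have := hg.pos; positivity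
    have h3 : 0 ≤ Γm * ((n + 1 : ℕ) : ℝ) := by have := hg.pos; positivity
    have h4 := mul_le_mul ih h1 h3 (h2.trans ih)
    calc Γm ^ n * Γm * (((n + 1) * n.factorial : ℕ) : ℝ) =
        Γm ^ n * (n.factorial : ℝ) * (Γm * ((n + 1 : ℕ) : ℝ)) := by push_cast; ring
      _ ≤ _ := h4

theorem C6a_pos (hg : IsRate g Γm Γp) {φ : ℝ} (hφ : 0 < φ) (n : ℕ) : 0 < wt g φ n := by
  have h1 := C6a_prod hg n
  have h2 : 0 < Γm ^ n * (n.factorial : ℝ) := by
    have := hg.pos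
    have := Nat.factorial_pos n
    positivity
  exact div_pos (pow_pos hφ n) (h2.trans_le h1)

theorem C6a_le (hg : IsRate g Γm Γp) {φ : ℝ} (hφ : 0 < φ) (n : ℕ) :
    wt g φ n ≤ (φ / Γm) ^ n / (n.factorial : ℝ) := by
  have h1 := C6a_prod hg n
  have h0 := hg.pos
  have h2 : 0 < Γm ^ n * (n.factorial : ℝ) := by
    have := Nat.factorial_pos n
    positivity
  unfold wt
  calc φ ^ n / ∏ i ∈ Finset.range n, g (i + 1) ≤ φ ^ n / (Γm ^ n * (n.factorial : ℝ)) :=
        div_le_div_of_nonneg_left (pow_pos hφ n).le h2 h1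
    _ = (φ / Γm) ^ n / (n.factorial : ℝ) := by rw [div_pow, div_div]

theorem wt_summable (hg : IsRate g Γm Γp) {φ : ℝ} (hφ : 0 < φ) :
    Summable (wt g φ) ∧ Summable (fun n : ℕ => (n : ℝ) ^ 2 * wt g φ n) ∧ (∀ n, 0 < wt g φ n) ∧
      0 < ∑' n, wt g φ n := by
  have h0 := hg.pos
  have hpos := C6a_pos hg hφ
  have hs : Summable (wt g φ) :=
    Summable.of_nonneg_of_le (fun n => (hpos n).le) (C6a_le hg hφ)
      (Real.summable_pow_div_factorial _)
  have hs2 : Summable (fun n : ℕ => (n : ℝ) ^ 2 * wt g φ n) := by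
    refine Summable.of_nonneg_of_le (fun n => mul_nonneg (by positivity) (hpos n).le) ?_
      (Real.summable_pow_div_factorial (4 * (φ / Γm)))
    intro n
    have h4 : (n : ℝ) ^ 2 ≤ 4 ^ n := by
      have h5 : (n : ℝ) ≤ 2 ^ n := by exact_mod_cast (Nat.lt_two_pow_self (n := n)).le
      calc (n : ℝ) ^ 2 ≤ (2 ^ n) ^ 2 := pow_le_pow_left₀ (by positivity) h5 2
        _ = 4 ^ n := by rw [← pow_mul, mul_comm, pow_mul]; norm_num
    calc (n : ℝ) ^ 2 * wt g φ n ≤ 4 ^ n * ((φ / Γm) ^ n / (n.factorial : ℝ)) :=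
          mul_le_mul h4 (C6a_le hg hφ n) (hpos n).le (by positivity)
      _ = (4 * (φ / Γm)) ^ n / (n.factorial : ℝ) := by rw [mul_pow]; ring
  exact ⟨hs, hs2, hpos, hs.tsum_pos (fun n => (hpos n).le) 0 (hpos 0)⟩

theorem m1_sum (hg : IsRate g Γm Γp) {φ : ℝ} (hφ : 0 < φ) :
    Summable (m1 g φ) ∧ ∑' n, m1 g φ n = 1 ∧ (∀ n, 0 < m1 g φ n) ∧
      Summable (fun n : ℕ => (n : ℝ) * m1 g φ n) ∧ 0 < dens g φ := by
  obtain ⟨hs, hs2, hpos, hT⟩ := wt_summable hg hφ
  have hm : ∀ n, 0 < m1 g φ n := fun n => div_pos (hpos n) hT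
  have h1 : Summable (fun n : ℕ => (n : ℝ) * wt g φ n) := by
    refine Summable.of_nonneg_of_le (fun n => mul_nonneg (by positivity) (hpos n).le) ?_ hs2
    intro n
    apply mul_le_mul_of_nonneg_right _ (hpos n).le
    rcases Nat.eq_zero_or_pos n with h | h
    · simp [h]
    · have : (1 : ℝ) ≤ n := by exact_mod_cast h
      nlinarith
  have h2 : Summable (fun n : ℕ => (n : ℝ) * m1 g φ n) := by
    have := h1.div_const (∑' m, wt g φ m)
    refine this.congr ?_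
    intro n
    unfold m1
    ring
  refine ⟨hs.div_const _, ?_, hm, h2, ?_⟩
  · have : ∑' n, m1 g φ n = (∑' n, wt g φ n) / ∑' m, wt g φ m := by
      unfold m1
      exact tsum_div_const
    rw [this, div_self hT.ne']
  · unfold dens
    exact h2.tsum_pos (fun n => mul_nonneg (by positivity) (hm n).le) 1 (by simpa using hm 1)

theorem mu_pos (hg : IsRate g Γm Γp) {φ : ℝ} (hφ : 0 < φ) (η : Cfg d L) : 0 < mu g φ η := by
  unfold mu
  exact Finset.prod_pos fun x _ => (m1_sum hg hφ).2.2.1 _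

end ZRI
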