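import Pool.Agent.ZRI.Defs2

open scoped BigOperators ENNReal Topology
open MeasureTheory Filter

namespace ZRI

variable {d L : ℕ} {g : ℕ → ℝ} {Γm Γp : ℝ}

/-- F1 -/
theorem epsN_tendsto (d : ℕ) (φ Γm Γp t : ℝ) (R : ℕ) :
    Tendsto (epsN d φ Γm Γp t R) atTop (𝓝 0) := by
  have h0 : Tendsto (fun N : ℕ => (N : ℝ) / 2) atTop atTop :=
    tendsto_natCast_atTop_atTop.atTop_div_const (by norm_num)
  have h1 : Tendsto (fun N : ℕ => Real.exp (-((N : ℝ) / 2))) atTop (𝓝 0) :=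
    Real.tendsto_exp_neg_atTop_nhds_zero.comp h0
  have h2 := (h1.mul_const ((5 : ℝ) ^ d)).const_mul
    (φ / Γm * Real.exp (kap φ Γm Γp * t + R + 1))
  rw [zero_mul, mul_zero] at h2
  exact h2

end ZRI
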