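import Pool.Agent.ZRI.Defs
import Pool.Agent.ZRI.A1
import Pool.Agent.ZRI.A2
import Pool.Agent.ZRI.B1
import Pool.Agent.ZRI.B2
import Pool.Agent.ZRI.B3
import Pool.Agent.ZRI.B4

open scoped BigOperators ENNReal Topology
open MeasureTheory Filter

namespace ZRI

variable {d L : ℕ} {g : ℕ → ℝ} {Γm Γp : ℝ}

theorem C1_ind_nonneg (R : ℕ) (s : St d L) :
    0 ≤ ((bad d L R).indicator (1 : St d L → ℝ)) s := by
  classical
  rw [Set.indicator_apply]
  split_ifs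
  · simp
  · exact le_refl _

theorem C1_ind_le (R : ℕ) (s : St d L) :
    ((bad d L R).indicator (1 : St d L → ℝ)) s ≤ 1 := by
  classical
  rw [Set.indicator_apply]
  split_ifs
  · simp
  · exact zero_le_one

theorem C1_mem (hd : 1 ≤ d) (hg : IsRate g Γm Γp) (δ : ℝ≥0∞) (R : ℕ) (t : ℝ) (ht : 0 ≤ t)
    (s : St d L) : 0 ≤ Qb g δ R t s ∧ Qb g δ R t s ≤ 1 :=
  ZRI.Gen_mem hd hg δ _ (C1_ind_nonneg R) (C1_ind_le R) t ht s

theorem C1_deriv (hd : 1 ≤ d) (hg : IsRate g Γm Γp) (δ : ℝ≥0∞) (R : ℕ) (t : ℝ) (s : St d L) :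
    HasDerivAt (fun u => Qb g δ R u s) (Gen g δ (Qb g δ R t) s) t := by
  refine ZRI.Gen_deriv hd hg δ _ 1 ?_ t s
  intro s'
  rw [abs_of_nonneg (C1_ind_nonneg R s')]
  exact C1_ind_le R s'

theorem C1_spr (η : Cfg d L) (I I' : Finset (Tor d L)) (h : I ⊆ I') (x y : Tor d L) :
    spr η I x y ⊆ spr η I' x y := by
  intro z hz
  have mem : ∀ I : Finset (Tor d L), z ∈ spr η I x y ↔
      (x ∈ I ∧ z = y) ∨ (z ∈ I ∧ ¬ (z = x ∧ η x = 1)) := by
    intro I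
    unfold spr
    by_cases hx : x ∈ I
    · rw [if_pos hx]
      by_cases h1 : η x = 1
      · rw [if_pos h1, Finset.mem_insert, Finset.mem_erase]
        tauto
      · rw [if_neg h1, Finset.mem_insert]
        tauto
    · rw [if_neg hx]
      constructor
      · intro hzI
        right
        refine ⟨hzI, ?_⟩
        rintro ⟨rfl, _⟩
        exact hx hzI
      · rintro (⟨hxI, _⟩ | ⟨hzI, _⟩)
        · exact absurd hxI hx
        · exact hzI
  rw [mem] at hz ⊢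
  rcases hz with ⟨hx, hzy⟩ | ⟨hzI, hn⟩
  · exact Or.inl ⟨h hx, hzy⟩
  · exact Or.inr ⟨h hzI, hn⟩

/-- the tuples of the comparison -/
abbrev C1_S (d L : ℕ) := Cfg d L × (Finset (Tor d L) × Finset (Tor d L)) ×
  (Finset (Tor d L) × Finset (Tor d L))

/-- the difference -/
noncomputable def C1_y (g : ℕ → ℝ) (δ : ℝ≥0∞) (R : ℕ) (t : ℝ) (w : C1_S d L) : ℝ :=
  Qb g δ R t (w.1, w.2.1.1, w.2.1.2) - Qb g 0 R t (w.1, w.2.2.1, w.2.2.2)

/-- the common jump -/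
noncomputable def C1_j (δ : ℝ≥0∞) (w : C1_S d L) (x y : Tor d L) : C1_S d L :=
  ((jmp δ (w.1, w.2.1.1, w.2.1.2) x y).1,
    ((jmp δ (w.1, w.2.1.1, w.2.1.2) x y).2.1, (jmp δ (w.1, w.2.1.1, w.2.1.2) x y).2.2),
    ((jmp 0 (w.1, w.2.2.1, w.2.2.2) x y).2.1, (jmp 0 (w.1, w.2.2.1, w.2.2.2) x y).2.2))

/-- healing in the first system -/
noncomputable def C1_h (w : C1_S d L) (x : Tor d L) : C1_S d L :=
  (w.1, (w.2.1.1.erase x, w.2.1.2), (w.2.2.1, w.2.2.2))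

/-- the invariant -/
def C1_P (n : ℕ) (w : C1_S d L) : Prop :=
  ∑ z, w.1 z = n ∧ w.2.1.1 ⊆ w.2.2.1 ∧ w.2.1.2 ⊆ w.2.2.2

theorem C1_P_j (δ : ℝ≥0∞) (n : ℕ) (w : C1_S d L) (h : C1_P n w) (x y : Tor d L)
    (hx : 1 ≤ w.1 x) : C1_P n (C1_j δ w x y) := by
  obtain ⟨h1, h2, h3⟩ := h
  refine ⟨?_, ?_, ?_⟩
  · show ∑ z, mv w.1 x y z = n
    rw [ZRI.sum_mv w.1 x y hx, h1]
  · show (if δ = ⊤ then (spr w.1 w.2.1.1 x y).filter (fun z => 2 ≤ mv w.1 x y z)
      else spr w.1 w.2.1.1 x y) ⊆ (if (0 : ℝ≥0∞) = ⊤ then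
        (spr w.1 w.2.2.1 x y).filter (fun z => 2 ≤ mv w.1 x y z) else spr w.1 w.2.2.1 x y)
    rw [if_neg (by simp : ¬ (0 : ℝ≥0∞) = ⊤)]
    split_ifs
    · exact (Finset.filter_subset _ _).trans (C1_spr w.1 _ _ h2 x y)
    · exact C1_spr w.1 _ _ h2 x y
  · show (if x ∈ w.2.1.1 then insert y w.2.1.2 else w.2.1.2) ⊆
      (if x ∈ w.2.2.1 then insert y w.2.2.2 else w.2.2.2)
    by_cases hx1 : x ∈ w.2.1.1
    · rw [if_pos hx1, if_pos (h2 hx1)]
      exact Finset.insert_subset_insert _ h3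
    · rw [if_neg hx1]
      split_ifs
      · exact h3.trans (Finset.subset_insert _ _)
      · exact h3

theorem C1_P_h (n : ℕ) (w : C1_S d L) (h : C1_P n w) (x : Tor d L) : C1_P n (C1_h w x) :=
  ⟨h.1, (Finset.erase_subset _ _).trans h.2.1, h.2.2⟩

theorem C1_main (hd : 1 ≤ d) (hg : IsRate g Γm Γp) (δ : ℝ≥0∞) (R : ℕ) (t : ℝ) (ht : 0 ≤ t)
    (n : ℕ) (w : C1_S d L) (hw : C1_P n w) : C1_y g δ R t w ≤ 0 := by
  classical
  have hΓp : 0 ≤ Γp := le_trans zero_le_one hg.one_le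
  have hδ : 0 ≤ δ.toReal := ENNReal.toReal_nonneg
  have hC : (0 : ℝ) ≤ (Γp + δ.toReal) * (n : ℝ) := by positivity
  have hr : ∀ (w : C1_S d L) (x : Tor d L), 0 ≤ g (w.1 x) / (2 * d) := by
    intro w x
    exact div_nonneg (ZRI.g_nonneg hg _) (by positivity)
  have hsum0 : ∀ w : C1_S d L, 0 ≤ (∑ x, ∑ _e : Dir d, g (w.1 x) / (2 * d)) +
      ∑ _x ∈ w.2.1.1.filter (fun x => w.1 x = 1), δ.toReal := by
    intro w
    refine add_nonneg (Finset.sum_nonneg fun x _ => Finset.sum_nonneg fun e _ => hr w x)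
      (Finset.sum_nonneg fun x _ => hδ)
  have hsum : ∀ w : C1_S d L, C1_P n w →
      (∑ x, ∑ _e : Dir d, g (w.1 x) / (2 * d)) +
      ∑ _x ∈ w.2.1.1.filter (fun x => w.1 x = 1), δ.toReal ≤ (Γp + δ.toReal) * (n : ℝ) := by
    intro w hw
    have h1 := ZRI.sum_rate hd hg w.1
    rw [hw.1] at h1
    have h2 : ((w.2.1.1.filter (fun x => w.1 x = 1)).card : ℝ) ≤ n := by
      have h3 : (w.2.1.1.filter (fun x => w.1 x = 1)).card ≤ ∑ z, w.1 z := by
        calc (w.2.1.1.filter (fun x => w.1 x = 1)).card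
            = ∑ x ∈ w.2.1.1.filter (fun x => w.1 x = 1), 1 := by simp
          _ = ∑ x ∈ w.2.1.1.filter (fun x => w.1 x = 1), w.1 x := by
            refine Finset.sum_congr rfl fun x hx => ?_
            rw [Finset.mem_filter] at hx
            exact hx.2.symm
          _ ≤ ∑ z, w.1 z := Finset.sum_le_sum_of_subset (Finset.subset_univ _)
      rw [hw.1] at h3
      exact_mod_cast h3
    rw [Finset.sum_const, nsmul_eq_mul]
    have h4 := mul_le_mul_of_nonneg_right h2 hδ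
    nlinarith
  refine ZRI.cmp (C1_P n) (C1_y g δ R)
    (fun t w => Gen g δ (Qb g δ R t) (w.1, w.2.1.1, w.2.1.2) -
      Gen g 0 (Qb g 0 R t) (w.1, w.2.2.1, w.2.2.2))
    (fun w => - ((∑ x, ∑ _e : Dir d, g (w.1 x) / (2 * d)) +
      ∑ _x ∈ w.2.1.1.filter (fun x => w.1 x = 1), δ.toReal))
    ((Γp + δ.toReal) * (n : ℝ)) 1 t hC ?_ ?_ ?_ ?_ ?_ t ht le_rfl w hw
  · intro s hs
    rw [abs_neg, abs_of_nonneg (hsum0 s)]
    exact hsum s hs
  · intro s _ u _ _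
    exact (C1_deriv hd hg δ R u _).sub (C1_deriv hd hg 0 R u _)
  · intro s _ u hu _
    have h1 := C1_mem hd hg δ R u hu (s.1, s.2.1.1, s.2.1.2)
    have h2 := C1_mem hd hg 0 R u hu (s.1, s.2.2.1, s.2.2.2)
    show _ - _ ≤ (1 : ℝ)
    linarith [h1.2, h2.1]
  · intro s hs u hu _ B hB hmax
    have e1 : Gen g δ (Qb g δ R u) (s.1, s.2.1.1, s.2.1.2) -
        Gen g 0 (Qb g 0 R u) (s.1, s.2.2.1, s.2.2.2) =
        (∑ x, ∑ e : Dir d, g (s.1 x) / (2 * d) *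
          (C1_y g δ R u (C1_j δ s x (x + stp e)) - C1_y g δ R u s)) +
        ∑ x ∈ s.2.1.1.filter (fun x => s.1 x = 1), δ.toReal *
          (C1_y g δ R u (C1_h s x) - C1_y g δ R u s) := by
      have a1 : Gen g 0 (Qb g 0 R u) (s.1, s.2.2.1, s.2.2.2) =
          ∑ x, ∑ e : Dir d, g (s.1 x) / (2 * d) *
            (Qb g 0 R u (jmp 0 (s.1, s.2.2.1, s.2.2.2) x (x + stp e)) -
              Qb g 0 R u (s.1, s.2.2.1, s.2.2.2)) := by
        unfold Gen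
        simp
      have a2 : Gen g δ (Qb g δ R u) (s.1, s.2.1.1, s.2.1.2) =
          (∑ x, ∑ e : Dir d, g (s.1 x) / (2 * d) *
            (Qb g δ R u (jmp δ (s.1, s.2.1.1, s.2.1.2) x (x + stp e)) -
              Qb g δ R u (s.1, s.2.1.1, s.2.1.2))) +
          ∑ x ∈ s.2.1.1.filter (fun x => s.1 x = 1), δ.toReal *
            (Qb g δ R u (s.1, s.2.1.1.erase x, s.2.1.2) -
              Qb g δ R u (s.1, s.2.1.1, s.2.1.2)) := rfl
      rw [a1, a2]
      have a3 : (∑ x, ∑ e : Dir d, g (s.1 x) / (2 * d) *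
          (C1_y g δ R u (C1_j δ s x (x + stp e)) - C1_y g δ R u s)) =
          (∑ x, ∑ e : Dir d, g (s.1 x) / (2 * d) *
            (Qb g δ R u (jmp δ (s.1, s.2.1.1, s.2.1.2) x (x + stp e)) -
              Qb g δ R u (s.1, s.2.1.1, s.2.1.2))) -
          ∑ x, ∑ e : Dir d, g (s.1 x) / (2 * d) *
            (Qb g 0 R u (jmp 0 (s.1, s.2.2.1, s.2.2.2) x (x + stp e)) -
              Qb g 0 R u (s.1, s.2.2.1, s.2.2.2)) := by
        rw [← Finset.sum_sub_distrib]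
        refine Finset.sum_congr rfl fun x _ => ?_
        rw [← Finset.sum_sub_distrib]
        refine Finset.sum_congr rfl fun e _ => ?_
        have b1 : C1_y g δ R u (C1_j δ s x (x + stp e)) =
            Qb g δ R u (jmp δ (s.1, s.2.1.1, s.2.1.2) x (x + stp e)) -
            Qb g 0 R u (jmp 0 (s.1, s.2.2.1, s.2.2.2) x (x + stp e)) := rfl
        have b2 : C1_y g δ R u s = Qb g δ R u (s.1, s.2.1.1, s.2.1.2) -
            Qb g 0 R u (s.1, s.2.2.1, s.2.2.2) := rfl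
        rw [b1, b2]
        ring
      have a4 : ∑ x ∈ s.2.1.1.filter (fun x => s.1 x = 1), δ.toReal *
          (C1_y g δ R u (C1_h s x) - C1_y g δ R u s) =
          ∑ x ∈ s.2.1.1.filter (fun x => s.1 x = 1), δ.toReal *
            (Qb g δ R u (s.1, s.2.1.1.erase x, s.2.1.2) -
              Qb g δ R u (s.1, s.2.1.1, s.2.1.2)) := by
        refine Finset.sum_congr rfl fun x _ => ?_
        have b1 : C1_y g δ R u (C1_h s x) = Qb g δ R u (s.1, s.2.1.1.erase x, s.2.1.2) -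
            Qb g 0 R u (s.1, s.2.2.1, s.2.2.2) := rfl
        have b2 : C1_y g δ R u s = Qb g δ R u (s.1, s.2.1.1, s.2.1.2) -
            Qb g 0 R u (s.1, s.2.2.1, s.2.2.2) := rfl
        rw [b1, b2]
        ring
      rw [a3, a4]
      ring
    have e2 : ∑ x, ∑ e : Dir d, g (s.1 x) / (2 * d) *
          (C1_y g δ R u (C1_j δ s x (x + stp e)) - C1_y g δ R u s) ≤
        ∑ x, ∑ _e : Dir d, g (s.1 x) / (2 * d) * (B - C1_y g δ R u s) := by
      refine Finset.sum_le_sum fun x _ => Finset.sum_le_sum fun e _ => ?_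
      by_cases hz : g (s.1 x) = 0
      · rw [hz]
        simp
      · refine mul_le_mul_of_nonneg_left ?_ (hr s x)
        have := hmax _ (C1_P_j δ n s hs x (x + stp e) (ZRI.g_ne hg _ hz))
        linarith
    have e2' : ∑ x ∈ s.2.1.1.filter (fun x => s.1 x = 1), δ.toReal *
          (C1_y g δ R u (C1_h s x) - C1_y g δ R u s) ≤
        ∑ _x ∈ s.2.1.1.filter (fun x => s.1 x = 1), δ.toReal * (B - C1_y g δ R u s) := by
      refine Finset.sum_le_sum fun x _ => ?_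
      refine mul_le_mul_of_nonneg_left ?_ hδ
      have := hmax _ (C1_P_h n s hs x)
      linarith
    have e3 : (∑ x, ∑ _e : Dir d, g (s.1 x) / (2 * d) * (B - C1_y g δ R u s)) +
        ∑ _x ∈ s.2.1.1.filter (fun x => s.1 x = 1), δ.toReal * (B - C1_y g δ R u s) =
        ((∑ x, ∑ _e : Dir d, g (s.1 x) / (2 * d)) +
          ∑ _x ∈ s.2.1.1.filter (fun x => s.1 x = 1), δ.toReal) * (B - C1_y g δ R u s) := by
      rw [add_mul, Finset.sum_mul, Finset.sum_mul]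
      congr 1
      refine Finset.sum_congr rfl fun x _ => ?_
      rw [Finset.sum_mul]
    have e4 := mul_le_mul_of_nonneg_right (hsum s hs) hB
    show Gen g δ (Qb g δ R u) (s.1, s.2.1.1, s.2.1.2) -
        Gen g 0 (Qb g 0 R u) (s.1, s.2.2.1, s.2.2.2) ≤
      (- ((∑ x, ∑ _e : Dir d, g (s.1 x) / (2 * d)) +
        ∑ _x ∈ s.2.1.1.filter (fun x => s.1 x = 1), δ.toReal)) * C1_y g δ R u s +
      (Γp + δ.toReal) * (n : ℝ) * B
    rw [e1]
    nlinarith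
  · intro s hs
    show Qb g δ R 0 (s.1, s.2.1.1, s.2.1.2) - Qb g 0 R 0 (s.1, s.2.2.1, s.2.2.2) ≤ 0
    unfold Qb
    rw [ZRI.sg_zero, ZRI.sg_zero]
    by_cases hb : ((s.1, s.2.1.1, s.2.1.2) : St d L) ∈ bad d L R
    · have hb' : ((s.1, s.2.2.1, s.2.2.2) : St d L) ∈ bad d L R := by
        obtain ⟨x, hx, hxR⟩ := hb
        exact ⟨x, hs.2.2 hx, hxR⟩
      rw [Set.indicator_of_mem hb, Set.indicator_of_mem hb']
      simp
    · rw [Set.indicator_of_notMem hb]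
      linarith [C1_ind_nonneg R ((s.1, s.2.2.1, s.2.2.2) : St d L)]

/-- C1 -/
theorem Qb_mono (hd : 1 ≤ d) (hg : IsRate g Γm Γp) (δ : ℝ≥0∞) (R : ℕ) (t : ℝ) (ht : 0 ≤ t)
    (ζ : Cfg d L) (I I' J J' : Finset (Tor d L)) (hI : I ⊆ I') (hJ : J ⊆ J') :
    Qb g δ R t (ζ, I, J) ≤ Qb g 0 R t (ζ, I', J') := by
  have h := C1_main hd hg δ R t ht (∑ z, ζ z) (ζ, (I, J), (I', J')) ⟨rfl, hI, hJ⟩
  have h2 : Qb g δ R t (ζ, I, J) - Qb g 0 R t (ζ, I', J') ≤ 0 := h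
  linarith

end ZRI
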