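import Pool.Agent.ZRI.Defs2
import Pool.Agent.ZRI.A1
import Pool.Agent.ZRI.A2
import Pool.Agent.ZRI.B1
import Pool.Agent.ZRI.B2
import Pool.Agent.ZRI.B3
import Pool.Agent.ZRI.B4

open scoped BigOperators ENNReal Topology
open MeasureTheory Filter

namespace ZRI

variable {d L : ℕ} {g : ℕ → ℝ} {Γm Γp : ℝ}

theorem T1_ind_nonneg (T : Tor d L → Prop) (s : St d L) :
    0 ≤ ((hit T).indicator (1 : St d L → ℝ)) s := by
  classical
  rw [Set.indicator_apply]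
  split_ifs
  · simp
  · exact le_refl _

theorem T1_ind_le (T : Tor d L → Prop) (s : St d L) :
    ((hit T).indicator (1 : St d L → ℝ)) s ≤ 1 := by
  classical
  rw [Set.indicator_apply]
  split_ifs
  · simp
  · exact zero_le_one

/-- T1 -/
theorem Qh_mem (hd : 1 ≤ d) (hg : IsRate g Γm Γp) (T : Tor d L → Prop) (t : ℝ) (ht : 0 ≤ t)
    (s : St d L) : 0 ≤ Qh g T t s ∧ Qh g T t s ≤ 1 :=
  ZRI.Gen_mem hd hg 0 _ (T1_ind_nonneg T) (T1_ind_le T) t ht s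

/-- T1 -/
theorem Qh_deriv (hd : 1 ≤ d) (hg : IsRate g Γm Γp) (T : Tor d L → Prop) (t : ℝ) (s : St d L) :
    HasDerivAt (fun u => Qh g T u s) (Gen g 0 (Qh g T t) s) t := by
  refine ZRI.Gen_deriv hd hg 0 _ 1 ?_ t s
  intro s'
  rw [abs_of_nonneg (T1_ind_nonneg T s')]
  exact T1_ind_le T s'

theorem T1_Gen (F : St d L → ℝ) (s : St d L) :
    Gen g 0 F s = ∑ x, ∑ e : Dir d, g (s.1 x) / (2 * d) * (F (jmp 0 s x (x + stp e)) - F s) := by
  unfold Gen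
  simp

theorem T1_spr (η : Cfg d L) (I1 I2 I3 : Finset (Tor d L)) (h : I1 ⊆ I2 ∪ I3) (x y : Tor d L) :
    spr η I1 x y ⊆ spr η I2 x y ∪ spr η I3 x y := by
  intro z hz
  have key : ∀ w ∈ I1, w ∈ I2 ∨ w ∈ I3 := fun w hw => Finset.mem_union.1 (h hw)
  have mem : ∀ I : Finset (Tor d L), z ∈ spr η I x y ↔
      (x ∈ I ∧ z = y) ∨ (z ∈ I ∧ ¬ (z = x ∧ η x = 1)) := by
    intro I
    unfold spr
    by_cases hx : x ∈ I
    · rw [if_pos hx]
      by_cases h1 : η x = 1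
      · rw [if_pos h1, Finset.mem_insert, Finset.mem_erase]
        tauto
      · rw [if_neg h1, Finset.mem_insert]
        tauto
    · rw [if_neg hx]
      constructor
      · intro hzI
        right
        refine ⟨hzI, ?_⟩
        rintro ⟨rfl, _⟩
        exact hx hzI
      · rintro (⟨hxI, _⟩ | ⟨hzI, _⟩)
        · exact absurd hxI hx
        · exact hzI
  rw [Finset.mem_union, mem, mem]
  rw [mem] at hz
  rcases hz with ⟨hx, hzy⟩ | ⟨hzI, hn⟩
  · rcases key x hx with h' | h'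
    · exact Or.inl (Or.inl ⟨h', hzy⟩)
    · exact Or.inr (Or.inl ⟨h', hzy⟩)
  · rcases key z hzI with h' | h'
    · exact Or.inl (Or.inr ⟨h', hn⟩)
    · exact Or.inr (Or.inr ⟨h', hn⟩)

theorem T1_vis (I1 I2 I3 J1 J2 J3 : Finset (Tor d L)) (h : I1 ⊆ I2 ∪ I3) (hJ : J1 ⊆ J2 ∪ J3)
    (x y : Tor d L) :
    (if x ∈ I1 then insert y J1 else J1) ⊆
      (if x ∈ I2 then insert y J2 else J2) ∪ (if x ∈ I3 then insert y J3 else J3) := by
  intro z hz
  have key : ∀ w ∈ I1, w ∈ I2 ∨ w ∈ I3 := fun w hw => Finset.mem_union.1 (h hw)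
  have keyJ : ∀ w ∈ J1, w ∈ J2 ∨ w ∈ J3 := fun w hw => Finset.mem_union.1 (hJ hw)
  have mem : ∀ I J : Finset (Tor d L), z ∈ (if x ∈ I then insert y J else J) ↔
      (x ∈ I ∧ z = y) ∨ z ∈ J := by
    intro I J
    by_cases hx : x ∈ I
    · rw [if_pos hx, Finset.mem_insert]
      tauto
    · rw [if_neg hx]
      tauto
  rw [Finset.mem_union, mem, mem]
  rw [mem] at hz
  rcases hz with ⟨hx, hzy⟩ | hzJ
  · rcases key x hx with h' | h'
    · exact Or.inl (Or.inl ⟨h', hzy⟩)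
    · exact Or.inr (Or.inl ⟨h', hzy⟩)
  · rcases keyJ z hzJ with h' | h'
    · exact Or.inl (Or.inr h')
    · exact Or.inr (Or.inr h')

theorem T1_jmp (η : Cfg d L) (I J : Finset (Tor d L)) (x y : Tor d L) :
    jmp 0 (η, I, J) x y = (mv η x y, spr η I x y, if x ∈ I then insert y J else J) := by
  unfold jmp
  simp

/-- the tuples of the comparison -/
abbrev T1_S (d L : ℕ) := Cfg d L × (Fin 3 → Finset (Tor d L)) × (Fin 3 → Finset (Tor d L))

/-- the difference -/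
noncomputable def T1_y (g : ℕ → ℝ) (T : Tor d L → Prop) (t : ℝ) (w : T1_S d L) : ℝ :=
  Qh g T t (w.1, w.2.1 0, w.2.2 0) - Qh g T t (w.1, w.2.1 1, w.2.2 1) -
    Qh g T t (w.1, w.2.1 2, w.2.2 2)

/-- the common jump -/
def T1_j (w : T1_S d L) (x y : Tor d L) : T1_S d L :=
  (mv w.1 x y, fun i => spr w.1 (w.2.1 i) x y,
    fun i => if x ∈ w.2.1 i then insert y (w.2.2 i) else w.2.2 i)

/-- the invariant -/
def T1_P (n : ℕ) (w : T1_S d L) : Prop :=
  ∑ z, w.1 z = n ∧ w.2.1 0 ⊆ w.2.1 1 ∪ w.2.1 2 ∧ w.2.2 0 ⊆ w.2.2 1 ∪ w.2.2 2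

theorem T1_P_j (n : ℕ) (w : T1_S d L) (h : T1_P n w) (x y : Tor d L) (hx : 1 ≤ w.1 x) :
    T1_P n (T1_j w x y) := by
  obtain ⟨h1, h2, h3⟩ := h
  refine ⟨?_, ?_, ?_⟩
  · show ∑ z, mv w.1 x y z = n
    rw [ZRI.sum_mv w.1 x y hx, h1]
  · exact T1_spr w.1 _ _ _ h2 x y
  · exact T1_vis _ _ _ _ _ _ h2 h3 x y

theorem T1_main (hd : 1 ≤ d) (hg : IsRate g Γm Γp) (T : Tor d L → Prop) (t : ℝ) (ht : 0 ≤ t)
    (n : ℕ) (w : T1_S d L) (hw : T1_P n w) : T1_y g T t w ≤ 0 := by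
  classical
  have hΓp : 0 ≤ Γp := le_trans zero_le_one hg.one_le
  have hC : (0 : ℝ) ≤ Γp * (n : ℝ) := mul_nonneg hΓp (Nat.cast_nonneg n)
  have hr : ∀ (w : T1_S d L) (x : Tor d L), 0 ≤ g (w.1 x) / (2 * d) := by
    intro w x
    exact div_nonneg (ZRI.g_nonneg hg _) (by positivity)
  have hsum0 : ∀ w : T1_S d L, 0 ≤ ∑ x, ∑ _e : Dir d, g (w.1 x) / (2 * d) := by
    intro w
    exact Finset.sum_nonneg fun x _ => Finset.sum_nonneg fun e _ => hr w x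
  have hsum : ∀ w : T1_S d L, T1_P n w →
      ∑ x, ∑ _e : Dir d, g (w.1 x) / (2 * d) ≤ Γp * (n : ℝ) := by
    intro w hw
    have := ZRI.sum_rate hd hg w.1
    rw [hw.1] at this
    exact this
  refine ZRI.cmp (T1_P n) (T1_y g T)
    (fun t w => Gen g 0 (Qh g T t) (w.1, w.2.1 0, w.2.2 0) -
      Gen g 0 (Qh g T t) (w.1, w.2.1 1, w.2.2 1) - Gen g 0 (Qh g T t) (w.1, w.2.1 2, w.2.2 2))
    (fun w => - ∑ x, ∑ _e : Dir d, g (w.1 x) / (2 * d)) (Γp * (n : ℝ)) 1 t hC ?_ ?_ ?_ ?_ ?_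
    t ht le_rfl w hw
  · intro s hs
    rw [abs_neg, abs_of_nonneg (hsum0 s)]
    exact hsum s hs
  · intro s _ u _ _
    exact ((Qh_deriv hd hg T u _).sub (Qh_deriv hd hg T u _)).sub (Qh_deriv hd hg T u _)
  · intro s _ u hu _
    have h1 := Qh_mem hd hg T u hu (s.1, s.2.1 0, s.2.2 0)
    have h2 := Qh_mem hd hg T u hu (s.1, s.2.1 1, s.2.2 1)
    have h3 := Qh_mem hd hg T u hu (s.1, s.2.1 2, s.2.2 2)
    show _ - _ - _ ≤ (1 : ℝ)
    linarith [h1.2, h2.1, h3.1]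
  · intro s hs u hu _ B hB hmax
    have e1 : Gen g 0 (Qh g T u) (s.1, s.2.1 0, s.2.2 0) -
        Gen g 0 (Qh g T u) (s.1, s.2.1 1, s.2.2 1) -
          Gen g 0 (Qh g T u) (s.1, s.2.1 2, s.2.2 2) =
        ∑ x, ∑ e : Dir d, g (s.1 x) / (2 * d) *
          (T1_y g T u (T1_j s x (x + stp e)) - T1_y g T u s) := by
      rw [T1_Gen, T1_Gen, T1_Gen, ← Finset.sum_sub_distrib, ← Finset.sum_sub_distrib]
      refine Finset.sum_congr rfl fun x _ => ?_
      rw [← Finset.sum_sub_distrib, ← Finset.sum_sub_distrib]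
      refine Finset.sum_congr rfl fun e _ => ?_
      rw [T1_jmp, T1_jmp, T1_jmp]
      unfold T1_y T1_j
      ring
    have e2 : ∑ x, ∑ e : Dir d, g (s.1 x) / (2 * d) *
          (T1_y g T u (T1_j s x (x + stp e)) - T1_y g T u s) ≤
        ∑ x, ∑ _e : Dir d, g (s.1 x) / (2 * d) * (B - T1_y g T u s) := by
      refine Finset.sum_le_sum fun x _ => Finset.sum_le_sum fun e _ => ?_
      by_cases hz : g (s.1 x) = 0
      · rw [hz]
        simp
      · refine mul_le_mul_of_nonneg_left ?_ (hr s x)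
        have := hmax _ (T1_P_j n s hs x (x + stp e) (ZRI.g_ne hg _ hz))
        linarith
    have e3 : ∑ x, ∑ _e : Dir d, g (s.1 x) / (2 * d) * (B - T1_y g T u s) =
        (∑ x, ∑ _e : Dir d, g (s.1 x) / (2 * d)) * (B - T1_y g T u s) := by
      rw [Finset.sum_mul]
      refine Finset.sum_congr rfl fun x _ => ?_
      rw [Finset.sum_mul]
    show _ ≤ (- ∑ x, ∑ _e : Dir d, g (s.1 x) / (2 * d)) * T1_y g T u s + Γp * (n : ℝ) * B
    have e4 : (∑ x, ∑ _e : Dir d, g (s.1 x) / (2 * d)) * B ≤ Γp * (n : ℝ) * B :=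
      mul_le_mul_of_nonneg_right (hsum s hs) hB
    show Gen g 0 (Qh g T u) (s.1, s.2.1 0, s.2.2 0) -
        Gen g 0 (Qh g T u) (s.1, s.2.1 1, s.2.2 1) -
          Gen g 0 (Qh g T u) (s.1, s.2.1 2, s.2.2 2) ≤ _
    rw [e1]
    refine e2.trans ?_
    rw [e3]
    linarith
  · intro s hs
    show Qh g T 0 _ - Qh g T 0 _ - Qh g T 0 _ ≤ 0
    unfold Qh
    rw [ZRI.sg_zero, ZRI.sg_zero, ZRI.sg_zero]
    have n1 := T1_ind_nonneg T (s.1, s.2.1 1, s.2.2 1)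
    have n2 := T1_ind_nonneg T (s.1, s.2.1 2, s.2.2 2)
    by_cases h : (s.1, s.2.1 0, s.2.2 0) ∈ hit T
    · obtain ⟨x, hx, hT⟩ := h
      have l0 := T1_ind_le T (s.1, s.2.1 0, s.2.2 0)
      rcases Finset.mem_union.1 (hs.2.2 hx) with h' | h'
      · have h1 : (s.1, s.2.1 1, s.2.2 1) ∈ hit T := ⟨x, h', hT⟩
        have i1 : ((hit T).indicator (1 : St d L → ℝ)) (s.1, s.2.1 1, s.2.2 1) = 1 := by
          rw [Set.indicator_of_mem h1]
          rfl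
        linarith
      · have h1 : (s.1, s.2.1 2, s.2.2 2) ∈ hit T := ⟨x, h', hT⟩
        have i1 : ((hit T).indicator (1 : St d L → ℝ)) (s.1, s.2.1 2, s.2.2 2) = 1 := by
          rw [Set.indicator_of_mem h1]
          rfl
        linarith
    · rw [Set.indicator_of_notMem h]
      linarith

/-- T1: infections started from a union, same configuration -/
theorem Qh_union (hd : 1 ≤ d) (hg : IsRate g Γm Γp) (T : Tor d L → Prop) (t : ℝ) (ht : 0 ≤ t)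
    (η : Cfg d L) (I I' J J' : Finset (Tor d L)) :
    Qh g T t (η, I ∪ I', J ∪ J') ≤ Qh g T t (η, I, J) + Qh g T t (η, I', J') := by
  have h := T1_main hd hg T t ht (∑ z, η z) (η, ![I ∪ I', I, I'], ![J ∪ J', J, J'])
    ⟨rfl, by simp, by simp⟩
  unfold T1_y at h
  simp at h
  linarith

end ZRI
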