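import Pool.Agent.ZRI.Defs2
import Pool.Agent.ZRI.A1
import Pool.Agent.ZRI.A2
import Pool.Agent.ZRI.B1
import Pool.Agent.ZRI.B2
import Pool.Agent.ZRI.B3
import Pool.Agent.ZRI.T1

open scoped BigOperators ENNReal Topology
open MeasureTheory Filter

namespace ZRI

variable {d L : ℕ} {g : ℕ → ℝ} {Γm Γp : ℝ}

theorem T2_ind_nonneg (T : Tor d L → Prop) (s : St d L) :
    0 ≤ ((hit T).indicator (1 : St d L → ℝ)) s := by
  classical
  rw [Set.indicator_apply]
  split_ifs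
  · simp
  · exact le_refl _

theorem T2_ind_le (T : Tor d L → Prop) (s : St d L) :
    ((hit T).indicator (1 : St d L → ℝ)) s ≤ 1 := by
  classical
  rw [Set.indicator_apply]
  split_ifs
  · simp
  · exact zero_le_one

theorem T2_Gen (F : St d L → ℝ) (s : St d L) :
    Gen g 0 F s = ∑ x, ∑ e : Dir d, g (s.1 x) / (2 * d) * (F (jmp 0 s x (x + stp e)) - F s) := by
  unfold Gen
  simp

theorem T2_mem (η : Cfg d L) (I : Finset (Tor d L)) (x y z : Tor d L) : z ∈ spr η I x y ↔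
    (x ∈ I ∧ z = y) ∨ (z ∈ I ∧ ¬ (z = x ∧ η x = 1)) := by
  unfold spr
  by_cases hx : x ∈ I
  · rw [if_pos hx]
    by_cases h1 : η x = 1
    · rw [if_pos h1, Finset.mem_insert, Finset.mem_erase]
      tauto
    · rw [if_neg h1, Finset.mem_insert]
      tauto
  · rw [if_neg hx]
    constructor
    · intro hzI
      right
      refine ⟨hzI, ?_⟩
      rintro ⟨rfl, _⟩
      exact hx hzI
    · rintro (⟨hxI, _⟩ | ⟨hzI, _⟩)
      · exact absurd hxI hx
      · exact hzI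

theorem T2_memJ (I J : Finset (Tor d L)) (x y z : Tor d L) :
    z ∈ (if x ∈ I then insert y J else J) ↔ (x ∈ I ∧ z = y) ∨ z ∈ J := by
  by_cases hx : x ∈ I
  · rw [if_pos hx, Finset.mem_insert]
    tauto
  · rw [if_neg hx]
    tauto

theorem T2_jmp (η : Cfg d L) (I J : Finset (Tor d L)) (x y : Tor d L) :
    jmp 0 (η, I, J) x y = (mv η x y, spr η I x y, if x ∈ I then insert y J else J) := by
  unfold jmp
  simp

/-- the tuples of the comparison -/
abbrev T2_S (d L : ℕ) :=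
  Cfg d L × Tor d L × (Fin 3 → Finset (Tor d L)) × (Fin 3 → Finset (Tor d L))

/-- the difference -/
noncomputable def T2_y (g : ℕ → ℝ) (T : Tor d L → Prop) (t : ℝ) (w : T2_S d L) : ℝ :=
  Qh g T t (w.1 + Pi.single w.2.1 1, w.2.2.1 0, w.2.2.2 0) -
    Qh g T t (w.1 + Pi.single w.2.1 1, w.2.2.1 1, w.2.2.2 1) -
    Qh g T t (w.1, w.2.2.1 2, w.2.2.2 2)

/-- the common jump -/
def T2_a (w : T2_S d L) (x y : Tor d L) : T2_S d L :=
  (mv w.1 x y, w.2.1,
    ![spr (w.1 + Pi.single w.2.1 1) (w.2.2.1 0) x y, spr (w.1 + Pi.single w.2.1 1) (w.2.2.1 1) x y,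
      spr w.1 (w.2.2.1 2) x y],
    fun i => if x ∈ w.2.2.1 i then insert y (w.2.2.2 i) else w.2.2.2 i)

/-- the jump of the carrier -/
def T2_b (w : T2_S d L) (y : Tor d L) : T2_S d L :=
  (w.1, y,
    ![spr (w.1 + Pi.single w.2.1 1) (w.2.2.1 0) w.2.1 y,
      spr (w.1 + Pi.single w.2.1 1) (w.2.2.1 1) w.2.1 y, w.2.2.1 2],
    ![if w.2.1 ∈ w.2.2.1 0 then insert y (w.2.2.2 0) else w.2.2.2 0,
      if w.2.1 ∈ w.2.2.1 1 then insert y (w.2.2.2 1) else w.2.2.2 1, w.2.2.2 2])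

/-- the invariant -/
def T2_P (n : ℕ) (w : T2_S d L) : Prop :=
  ∑ z, w.1 z = n ∧ w.2.1 ∈ w.2.2.1 1 ∧ w.2.2.1 0 ⊆ w.2.2.1 1 ∪ w.2.2.1 2 ∧
    w.2.2.2 0 ⊆ w.2.2.2 1 ∪ w.2.2.2 2

theorem T2_P_a (n : ℕ) (w : T2_S d L) (h : T2_P n w) (x y : Tor d L) (hx : 1 ≤ w.1 x) :
    T2_P n (T2_a w x y) := by
  obtain ⟨η, c, I, J⟩ := w
  obtain ⟨h1, h2, h3, h4⟩ := h
  simp only at h1 h2 h3 h4 hx
  have key : ∀ z ∈ I 0, z ∈ I 1 ∨ z ∈ I 2 := fun z hz => Finset.mem_union.1 (h3 hz)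
  have keyJ : ∀ z ∈ J 0, z ∈ J 1 ∨ z ∈ J 2 := fun z hz => Finset.mem_union.1 (h4 hz)
  have hc : c ∈ spr (η + Pi.single c 1) (I 1) x y := by
    rw [T2_mem]
    right
    refine ⟨h2, ?_⟩
    rintro ⟨rfl, h5⟩
    rw [Pi.add_apply, Pi.single_eq_same] at h5
    omega
  refine ⟨?_, ?_, ?_, ?_⟩
  · show ∑ z, mv η x y z = n
    rw [ZRI.sum_mv η x y hx, h1]
  · exact hc
  · show spr (η + Pi.single c 1) (I 0) x y ⊆ spr (η + Pi.single c 1) (I 1) x y ∪ spr η (I 2) x y
    intro z hz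
    rw [T2_mem] at hz
    rw [Finset.mem_union]
    rcases hz with ⟨hxI, hzy⟩ | ⟨hzI, hn⟩
    · rcases key x hxI with h' | h'
      · left; rw [T2_mem]; exact Or.inl ⟨h', hzy⟩
      · right; rw [T2_mem]; exact Or.inl ⟨h', hzy⟩
    · rcases key z hzI with h' | h'
      · left; rw [T2_mem]; exact Or.inr ⟨h', hn⟩
      · by_cases h5 : z = x ∧ η x = 1
        · left
          obtain ⟨rfl, h6⟩ := h5
          by_cases h7 : z = c
          · subst h7; exact hc
          · exfalso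
            apply hn
            refine ⟨rfl, ?_⟩
            rw [Pi.add_apply, Pi.single_eq_of_ne h7]
            omega
        · right; rw [T2_mem]; exact Or.inr ⟨h', h5⟩
  · show (if x ∈ I 0 then insert y (J 0) else J 0) ⊆
      (if x ∈ I 1 then insert y (J 1) else J 1) ∪ (if x ∈ I 2 then insert y (J 2) else J 2)
    intro z hz
    rw [T2_memJ] at hz
    rw [Finset.mem_union, T2_memJ, T2_memJ]
    rcases hz with ⟨hx, hzy⟩ | hzJ
    · rcases key x hx with h' | h'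
      · exact Or.inl (Or.inl ⟨h', hzy⟩)
      · exact Or.inr (Or.inl ⟨h', hzy⟩)
    · rcases keyJ z hzJ with h' | h'
      · exact Or.inl (Or.inr h')
      · exact Or.inr (Or.inr h')

theorem T2_P_b (n : ℕ) (w : T2_S d L) (h : T2_P n w) (y : Tor d L) :
    T2_P n (T2_b w y) := by
  obtain ⟨η, c, I, J⟩ := w
  obtain ⟨h1, h2, h3, h4⟩ := h
  simp only at h1 h2 h3 h4
  have key : ∀ z ∈ I 0, z ∈ I 1 ∨ z ∈ I 2 := fun z hz => Finset.mem_union.1 (h3 hz)
  have keyJ : ∀ z ∈ J 0, z ∈ J 1 ∨ z ∈ J 2 := fun z hz => Finset.mem_union.1 (h4 hz)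
  refine ⟨h1, ?_, ?_, ?_⟩
  · show y ∈ spr (η + Pi.single c 1) (I 1) c y
    rw [T2_mem]
    exact Or.inl ⟨h2, rfl⟩
  · show spr (η + Pi.single c 1) (I 0) c y ⊆ spr (η + Pi.single c 1) (I 1) c y ∪ I 2
    intro z hz
    rw [T2_mem] at hz
    rw [Finset.mem_union, T2_mem]
    rcases hz with ⟨hxI, hzy⟩ | ⟨hzI, hn⟩
    · exact Or.inl (Or.inl ⟨h2, hzy⟩)
    · rcases key z hzI with h' | h'
      · exact Or.inl (Or.inr ⟨h', hn⟩)
      · exact Or.inr h'
  · show (if c ∈ I 0 then insert y (J 0) else J 0) ⊆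
      (if c ∈ I 1 then insert y (J 1) else J 1) ∪ J 2
    intro z hz
    rw [T2_memJ] at hz
    rw [Finset.mem_union, T2_memJ]
    rcases hz with ⟨_, hzy⟩ | hzJ
    · exact Or.inl (Or.inl ⟨h2, hzy⟩)
    · rcases keyJ z hzJ with h' | h'
      · exact Or.inl (Or.inr h')
      · exact Or.inr h'

/-- splitting of the rate at the carrier -/
theorem T2_rate (g : ℕ → ℝ) (η : Cfg d L) (c : Tor d L) (H : Tor d L → Dir d → ℝ) :
    ∑ x, ∑ e : Dir d, g ((η + Pi.single c 1 : Cfg d L) x) / (2 * d) * H x e =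
      (∑ x, ∑ e : Dir d, g (η x) / (2 * d) * H x e) +
        ∑ e : Dir d, (g (η c + 1) - g (η c)) / (2 * d) * H c e := by
  classical
  have h1 : ∀ x, ∑ e : Dir d, g ((η + Pi.single c 1 : Cfg d L) x) / (2 * d) * H x e =
      (∑ e : Dir d, g (η x) / (2 * d) * H x e) +
        if x = c then ∑ e : Dir d, (g (η c + 1) - g (η c)) / (2 * d) * H c e else 0 := by
    intro x
    by_cases hx : x = c
    · subst hx
      rw [if_pos rfl, ← Finset.sum_add_distrib]
      refine Finset.sum_congr rfl fun e _ => ?_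
      rw [Pi.add_apply, Pi.single_eq_same]
      ring
    · rw [if_neg hx, Pi.add_apply, Pi.single_eq_of_ne hx]
      simp
  rw [Finset.sum_congr rfl fun x _ => h1 x, Finset.sum_add_distrib]
  congr 1
  rw [Finset.sum_ite_eq' Finset.univ c]
  simp

theorem T2_main (hd : 1 ≤ d) (hg : IsRate g Γm Γp) (T : Tor d L → Prop) (t : ℝ) (ht : 0 ≤ t)
    (n : ℕ) (w : T2_S d L) (hw : T2_P n w) : T2_y g T t w ≤ 0 := by
  classical
  have hΓp : 0 ≤ Γp := le_trans zero_le_one hg.one_le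
  have hC : (0 : ℝ) ≤ Γp * ((n + 1 : ℕ) : ℝ) := mul_nonneg hΓp (Nat.cast_nonneg _)
  have hr : ∀ (η : Cfg d L) (x : Tor d L), 0 ≤ g (η x) / (2 * d) := by
    intro η x
    exact div_nonneg (ZRI.g_nonneg hg _) (by positivity)
  have hr' : ∀ m : ℕ, 0 ≤ (g (m + 1) - g m) / (2 * d) := by
    intro m
    have h1 := hg.lower m
    have h2 := hg.pos
    exact div_nonneg (by linarith) (by positivity)
  have hmem := fun (u : ℝ) (hu : 0 ≤ u) (s : St d L) => ZRI.Qh_mem hd hg T u hu s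
  have hsum0 : ∀ w : T2_S d L, 0 ≤ ∑ x, ∑ _e : Dir d, g ((w.1 + Pi.single w.2.1 1 : Cfg d L) x) / (2 * d) := by
    intro w
    exact Finset.sum_nonneg fun x _ => Finset.sum_nonneg fun e _ => hr _ x
  have hsum : ∀ w : T2_S d L, T2_P n w →
      ∑ x, ∑ _e : Dir d, g ((w.1 + Pi.single w.2.1 1 : Cfg d L) x) / (2 * d) ≤ Γp * ((n + 1 : ℕ) : ℝ) := by
    intro w hw
    have h1 := ZRI.sum_rate hd hg (w.1 + Pi.single w.2.1 1)
    have h2 : ∑ z, (w.1 + Pi.single w.2.1 1 : Cfg d L) z = n + 1 := by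
      simp only [Pi.add_apply]
      rw [Finset.sum_add_distrib, hw.1, Finset.sum_pi_single']
      simp
    rw [h2] at h1
    exact h1
  refine ZRI.cmp (T2_P n) (T2_y g T)
    (fun t w => Gen g 0 (Qh g T t) (w.1 + Pi.single w.2.1 1, w.2.2.1 0, w.2.2.2 0) -
      Gen g 0 (Qh g T t) (w.1 + Pi.single w.2.1 1, w.2.2.1 1, w.2.2.2 1) -
      Gen g 0 (Qh g T t) (w.1, w.2.2.1 2, w.2.2.2 2))
    (fun w => - ∑ x, ∑ _e : Dir d, g ((w.1 + Pi.single w.2.1 1 : Cfg d L) x) / (2 * d))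
    (Γp * ((n + 1 : ℕ) : ℝ)) 1 t hC ?_ ?_ ?_ ?_ ?_
    t ht le_rfl w hw
  · intro s hs
    rw [abs_neg, abs_of_nonneg (hsum0 s)]
    exact hsum s hs
  · intro s _ u _ _
    exact ((ZRI.Qh_deriv hd hg T u _).sub (ZRI.Qh_deriv hd hg T u _)).sub (ZRI.Qh_deriv hd hg T u _)
  · intro s _ u hu _
    have h1 := hmem u hu (s.1 + Pi.single s.2.1 1, s.2.2.1 0, s.2.2.2 0)
    have h2 := hmem u hu (s.1 + Pi.single s.2.1 1, s.2.2.1 1, s.2.2.2 1)
    have h3 := hmem u hu (s.1, s.2.2.1 2, s.2.2.2 2)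
    show _ - _ - _ ≤ (1 : ℝ)
    linarith [h1.2, h2.1, h3.1]
  · intro s hs u hu _ B hB hmax
    obtain ⟨η, c, I, J⟩ := s
    have hxa : ∀ x e, g (η x) ≠ 0 → T2_y g T u (T2_a (η, c, I, J) x (x + stp e)) =
        Qh g T u (jmp 0 (η + Pi.single c 1, I 0, J 0) x (x + stp e)) -
        Qh g T u (jmp 0 (η + Pi.single c 1, I 1, J 1) x (x + stp e)) -
        Qh g T u (jmp 0 (η, I 2, J 2) x (x + stp e)) := by
      intro x e hz
      have h1 := ZRI.mv_add_ne η c x (x + stp e) (ZRI.g_ne hg _ hz)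
      rw [T2_jmp, T2_jmp, T2_jmp, h1]
      rfl
    have hxb : ∀ e, T2_y g T u (T2_b (η, c, I, J) (c + stp e)) =
        Qh g T u (jmp 0 (η + Pi.single c 1, I 0, J 0) c (c + stp e)) -
        Qh g T u (jmp 0 (η + Pi.single c 1, I 1, J 1) c (c + stp e)) -
        Qh g T u (η, I 2, J 2) := by
      intro e
      rw [T2_jmp, T2_jmp, ZRI.mv_add_self]
      rfl
    have e1 : Gen g 0 (Qh g T u) (η + Pi.single c 1, I 0, J 0) -
        Gen g 0 (Qh g T u) (η + Pi.single c 1, I 1, J 1) -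
          Gen g 0 (Qh g T u) (η, I 2, J 2) =
        (∑ x, ∑ e : Dir d, g (η x) / (2 * d) *
          (T2_y g T u (T2_a (η, c, I, J) x (x + stp e)) - T2_y g T u (η, c, I, J))) +
        ∑ e : Dir d, (g (η c + 1) - g (η c)) / (2 * d) *
          (T2_y g T u (T2_b (η, c, I, J) (c + stp e)) - T2_y g T u (η, c, I, J)) := by
      rw [T2_Gen, T2_Gen, T2_Gen]
      simp only
      rw [T2_rate g η c, T2_rate g η c]
      have f1 : ∀ a b c a' b' : ℝ, (a + a') - (b + b') - c = (a - b - c) + (a' - b') := by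
        intros; ring
      rw [f1, ← Finset.sum_sub_distrib, ← Finset.sum_sub_distrib, ← Finset.sum_sub_distrib]
      congr 1
      · refine Finset.sum_congr rfl fun x _ => ?_
        rw [← Finset.sum_sub_distrib, ← Finset.sum_sub_distrib]
        refine Finset.sum_congr rfl fun e _ => ?_
        by_cases hz : g (η x) = 0
        · rw [hz]; simp
        · rw [hxa x e hz]
          unfold T2_y
          ring
      · refine Finset.sum_congr rfl fun e _ => ?_
        rw [hxb e]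
        unfold T2_y
        ring
    have e2 : (∑ x, ∑ e : Dir d, g (η x) / (2 * d) *
          (T2_y g T u (T2_a (η, c, I, J) x (x + stp e)) - T2_y g T u (η, c, I, J))) +
        ∑ e : Dir d, (g (η c + 1) - g (η c)) / (2 * d) *
          (T2_y g T u (T2_b (η, c, I, J) (c + stp e)) - T2_y g T u (η, c, I, J)) ≤
        (∑ x, ∑ _e : Dir d, g (η x) / (2 * d) * (B - T2_y g T u (η, c, I, J))) +
        ∑ _e : Dir d, (g (η c + 1) - g (η c)) / (2 * d) * (B - T2_y g T u (η, c, I, J)) := by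
      refine add_le_add (Finset.sum_le_sum fun x _ => Finset.sum_le_sum fun e _ => ?_)
        (Finset.sum_le_sum fun e _ => ?_)
      · by_cases hz : g (η x) = 0
        · rw [hz]
          simp
        · refine mul_le_mul_of_nonneg_left ?_ (hr η x)
          have := hmax _ (T2_P_a n _ hs x (x + stp e) (ZRI.g_ne hg _ hz))
          linarith
      · refine mul_le_mul_of_nonneg_left ?_ (hr' _)
        have := hmax _ (T2_P_b n _ hs (c + stp e))
        linarith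
    have e3 : (∑ x, ∑ _e : Dir d, g (η x) / (2 * d) * (B - T2_y g T u (η, c, I, J))) +
        ∑ _e : Dir d, (g (η c + 1) - g (η c)) / (2 * d) * (B - T2_y g T u (η, c, I, J)) =
        (∑ x, ∑ _e : Dir d, g ((η + Pi.single c 1 : Cfg d L) x) / (2 * d)) * (B - T2_y g T u (η, c, I, J)) := by
      rw [← T2_rate g η c (fun _ _ => B - T2_y g T u (η, c, I, J)), Finset.sum_mul]
      refine Finset.sum_congr rfl fun x _ => ?_
      rw [Finset.sum_mul]
    have e4 : (∑ x, ∑ _e : Dir d, g ((η + Pi.single c 1 : Cfg d L) x) / (2 * d)) * B ≤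
        Γp * ((n + 1 : ℕ) : ℝ) * B := mul_le_mul_of_nonneg_right (hsum _ hs) hB
    show Gen g 0 (Qh g T u) (η + Pi.single c 1, I 0, J 0) -
        Gen g 0 (Qh g T u) (η + Pi.single c 1, I 1, J 1) -
          Gen g 0 (Qh g T u) (η, I 2, J 2) ≤
        (- ∑ x, ∑ _e : Dir d, g ((η + Pi.single c 1 : Cfg d L) x) / (2 * d)) * T2_y g T u (η, c, I, J) +
          Γp * ((n + 1 : ℕ) : ℝ) * B
    rw [e1]
    refine e2.trans ?_
    rw [e3]
    linarith
  · intro s hs
    show Qh g T 0 _ - Qh g T 0 _ - Qh g T 0 _ ≤ 0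
    unfold Qh
    rw [ZRI.sg_zero, ZRI.sg_zero, ZRI.sg_zero]
    have n1 := T2_ind_nonneg T (s.1 + Pi.single s.2.1 1, s.2.2.1 1, s.2.2.2 1)
    have n2 := T2_ind_nonneg T (s.1, s.2.2.1 2, s.2.2.2 2)
    by_cases h : (s.1 + Pi.single s.2.1 1, s.2.2.1 0, s.2.2.2 0) ∈ hit T
    · obtain ⟨x, hx, hT⟩ := h
      have l0 := T2_ind_le T (s.1 + Pi.single s.2.1 1, s.2.2.1 0, s.2.2.2 0)
      rcases Finset.mem_union.1 (hs.2.2.2 hx) with h' | h'
      · have h1 : (s.1 + Pi.single s.2.1 1, s.2.2.1 1, s.2.2.2 1) ∈ hit T := ⟨x, h', hT⟩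
        have i1 : ((hit T).indicator (1 : St d L → ℝ))
            (s.1 + Pi.single s.2.1 1, s.2.2.1 1, s.2.2.2 1) = 1 := by
          rw [Set.indicator_of_mem h1]
          rfl
        linarith
      · have h1 : (s.1, s.2.2.1 2, s.2.2.2 2) ∈ hit T := ⟨x, h', hT⟩
        have i1 : ((hit T).indicator (1 : St d L → ℝ)) (s.1, s.2.2.1 2, s.2.2.2 2) = 1 := by
          rw [Set.indicator_of_mem h1]
          rfl
        linarith
    · rw [Set.indicator_of_notMem h]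
      linarith

/-- T2 -/
theorem Qh_split (hd : 1 ≤ d) (hL : 1 ≤ L) (hg : IsRate g Γm Γp) (T : Tor d L → Prop) (t : ℝ)
    (ht : 0 ≤ t) (η : Cfg d L) (c : Tor d L) (I : Finset (Tor d L)) :
    Qh g T t (η + Pi.single c 1, insert c I, insert c I) ≤
      Qh g T t (η + Pi.single c 1, {c}, {c}) + Qh g T t (η, I, I) := by
  have h := T2_main hd hg T t ht (∑ z, η z) (η, c, ![insert c I, {c}, I], ![insert c I, {c}, I])
    ⟨rfl, by simp, by
      intro z hz
      simpa [Finset.mem_insert] using hz, by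
      intro z hz
      simpa [Finset.mem_insert] using hz⟩
  unfold T2_y at h
  simp at h
  linarith

end ZRI
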