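import Pool.Agent.ZRI.Defs

open scoped BigOperators ENNReal Topology
open MeasureTheory Filter

namespace ZRI

section Abs

variable {S ι : Type*} [Fintype ι]

theorem A4_iter {S' : Type*} (A : (S → ℝ) → S → ℝ) (A' : (S' → ℝ) → S' → ℝ) (π : S → S')
    (h : ∀ G : S' → ℝ, A (fun s => G (π s)) = fun s => A' G (π s)) (k : ℕ) :
    ∀ F : S' → ℝ, (A^[k] fun s => F (π s)) = fun s => (A'^[k] F) (π s) := by
  induction k with
  | zero => intro F; rfl
  | succ k ih =>
    intro F
    rw [Function.iterate_succ_apply, Function.iterate_succ_apply, h F, ih (A' F)]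

theorem sg_inter {S' : Type*} (A : (S → ℝ) → S → ℝ) (A' : (S' → ℝ) → S' → ℝ) (π : S → S')
    (h : ∀ G : S' → ℝ, A (fun s => G (π s)) = fun s => A' G (π s)) (F : S' → ℝ) (t : ℝ) (s : S) :
    sg A t (fun s => F (π s)) s = sg A' t F (π s) := by
  unfold sg
  refine tsum_congr fun k => ?_
  rw [A4_iter A A' π h k F]

end Abs

end ZRI
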