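import Pool.Agent.ZRI.Defs2
import Pool.Agent.ZRI.A4

open scoped BigOperators ENNReal Topology
open MeasureTheory Filter

namespace ZRI

variable {d L : ℕ} {g : ℕ → ℝ}

theorem T3_const (δ : ℝ≥0∞) (P : St d L → Prop) (c : ℝ) (F : St d L → ℝ)
    (hJ : ∀ s, P s → ∀ x y, P (jmp δ s x y)) (hH : ∀ s, P s → ∀ x, P (heal s x))
    (hF : ∀ s, P s → F s = c) (t : ℝ) (s : St d L) (hs : P s) :
    sg (Gen g δ) t F s = c := by
  have key : ∀ k : ℕ, ∀ s, P s → ((Gen g δ)^[k] F) s = if k = 0 then c else 0 := by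
    intro k
    induction k with
    | zero => intro s hs; simpa using hF s hs
    | succ k ih =>
      intro s hs
      rw [Function.iterate_succ_apply']
      simp only [Nat.succ_ne_zero, if_false]
      unfold Gen
      have h1 : (∑ x, ∑ e : Dir d, g (s.1 x) / (2 * d) *
          (((Gen g δ)^[k] F) (jmp δ s x (x + stp e)) - ((Gen g δ)^[k] F) s)) = 0 := by
        refine Finset.sum_eq_zero fun x _ => Finset.sum_eq_zero fun e _ => ?_
        rw [ih _ (hJ s hs _ _), ih s hs, sub_self, mul_zero]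
      have h2 : (∑ x ∈ s.2.1.filter (fun x => s.1 x = 1), δ.toReal *
          (((Gen g δ)^[k] F) (heal s x) - ((Gen g δ)^[k] F) s)) = 0 := by
        refine Finset.sum_eq_zero fun x _ => ?_
        rw [ih _ (hH s hs _), ih s hs, sub_self, mul_zero]
      exact (congrArg₂ (· + ·) h1 h2).trans (by simp)
  unfold sg
  rw [tsum_eq_single 0]
  · rw [key 0 s hs]; simp
  · intro k hk
    rw [key k s hs, if_neg hk, mul_zero]

/-- T3 -/
theorem Qh_insert (T : Tor d L → Prop) (t : ℝ) (ζ : Cfg d L) (I J : Finset (Tor d L))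
    (x : Tor d L) (hx : ¬ T x) : Qh g T t (ζ, I, insert x J) = Qh g T t (ζ, I, J) := by
  have h := ZRI.sg_inter (Gen g 0) (Gen g 0)
    (fun s : St d L => ((s.1, s.2.1, insert x s.2.2) : St d L)) (by
      intro G
      funext s
      have hj : ∀ a b : Tor d L, jmp 0 ((s.1, s.2.1, insert x s.2.2) : St d L) a b =
          ((jmp 0 s a b).1, (jmp 0 s a b).2.1, insert x (jmp 0 s a b).2.2) := by
        intro a b
        unfold jmp
        dsimp only
        by_cases ha : a ∈ s.2.1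
        · simp only [ha, if_true, Finset.insert_comm]
        · simp only [ha, if_false]
      have hh : ∀ a : Tor d L, heal ((s.1, s.2.1, insert x s.2.2) : St d L) a =
          ((heal s a).1, (heal s a).2.1, insert x (heal s a).2.2) := fun a => rfl
      unfold Gen
      simp only [hj, hh]) ((hit T).indicator 1) t (ζ, I, J)
  unfold Qh
  rw [← h]
  have hF : (fun s : St d L => (hit T).indicator (1 : St d L → ℝ) (s.1, s.2.1, insert x s.2.2)) =
      (hit T).indicator 1 := by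
    funext s
    have : ((s.1, s.2.1, insert x s.2.2) : St d L) ∈ hit T ↔ s ∈ hit T := by
      unfold hit
      simp only [Set.mem_ofPred_eq, Finset.mem_insert]
      constructor
      · rintro ⟨y, rfl | hy, hR⟩
        · exact absurd hR hx
        · exact ⟨y, hy, hR⟩
      · rintro ⟨y, hy, hR⟩
        exact ⟨y, Or.inr hy, hR⟩
    by_cases hs : s ∈ hit T
    · rw [Set.indicator_of_mem hs, Set.indicator_of_mem (this.2 hs)]; rfl
    · rw [Set.indicator_of_notMem hs, Set.indicator_of_notMem (fun h => hs (this.1 h))]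
  rw [hF]

theorem T3_hit_jmp (δ : ℝ≥0∞) (T : Tor d L → Prop) (s : St d L) (hs : ∃ x ∈ s.2.2, T x)
    (x y : Tor d L) : ∃ z ∈ (jmp δ s x y).2.2, T z := by
  obtain ⟨z, hz, hR⟩ := hs
  refine ⟨z, ?_, hR⟩
  unfold jmp
  dsimp only
  split_ifs
  · exact Finset.mem_insert_of_mem hz
  · exact hz

theorem T3_empty_jmp (δ : ℝ≥0∞) (s : St d L) (hs : s.2.1 = ∅ ∧ s.2.2 = ∅) (x y : Tor d L) :
    (jmp δ s x y).2.1 = ∅ ∧ (jmp δ s x y).2.2 = ∅ := by
  obtain ⟨h1, h2⟩ := hs
  unfold jmp spr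
  simp [h1, h2]

/-- T3 -/
theorem Qh_hit (T : Tor d L → Prop) (t : ℝ) (s : St d L) (hs : s ∈ hit T) :
    Qh g T t s = 1 := by
  refine T3_const 0 (fun s => s ∈ hit T) 1 _ ?_ ?_ ?_ t s hs
  · intro s hs x y
    exact T3_hit_jmp 0 T s hs x y
  · intro s hs x
    exact hs
  · intro s hs
    rw [Set.indicator_of_mem hs]; rfl

/-- T3 -/
theorem Qh_empty (T : Tor d L → Prop) (t : ℝ) (ζ : Cfg d L) : Qh g T t (ζ, ∅, ∅) = 0 := by
  refine T3_const 0 (fun s : St d L => s.2.1 = ∅ ∧ s.2.2 = ∅) 0 _ ?_ ?_ ?_ t (ζ, ∅, ∅) ⟨rfl, rfl⟩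
  · intro s hs x y
    exact T3_empty_jmp 0 s hs x y
  · intro s hs x
    exact ⟨by simp [heal, hs.1], hs.2⟩
  · intro s hs
    refine Set.indicator_of_notMem ?_ _
    rintro ⟨x, hx, -⟩
    rw [hs.2] at hx
    simp at hx

end ZRI
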