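import Pool.Agent.ZRI.Defs2
import Pool.Agent.ZRI.B1
import Pool.Agent.ZRI.B2
import Pool.Agent.ZRI.T1
import Pool.Agent.ZRI.T2
import Pool.Agent.ZRI.T3

open scoped BigOperators ENNReal Topology
open MeasureTheory Filter

namespace ZRI

variable {d L : ℕ} {g : ℕ → ℝ} {Γm Γp : ℝ}

theorem T4_jmp_ne (η : Cfg d L) (x z y : Tor d L) (hz : z ≠ x) (h : 1 ≤ η z) :
    jmp 0 ((η + Pi.single x 1, {x}, {x}) : St d L) z y = (mv η z y + Pi.single x 1, {x}, {x}) := by
  have h1 : z ∉ ({x} : Finset (Tor d L)) := fun h' => hz (Finset.mem_singleton.1 h')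
  unfold jmp spr
  simp only [if_neg h1, if_neg ENNReal.zero_ne_top, ZRI.mv_add_ne η x z y h]

theorem T4_jmp_self (η : Cfg d L) (x y : Tor d L) :
    jmp 0 ((η + Pi.single x 1, {x}, {x}) : St d L) x y =
      (η + Pi.single y 1, if η x = 0 then {y} else insert y {x}, insert y {x}) := by
  have h1 : x ∈ ({x} : Finset (Tor d L)) := Finset.mem_singleton_self x
  have h2 : (η + Pi.single x 1 : Cfg d L) x = η x + 1 := by
    rw [Pi.add_apply, Pi.single_eq_same]
  unfold jmp spr
  simp only [if_pos h1, if_neg ENNReal.zero_ne_top, ZRI.mv_add_self η x y, h2]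
  by_cases h : η x = 0
  · rw [if_pos h, if_pos (by omega), Finset.erase_singleton]
    rfl
  · rw [if_neg h, if_neg (by omega)]

theorem T4_card (d : ℕ) : (Finset.univ : Finset (Dir d)).card = 2 * d := by
  rw [Finset.card_univ, Fintype.card_prod, Fintype.card_fin, Fintype.card_bool, mul_comm]

/-- the case where the target contains `x` -/
theorem T4_in (hd : 1 ≤ d) (hg : IsRate g Γm Γp) (T : Tor d L → Prop) (t : ℝ)
    (ht : 0 ≤ t) (η : Cfg d L) (x : Tor d L) (hx : T x) :
    Gen g 0 (Qh g T t) (η + Pi.single x 1, {x}, {x}) ≤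
      (∑ z, ∑ e : Dir d, g (η z) / (2 * d) * (Gh g T t (mv η z (z + stp e)) x - Gh g T t η x)) +
        Γp / (2 * d) * (∑ e : Dir d, Gh g T t η (x + stp e)) +
        g (η x) / (2 * d) * (∑ e : Dir d, Gh g T t (η - Pi.single x 1) (x + stp e)) +
        (if 1 ≤ η x then Γp * Gh g T t (η - Pi.single x 1) x else 0) := by
  have hΓ : 0 ≤ Γp := by linarith [hg.one_le]
  have hG : ∀ (ζ : Cfg d L) (y : Tor d L), 0 ≤ Gh g T t ζ y := fun ζ y => (ZRI.Qh_mem hd hg T t ht _).1
  have h1 : ∀ ζ : Cfg d L, Gh g T t ζ x = 1 := by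
    intro ζ
    exact ZRI.Qh_hit T t _ ⟨x, Finset.mem_singleton_self x, hx⟩
  have e0 : Gen g 0 (Qh g T t) (η + Pi.single x 1, {x}, {x}) = 0 := by
    unfold Gen
    have a1 : ∀ z : Tor d L, ∀ e : Dir d, Qh g T t (jmp 0 ((η + Pi.single x 1, {x}, {x}) : St d L) z (z + stp e)) = 1 := by
      intro z e
      refine ZRI.Qh_hit T t _ ⟨x, ?_, hx⟩
      unfold jmp
      dsimp only
      split_ifs
      · exact Finset.mem_insert_of_mem (Finset.mem_singleton_self x)
      · exact Finset.mem_singleton_self x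
    have a2 : Qh g T t ((η + Pi.single x 1, {x}, {x}) : St d L) = 1 := h1 η
    rw [Finset.sum_eq_zero fun z _ => Finset.sum_eq_zero fun e _ => by rw [a1, a2, sub_self, mul_zero], zero_add]
    exact Finset.sum_eq_zero fun z _ => by rw [ENNReal.toReal_zero, zero_mul]
  have e1 : (∑ z, ∑ e : Dir d, g (η z) / (2 * d) * (Gh g T t (mv η z (z + stp e)) x - Gh g T t η x)) = 0 :=
    Finset.sum_eq_zero fun z _ => Finset.sum_eq_zero fun e _ => by rw [h1, h1, sub_self, mul_zero]
  rw [e0, e1, zero_add]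
  have b1 : 0 ≤ Γp / (2 * d) * (∑ e : Dir d, Gh g T t η (x + stp e)) :=
    mul_nonneg (by positivity) (Finset.sum_nonneg fun e _ => hG _ _)
  have b2 : 0 ≤ g (η x) / (2 * d) * (∑ e : Dir d, Gh g T t (η - Pi.single x 1) (x + stp e)) :=
    mul_nonneg (div_nonneg (ZRI.g_nonneg hg _) (by positivity)) (Finset.sum_nonneg fun e _ => hG _ _)
  have b3 : 0 ≤ (if 1 ≤ η x then Γp * Gh g T t (η - Pi.single x 1) x else 0) := by
    split_ifs
    · exact mul_nonneg hΓ (hG _ _)
    · exact le_rfl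
  linarith

theorem T4_at (hd : 1 ≤ d) (hL : 1 ≤ L) (hg : IsRate g Γm Γp) (T : Tor d L → Prop) (t : ℝ)
    (ht : 0 ≤ t) (η : Cfg d L) (x : Tor d L) (hx : ¬ T x) :
    (∑ e : Dir d, g ((η + Pi.single x 1 : Cfg d L) x) / (2 * d) *
      (Qh g T t (jmp 0 ((η + Pi.single x 1, {x}, {x}) : St d L) x (x + stp e)) - Gh g T t η x)) ≤
      (∑ e : Dir d, g (η x) / (2 * d) * (Gh g T t (mv η x (x + stp e)) x - Gh g T t η x)) +
        Γp / (2 * d) * (∑ e : Dir d, Gh g T t η (x + stp e)) +
        g (η x) / (2 * d) * (∑ e : Dir d, Gh g T t (η - Pi.single x 1) (x + stp e)) +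
        (if 1 ≤ η x then Γp * Gh g T t (η - Pi.single x 1) x else 0) := by
  have hΓ : 0 ≤ Γp := by linarith [hg.one_le]
  have hd0 : (0 : ℝ) < 2 * d := by
    have : (1 : ℝ) ≤ d := by exact_mod_cast hd
    linarith
  have hG : ∀ (ζ : Cfg d L) (y : Tor d L), 0 ≤ Gh g T t ζ y := fun ζ y => (ZRI.Qh_mem hd hg T t ht _).1
  have h2 : (η + Pi.single x 1 : Cfg d L) x = η x + 1 := by
    rw [Pi.add_apply, Pi.single_eq_same]
  rw [h2]
  have hlo := hg.lower (η x)
  have hup := hg.upper (η x)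
  have hpos := hg.pos
  set a : ℝ := g (η x + 1) - g (η x) with ha
  have ha0 : 0 ≤ a := by linarith
  have hga : g (η x + 1) = g (η x) + a := by rw [ha]; ring
  rw [hga]
  have hgx : 0 ≤ g (η x) := ZRI.g_nonneg hg _
  rcases Nat.eq_zero_or_pos (η x) with h0 | h0
  · have hg0 : g (η x) = 0 := by rw [h0]; exact hg.zero
    have e1 : ∀ e : Dir d, Qh g T t (jmp 0 ((η + Pi.single x 1, {x}, {x}) : St d L) x (x + stp e)) =
        Gh g T t η (x + stp e) := by
      intro e
      have e2 : (insert (x + stp e) {x} : Finset (Tor d L)) = insert x {x + stp e} := Finset.pair_comm _ _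
      rw [T4_jmp_self, if_pos h0, e2, ZRI.Qh_insert T t _ _ _ x hx]
      rfl
    have e3 : ¬ 1 ≤ η x := by omega
    rw [hg0, if_neg e3, add_zero, zero_div, zero_mul, add_zero, zero_add, Finset.mul_sum, ← Finset.sum_add_distrib]
    refine Finset.sum_le_sum fun e _ => ?_
    rw [e1, zero_mul, zero_add, mul_sub]
    have k1 : a / (2 * d) * Gh g T t η (x + stp e) ≤ Γp / (2 * d) * Gh g T t η (x + stp e) :=
      mul_le_mul_of_nonneg_right (div_le_div_of_nonneg_right hup hd0.le) (hG _ _)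
    have k2 : 0 ≤ a / (2 * d) * Gh g T t η x := mul_nonneg (div_nonneg ha0 hd0.le) (hG _ _)
    linarith
  · have e3 : η x ≠ 0 := by omega
    have hsub := ZRI.mv_sub η x
    have e1 : ∀ e : Dir d, Qh g T t (jmp 0 ((η + Pi.single x 1, {x}, {x}) : St d L) x (x + stp e)) ≤
        Gh g T t η (x + stp e) + Gh g T t (η - Pi.single x 1) x := by
      intro e
      rw [T4_jmp_self, if_neg e3]
      refine (ZRI.Qh_split hd hL hg T t ht η (x + stp e) {x}).trans (le_of_eq ?_)
      unfold Gh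
      rw [← (hsub x h0).2]
    have e2 : ∀ e : Dir d, Qh g T t (jmp 0 ((η + Pi.single x 1, {x}, {x}) : St d L) x (x + stp e)) ≤
        Gh g T t (mv η x (x + stp e)) x + Gh g T t (η - Pi.single x 1) (x + stp e) := by
      intro e
      have e4 : (insert (x + stp e) {x} : Finset (Tor d L)) = insert x {x + stp e} := Finset.pair_comm _ _
      have e5 : η + Pi.single (x + stp e) 1 = mv η x (x + stp e) + Pi.single x 1 := by
        rw [(hsub (x + stp e) h0).1, add_right_comm, ← (hsub x h0).2]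
      rw [T4_jmp_self, if_neg e3, e4, e5]
      refine (ZRI.Qh_split hd hL hg T t ht (mv η x (x + stp e)) x {x + stp e}).trans (le_of_eq ?_)
      unfold Gh
      rw [(hsub (x + stp e) h0).1]
    have e6 : 1 ≤ η x := h0
    rw [if_pos e6]
    have e7 : Γp * Gh g T t (η - Pi.single x 1) x = ∑ _e : Dir d, Γp / (2 * d) * Gh g T t (η - Pi.single x 1) x := by
      rw [Finset.sum_const, T4_card, nsmul_eq_mul]
      push_cast
      field_simp
    rw [e7, Finset.mul_sum, Finset.mul_sum, ← Finset.sum_add_distrib, ← Finset.sum_add_distrib,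
      ← Finset.sum_add_distrib]
    refine Finset.sum_le_sum fun e _ => ?_
    set A := Qh g T t (jmp 0 ((η + Pi.single x 1, {x}, {x}) : St d L) x (x + stp e)) with hA
    set G := Gh g T t η x with hGd
    have k0 : (g (η x) + a) / (2 * d) * (A - G) = g (η x) / (2 * d) * (A - G) + a / (2 * d) * (A - G) := by ring
    have k1 : g (η x) / (2 * d) * (A - G) ≤ g (η x) / (2 * d) *
        (Gh g T t (mv η x (x + stp e)) x + Gh g T t (η - Pi.single x 1) (x + stp e) - G) :=
      mul_le_mul_of_nonneg_left (by linarith [e2 e]) (div_nonneg hgx hd0.le)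
    have k2 : a / (2 * d) * (A - G) ≤ a / (2 * d) * (Gh g T t η (x + stp e) + Gh g T t (η - Pi.single x 1) x) :=
      mul_le_mul_of_nonneg_left (by linarith [e1 e, hG η x]) (div_nonneg ha0 hd0.le)
    have k3 : a / (2 * d) * (Gh g T t η (x + stp e) + Gh g T t (η - Pi.single x 1) x) ≤
        Γp / (2 * d) * (Gh g T t η (x + stp e) + Gh g T t (η - Pi.single x 1) x) :=
      mul_le_mul_of_nonneg_right (div_le_div_of_nonneg_right hup hd0.le) (add_nonneg (hG _ _) (hG _ _))
    rw [k0]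
    have k4 : g (η x) / (2 * d) * (Gh g T t (mv η x (x + stp e)) x + Gh g T t (η - Pi.single x 1) (x + stp e) - G) =
        g (η x) / (2 * d) * (Gh g T t (mv η x (x + stp e)) x - G) +
        g (η x) / (2 * d) * Gh g T t (η - Pi.single x 1) (x + stp e) := by ring
    rw [mul_add] at k3
    linarith

/-- T4 -/
theorem Gh_deriv (hd : 1 ≤ d) (hL : 1 ≤ L) (hg : IsRate g Γm Γp) (T : Tor d L → Prop) (t : ℝ)
    (ht : 0 ≤ t) (η : Cfg d L) (x : Tor d L) :
    ∃ D : ℝ, HasDerivAt (fun u => Gh g T u η x) D t ∧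
      D ≤ (∑ z, ∑ e : Dir d, g (η z) / (2 * d) * (Gh g T t (mv η z (z + stp e)) x - Gh g T t η x)) +
        Γp / (2 * d) * (∑ e : Dir d, Gh g T t η (x + stp e)) +
        g (η x) / (2 * d) * (∑ e : Dir d, Gh g T t (η - Pi.single x 1) (x + stp e)) +
        (if 1 ≤ η x then Γp * Gh g T t (η - Pi.single x 1) x else 0) := by
  refine ⟨Gen g 0 (Qh g T t) (η + Pi.single x 1, {x}, {x}), ZRI.Qh_deriv hd hg T t _, ?_⟩
  by_cases hx : T x
  · exact T4_in hd hg T t ht η x hx
  have hGen : Gen g 0 (Qh g T t) (η + Pi.single x 1, {x}, {x}) =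
      ∑ z, ∑ e : Dir d, g ((η + Pi.single x 1 : Cfg d L) z) / (2 * d) *
        (Qh g T t (jmp 0 ((η + Pi.single x 1, {x}, {x}) : St d L) z (z + stp e)) - Gh g T t η x) := by
    unfold Gen
    rw [Finset.sum_eq_zero (s := Finset.filter _ _) fun z _ => by rw [ENNReal.toReal_zero, zero_mul], add_zero]
    rfl
  have hne : ∀ z ∈ Finset.univ.erase x, ∑ e : Dir d, g ((η + Pi.single x 1 : Cfg d L) z) / (2 * d) *
        (Qh g T t (jmp 0 ((η + Pi.single x 1, {x}, {x}) : St d L) z (z + stp e)) - Gh g T t η x) =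
      ∑ e : Dir d, g (η z) / (2 * d) * (Gh g T t (mv η z (z + stp e)) x - Gh g T t η x) := by
    intro z hz
    have hz' : z ≠ x := Finset.ne_of_mem_erase hz
    have e0 : (η + Pi.single x 1 : Cfg d L) z = η z := by
      rw [Pi.add_apply, Pi.single_eq_of_ne hz', add_zero]
    refine Finset.sum_congr rfl fun e _ => ?_
    rw [e0]
    rcases Nat.eq_zero_or_pos (η z) with h0 | h0
    · rw [h0, hg.zero, zero_div, zero_mul, zero_mul]
    · rw [T4_jmp_ne η x z (z + stp e) hz' h0]
      rfl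
  rw [hGen, ← Finset.add_sum_erase _ _ (Finset.mem_univ x), ← Finset.add_sum_erase (s := Finset.univ)
    (f := fun z => ∑ e : Dir d, g (η z) / (2 * d) * (Gh g T t (mv η z (z + stp e)) x - Gh g T t η x))
    (a := x) (h := Finset.mem_univ x), Finset.sum_congr rfl hne]
  have h := T4_at hd hL hg T t ht η x hx
  linarith

end ZRI
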