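import Pool.Agent.ZRI.Defs
import Pool.Agent.ZRI.B1
import Pool.Agent.ZRI.B2

open scoped BigOperators ENNReal Topology
open MeasureTheory Filter

namespace ZRI

variable {d L : ℕ} {g : ℕ → ℝ} {Γm Γp : ℝ}

theorem C5_mem (n : ℕ) (η : Cfg d L) : η ∈ sec d L n ↔ ∑ x, η x = n := by
  unfold sec
  rw [Finset.mem_piAntidiag]
  simp

theorem C5_m1 (hg : IsRate g Γm Γp) (φ : ℝ) (k : ℕ) :
    m1 g φ (k + 1) * g (k + 1) = φ * m1 g φ k := by
  have h0 : g (k + 1) ≠ 0 := by
    have h1 := ZRI.g_pos hg (k + 1) (by omega)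
    have h2 := hg.pos
    linarith
  unfold m1 wt
  rw [Finset.prod_range_succ, pow_succ]
  by_cases hP : (∏ x ∈ Finset.range k, g (x + 1)) = 0
  · simp [hP]
  · by_cases hZ : (∑' m, φ ^ m / ∏ i ∈ Finset.range m, g (i + 1)) = 0
    · simp [hZ]
    · field_simp

theorem C5_mu (hg : IsRate g Γm Γp) (φ : ℝ) (z : Tor d L) (ξ : Cfg d L) :
    mu g φ (ξ + Pi.single z 1) * g ((ξ + Pi.single z 1 : Cfg d L) z) = φ * mu g φ ξ := by
  classical
  unfold mu
  rw [← Finset.mul_prod_erase Finset.univ _ (Finset.mem_univ z),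
    ← Finset.mul_prod_erase Finset.univ (fun x => m1 g φ (ξ x)) (Finset.mem_univ z)]
  have h1 : (ξ + Pi.single z 1 : Cfg d L) z = ξ z + 1 := by simp
  have h2 : ∏ x ∈ Finset.univ.erase z, m1 g φ ((ξ + Pi.single z 1 : Cfg d L) x) =
      ∏ x ∈ Finset.univ.erase z, m1 g φ (ξ x) := by
    refine Finset.prod_congr rfl fun x hx => ?_
    have hxz : x ≠ z := Finset.ne_of_mem_erase hx
    simp [hxz]
  rw [h2, h1]
  have h3 := C5_m1 hg φ (ξ z)
  calc m1 g φ (ξ z + 1) * (∏ x ∈ Finset.univ.erase z, m1 g φ (ξ x)) * g (ξ z + 1)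
      = (m1 g φ (ξ z + 1) * g (ξ z + 1)) * (∏ x ∈ Finset.univ.erase z, m1 g φ (ξ x)) := by ring
    _ = _ := by rw [h3]; ring

theorem C5_sub (η : Cfg d L) (z : Tor d L) (h : 1 ≤ η z) :
    (η - Pi.single z 1) + Pi.single z 1 = η := (ZRI.mv_sub η z z h).2.symm

theorem C5_sum_add (η : Cfg d L) (z : Tor d L) :
    ∑ x, (η + Pi.single z 1 : Cfg d L) x = (∑ x, η x) + 1 := by
  classical
  simp only [Pi.add_apply]
  rw [Finset.sum_add_distrib]
  simp [Finset.sum_pi_single']

/-- C5 -/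
theorem palm (hg : IsRate g Γm Γp) (φ : ℝ) (n : ℕ) (z : Tor d L) (H : Cfg d L → ℝ) :
    ∑ η ∈ sec d L (n + 1), mu g φ η * (g (η z) * H η) =
      φ * ∑ ξ ∈ sec d L n, mu g φ ξ * H (ξ + Pi.single z 1) := by
  classical
  have h1 : ∑ η ∈ sec d L (n + 1), mu g φ η * (g (η z) * H η) =
      ∑ η ∈ (sec d L (n + 1)).filter (fun η => 1 ≤ η z), mu g φ η * (g (η z) * H η) := by
    rw [Finset.sum_filter]
    refine Finset.sum_congr rfl fun η _ => ?_
    split_ifs with h
    · rfl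
    · have : η z = 0 := by omega
      rw [this, hg.zero]
      ring
  rw [h1, Finset.mul_sum]
  refine Finset.sum_nbij' (fun η => η - Pi.single z 1) (fun ξ => ξ + Pi.single z 1) ?_ ?_ ?_ ?_ ?_
  · intro η hη
    rw [Finset.mem_filter, C5_mem] at hη
    rw [C5_mem]
    have := C5_sum_add (η - Pi.single z 1) z
    rw [C5_sub η z hη.2, hη.1] at this
    omega
  · intro ξ hξ
    rw [C5_mem] at hξ
    rw [Finset.mem_filter, C5_mem, C5_sum_add, hξ]
    refine ⟨rfl, ?_⟩
    simp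
  · intro η hη
    rw [Finset.mem_filter] at hη
    exact C5_sub η z hη.2
  · intro ξ _
    ext x
    simp
  · intro η hη
    rw [Finset.mem_filter] at hη
    have h2 := C5_mu hg φ z (η - Pi.single z 1)
    rw [C5_sub η z hη.2] at h2
    calc mu g φ η * (g (η z) * H η) = (mu g φ η * g (η z)) * H η := by ring
      _ = φ * (mu g φ (η - Pi.single z 1) * H ((η - Pi.single z 1) + Pi.single z 1)) := by
        rw [h2, C5_sub η z hη.2]
        ring

/-- C5 -/
theorem stat_zero (hg : IsRate g Γm Γp) (φ : ℝ) (n : ℕ) (F : Cfg d L → ℝ) :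
    ∑ η ∈ sec d L n, mu g φ η *
      (∑ z, ∑ e : Dir d, g (η z) / (2 * d) * (F (mv η z (z + stp e)) - F η)) = 0 := by
  classical
  cases n with
  | zero =>
    refine Finset.sum_eq_zero fun η hη => ?_
    rw [C5_mem] at hη
    have h0 : ∀ z, η z = 0 := fun z => by
      have := Finset.sum_eq_zero_iff.mp hη z (Finset.mem_univ z)
      exact this
    have : (∑ z, ∑ e : Dir d, g (η z) / (2 * d) * (F (mv η z (z + stp e)) - F η)) = 0 := by
      refine Finset.sum_eq_zero fun z _ => Finset.sum_eq_zero fun e _ => ?_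
      rw [h0 z, hg.zero]
      simp
    rw [this, mul_zero]
  | succ n =>
    have h1 : ∀ η : Cfg d L, mu g φ η *
        (∑ z, ∑ e : Dir d, g (η z) / (2 * d) * (F (mv η z (z + stp e)) - F η)) =
        ∑ z, ∑ e : Dir d, mu g φ η * (g (η z) * ((F (mv η z (z + stp e)) - F η) / (2 * d))) := by
      intro η
      rw [Finset.mul_sum]
      refine Finset.sum_congr rfl fun z _ => ?_
      rw [Finset.mul_sum]
      refine Finset.sum_congr rfl fun e _ => ?_
      ring
    rw [Finset.sum_congr rfl fun η _ => h1 η, Finset.sum_comm]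
    have h2 : ∀ z : Tor d L, ∑ η ∈ sec d L (n + 1), ∑ e : Dir d,
        mu g φ η * (g (η z) * ((F (mv η z (z + stp e)) - F η) / (2 * d))) =
        ∑ e : Dir d, φ * ∑ ξ ∈ sec d L n, mu g φ ξ *
          ((F (ξ + Pi.single (z + stp e) 1) - F (ξ + Pi.single z 1)) / (2 * d)) := by
      intro z
      rw [Finset.sum_comm]
      refine Finset.sum_congr rfl fun e _ => ?_
      rw [ZRI.palm hg φ n z (fun η => (F (mv η z (z + stp e)) - F η) / (2 * d))]
      congr 1
      refine Finset.sum_congr rfl fun ξ _ => ?_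
      rw [ZRI.mv_add_self]
    rw [Finset.sum_congr rfl fun z _ => h2 z, Finset.sum_comm]
    refine Finset.sum_eq_zero fun e _ => ?_
    rw [← Finset.mul_sum, Finset.sum_comm]
    have h3 : ∀ ξ : Cfg d L, ∑ z : Tor d L, mu g φ ξ *
        ((F (ξ + Pi.single (z + stp e) 1) - F (ξ + Pi.single z 1)) / (2 * d)) = 0 := by
      intro ξ
      rw [← Finset.mul_sum, ← Finset.sum_div, Finset.sum_sub_distrib]
      have : ∑ z : Tor d L, F (ξ + Pi.single (z + stp e) 1) =
          ∑ z : Tor d L, F (ξ + Pi.single z 1) :=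
        Equiv.sum_comp (Equiv.addRight (stp e : Tor d L)) (fun z => F (ξ + Pi.single z 1))
      rw [this, sub_self, zero_div, mul_zero]
    rw [Finset.sum_congr rfl fun ξ _ => h3 ξ]
    simp

/-- C5 -/
theorem palm_le (hg : IsRate g Γm Γp) {φ : ℝ} (hφ : 0 < φ) (n : ℕ) (z : Tor d L)
    (H : Cfg d L → ℝ) (hH : ∀ ξ, 0 ≤ H ξ) :
    ∑ η ∈ sec d L (n + 1), mu g φ η * (if 1 ≤ η z then H (η - Pi.single z 1) else 0) ≤
      φ / Γm * ∑ ξ ∈ sec d L n, mu g φ ξ * H ξ := by
  have hΓ := hg.pos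
  have hwt : ∀ k, 0 ≤ wt g φ k := fun k => by
    unfold wt
    refine div_nonneg (pow_nonneg hφ.le k) (Finset.prod_nonneg fun i _ => ZRI.g_nonneg hg _)
  have hm1 : ∀ k, 0 ≤ m1 g φ k := fun k => by
    unfold m1
    exact div_nonneg (hwt k) (tsum_nonneg hwt)
  have hmu : ∀ η : Cfg d L, 0 ≤ mu g φ η := fun η => by
    unfold mu
    exact Finset.prod_nonneg fun x _ => hm1 _
  have h := ZRI.palm hg φ n z (fun η => H (η - Pi.single z 1))
  have h2 : ∑ ξ ∈ sec d L n, mu g φ ξ * H ((ξ + Pi.single z 1 : Cfg d L) - Pi.single z 1) =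
      ∑ ξ ∈ sec d L n, mu g φ ξ * H ξ := by
    refine Finset.sum_congr rfl fun ξ _ => ?_
    congr 2
    ext x
    simp
  rw [h2] at h
  have h3 : Γm * ∑ η ∈ sec d L (n + 1), mu g φ η *
      (if 1 ≤ η z then H (η - Pi.single z 1) else 0) ≤
      ∑ η ∈ sec d L (n + 1), mu g φ η * (g (η z) * H (η - Pi.single z 1)) := by
    rw [Finset.mul_sum]
    refine Finset.sum_le_sum fun η _ => ?_
    split_ifs with h4
    · have h5 := ZRI.g_pos hg (η z) h4
      have h6 := hmu η
      have h7 := hH (η - Pi.single z 1)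
      calc Γm * (mu g φ η * H (η - Pi.single z 1))
          = mu g φ η * (Γm * H (η - Pi.single z 1)) := by ring
        _ ≤ mu g φ η * (g (η z) * H (η - Pi.single z 1)) := by gcongr
    · have h5 := ZRI.g_nonneg hg (η z)
      have h6 := hmu η
      have h7 := hH (η - Pi.single z 1)
      simp only [mul_zero]
      positivity
  rw [h] at h3
  rw [div_mul_eq_mul_div, le_div_iff₀ hΓ]
  linarith

end ZRI
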