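import Pool.Agent.ZRI.Defs
import Pool.Agent.ZRI.C6a

open scoped BigOperators ENNReal Topology
open MeasureTheory Filter

namespace ZRI

variable {d L : ℕ} {g : ℕ → ℝ} {Γm Γp : ℝ}

/-- C6: product bound -/
theorem mu_prod (hg : IsRate g Γm Γp) {φ : ℝ} (hφ : 0 < φ) (f : Tor d L → ℕ → ℝ)
    (hf : ∀ x n, 0 ≤ f x n) (B : Tor d L → ℝ)
    (hB : ∀ x, ∀ N : ℕ, ∑ n ∈ Finset.range N, m1 g φ n * f x n ≤ B x)
    (T : Finset (Cfg d L)) : ∑ η ∈ T, mu g φ η * ∏ x, f x (η x) ≤ ∏ x, B x := by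
  classical
  have hm : ∀ n, 0 ≤ m1 g φ n := fun n => ((ZRI.m1_sum hg hφ).2.2.1 n).le
  obtain ⟨N, hN⟩ : ∃ N : ℕ, ∀ η ∈ T, ∀ x, η x < N := by
    refine ⟨T.sup (fun η => Finset.univ.sup η) + 1, fun η hη x => ?_⟩
    have h1 : η x ≤ Finset.univ.sup η := Finset.le_sup (f := η) (Finset.mem_univ x)
    have h2 : Finset.univ.sup η ≤ T.sup (fun η => Finset.univ.sup η) :=
      Finset.le_sup (f := fun η : Cfg d L => Finset.univ.sup η) hη
    omega
  have hsub : T ⊆ Fintype.piFinset (fun _ : Tor d L => Finset.range N) := by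
    intro η hη
    rw [Fintype.mem_piFinset]
    intro x
    exact Finset.mem_range.2 (hN η hη x)
  calc ∑ η ∈ T, mu g φ η * ∏ x, f x (η x) = ∑ η ∈ T, ∏ x, (m1 g φ (η x) * f x (η x)) := by
        refine Finset.sum_congr rfl fun η _ => ?_
        rw [mu, Finset.prod_mul_distrib]
    _ ≤ ∑ η ∈ Fintype.piFinset (fun _ : Tor d L => Finset.range N), ∏ x, (m1 g φ (η x) * f x (η x)) :=
        Finset.sum_le_sum_of_subset_of_nonneg hsub fun η _ _ =>
          Finset.prod_nonneg fun x _ => mul_nonneg (hm _) (hf _ _)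
    _ = ∏ x, ∑ n ∈ Finset.range N, m1 g φ n * f x n :=
        (Finset.prod_univ_sum (fun _ : Tor d L => Finset.range N) fun x n => m1 g φ n * f x n).symm
    _ ≤ ∏ x, B x := Finset.prod_le_prod
        (fun x _ => Finset.sum_nonneg fun n _ => mul_nonneg (hm _) (hf _ _)) fun x _ => hB x N

/-- partial sums of the marginal -/
theorem C6b_one (hg : IsRate g Γm Γp) {φ : ℝ} (hφ : 0 < φ) (N : ℕ) :
    ∑ n ∈ Finset.range N, m1 g φ n ≤ 1 := by
  obtain ⟨h1, h2, h3, -, -⟩ := ZRI.m1_sum hg hφ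
  rw [← h2]
  exact h1.sum_le_tsum _ fun n _ => (h3 n).le

/-- C6 -/
theorem mu_le_one (hg : IsRate g Γm Γp) {φ : ℝ} (hφ : 0 < φ) (T : Finset (Cfg d L)) :
    ∑ η ∈ T, mu g φ η ≤ 1 := by
  have h := mu_prod hg hφ (fun _ : Tor d L => fun _ => (1 : ℝ)) (fun _ _ => zero_le_one)
    (fun _ => 1) (fun x N => by simpa using C6b_one hg hφ N) T
  simpa using h

/-- C6 -/
theorem mu_first (hg : IsRate g Γm Γp) {φ : ℝ} (hφ : 0 < φ) (T : Finset (Cfg d L)) (x : Tor d L) :
    ∑ η ∈ T, mu g φ η * η x ≤ dens g φ := by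
  classical
  obtain ⟨h1, h2, h3, h4, -⟩ := ZRI.m1_sum hg hφ
  have h := mu_prod hg hφ (fun y : Tor d L => fun n => if y = x then (n : ℝ) else 1)
    (fun y n => by split_ifs <;> positivity)
    (fun y => if y = x then dens g φ else 1) (fun y N => by
      by_cases hy : y = x
      · simp only [hy, if_true]
        have h5 := h4.sum_le_tsum (Finset.range N) fun n _ => mul_nonneg (Nat.cast_nonneg n) (h3 n).le
        rw [dens]
        refine le_trans (le_of_eq ?_) h5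
        exact Finset.sum_congr rfl fun n _ => mul_comm _ _
      · simp only [hy, if_false, mul_one]
        exact C6b_one hg hφ N) T
  simpa [Finset.prod_ite_eq'] using h

end ZRI
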