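import Pool.Agent.ZRI.Defs2
import Pool.Agent.ZRI.A1
import Pool.Agent.ZRI.A2
import Pool.Agent.ZRI.C5
import Pool.Agent.ZRI.C6a
import Pool.Agent.ZRI.C6b
import Pool.Agent.ZRI.T1
import Pool.Agent.ZRI.T4

open scoped BigOperators ENNReal Topology
open MeasureTheory Filter

namespace ZRI

variable {d L : ℕ} {g : ℕ → ℝ} {Γm Γp : ℝ}

theorem T5_mem_sec (n : ℕ) (η : Cfg d L) : η ∈ sec d L n ↔ ∑ z, η z = n := by
  unfold sec
  rw [Finset.mem_piAntidiag]
  constructor
  · exact fun h => h.1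
  · exact fun h => ⟨h, fun i _ => Finset.mem_univ i⟩

theorem T5_Gh_mem (hd : 1 ≤ d) (hg : IsRate g Γm Γp) (T : Tor d L → Prop) (t : ℝ) (ht : 0 ≤ t)
    (η : Cfg d L) (x : Tor d L) : 0 ≤ Gh g T t η x ∧ Gh g T t η x ≤ 1 :=
  ZRI.Qh_mem hd hg T t ht _

theorem T5_Gh_zero (T : Tor d L → Prop) (η : Cfg d L) (x : Tor d L) (hx : ¬ T x) :
    Gh g T 0 η x = 0 := by
  unfold Gh Qh
  rw [ZRI.sg_zero, Set.indicator_of_notMem]
  intro h
  obtain ⟨y, hy, hT⟩ := h
  rw [Finset.mem_singleton] at hy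
  rw [hy] at hT
  exact hx hT

theorem T5_mass (hg : IsRate g Γm Γp) {φ : ℝ} (hφ : 0 < φ) (n : ℕ) :
    ∑ m ∈ Finset.range (n + 1), ∑ η ∈ sec d L m, mu g φ η ≤ 1 := by
  classical
  rw [← Finset.sum_biUnion]
  · exact ZRI.mu_le_one hg hφ _
  · intro a _ b _ hab
    rw [Function.onFun, Finset.disjoint_left]
    intro η h1 h2
    rw [T5_mem_sec] at h1 h2
    exact hab (h1.symm.trans h2)

theorem T5_single_sub (ξ : Cfg d L) (x : Tor d L) : ξ + Pi.single x 1 - Pi.single x 1 = ξ := by
  funext z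
  rw [Pi.sub_apply, Pi.add_apply]
  omega

theorem Vh_le (hd : 1 ≤ d) (hL : 1 ≤ L) (hg : IsRate g Γm Γp) {φ : ℝ} (hφ : 0 < φ)
    (T : Tor d L → Prop) (W : Tor d L → ℝ) (hW0 : ∀ x, T x → 0 ≤ W x)
    (hW : ∀ x (e : Dir d), W (x + stp e) ≤ W x + 1) (n : ℕ) (x : Tor d L) (t : ℝ) (ht : 0 ≤ t) :
    ∑ m ∈ Finset.range (n + 1), ∑ η ∈ sec d L m, mu g φ η * Gh g T t η x ≤
      Real.exp (kap φ Γm Γp * t + W x) := by
  classical
  have hdR : (0 : ℝ) < d := by exact_mod_cast hd
  have hΓm : 0 < Γm := hg.pos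
  have hΓp : 0 ≤ Γp := zero_le_one.trans hg.one_le
  have hmu : ∀ η : Cfg d L, 0 ≤ mu g φ η := fun η => (ZRI.mu_pos hg hφ η).le
  have hmem : ∀ t, 0 ≤ t → ∀ (η : Cfg d L) x, 0 ≤ Gh g T t η x ∧ Gh g T t η x ≤ 1 :=
    fun t ht η x => T5_Gh_mem hd hg T t ht η x
  have hcard : (Finset.univ : Finset (Dir d)).card = 2 * d := by
    rw [Finset.card_univ, Fintype.card_prod, Fintype.card_fin, Fintype.card_bool, mul_comm]
  -- the function V
  obtain ⟨V, hV⟩ : ∃ V : ℕ → ℝ → Tor d L → ℝ, V = fun k s y =>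
      ∑ m ∈ Finset.range k, ∑ η ∈ sec d L m, mu g φ η * Gh g T s η y := ⟨_, rfl⟩
  have hVnn : ∀ k s, 0 ≤ s → ∀ y, 0 ≤ V k s y := fun k s hs y => by
    rw [hV]
    exact Finset.sum_nonneg fun m _ => Finset.sum_nonneg fun η _ => mul_nonneg (hmu η) (hmem s hs η y).1
  have hVmono : ∀ s, 0 ≤ s → ∀ y, V n s y ≤ V (n + 1) s y := fun s hs y => by
    rw [hV]
    refine Finset.sum_le_sum_of_subset_of_nonneg (Finset.range_mono (Nat.le_succ n)) ?_
    intro m _ _
    exact Finset.sum_nonneg fun η _ => mul_nonneg (hmu η) (hmem s hs η y).1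
  have hVle : ∀ s, 0 ≤ s → ∀ y, V (n + 1) s y ≤ 1 := fun s hs y => by
    refine le_trans ?_ (T5_mass (d := d) (L := L) hg hφ n)
    rw [hV]
    refine Finset.sum_le_sum fun m _ => Finset.sum_le_sum fun η _ => ?_
    exact mul_le_of_le_one_right (hmu η) (hmem s hs η y).2
  -- the derivative
  have hex : ∀ s : ℝ, ∀ (η : Cfg d L) (y : Tor d L), ∃ D : ℝ, 0 ≤ s → (HasDerivAt (fun u => Gh g T u η y) D s ∧
      D ≤ (∑ z, ∑ e : Dir d, g (η z) / (2 * d) * (Gh g T s (mv η z (z + stp e)) y - Gh g T s η y)) +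
        Γp / (2 * d) * (∑ e : Dir d, Gh g T s η (y + stp e)) +
        g (η y) / (2 * d) * (∑ e : Dir d, Gh g T s (η - Pi.single y 1) (y + stp e)) +
        (if 1 ≤ η y then Γp * Gh g T s (η - Pi.single y 1) y else 0)) := by
    intro s η y
    by_cases hs : 0 ≤ s
    · obtain ⟨D, hD⟩ := ZRI.Gh_deriv hd hL hg T s hs η y
      exact ⟨D, fun _ => hD⟩
    · exact ⟨0, fun h => absurd h hs⟩
  choose D hD using hex
  obtain ⟨E, hE⟩ : ∃ E : ℝ → Tor d L → ℝ, E = fun s y => Real.exp (kap φ Γm Γp * s + W y) := ⟨_, rfl⟩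
  have hEpos : ∀ s y, 0 < E s y := fun s y => by rw [hE]; exact Real.exp_pos _
  have hEstep : ∀ s y (e : Dir d), E s (y + stp e) ≤ Real.exp 1 * E s y := by
    intro s y e
    rw [hE]
    simp only
    rw [← Real.exp_add]
    apply Real.exp_le_exp.2
    have := hW y e
    linarith
  obtain ⟨C, hC⟩ : ∃ C : ℝ, C = (Γp + φ) + Γp * φ / Γm := ⟨_, rfl⟩
  have hC0 : 0 ≤ C := by rw [hC]; positivity
  -- main differential inequality
  have key : ∀ s, 0 ≤ s → ∀ y, ∑ m ∈ Finset.range (n + 1), ∑ η ∈ sec d L m, mu g φ η * D s η y ≤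
      (Γp + φ) / (2 * d) * (∑ e : Dir d, V (n + 1) s (y + stp e)) + Γp * φ / Γm * V (n + 1) s y := by
    intro s hs y
    have h1 : ∑ m ∈ Finset.range (n + 1), ∑ η ∈ sec d L m, mu g φ η * D s η y ≤
        ∑ m ∈ Finset.range (n + 1), ∑ η ∈ sec d L m,
          (mu g φ η * (∑ z, ∑ e : Dir d, g (η z) / (2 * d) *
              (Gh g T s (mv η z (z + stp e)) y - Gh g T s η y)) +
            Γp / (2 * d) * (∑ e : Dir d, mu g φ η * Gh g T s η (y + stp e)) +
            mu g φ η * (g (η y) * ((∑ e : Dir d, Gh g T s (η - Pi.single y 1) (y + stp e)) / (2 * d))) +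
            Γp * (mu g φ η * (if 1 ≤ η y then Gh g T s (η - Pi.single y 1) y else 0))) := by
      refine Finset.sum_le_sum fun m _ => Finset.sum_le_sum fun η _ => ?_
      refine (mul_le_mul_of_nonneg_left (hD s η y hs).2 (hmu η)).trans (le_of_eq ?_)
      rw [← Finset.mul_sum]
      split_ifs <;> ring
    refine h1.trans ?_
    simp only [Finset.sum_add_distrib]
    have e1 : ∑ m ∈ Finset.range (n + 1), ∑ η ∈ sec d L m,
        mu g φ η * (∑ z, ∑ e : Dir d, g (η z) / (2 * d) *
              (Gh g T s (mv η z (z + stp e)) y - Gh g T s η y)) = 0 :=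
      Finset.sum_eq_zero fun m _ => ZRI.stat_zero hg φ m (fun η => Gh g T s η y)
    have e2 : ∑ m ∈ Finset.range (n + 1), ∑ η ∈ sec d L m,
        Γp / (2 * d) * (∑ e : Dir d, mu g φ η * Gh g T s η (y + stp e)) =
        Γp / (2 * d) * ∑ e : Dir d, V (n + 1) s (y + stp e) := by
      rw [hV]
      simp only
      rw [Finset.sum_comm (s := (Finset.univ : Finset (Dir d))), Finset.mul_sum]
      refine Finset.sum_congr rfl fun m _ => ?_
      rw [Finset.sum_comm (s := (Finset.univ : Finset (Dir d))), Finset.mul_sum]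
    have e3 : ∑ m ∈ Finset.range (n + 1), ∑ η ∈ sec d L m,
        mu g φ η * (g (η y) * ((∑ e : Dir d, Gh g T s (η - Pi.single y 1) (y + stp e)) / (2 * d))) ≤
        φ / (2 * d) * ∑ e : Dir d, V (n + 1) s (y + stp e) := by
      rw [Finset.sum_range_succ']
      have z1 : ∑ η ∈ sec d L 0, mu g φ η * (g (η y) *
          ((∑ e : Dir d, Gh g T s (η - Pi.single y 1) (y + stp e)) / (2 * d))) = 0 := by
        refine Finset.sum_eq_zero fun η hη => ?_
        rw [T5_mem_sec] at hη
        have : η y = 0 := by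
          have h2 := Finset.single_le_sum (f := η) (fun i _ => Nat.zero_le _) (Finset.mem_univ y)
          omega
        rw [this, hg.zero]
        ring
      rw [z1, add_zero]
      have z2 : ∀ m ∈ Finset.range n, ∑ η ∈ sec d L (m + 1), mu g φ η * (g (η y) *
          ((∑ e : Dir d, Gh g T s (η - Pi.single y 1) (y + stp e)) / (2 * d))) =
          φ / (2 * d) * ∑ e : Dir d, ∑ ξ ∈ sec d L m, mu g φ ξ * Gh g T s ξ (y + stp e) := by
        intro m _
        have hp := ZRI.palm hg φ m y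
          (fun η => (∑ e : Dir d, Gh g T s (η - Pi.single y 1) (y + stp e)) / (2 * d))
        simp only [T5_single_sub] at hp
        refine hp.trans ?_
        rw [Finset.sum_comm (s := (Finset.univ : Finset (Dir d))), Finset.mul_sum, Finset.mul_sum]
        refine Finset.sum_congr rfl fun ξ _ => ?_
        rw [← Finset.mul_sum]
        ring
      rw [Finset.sum_congr rfl z2, ← Finset.mul_sum]
      refine mul_le_mul_of_nonneg_left ?_ (by positivity)
      rw [Finset.sum_comm]
      refine Finset.sum_le_sum fun e _ => ?_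
      have := hVmono s hs (y + stp e)
      rw [hV] at this ⊢
      exact this
    have e4 : ∑ m ∈ Finset.range (n + 1), ∑ η ∈ sec d L m,
        Γp * (mu g φ η * (if 1 ≤ η y then Gh g T s (η - Pi.single y 1) y else 0)) ≤
        Γp * φ / Γm * V (n + 1) s y := by
      simp only [← Finset.mul_sum]
      rw [mul_div_assoc, mul_assoc]
      refine mul_le_mul_of_nonneg_left ?_ hΓp
      rw [Finset.sum_range_succ']
      have z1 : ∑ η ∈ sec d L 0, mu g φ η *
          (if 1 ≤ η y then Gh g T s (η - Pi.single y 1) y else 0) = 0 := by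
        refine Finset.sum_eq_zero fun η hη => ?_
        rw [T5_mem_sec] at hη
        have : ¬ 1 ≤ η y := by
          have h2 := Finset.single_le_sum (f := η) (fun i _ => Nat.zero_le _) (Finset.mem_univ y)
          omega
        rw [if_neg this, mul_zero]
      rw [z1, add_zero]
      have z2 : ∑ m ∈ Finset.range n, ∑ η ∈ sec d L (m + 1), mu g φ η *
          (if 1 ≤ η y then Gh g T s (η - Pi.single y 1) y else 0) ≤
          ∑ m ∈ Finset.range n, φ / Γm * ∑ ξ ∈ sec d L m, mu g φ ξ * Gh g T s ξ y :=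
        Finset.sum_le_sum fun m _ => ZRI.palm_le hg hφ m y (fun ξ => Gh g T s ξ y)
          (fun ξ => (hmem s hs ξ y).1)
      refine z2.trans ?_
      rw [← Finset.mul_sum]
      refine mul_le_mul_of_nonneg_left ?_ (by positivity)
      have := hVmono s hs y
      rw [hV] at this ⊢
      exact this
    rw [e1, e2]
    have : (Γp + φ) / (2 * (d : ℝ)) = Γp / (2 * d) + φ / (2 * d) := by ring
    rw [this, add_mul]
    linarith
  -- comparison
  have hfin := ZRI.cmp (S := Tor d L) (fun _ => True) (fun s y => V (n + 1) s y - E s y)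
    (fun s y => (∑ m ∈ Finset.range (n + 1), ∑ η ∈ sec d L m, mu g φ η * D s η y) -
      kap φ Γm Γp * E s y) (fun _ => 0) C 1 t hC0 (fun y _ => by rw [abs_zero]; exact hC0)
    (fun y _ s hs _ => ?_) (fun y _ s hs _ => ?_) (fun y _ s hs _ B hB hall => ?_) (fun y _ => ?_)
    t ht le_rfl x trivial
  · have h2 : V (n + 1) t x ≤ E t x := by linarith
    rw [hV, hE] at h2
    exact h2
  · have d1 : HasDerivAt (fun u => V (n + 1) u y)
        (∑ m ∈ Finset.range (n + 1), ∑ η ∈ sec d L m, mu g φ η * D s η y) s := by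
      rw [hV]
      simp only
      refine HasDerivAt.fun_sum fun m _ => HasDerivAt.fun_sum fun η _ => ?_
      exact (hD s η y hs).1.const_mul _
    have d2 : HasDerivAt (fun u => E u y) (kap φ Γm Γp * E s y) s := by
      rw [hE]
      have h3 : HasDerivAt (fun u : ℝ => kap φ Γm Γp * u + W y) (kap φ Γm Γp) s := by
        have := ((hasDerivAt_id s).const_mul (kap φ Γm Γp)).add_const (W y)
        simpa using this
      have h4 := h3.exp
      rw [mul_comm]
      exact h4
    exact d1.sub d2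
  · have h5 := hVle s hs y
    have h6 := (hEpos s y).le
    linarith
  · have hV' : ∀ z, V (n + 1) s z ≤ B + E s z := fun z => by
      have := hall z trivial
      linarith
    have h7 := key s hs y
    have h8 : (Γp + φ) / (2 * d) * (∑ e : Dir d, V (n + 1) s (y + stp e)) ≤
        (Γp + φ) * (B + Real.exp 1 * E s y) := by
      have h9 : ∑ e : Dir d, V (n + 1) s (y + stp e) ≤ ∑ _e : Dir d, (B + Real.exp 1 * E s y) := by
        refine Finset.sum_le_sum fun e _ => ?_
        have := hV' (y + stp e)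
        have := hEstep s y e
        linarith
      rw [Finset.sum_const, hcard, nsmul_eq_mul] at h9
      have h10 := mul_le_mul_of_nonneg_left h9 (show 0 ≤ (Γp + φ) / (2 * (d : ℝ)) by positivity)
      refine h10.trans (le_of_eq ?_)
      push_cast
      field_simp
    have h11 : Γp * φ / Γm * V (n + 1) s y ≤ Γp * φ / Γm * (B + E s y) :=
      mul_le_mul_of_nonneg_left (hV' y) (by positivity)
    have h12 : kap φ Γm Γp * E s y = Real.exp 1 * (Γp + φ) * E s y + Γp * φ / Γm * E s y := by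
      unfold kap
      ring
    rw [zero_mul, zero_add, hC, h12]
    linarith
  · by_cases hT : T y
    · have h13 := hVle 0 le_rfl y
      have h14 : 1 ≤ E 0 y := by
        rw [hE]
        simp only
        rw [mul_zero, zero_add]
        exact Real.one_le_exp (hW0 y hT)
      linarith
    · have h15 : V (n + 1) 0 y = 0 := by
        rw [hV]
        refine Finset.sum_eq_zero fun m _ => Finset.sum_eq_zero fun η _ => ?_
        rw [T5_Gh_zero T η y hT, mul_zero]
      have := (hEpos 0 y).le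
      linarith

end ZRI
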