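import Pool.Agent.ZRI.Defs2
import Pool.Agent.ZRI.B2
import Pool.Agent.ZRI.T1
import Pool.Agent.ZRI.T2
import Pool.Agent.ZRI.T4
import Pool.Agent.ZRI.T5

open scoped BigOperators ENNReal Topology
open MeasureTheory Filter

namespace ZRI

variable {d L : ℕ} {g : ℕ → ℝ} {Γm Γp : ℝ}

/-- C2 -/
theorem Qb_split (hd : 1 ≤ d) (hL : 1 ≤ L) (hg : IsRate g Γm Γp) (R : ℕ) (t : ℝ) (ht : 0 ≤ t)
    (η : Cfg d L) (c : Tor d L) (I : Finset (Tor d L)) :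
    Qb g 0 R t (η + Pi.single c 1, insert c I, insert c I) ≤
      Qb g 0 R t (η + Pi.single c 1, {c}, {c}) + Qb g 0 R t (η, I, I) :=
  ZRI.Qh_split hd hL hg (fun x => R < nrm x) t ht η c I

/-- C4 -/
theorem Gf_deriv (hd : 1 ≤ d) (hL : 1 ≤ L) (hg : IsRate g Γm Γp) (R : ℕ) (t : ℝ) (ht : 0 ≤ t)
    (η : Cfg d L) (x : Tor d L) :
    ∃ D : ℝ, HasDerivAt (fun u => Gf g R u η x) D t ∧
      D ≤ (∑ z, ∑ e : Dir d, g (η z) / (2 * d) * (Gf g R t (mv η z (z + stp e)) x - Gf g R t η x)) +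
        Γp / (2 * d) * (∑ e : Dir d, Gf g R t η (x + stp e)) +
        g (η x) / (2 * d) * (∑ e : Dir d, Gf g R t (η - Pi.single x 1) (x + stp e)) +
        (if 1 ≤ η x then Γp * Gf g R t (η - Pi.single x 1) x else 0) :=
  ZRI.Gh_deriv hd hL hg (fun x => R < nrm x) t ht η x

/-- C4 -/
theorem Gf_mem (hd : 1 ≤ d) (hg : IsRate g Γm Γp) (R : ℕ) (t : ℝ) (ht : 0 ≤ t)
    (η : Cfg d L) (x : Tor d L) : 0 ≤ Gf g R t η x ∧ Gf g R t η x ≤ 1 :=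
  ZRI.Qh_mem hd hg (fun x => R < nrm x) t ht _

/-- C7 -/
theorem V_le (hd : 1 ≤ d) (hL : 1 ≤ L) (hg : IsRate g Γm Γp) {φ : ℝ} (hφ : 0 < φ) (R n : ℕ)
    (x : Tor d L) (t : ℝ) (ht : 0 ≤ t) :
    ∑ m ∈ Finset.range (n + 1), ∑ η ∈ sec d L m, mu g φ η * Gf g R t η x ≤
      Real.exp (kap φ Γm Γp * t + nrm x - R) := by
  have h := ZRI.Vh_le hd hL hg hφ (fun x : Tor d L => R < nrm x) (fun x => (nrm x : ℝ) - R)
    (fun x hx => by
      have : (R : ℝ) < nrm x := by exact_mod_cast hx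
      linarith)
    (fun x e => by
      have : (nrm (x + stp e) : ℝ) ≤ nrm x + 1 := by exact_mod_cast ZRI.nrm_step x e
      linarith) n x t ht
  calc _ ≤ _ := h
    _ = _ := by congr 1; ring

end ZRI
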