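import Pool.Agent.ZRI.Defs

open scoped BigOperators ENNReal Topology
open MeasureTheory Filter

namespace ZRI

open ZRI

variable {d L : ℕ}

theorem C7a_mem (η : Cfg d L) (n : ℕ) : η ∈ sec d L n ↔ ∑ z, η z = n := by
  unfold sec
  rw [Finset.mem_piAntidiag]
  constructor
  · intro h
    exact h.1
  · intro h
    exact ⟨h, fun i _ => Finset.mem_univ i⟩

/-- C7 -/
theorem tsum_le_sec (f : Cfg d L → ℝ) (hf : ∀ η, 0 ≤ f η) (B : ℝ)
    (hB : ∀ n : ℕ, ∑ m ∈ Finset.range (n + 1), ∑ η ∈ sec d L m, f η ≤ B) :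
    ∑' η, f η ≤ B := by
  have hB0 : 0 ≤ B := by
    refine le_trans ?_ (hB 0)
    exact Finset.sum_nonneg (fun m _ => Finset.sum_nonneg (fun η _ => hf η))
  refine tsum_le_of_sum_le' hB0 ?_
  intro T
  obtain ⟨N, hN⟩ : ∃ N : ℕ, ∀ η ∈ T, (∑ z, η z) ≤ N :=
    ⟨T.sup (fun η => ∑ z, η z), fun η hη => Finset.le_sup (f := fun η : Cfg d L => ∑ z, η z) hη⟩
  have hmaps : ∀ η ∈ T, (∑ z, η z) ∈ Finset.range (N + 1) := by
    intro η hη
    exact Finset.mem_range.mpr (Nat.lt_succ_of_le (hN η hη))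
  calc ∑ η ∈ T, f η = ∑ m ∈ Finset.range (N + 1), ∑ η ∈ T with (∑ z, η z) = m, f η :=
        (Finset.sum_fiberwise_of_maps_to hmaps f).symm
    _ ≤ ∑ m ∈ Finset.range (N + 1), ∑ η ∈ sec d L m, f η := by
        refine Finset.sum_le_sum (fun m _ => ?_)
        refine Finset.sum_le_sum_of_subset_of_nonneg ?_ (fun η _ _ => hf η)
        intro η hη
        rw [Finset.mem_filter] at hη
        exact (C7a_mem η m).mpr hη.2
    _ ≤ B := hB N

end ZRI
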