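import Pool.Agent.ZRI.Defs2
import Pool.Agent.ZRI.B4
import Pool.Agent.ZRI.C1
import Pool.Agent.ZRI.C3
import Pool.Agent.ZRI.C5
import Pool.Agent.ZRI.C6a
import Pool.Agent.ZRI.C7a
import Pool.Agent.ZRI.C2

open scoped BigOperators ENNReal Topology
open MeasureTheory Filter

namespace ZRI

open ZRI

variable {d L : ℕ} {g : ℕ → ℝ} {Γm Γp : ℝ}

theorem C8_nrm_zero : nrm (0 : Tor d L) = 0 := by
  unfold nrm
  simp

theorem C8_ind (s : St d L) (R : ℕ) :
    0 ≤ (bad d L R).indicator (1 : St d L → ℝ) s ∧ (bad d L R).indicator (1 : St d L → ℝ) s ≤ 1 := by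
  by_cases h : s ∈ bad d L R
  · rw [Set.indicator_of_mem h]
    simp
  · rw [Set.indicator_of_notMem h]
    simp

theorem C8_Qb_nonneg (hd : 1 ≤ d) (hg : IsRate g Γm Γp) (δ : ℝ≥0∞) (R : ℕ) (t : ℝ) (ht : 0 ≤ t)
    (s : St d L) : 0 ≤ Qb g δ R t s := by
  unfold Qb
  exact (ZRI.Gen_mem hd hg δ _ (fun s => (C8_ind s R).1) (fun s => (C8_ind s R).2) t ht s).1

theorem C8_sub_add (η : Cfg d L) (h : 1 ≤ η 0) :
    (η - Pi.single 0 1 : Cfg d L) + Pi.single 0 1 = η := by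
  funext z
  by_cases hz : z = 0
  · subst hz
    simp only [Pi.add_apply, Pi.sub_apply, Pi.single_eq_same]
    omega
  · simp only [Pi.add_apply, Pi.sub_apply, Pi.single_eq_of_ne hz]
    omega

theorem C8_ini_le (hd : 1 ≤ d) (hg : IsRate g Γm Γp) (δ : ℝ≥0∞) (R : ℕ) (t : ℝ) (ht : 0 ≤ t)
    (η : Cfg d L) :
    Qb g δ R t (ini δ η) ≤ if 1 ≤ η 0 then Gf g R t (η - Pi.single 0 1) 0 else 0 := by
  by_cases h : 1 ≤ η 0
  · rw [if_pos h]
    have h1 : ini δ η = (η, (if 1 ≤ η 0 ∧ (δ = ⊤ → 2 ≤ η 0) then {0} else ∅), {0}) := by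
      unfold ini
      rw [if_pos (c := 1 ≤ η 0) h]
    rw [h1]
    have h2 : Gf g R t (η - Pi.single 0 1) 0 = Qb g 0 R t (η, {0}, {0}) := by
      unfold Gf
      rw [C8_sub_add η h]
    rw [h2]
    refine ZRI.Qb_mono hd hg δ R t ht η _ _ _ _ ?_ (Finset.Subset.refl _)
    split_ifs
    · exact Finset.Subset.refl _
    · exact Finset.empty_subset _
  · rw [if_neg h]
    have h1 : ini δ η = (η, ∅, ∅) := by
      unfold ini
      rw [if_neg (c := 1 ≤ η 0) h, if_neg (fun hh => h hh.1)]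
    rw [h1, ZRI.Qb_empty]

/-- C8 -/
theorem prb_bad_le (hd : 1 ≤ d) (hL : 1 ≤ L) (hg : IsRate g Γm Γp) {φ : ℝ} (hφ : 0 < φ)
    (δ : ℝ≥0∞) (R : ℕ) (t : ℝ) (ht : 0 ≤ t) :
    prb d L g φ δ t (bad d L R) ≤ φ / Γm * Real.exp (kap φ Γm Γp * t - R) := by
  have hc : 0 ≤ φ / Γm := div_nonneg hφ.le hg.pos.le
  have hmu : ∀ η : Cfg d L, 0 ≤ mu g φ η := fun η => (ZRI.mu_pos hg hφ η).le
  have key : prb d L g φ δ t (bad d L R) = ∑' η : Cfg d L, mu g φ η * Qb g δ R t (ini δ η) := rfl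
  rw [key]
  refine ZRI.tsum_le_sec _ (fun η => mul_nonneg (hmu η) (C8_Qb_nonneg hd hg δ R t ht _)) _ ?_
  intro n
  have hG : ∀ ξ : Cfg d L, 0 ≤ Gf g R t ξ 0 := fun ξ => (ZRI.Gf_mem hd hg R t ht ξ 0).1
  have hstep : ∀ η : Cfg d L, mu g φ η * Qb g δ R t (ini δ η) ≤
      mu g φ η * (if 1 ≤ η 0 then Gf g R t (η - Pi.single 0 1) 0 else 0) := fun η =>
    mul_le_mul_of_nonneg_left (C8_ini_le hd hg δ R t ht η) (hmu η)
  have h0 : ∑ η ∈ sec d L 0, mu g φ η * Qb g δ R t (ini δ η) ≤ 0 := by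
    refine Finset.sum_nonpos ?_
    intro η hη
    refine le_trans (hstep η) ?_
    have hz : η 0 = 0 := by
      have h1 : ∑ z, η z = 0 := by
        have := hη
        unfold sec at this
        rw [Finset.mem_piAntidiag] at this
        exact this.1
      exact (Finset.sum_eq_zero_iff.mp h1) 0 (Finset.mem_univ _)
    rw [if_neg (by rw [hz]; omega), mul_zero]
  have h1 : ∀ m : ℕ, ∑ η ∈ sec d L (m + 1), mu g φ η * Qb g δ R t (ini δ η) ≤
      φ / Γm * ∑ ξ ∈ sec d L m, mu g φ ξ * Gf g R t ξ 0 := by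
    intro m
    refine le_trans (Finset.sum_le_sum (fun η _ => hstep η)) ?_
    exact ZRI.palm_le hg hφ m 0 (fun ξ => Gf g R t ξ 0) hG
  rw [Finset.sum_range_succ']
  have h2 : ∑ m ∈ Finset.range n, ∑ η ∈ sec d L (m + 1), mu g φ η * Qb g δ R t (ini δ η) ≤
      φ / Γm * Real.exp (kap φ Γm Γp * t - R) := by
    refine le_trans (Finset.sum_le_sum (fun m _ => h1 m)) ?_
    rw [← Finset.mul_sum]
    refine mul_le_mul_of_nonneg_left ?_ hc
    rcases n with _ | k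
    · simp only [Finset.range_zero, Finset.sum_empty]
      exact (Real.exp_pos _).le
    · have := ZRI.V_le (L := L) hd hL hg hφ R k 0 t ht
      rw [C8_nrm_zero] at this
      simpa using this
  linarith

end ZRI
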