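import Pool.Agent.ZRI.Defs2
import Pool.Agent.ZRI.B2

open scoped BigOperators ENNReal Topology
open MeasureTheory Filter

namespace ZRI

variable {d L : ℕ} {g : ℕ → ℝ} {Γm Γp : ℝ}

theorem L1_mv (η : Cfg d L) (x y u : Tor d L) :
    mv η x y u = η u - (if u = x then 1 else 0) + (if u = y then 1 else 0) := by
  unfold mv
  rw [Pi.add_apply, Pi.sub_apply, Pi.single_apply, Pi.single_apply]

theorem L1_spr (η : Cfg d L) (I : Finset (Tor d L)) (x y u : Tor d L) :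
    u ∈ spr η I x y ↔
      (x ∈ I ∧ (u = y ∨ (u ∈ I ∧ (η x = 1 → u ≠ x)))) ∨ (x ∉ I ∧ u ∈ I) := by
  unfold spr
  by_cases hx : x ∈ I
  · rw [if_pos hx, Finset.mem_insert]
    by_cases h1 : η x = 1
    · rw [if_pos h1, Finset.mem_erase]
      constructor
      · rintro (h | h)
        · exact Or.inl ⟨hx, Or.inl h⟩
        · exact Or.inl ⟨hx, Or.inr ⟨h.2, fun _ => h.1⟩⟩
      · rintro (⟨_, h | h⟩ | h)
        · exact Or.inl h
        · exact Or.inr ⟨h.2 h1, h.1⟩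
        · exact absurd hx h.1
    · rw [if_neg h1]
      constructor
      · rintro (h | h)
        · exact Or.inl ⟨hx, Or.inl h⟩
        · exact Or.inl ⟨hx, Or.inr ⟨h, fun h2 => absurd h2 h1⟩⟩
      · rintro (⟨_, h | h⟩ | h)
        · exact Or.inl h
        · exact Or.inr h.1
        · exact absurd hx h.1
  · rw [if_neg hx]
    constructor
    · intro h
      exact Or.inr ⟨hx, h⟩
    · rintro (h | h)
      · exact absurd h.1 hx
      · exact h.2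

/-- membership in the infected set after a jump -/
theorem L1_inf (δ : ℝ≥0∞) (s : St d L) (x y u : Tor d L) :
    u ∈ (jmp δ s x y).2.1 ↔ u ∈ spr s.1 s.2.1 x y ∧ (δ = ⊤ → 2 ≤ mv s.1 x y u) := by
  unfold jmp
  by_cases hδ : δ = ⊤
  · change u ∈ (if δ = ⊤ then (spr s.1 s.2.1 x y).filter (fun z => 2 ≤ mv s.1 x y z)
      else spr s.1 s.2.1 x y) ↔ _
    rw [if_pos hδ, Finset.mem_filter]
    exact ⟨fun h => ⟨h.1, fun _ => h.2⟩, fun h => ⟨h.1, h.2 hδ⟩⟩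
  · change u ∈ (if δ = ⊤ then (spr s.1 s.2.1 x y).filter (fun z => 2 ≤ mv s.1 x y z)
      else spr s.1 s.2.1 x y) ↔ _
    rw [if_neg hδ]
    exact ⟨fun h => ⟨h, fun h2 => absurd h2 hδ⟩, fun h => h.1⟩

/-- membership in the visited set after a jump -/
theorem L1_vis (δ : ℝ≥0∞) (s : St d L) (x y u : Tor d L) :
    u ∈ (jmp δ s x y).2.2 ↔ u ∈ s.2.2 ∨ (x ∈ s.2.1 ∧ u = y) := by
  unfold jmp
  change u ∈ (if x ∈ s.2.1 then insert y s.2.2 else s.2.2) ↔ _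
  by_cases hx : x ∈ s.2.1
  · rw [if_pos hx, Finset.mem_insert]
    exact ⟨fun h => h.elim (fun h => Or.inr ⟨hx, h⟩) Or.inl,
      fun h => h.elim Or.inr (fun h => Or.inl h.2)⟩
  · rw [if_neg hx]
    exact ⟨Or.inl, fun h => h.elim id (fun h => absurd h.1 hx)⟩

theorem L1_occ (ζ : Cfg d L) (I : Finset (Tor d L)) (z w : Tor d L) (hz : 1 ≤ ζ z)
    (h : ∀ x ∈ I, 1 ≤ ζ x) (x : Tor d L) (hx : x ∈ spr ζ I z w) : 1 ≤ mv ζ z w x := by
  rw [L1_mv]
  rw [L1_spr] at hx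
  by_cases hw : x = w
  · rw [if_pos hw]; omega
  rw [if_neg hw]
  rcases hx with ⟨_, h1 | ⟨h1, h2⟩⟩ | ⟨h1, h2⟩
  · exact absurd h1 hw
  · have h3 := h x h1
    by_cases hxz : x = z
    · rw [if_pos hxz]
      subst hxz
      by_cases h4 : ζ x = 1
      · exact absurd rfl (h2 h4)
      · omega
    · rw [if_neg hxz]; omega
  · have h3 := h x h2
    have hxz : x ≠ z := fun h4 => h1 (h4 ▸ h2)
    rw [if_neg hxz]; omega

theorem L1_sub (ζ : Cfg d L) (I J : Finset (Tor d L)) (δ : ℝ≥0∞) (z w : Tor d L) (h : I ⊆ J) :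
    (jmp δ (ζ, I, J) z w).2.1 ⊆ (jmp δ (ζ, I, J) z w).2.2 := by
  intro x hx
  rw [L1_inf, L1_spr] at hx
  rw [L1_vis]
  change x ∈ J ∨ (z ∈ I ∧ x = w)
  rcases hx.1 with ⟨h1, h2 | ⟨h2, _⟩⟩ | ⟨h1, h2⟩
  · exact Or.inr ⟨h1, h2⟩
  · exact Or.inl (h h2)
  · exact Or.inl (h h2)

theorem L1_con (ζ : Cfg d L) (I J : Finset (Tor d L)) (δ : ℝ≥0∞) (R : ℕ) (z : Tor d L)
    (e : Dir d) (hv : I ⊆ J) (h : (∃ x ∈ J, R < nrm x) → ∃ x ∈ J, nrm x = R + 1)
    (hx : ∃ x ∈ (jmp δ (ζ, I, J) z (z + stp e)).2.2, R < nrm x) :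
    ∃ x ∈ (jmp δ (ζ, I, J) z (z + stp e)).2.2, nrm x = R + 1 := by
  by_cases h1 : ∃ x ∈ J, R < nrm x
  · obtain ⟨x, hxJ, hxR⟩ := h h1
    refine ⟨x, ?_, hxR⟩
    rw [L1_vis]
    exact Or.inl hxJ
  · obtain ⟨x, hx1, hx2⟩ := hx
    rw [L1_vis] at hx1
    rcases hx1 with h2 | ⟨h2, h3⟩
    · exact absurd ⟨x, h2, hx2⟩ h1
    · have h4 : z ∈ J := hv h2
      have h5 : ¬ R < nrm z := fun h6 => h1 ⟨z, h4, h6⟩
      have h6 := ZRI.nrm_step z e
      refine ⟨x, ?_, ?_⟩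
      · rw [L1_vis]
        exact Or.inr ⟨h2, h3⟩
      · rw [h3] at hx2 ⊢
        omega

theorem L1_zero_ne : (0 : ℝ≥0∞) ≠ ⊤ := ENNReal.zero_ne_top

theorem L1_bad {δ : ℝ≥0∞} {R : ℕ} {ζ η : Cfg d L} {I I' J J' K M : Finset (Tor d L)}
    (h : Cpl δ R ζ η I I' J J' K M) (hM : ∀ x ∈ M, ¬ nrm x ≤ R + 1) :
    (∃ x ∈ J, R < nrm x) ↔ ∃ x ∈ J', R < nrm x := by
  constructor
  · intro h1
    obtain ⟨x, hx, hxR⟩ := h.con h1
    have h2 : x ∉ M := fun h3 => hM x h3 (by omega)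
    exact ⟨x, (h.agJ x h2).1 hx, by omega⟩
  · intro h1
    obtain ⟨x, hx, hxR⟩ := h.con' h1
    have h2 : x ∉ M := fun h3 => hM x h3 (by omega)
    exact ⟨x, (h.agJ x h2).2 hx, by omega⟩

theorem L1_good {δ : ℝ≥0∞} {R : ℕ} {ζ η : Cfg d L} {I I' J J' K M : Finset (Tor d L)}
    (h : Cpl δ R ζ η I I' J J' K M) (hM : ∀ x ∈ M, ¬ nrm x ≤ R + 1) :
    (I.Nonempty ∧ ∀ x ∈ J, nrm x ≤ R) ↔ (I'.Nonempty ∧ ∀ x ∈ J', nrm x ≤ R) := by
  have hb := L1_bad h hM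
  constructor
  · rintro ⟨⟨x, hx⟩, hJ⟩
    have h1 := hJ x (h.vis hx)
    have h2 : x ∉ K := fun h3 => hM x (h.sub h3) (by omega)
    refine ⟨⟨x, (h.agI x h2).1 hx⟩, fun y hy => ?_⟩
    by_contra hc
    obtain ⟨u, hu, huR⟩ := hb.2 ⟨y, hy, by omega⟩
    have := hJ u hu
    omega
  · rintro ⟨⟨x, hx⟩, hJ⟩
    have h1 := hJ x (h.vis' hx)
    have h2 : x ∉ K := fun h3 => hM x (h.sub h3) (by omega)
    refine ⟨⟨x, (h.agI x h2).2 hx⟩, fun y hy => ?_⟩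
    by_contra hc
    obtain ⟨u, hu, huR⟩ := hb.1 ⟨y, hy, by omega⟩
    have := hJ u hu
    omega

theorem L1_ind (A : Set (St d L)) (s s' : St d L) :
    |A.indicator (1 : St d L → ℝ) s - A.indicator (1 : St d L → ℝ) s'| ≤ 1 := by
  classical
  rw [Set.indicator_apply, Set.indicator_apply, Pi.one_apply, Pi.one_apply]
  split_ifs <;> norm_num

theorem L1_ind_eq (A : Set (St d L)) (s s' : St d L) (h : s ∈ A ↔ s' ∈ A) :
    |A.indicator (1 : St d L → ℝ) s - A.indicator (1 : St d L → ℝ) s'| ≤ 0 := by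
  classical
  rw [Set.indicator_apply, Set.indicator_apply, Pi.one_apply, Pi.one_apply]
  by_cases h1 : s ∈ A
  · rw [if_pos h1, if_pos (h.1 h1)]; norm_num
  · rw [if_neg h1, if_neg (fun h2 => h1 (h.2 h2))]; norm_num

/-- L1: the functions `FT` agree up to the marks -/
theorem FT_cpl (δ : ℝ≥0∞) (R : ℕ) (b : Bool) (ζ η : Cfg d L) (I I' J J' K M : Finset (Tor d L))
    (h : Cpl δ R ζ η I I' J J' K M) :
    |FT d L R b (ζ, I, J) - FT d L R b (η, I', J')| ≤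
      (hit (fun x : Tor d L => nrm x ≤ R + 1)).indicator 1 ((η, K, M) : St d L) := by
  classical
  by_cases hh : ((η, K, M) : St d L) ∈ hit (fun x : Tor d L => nrm x ≤ R + 1)
  · rw [Set.indicator_of_mem hh, Pi.one_apply]
    unfold FT
    cases b
    · exact L1_ind (good d L R) _ _
    · exact L1_ind (bad d L R) _ _
  · rw [Set.indicator_of_notMem hh]
    have hM : ∀ x ∈ M, ¬ nrm x ≤ R + 1 := fun x hx h1 => hh ⟨x, hx, h1⟩
    unfold FT
    cases b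
    · exact L1_ind_eq (good d L R) _ _ (L1_good h hM)
    · exact L1_ind_eq (bad d L R) _ _ (L1_bad h hM)

/-- L1: the three systems jump together -/
theorem Cpl_jump (δ : ℝ≥0∞) (R : ℕ) (ζ η : Cfg d L) (I I' J J' K M : Finset (Tor d L))
    (h : Cpl δ R ζ η I I' J J' K M) (z : Tor d L) (e : Dir d) (hz : 1 ≤ ζ z) :
    Cpl δ R (jmp δ (ζ, I, J) z (z + stp e)).1 (jmp δ (η, I', J') z (z + stp e)).1
      (jmp δ (ζ, I, J) z (z + stp e)).2.1 (jmp δ (η, I', J') z (z + stp e)).2.1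
      (jmp δ (ζ, I, J) z (z + stp e)).2.2 (jmp δ (η, I', J') z (z + stp e)).2.2
      (jmp 0 (η, K, M) z (z + stp e)).2.1 (jmp 0 (η, K, M) z (z + stp e)).2.2 := by
  have hz' : 1 ≤ η z := le_trans hz (h.le z)
  have hnt : (0 : ℝ≥0∞) ≠ ⊤ := ENNReal.zero_ne_top
  set w := z + stp e with hw
  have heq : ∀ x, x ∉ (jmp 0 (η, K, M) z w).2.1 → mv ζ z w x = mv η z w x := by
    intro x hx
    rw [L1_inf, L1_spr] at hx
    have hx' : ¬ ((z ∈ K ∧ (x = w ∨ (x ∈ K ∧ (η z = 1 → x ≠ z)))) ∨ (z ∉ K ∧ x ∈ K)) :=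
      fun h1 => hx ⟨h1, fun h2 => absurd h2 hnt⟩
    rw [L1_mv, L1_mv]
    by_cases hxK : x ∈ K
    · by_cases hzK : z ∈ K
      · by_cases h1 : η z = 1 ∧ x = z
        · have h2 := h.le z
          rw [h1.2]
          have h3 : ζ z = η z := by omega
          rw [h3]
        · exfalso
          apply hx'
          refine Or.inl ⟨hzK, Or.inr ⟨hxK, fun h2 h3 => h1 ⟨h2, h3⟩⟩⟩
      · exact absurd (Or.inr ⟨hzK, hxK⟩) hx'
    · rw [h.eq x hxK]
  refine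
    { sub := L1_sub η K M 0 z w h.sub
      eq := heq
      le := ?_
      occ := ?_
      occ' := ?_
      two := ?_
      two' := ?_
      vis := L1_sub ζ I J δ z w h.vis
      vis' := L1_sub η I' J' δ z w h.vis'
      agI := ?_
      agJ := ?_
      con := L1_con ζ I J δ R z e h.vis h.con
      con' := L1_con η I' J' δ R z e h.vis' h.con' }
  · intro x
    change mv ζ z w x ≤ mv η z w x
    rw [L1_mv, L1_mv]
    have h1 := h.le x
    omega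
  · intro x hx
    rw [L1_inf] at hx
    exact L1_occ ζ I z w hz h.occ x hx.1
  · intro x hx
    rw [L1_inf] at hx
    exact L1_occ η I' z w hz' h.occ' x hx.1
  · intro hδ x hx
    rw [L1_inf] at hx
    exact hx.2 hδ
  · intro hδ x hx
    rw [L1_inf] at hx
    exact hx.2 hδ
  · intro x hx
    have h0 := heq x hx
    rw [L1_inf, L1_inf]
    change (x ∈ spr ζ I z w ∧ (δ = ⊤ → 2 ≤ mv ζ z w x)) ↔
      (x ∈ spr η I' z w ∧ (δ = ⊤ → 2 ≤ mv η z w x))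
    rw [h0]
    refine and_congr_left (fun _ => ?_)
    rw [L1_inf, L1_spr] at hx
    have hx' : ¬ ((z ∈ K ∧ (x = w ∨ (x ∈ K ∧ (η z = 1 → x ≠ z)))) ∨ (z ∉ K ∧ x ∈ K)) :=
      fun h1 => hx ⟨h1, fun h2 => absurd h2 hnt⟩
    rw [L1_spr, L1_spr]
    by_cases hzK : z ∈ K
    · have hxw : x ≠ w := fun h1 => hx' (Or.inl ⟨hzK, Or.inl h1⟩)
      by_cases hxz : x = z
      · have h1 : η z = 1 := by
          by_contra h1
          exact hx' (Or.inl ⟨hzK, Or.inr ⟨hxz ▸ hzK, fun h2 => absurd h2 h1⟩⟩)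
        have h2 : ζ z = 1 := by
          have := h.le z
          omega
        constructor
        · rintro (⟨_, h3 | ⟨_, h3⟩⟩ | ⟨h3, h4⟩)
          · exact absurd h3 hxw
          · exact absurd hxz (h3 h2)
          · exact absurd (hxz ▸ h4) h3
        · rintro (⟨_, h3 | ⟨_, h3⟩⟩ | ⟨h3, h4⟩)
          · exact absurd h3 hxw
          · exact absurd hxz (h3 h1)
          · exact absurd (hxz ▸ h4) h3
      · have hxK : x ∉ K := fun h1 => hx' (Or.inl ⟨hzK, Or.inr ⟨h1, fun _ => hxz⟩⟩)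
        have hI := h.agI x hxK
        constructor
        · rintro (⟨_, h3 | ⟨h3, _⟩⟩ | ⟨_, h3⟩)
          · exact absurd h3 hxw
          · by_cases h4 : z ∈ I'
            · exact Or.inl ⟨h4, Or.inr ⟨hI.1 h3, fun _ => hxz⟩⟩
            · exact Or.inr ⟨h4, hI.1 h3⟩
          · by_cases h4 : z ∈ I'
            · exact Or.inl ⟨h4, Or.inr ⟨hI.1 h3, fun _ => hxz⟩⟩
            · exact Or.inr ⟨h4, hI.1 h3⟩
        · rintro (⟨_, h3 | ⟨h3, _⟩⟩ | ⟨_, h3⟩)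
          · exact absurd h3 hxw
          · by_cases h4 : z ∈ I
            · exact Or.inl ⟨h4, Or.inr ⟨hI.2 h3, fun _ => hxz⟩⟩
            · exact Or.inr ⟨h4, hI.2 h3⟩
          · by_cases h4 : z ∈ I
            · exact Or.inl ⟨h4, Or.inr ⟨hI.2 h3, fun _ => hxz⟩⟩
            · exact Or.inr ⟨h4, hI.2 h3⟩
    · have hxK : x ∉ K := fun h1 => hx' (Or.inr ⟨hzK, h1⟩)
      have hI := h.agI x hxK
      have hzI := h.agI z hzK
      have hze := h.eq z hzK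
      rw [hI, hzI, hze]
  · intro x hx
    rw [L1_vis] at hx
    rw [L1_vis, L1_vis]
    change (x ∈ J ∨ (z ∈ I ∧ x = w)) ↔ (x ∈ J' ∨ (z ∈ I' ∧ x = w))
    change ¬ (x ∈ M ∨ (z ∈ K ∧ x = w)) at hx
    have hxM : x ∉ M := fun h1 => hx (Or.inl h1)
    have hJ := h.agJ x hxM
    by_cases hzK : z ∈ K
    · have hxw : x ≠ w := fun h1 => hx (Or.inr ⟨hzK, h1⟩)
      rw [hJ]
      exact ⟨fun h1 => h1.elim Or.inl (fun h2 => absurd h2.2 hxw),
        fun h1 => h1.elim Or.inl (fun h2 => absurd h2.2 hxw)⟩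
    · rw [hJ, h.agI z hzK]

end ZRI
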