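import Pool.Agent.ZRI.Defs2
import Pool.Agent.ZRI.B2

open scoped BigOperators ENNReal Topology
open MeasureTheory Filter

namespace ZRI

variable {d L : ℕ} {g : ℕ → ℝ} {Γm Γp : ℝ}

theorem L2_mv (η : Cfg d L) (z y x : Tor d L) :
    mv η z y x = η x - (if x = z then 1 else 0) + (if x = y then 1 else 0) := by
  unfold mv
  simp only [Pi.add_apply, Pi.sub_apply, Pi.single_apply]

theorem L2_spr_sub (η : Cfg d L) (I : Finset (Tor d L)) (z y x : Tor d L)
    (h : x ∈ spr η I z y) (hy : x ≠ y) : x ∈ I ∧ (x = z → η z ≠ 1) := by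
  unfold spr at h
  by_cases hz : z ∈ I
  · rw [if_pos hz, Finset.mem_insert] at h
    rcases h with h | h
    · exact absurd h hy
    · by_cases h1 : η z = 1
      · rw [if_pos h1, Finset.mem_erase] at h
        exact ⟨h.2, fun e => absurd e h.1⟩
      · rw [if_neg h1] at h
        exact ⟨h, fun _ => h1⟩
  · rw [if_neg hz] at h
    exact ⟨h, fun e => absurd (e ▸ h) hz⟩

theorem L2_spr_sup (η : Cfg d L) (I : Finset (Tor d L)) (z y x : Tor d L)
    (h : x ∈ I) (hz : x ≠ z) : x ∈ spr η I z y := by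
  unfold spr
  by_cases hzI : z ∈ I
  · rw [if_pos hzI, Finset.mem_insert]
    right
    by_cases h1 : η z = 1
    · rw [if_pos h1, Finset.mem_erase]
      exact ⟨hz, h⟩
    · rw [if_neg h1]
      exact h
  · rw [if_neg hzI]
    exact h

theorem L2_jmp_sub (δ : ℝ≥0∞) (η : Cfg d L) (I J : Finset (Tor d L)) (z y x : Tor d L)
    (h : x ∈ (jmp δ (η, I, J) z y).2.1) :
    x ∈ spr η I z y ∧ (δ = ⊤ → 2 ≤ mv η z y x) := by
  unfold jmp at h
  by_cases hδ : δ = ⊤
  · simp only [if_pos hδ, Finset.mem_filter] at h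
    exact ⟨h.1, fun _ => h.2⟩
  · simp only [if_neg hδ] at h
    exact ⟨h, fun e => absurd e hδ⟩

theorem L2_jmp_sup (δ : ℝ≥0∞) (η : Cfg d L) (I J : Finset (Tor d L)) (z y x : Tor d L)
    (h : x ∈ spr η I z y) (h2 : δ = ⊤ → 2 ≤ mv η z y x) :
    x ∈ (jmp δ (η, I, J) z y).2.1 := by
  unfold jmp
  by_cases hδ : δ = ⊤
  · simp only [if_pos hδ, Finset.mem_filter]
    exact ⟨h, h2 hδ⟩
  · simp only [if_neg hδ]
    exact h

theorem L2_jmp_J (δ : ℝ≥0∞) (η : Cfg d L) (I J : Finset (Tor d L)) (z y x : Tor d L) :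
    x ∈ (jmp δ (η, I, J) z y).2.2 ↔ x ∈ J ∨ (x = y ∧ z ∈ I) := by
  unfold jmp
  by_cases hz : z ∈ I
  · simp only [if_pos hz, Finset.mem_insert]
    tauto
  · simp only [if_neg hz]
    tauto

theorem Cpl_jump' (δ : ℝ≥0∞) (R : ℕ) (ζ η : Cfg d L) (I I' J J' K M : Finset (Tor d L))
    (h : Cpl δ R ζ η I I' J J' K M) (z : Tor d L) (e : Dir d) (hz : ζ z < η z) :
    Cpl δ R ζ (jmp δ (η, I', J') z (z + stp e)).1
      I (jmp δ (η, I', J') z (z + stp e)).2.1
      J (jmp δ (η, I', J') z (z + stp e)).2.2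
      (jmp 0 (η, K, M) z (z + stp e)).2.1 (jmp 0 (η, K, M) z (z + stp e)).2.2 := by
  have hstep := ZRI.nrm_step z e
  generalize z + stp e = y at hstep ⊢
  have hzK : z ∈ K := by
    by_contra hc
    have := h.eq z hc
    omega
  have hmv1 : (jmp δ (η, I', J') z y).1 = mv η z y := rfl
  have h0 : (0 : ℝ≥0∞) ≠ ⊤ := ENNReal.zero_ne_top
  -- the points outside the new marks
  have hK : ∀ x, x ∉ (jmp 0 (η, K, M) z y).2.1 → x ≠ y ∧ (x = z → η z = 1) ∧ (x ≠ z → x ∉ K) := by
    intro x hx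
    have hx' : x ∉ spr η K z y := fun hc => hx (L2_jmp_sup 0 η K M z y x hc (fun e => absurd e h0))
    refine ⟨?_, ?_, ?_⟩
    · rintro rfl
      apply hx'
      unfold spr
      rw [if_pos hzK]
      exact Finset.mem_insert_self _ _
    · rintro rfl
      by_contra h1
      apply hx'
      unfold spr
      rw [if_pos hzK, if_neg h1]
      exact Finset.mem_insert_of_mem hzK
    · intro hxz hxK
      exact hx' (L2_spr_sup η K z y x hxK hxz)
  rw [hmv1]
  refine ⟨?_, ?_, ?_, h.occ, ?_, h.two, ?_, h.vis, ?_, ?_, ?_, h.con, ?_⟩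
  · intro x hx
    rw [L2_jmp_J]
    by_cases hxy : x = y
    · exact Or.inr ⟨hxy, hzK⟩
    · exact Or.inl (h.sub (L2_spr_sub η K z y x (L2_jmp_sub 0 η K M z y x hx).1 hxy).1)
  · intro x hx
    obtain ⟨hxy, h1, h2⟩ := hK x hx
    rw [L2_mv, if_neg hxy]
    by_cases hxz : x = z
    · have := h1 hxz
      subst hxz
      rw [if_pos rfl]
      omega
    · rw [if_neg hxz]
      have := h.eq x (h2 hxz)
      omega
  · intro x
    have hle := h.le x
    rw [L2_mv]
    by_cases hxz : x = z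
    · subst hxz
      rw [if_pos rfl]
      omega
    · rw [if_neg hxz]
      omega
  · intro x hx
    have hsp := (L2_jmp_sub δ η I' J' z y x hx).1
    rw [L2_mv]
    by_cases hxy : x = y
    · rw [if_pos hxy]
      omega
    · obtain ⟨hxI, hne⟩ := L2_spr_sub η I' z y x hsp hxy
      have hocc := h.occ' x hxI
      by_cases hxz : x = z
      · have h1 := hne hxz
        subst hxz
        rw [if_pos rfl]
        omega
      · rw [if_neg hxz]
        omega
  · intro hδ x hx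
    exact (L2_jmp_sub δ η I' J' z y x hx).2 hδ
  · intro x hx
    rw [L2_jmp_J]
    have hsp := (L2_jmp_sub δ η I' J' z y x hx).1
    by_cases hxy : x = y
    · by_cases hzI : z ∈ I'
      · exact Or.inr ⟨hxy, hzI⟩
      · unfold spr at hsp
        rw [if_neg hzI] at hsp
        exact Or.inl (h.vis' hsp)
    · exact Or.inl (h.vis' (L2_spr_sub η I' z y x hsp hxy).1)
  · intro x hx
    obtain ⟨hxy, h1, h2⟩ := hK x hx
    by_cases hxz : x = z
    · have hη := h1 hxz
      constructor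
      · intro hxI
        have := h.occ x hxI
        rw [hxz] at this
        omega
      · intro hxI
        have hsp := (L2_jmp_sub δ η I' J' z y x hxI).1
        exact absurd hη ((L2_spr_sub η I' z y x hsp hxy).2 hxz)
    · rw [h.agI x (h2 hxz)]
      constructor
      · intro hxI
        refine L2_jmp_sup δ η I' J' z y x (L2_spr_sup η I' z y x hxI hxz) (fun hδ => ?_)
        have := h.two' hδ x hxI
        rw [L2_mv, if_neg hxz]
        omega
      · intro hxI
        have hsp := (L2_jmp_sub δ η I' J' z y x hxI).1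
        exact (L2_spr_sub η I' z y x hsp hxy).1
  · intro x hx
    rw [L2_jmp_J] at hx ⊢
    push Not at hx
    have hxy : x ≠ y := fun hc => hx.2 hc hzK
    rw [h.agJ x hx.1]
    tauto
  · rintro ⟨x, hx, hR⟩
    by_cases hex : ∃ w ∈ J', R < nrm w
    · obtain ⟨w, hw, hwR⟩ := h.con' hex
      exact ⟨w, (L2_jmp_J δ η I' J' z y w).mpr (Or.inl hw), hwR⟩
    · push Not at hex
      rw [L2_jmp_J] at hx
      rcases hx with hx | ⟨hxy, hzI⟩
      · exact absurd hR (not_lt.mpr (hex x hx))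
      · refine ⟨y, (L2_jmp_J δ η I' J' z y y).mpr (Or.inr ⟨rfl, hzI⟩), ?_⟩
        have h1 := hex z (h.vis' hzI)
        rw [hxy] at hR
        omega

theorem Cpl_heal (δ : ℝ≥0∞) (R : ℕ) (ζ η : Cfg d L) (I I' J J' K M : Finset (Tor d L))
    (h : Cpl δ R ζ η I I' J J' K M) (z : Tor d L) :
    Cpl δ R ζ η (I.erase z) (I'.erase z) J J' K M ∧
      (z ∈ K → Cpl δ R ζ η (I.erase z) I' J J' K M ∧ Cpl δ R ζ η I (I'.erase z) J J' K M) := by
  have e1 : ∀ x, x ∈ I.erase z → x ∈ I := fun x hx => Finset.mem_of_mem_erase hx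
  have e2 : ∀ x, x ∈ I'.erase z → x ∈ I' := fun x hx => Finset.mem_of_mem_erase hx
  refine ⟨⟨h.sub, h.eq, h.le, fun x hx => h.occ x (e1 x hx), fun x hx => h.occ' x (e2 x hx),
    fun hδ x hx => h.two hδ x (e1 x hx), fun hδ x hx => h.two' hδ x (e2 x hx),
    fun x hx => h.vis (e1 x hx), fun x hx => h.vis' (e2 x hx), ?_, h.agJ, h.con, h.con'⟩,
    fun hzK => ⟨⟨h.sub, h.eq, h.le, fun x hx => h.occ x (e1 x hx), h.occ',
    fun hδ x hx => h.two hδ x (e1 x hx), h.two',
    fun x hx => h.vis (e1 x hx), h.vis', ?_, h.agJ, h.con, h.con'⟩,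
    ⟨h.sub, h.eq, h.le, h.occ, fun x hx => h.occ' x (e2 x hx),
    h.two, fun hδ x hx => h.two' hδ x (e2 x hx),
    h.vis, fun x hx => h.vis' (e2 x hx), ?_, h.agJ, h.con, h.con'⟩⟩⟩
  · intro x hx
    rw [Finset.mem_erase, Finset.mem_erase, h.agI x hx]
  · intro x hx
    have hne : x ≠ z := fun hc => hx (hc ▸ hzK)
    rw [Finset.mem_erase, h.agI x hx]
    tauto
  · intro x hx
    have hne : x ≠ z := fun hc => hx (hc ▸ hzK)
    rw [Finset.mem_erase, h.agI x hx]
    tauto

end ZRI
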