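import Pool.Agent.ZRI.Defs2
import Pool.Agent.ZRI.A1
import Pool.Agent.ZRI.A2
import Pool.Agent.ZRI.B1
import Pool.Agent.ZRI.B2
import Pool.Agent.ZRI.B3
import Pool.Agent.ZRI.B4
import Pool.Agent.ZRI.T1
import Pool.Agent.ZRI.L1
import Pool.Agent.ZRI.L2

/-! # [ZRI-L3] the coupling estimate -/

open scoped BigOperators ENNReal Topology
open MeasureTheory Filter

namespace ZRI

variable {d L : ℕ} {g : ℕ → ℝ} {Γm Γp : ℝ}

/-- states of the coupling -/
structure L3_S (d L : ℕ) where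
  ζ : Cfg d L
  η : Cfg d L
  I : Finset (Tor d L)
  I' : Finset (Tor d L)
  J : Finset (Tor d L)
  J' : Finset (Tor d L)
  K : Finset (Tor d L)
  M : Finset (Tor d L)

/-- the invariant -/
def L3_P (δ : ℝ≥0∞) (R n : ℕ) (w : L3_S d L) : Prop :=
  Cpl δ R w.ζ w.η w.I w.I' w.J w.J' w.K w.M ∧ ∑ z, w.η z = n

/-- the difference -/
noncomputable def L3_y (g : ℕ → ℝ) (δ : ℝ≥0∞) (R : ℕ) (b : Bool) (σ t : ℝ) (w : L3_S d L) : ℝ :=
  σ * (sg (Gen g δ) t (FT d L R b) (w.ζ, w.I, w.J) -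
    sg (Gen g δ) t (FT d L R b) (w.η, w.I', w.J')) -
    Qh g (fun x : Tor d L => nrm x ≤ R + 1) t (w.η, w.K, w.M)

/-- the rate of the healing moves -/
noncomputable def L3_c (δ : ℝ≥0∞) (w : L3_S d L) (x : Tor d L) : ℝ :=
  if x ∈ w.K then (if x ∈ w.I ∧ w.ζ x = 1 then δ.toReal else 0) +
    (if x ∈ w.I' ∧ w.η x = 1 then δ.toReal else 0)
  else (if x ∈ w.I ∧ w.ζ x = 1 then δ.toReal else 0)

theorem L3_FT (R : ℕ) (b : Bool) (s : St d L) : 0 ≤ FT d L R b s ∧ FT d L R b s ≤ 1 := by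
  have h : ∀ A : Set (St d L), 0 ≤ A.indicator (1 : St d L → ℝ) s ∧
      A.indicator (1 : St d L → ℝ) s ≤ 1 := by
    intro A
    by_cases h : s ∈ A
    · rw [Set.indicator_of_mem h]
      exact ⟨zero_le_one, le_rfl⟩
    · rw [Set.indicator_of_notMem h]
      exact ⟨le_rfl, zero_le_one⟩
  unfold FT
  by_cases hb : b = true
  · rw [if_pos hb]
    exact h _
  · rw [if_neg hb]
    exact h _

theorem L3_mono (hg : IsRate g Γm Γp) : Monotone g :=
  monotone_nat_of_le_succ fun n => by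
    have h1 := hg.lower n
    have h2 := hg.pos
    linarith

theorem L3_gen (δ : ℝ≥0∞) (F : St d L → ℝ) (s : St d L) : Gen g δ F s =
    (∑ x, ∑ e : Dir d, g (s.1 x) / (2 * d) * (F (jmp δ s x (x + stp e)) - F s)) +
      ∑ x, (if x ∈ s.2.1 ∧ s.1 x = 1 then δ.toReal else 0) * (F (heal s x) - F s) := by
  unfold Gen
  congr 1
  have h1 : ∀ x, (if x ∈ s.2.1 ∧ s.1 x = 1 then δ.toReal else 0) * (F (heal s x) - F s) =
      if x ∈ s.2.1 ∧ s.1 x = 1 then δ.toReal * (F (heal s x) - F s) else 0 := by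
    intro x
    by_cases h : x ∈ s.2.1 ∧ s.1 x = 1
    · rw [if_pos h, if_pos h]
    · rw [if_neg h, if_neg h, zero_mul]
  simp_rw [h1]
  rw [← Finset.sum_filter]
  refine Finset.sum_congr ?_ fun _ _ => rfl
  ext x
  simp only [Finset.mem_filter, Finset.mem_univ, true_and]

theorem L3_gen0 (F : St d L → ℝ) (s : St d L) : Gen g 0 F s =
    ∑ x, ∑ e : Dir d, g (s.1 x) / (2 * d) * (F (jmp 0 s x (x + stp e)) - F s) := by
  unfold Gen
  rw [ENNReal.toReal_zero]
  simp only [zero_mul, Finset.sum_const_zero, add_zero]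

theorem L3_rates (δ : ℝ≥0∞) (R n : ℕ) (w : L3_S d L) (hw : L3_P δ R n w) :
    (∀ x, 0 ≤ L3_c δ w x) ∧ ∑ x, L3_c δ w x ≤ 2 * δ.toReal * n := by
  have hδ : 0 ≤ δ.toReal := ENNReal.toReal_nonneg
  have ha : ∀ x, 0 ≤ (if x ∈ w.I ∧ w.ζ x = 1 then δ.toReal else 0) ∧
      (if x ∈ w.I ∧ w.ζ x = 1 then δ.toReal else 0) ≤ δ.toReal * w.η x := by
    intro x
    by_cases h : x ∈ w.I ∧ w.ζ x = 1
    · rw [if_pos h]
      refine ⟨hδ, ?_⟩
      have h1 : 1 ≤ w.η x := by
        have := hw.1.le x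
        omega
      have h2 : (1 : ℝ) ≤ w.η x := by exact_mod_cast h1
      nlinarith
    · rw [if_neg h]
      exact ⟨le_rfl, by positivity⟩
  have hb : ∀ x, 0 ≤ (if x ∈ w.I' ∧ w.η x = 1 then δ.toReal else 0) ∧
      (if x ∈ w.I' ∧ w.η x = 1 then δ.toReal else 0) ≤ δ.toReal * w.η x := by
    intro x
    by_cases h : x ∈ w.I' ∧ w.η x = 1
    · rw [if_pos h]
      refine ⟨hδ, ?_⟩
      rw [h.2, Nat.cast_one, mul_one]
    · rw [if_neg h]
      exact ⟨le_rfl, by positivity⟩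
  constructor
  · intro x
    unfold L3_c
    by_cases hK : x ∈ w.K
    · rw [if_pos hK]
      exact add_nonneg (ha x).1 (hb x).1
    · rw [if_neg hK]
      exact (ha x).1
  · have h1 : ∑ x, L3_c δ w x ≤ ∑ x, 2 * δ.toReal * (w.η x : ℝ) := by
      refine Finset.sum_le_sum fun x _ => ?_
      unfold L3_c
      by_cases hK : x ∈ w.K
      · rw [if_pos hK]
        linarith [(ha x).2, (hb x).2]
      · rw [if_neg hK]
        have h3 : 0 ≤ δ.toReal * (w.η x : ℝ) := by positivity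
        linarith [(ha x).2]
    refine h1.trans (le_of_eq ?_)
    rw [← Finset.mul_sum]
    congr 1
    rw [← hw.2]
    push_cast
    rfl

theorem L3_one (hd : 1 ≤ d) (hg : IsRate g Γm Γp) (δ : ℝ≥0∞) (R n : ℕ) (b : Bool) (σ : ℝ)
    (hσ : |σ| = 1) (t : ℝ) (ht : 0 ≤ t) (w : L3_S d L) (hw : L3_P δ R n w) :
    L3_y g δ R b σ t w ≤ 0 := by
  have hΓ : 0 ≤ Γp := le_trans zero_le_one hg.one_le
  have hδ : 0 ≤ δ.toReal := ENNReal.toReal_nonneg
  have hr0 : ∀ (η : Cfg d L) (z : Tor d L), 0 ≤ g (η z) / (2 * (d : ℝ)) := fun η z =>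
    div_nonneg (ZRI.g_nonneg hg _) (by positivity)
  have hrr : ∀ v : L3_S d L, 0 ≤ ∑ z, ∑ _e : Dir d, g (v.η z) / (2 * (d : ℝ)) := fun v =>
    Finset.sum_nonneg fun z _ => Finset.sum_nonneg fun _ _ => hr0 v.η z
  have hrC : ∀ v : L3_S d L, L3_P δ R n v →
      (∑ z, ∑ _e : Dir d, g (v.η z) / (2 * (d : ℝ))) + ∑ x, L3_c δ v x ≤
        (Γp + 2 * δ.toReal) * (n : ℝ) := by
    intro v hv
    have h1 := ZRI.sum_rate hd hg v.η
    rw [hv.2] at h1
    have h2 := (L3_rates δ R n v hv).2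
    calc _ ≤ Γp * (n : ℝ) + 2 * δ.toReal * n := add_le_add h1 h2
      _ = _ := by ring
  refine ZRI.cmp (L3_P (d := d) (L := L) δ R n) (L3_y g δ R b σ)
    (fun u w => σ * (Gen g δ (sg (Gen g δ) u (FT d L R b)) (w.ζ, w.I, w.J) -
      Gen g δ (sg (Gen g δ) u (FT d L R b)) (w.η, w.I', w.J')) -
      Gen g 0 (Qh g (fun x : Tor d L => nrm x ≤ R + 1) u) (w.η, w.K, w.M))
    (fun w => -((∑ z, ∑ _e : Dir d, g (w.η z) / (2 * d)) + ∑ x, L3_c δ w x))
    ((Γp + 2 * δ.toReal) * (n : ℝ)) 1 t (by positivity) ?_ ?_ ?_ ?_ ?_ t ht le_rfl w hw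
  · intro v hv
    rw [abs_neg, abs_of_nonneg (add_nonneg (hrr v)
      (Finset.sum_nonneg fun x _ => (L3_rates δ R n v hv).1 x))]
    exact hrC v hv
  · intro v hv u hu hut
    have hF : ∀ s, |FT d L R b s| ≤ 1 := fun s =>
      abs_le.2 ⟨by linarith [(L3_FT R b s).1], (L3_FT R b s).2⟩
    have h1 := ZRI.Gen_deriv hd hg δ (FT d L R b) 1 hF u (v.ζ, v.I, v.J)
    have h2 := ZRI.Gen_deriv hd hg δ (FT d L R b) 1 hF u (v.η, v.I', v.J')
    have h3 := ZRI.Qh_deriv hd hg (fun x : Tor d L => nrm x ≤ R + 1) u (v.η, v.K, v.M)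
    exact ((h1.sub h2).const_mul σ).sub h3
  · intro v hv u hu hut
    have h1 := ZRI.Gen_mem hd hg δ (FT d L R b) (fun s => (L3_FT R b s).1)
      (fun s => (L3_FT R b s).2) u hu (v.ζ, v.I, v.J)
    have h2 := ZRI.Gen_mem hd hg δ (FT d L R b) (fun s => (L3_FT R b s).1)
      (fun s => (L3_FT R b s).2) u hu (v.η, v.I', v.J')
    have h3 := ZRI.Qh_mem hd hg (fun x : Tor d L => nrm x ≤ R + 1) u hu (v.η, v.K, v.M)
    unfold L3_y
    have h4 : σ * (sg (Gen g δ) u (FT d L R b) (v.ζ, v.I, v.J) -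
        sg (Gen g δ) u (FT d L R b) (v.η, v.I', v.J')) ≤ 1 := by
      refine (le_abs_self _).trans ?_
      rw [abs_mul, hσ, one_mul, abs_le]
      constructor <;> linarith [h1.1, h1.2, h2.1, h2.2]
    linarith [h3.1]
  · -- the differential inequality
    intro v hv u hu hut B hB hyB
    obtain ⟨ζ, η, I, I', J, J', K, M⟩ := v
    have hc : Cpl δ R ζ η I I' J J' K M := hv.1
    have hn : ∑ z, η z = n := hv.2
    set G : St d L → ℝ := sg (Gen g δ) u (FT d L R b) with hG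
    set Q : St d L → ℝ := Qh g (fun x : Tor d L => nrm x ≤ R + 1) u with hQ
    simp only
    have hy : ∀ (ζ η : Cfg d L) (I I' J J' K M : Finset (Tor d L)),
        L3_y g δ R b σ u ⟨ζ, η, I, I', J, J', K, M⟩ =
        σ * (G (ζ, I, J) - G (η, I', J')) - Q (η, K, M) := fun _ _ _ _ _ _ _ _ => rfl
    set y0 : ℝ := σ * (G (ζ, I, J) - G (η, I', J')) - Q (η, K, M) with hy0
    rw [hy]
    rw [← hy0]
    -- the three types of moves
    have m1 : ∀ z (e : Dir d), 1 ≤ ζ z →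
        σ * (G (jmp δ (ζ, I, J) z (z + stp e)) - G (jmp δ (η, I', J') z (z + stp e))) -
          Q (jmp 0 (η, K, M) z (z + stp e)) ≤ B := by
      intro z e hz
      have h1 := ZRI.Cpl_jump δ R ζ η I I' J J' K M hc z e hz
      have h2 := hyB ⟨_, _, _, _, _, _, _, _⟩ ⟨h1, by
        have h3 := ZRI.sum_mv η z (z + stp e) (hz.trans (hc.le z))
        rw [hn] at h3
        exact h3⟩
      rw [hy] at h2
      exact h2
    have m2 : ∀ z (e : Dir d), ζ z < η z →
        σ * (G (ζ, I, J) - G (jmp δ (η, I', J') z (z + stp e))) -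
          Q (jmp 0 (η, K, M) z (z + stp e)) ≤ B := by
      intro z e hz
      have h1 := ZRI.Cpl_jump' δ R ζ η I I' J J' K M hc z e hz
      have h2 := hyB ⟨_, _, _, _, _, _, _, _⟩ ⟨h1, by
        have h3 := ZRI.sum_mv η z (z + stp e) (by omega)
        rw [hn] at h3
        exact h3⟩
      rw [hy] at h2
      exact h2
    have m3 : ∀ x, σ * (G (heal (ζ, I, J) x) - G (heal (η, I', J') x)) - Q (η, K, M) ≤ B := by
      intro x
      have h1 := (ZRI.Cpl_heal δ R ζ η I I' J J' K M hc x).1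
      have h2 := hyB ⟨_, _, _, _, _, _, _, _⟩ ⟨h1, hn⟩
      rw [hy] at h2
      exact h2
    have m4 : ∀ x ∈ K, σ * (G (heal (ζ, I, J) x) - G (η, I', J')) - Q (η, K, M) ≤ B := by
      intro x hx
      have h1 := ((ZRI.Cpl_heal δ R ζ η I I' J J' K M hc x).2 hx).1
      have h2 := hyB ⟨_, _, _, _, _, _, _, _⟩ ⟨h1, hn⟩
      rw [hy] at h2
      exact h2
    have m5 : ∀ x ∈ K, σ * (G (ζ, I, J) - G (heal (η, I', J') x)) - Q (η, K, M) ≤ B := by
      intro x hx
      have h1 := ((ZRI.Cpl_heal δ R ζ η I I' J J' K M hc x).2 hx).2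
      have h2 := hyB ⟨_, _, _, _, _, _, _, _⟩ ⟨h1, hn⟩
      rw [hy] at h2
      exact h2
    -- the jumps
    have hjump : ∀ z (e : Dir d),
        σ * (g (ζ z) / (2 * d) * (G (jmp δ (ζ, I, J) z (z + stp e)) - G (ζ, I, J)) -
          g (η z) / (2 * d) * (G (jmp δ (η, I', J') z (z + stp e)) - G (η, I', J'))) -
          g (η z) / (2 * d) * (Q (jmp 0 (η, K, M) z (z + stp e)) - Q (η, K, M)) ≤
        g (η z) / (2 * d) * (B - y0) := by
      intro z e
      have h1 : g (ζ z) / (2 * d) * (σ * (G (jmp δ (ζ, I, J) z (z + stp e)) -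
          G (jmp δ (η, I', J') z (z + stp e))) - Q (jmp 0 (η, K, M) z (z + stp e)) - y0) ≤
          g (ζ z) / (2 * d) * (B - y0) := by
        by_cases hz : g (ζ z) = 0
        · rw [hz, zero_div, zero_mul, zero_mul]
        · refine mul_le_mul_of_nonneg_left ?_ (hr0 ζ z)
          have := m1 z e (ZRI.g_ne hg _ hz)
          linarith
      have h2 : (g (η z) / (2 * d) - g (ζ z) / (2 * d)) * (σ * (G (ζ, I, J) -
          G (jmp δ (η, I', J') z (z + stp e))) - Q (jmp 0 (η, K, M) z (z + stp e)) - y0) ≤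
          (g (η z) / (2 * d) - g (ζ z) / (2 * d)) * (B - y0) := by
        rcases (hc.le z).eq_or_lt with hz | hz
        · rw [hz, sub_self, zero_mul, zero_mul]
        · refine mul_le_mul_of_nonneg_left ?_ ?_
          · have := m2 z e hz
            linarith
          · have h3 := L3_mono hg hz.le
            have h4 : g (ζ z) / (2 * (d : ℝ)) ≤ g (η z) / (2 * d) :=
              div_le_div_of_nonneg_right h3 (by positivity)
            linarith
      calc _ = g (ζ z) / (2 * d) * (σ * (G (jmp δ (ζ, I, J) z (z + stp e)) -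
          G (jmp δ (η, I', J') z (z + stp e))) - Q (jmp 0 (η, K, M) z (z + stp e)) - y0) +
          (g (η z) / (2 * d) - g (ζ z) / (2 * d)) * (σ * (G (ζ, I, J) -
          G (jmp δ (η, I', J') z (z + stp e))) - Q (jmp 0 (η, K, M) z (z + stp e)) - y0) := by
            rw [hy0]
            ring
        _ ≤ _ := add_le_add h1 h2
        _ = _ := by ring
    -- the healing moves
    have hheal : ∀ x,
        σ * ((if x ∈ I ∧ ζ x = 1 then δ.toReal else 0) *
            (G (heal (ζ, I, J) x) - G (ζ, I, J)) -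
          (if x ∈ I' ∧ η x = 1 then δ.toReal else 0) *
            (G (heal (η, I', J') x) - G (η, I', J'))) ≤
        L3_c δ ⟨ζ, η, I, I', J, J', K, M⟩ x * (B - y0) := by
      intro x
      unfold L3_c
      simp only
      have ha : 0 ≤ (if x ∈ I ∧ ζ x = 1 then δ.toReal else 0) := by
        split_ifs
        · exact hδ
        · exact le_rfl
      have hb : 0 ≤ (if x ∈ I' ∧ η x = 1 then δ.toReal else 0) := by
        split_ifs
        · exact hδ
        · exact le_rfl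
      by_cases hK : x ∈ K
      · rw [if_pos hK]
        set α : ℝ := (if x ∈ I ∧ ζ x = 1 then δ.toReal else 0)
        set β : ℝ := (if x ∈ I' ∧ η x = 1 then δ.toReal else 0)
        have h1 := mul_le_mul_of_nonneg_left (m4 x hK) ha
        have h2 := mul_le_mul_of_nonneg_left (m5 x hK) hb
        calc _ = α * (σ * (G (heal (ζ, I, J) x) - G (η, I', J')) - Q (η, K, M)) +
              β * (σ * (G (ζ, I, J) - G (heal (η, I', J') x)) - Q (η, K, M)) -
              (α + β) * y0 := by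
              rw [hy0]
              ring
          _ ≤ α * B + β * B - (α + β) * y0 := by linarith
          _ = _ := by ring
      · rw [if_neg hK]
        have hab : (if x ∈ I' ∧ η x = 1 then δ.toReal else 0) =
            (if x ∈ I ∧ ζ x = 1 then δ.toReal else 0) := by
          have h3 : (x ∈ I' ∧ η x = 1) ↔ (x ∈ I ∧ ζ x = 1) := by
            rw [hc.eq x hK, hc.agI x hK]
          simp only [h3]
        rw [hab]
        set α : ℝ := (if x ∈ I ∧ ζ x = 1 then δ.toReal else 0)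
        have h1 := mul_le_mul_of_nonneg_left (m3 x) ha
        calc _ = α * (σ * (G (heal (ζ, I, J) x) - G (heal (η, I', J') x)) - Q (η, K, M)) -
              α * y0 := by
              rw [hy0]
              ring
          _ ≤ α * B - α * y0 := by linarith
          _ = _ := by ring
    have hsum : σ * (Gen g δ G (ζ, I, J) - Gen g δ G (η, I', J')) - Gen g 0 Q (η, K, M) ≤
        ((∑ z, ∑ _e : Dir d, g (η z) / (2 * d)) +
          ∑ x, L3_c δ ⟨ζ, η, I, I', J, J', K, M⟩ x) * (B - y0) := by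
      have h1 : σ * (Gen g δ G (ζ, I, J) - Gen g δ G (η, I', J')) - Gen g 0 Q (η, K, M) =
          (∑ z, ∑ e : Dir d, (σ * (g (ζ z) / (2 * d) *
              (G (jmp δ (ζ, I, J) z (z + stp e)) - G (ζ, I, J)) -
            g (η z) / (2 * d) * (G (jmp δ (η, I', J') z (z + stp e)) - G (η, I', J'))) -
            g (η z) / (2 * d) * (Q (jmp 0 (η, K, M) z (z + stp e)) - Q (η, K, M)))) +
          ∑ x, σ * ((if x ∈ I ∧ ζ x = 1 then δ.toReal else 0) *
              (G (heal (ζ, I, J) x) - G (ζ, I, J)) -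
            (if x ∈ I' ∧ η x = 1 then δ.toReal else 0) *
              (G (heal (η, I', J') x) - G (η, I', J'))) := by
        rw [L3_gen, L3_gen, L3_gen0]
        simp only [Finset.sum_sub_distrib, ← Finset.mul_sum]
        ring
      rw [h1, add_mul, Finset.sum_mul, Finset.sum_mul]
      refine add_le_add (Finset.sum_le_sum fun z _ => ?_) (Finset.sum_le_sum fun x _ => hheal x)
      rw [Finset.sum_mul]
      exact Finset.sum_le_sum fun e _ => hjump z e
    have h6 := mul_le_mul_of_nonneg_right (hrC _ hv) hB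
    simp only at h6
    calc _ ≤ _ := hsum
      _ = -((∑ z, ∑ _e : Dir d, g (η z) / (2 * d)) +
            ∑ x, L3_c δ ⟨ζ, η, I, I', J, J', K, M⟩ x) * y0 +
          ((∑ z, ∑ _e : Dir d, g (η z) / (2 * d)) +
            ∑ x, L3_c δ ⟨ζ, η, I, I', J, J', K, M⟩ x) * B := by ring
      _ ≤ _ := by linarith
  · intro v hv
    unfold L3_y Qh
    rw [ZRI.sg_zero, ZRI.sg_zero, ZRI.sg_zero]
    have h1 := ZRI.FT_cpl δ R b v.ζ v.η v.I v.I' v.J v.J' v.K v.M hv.1
    have h2 : σ * (FT d L R b (v.ζ, v.I, v.J) - FT d L R b (v.η, v.I', v.J')) ≤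
        |FT d L R b (v.ζ, v.I, v.J) - FT d L R b (v.η, v.I', v.J')| := by
      refine (le_abs_self _).trans ?_
      rw [abs_mul, hσ, one_mul]
    linarith

/-- L3: the coupling estimate -/
theorem coupling (hd : 1 ≤ d) (hg : IsRate g Γm Γp) (δ : ℝ≥0∞) (R : ℕ) (b : Bool)
    (t : ℝ) (ht : 0 ≤ t) (ζ η : Cfg d L) (I I' J J' K M : Finset (Tor d L))
    (h : Cpl δ R ζ η I I' J J' K M) :
    |sg (Gen g δ) t (FT d L R b) (ζ, I, J) - sg (Gen g δ) t (FT d L R b) (η, I', J')| ≤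
      Qh g (fun x : Tor d L => nrm x ≤ R + 1) t (η, K, M) := by
  have h1 := L3_one hd hg δ R (∑ z, η z) b 1 (by norm_num) t ht ⟨ζ, η, I, I', J, J', K, M⟩
    ⟨h, rfl⟩
  have h2 := L3_one hd hg δ R (∑ z, η z) b (-1) (by norm_num) t ht ⟨ζ, η, I, I', J, J', K, M⟩
    ⟨h, rfl⟩
  unfold L3_y at h1 h2
  simp only at h1 h2
  rw [abs_le]
  constructor <;> linarith

end ZRI
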