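import Pool.Agent.ZRI.Defs2

open scoped BigOperators ENNReal Topology
open MeasureTheory Filter

namespace ZRI

variable {d L : ℕ} {g : ℕ → ℝ} {Γm Γp : ℝ}

theorem L4_res_zero (N : ℕ) (η : Cfg d L) : res N η 0 = η 0 := by
  have h : inbox N (0 : Tor d L) := by
    intro i
    simp
  unfold res
  rw [if_pos h]

theorem L4_nrm_zero : nrm (0 : Tor d L) = 0 := by
  unfold nrm
  simp

theorem Cpl_ini (δ : ℝ≥0∞) (R N : ℕ) (η : Cfg d L) :
    Cpl δ R (res N η) η (ini δ (res N η)).2.1 (ini δ η).2.1 (ini δ (res N η)).2.2 (ini δ η).2.2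
      (out N η) (out N η) := by
  have h0 := L4_res_zero N η
  have hI : (ini δ (res N η)).2.1 = (ini δ η).2.1 := by
    unfold ini
    simp only [h0]
  have hJ : (ini δ (res N η)).2.2 = (ini δ η).2.2 := by
    unfold ini
    simp only [h0]
  have hIm : ∀ x ∈ (ini δ η).2.1, x = 0 ∧ 1 ≤ η 0 ∧ (δ = ⊤ → 2 ≤ η 0) := by
    intro x hx
    unfold ini at hx
    by_cases hc : 1 ≤ η 0 ∧ (δ = ⊤ → 2 ≤ η 0)
    · simp only [if_pos hc, Finset.mem_singleton] at hx
      exact ⟨hx, hc⟩
    · simp only [if_neg hc] at hx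
      exact absurd hx (Finset.notMem_empty x)
  have hJm : ∀ x ∈ (ini δ η).2.2, x = 0 := by
    intro x hx
    unfold ini at hx
    by_cases hc : 1 ≤ η 0
    · simp only [if_pos hc, Finset.mem_singleton] at hx
      exact hx
    · simp only [if_neg hc] at hx
      exact absurd hx (Finset.notMem_empty x)
  have hIJ : (ini δ η).2.1 ⊆ (ini δ η).2.2 := by
    intro x hx
    obtain ⟨rfl, h1, _⟩ := hIm x hx
    unfold ini
    simp only [if_pos h1, Finset.mem_singleton]
  have hcon : (∃ x ∈ (ini δ η).2.2, R < nrm x) → ∃ x ∈ (ini δ η).2.2, nrm x = R + 1 := by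
    rintro ⟨x, hx, hR⟩
    rw [hJm x hx, L4_nrm_zero] at hR
    exact absurd hR (Nat.not_lt_zero R)
  rw [hI, hJ]
  refine ⟨Finset.Subset.refl _, ?_, ?_, ?_, ?_, ?_, ?_, hIJ, hIJ, fun _ _ => Iff.rfl,
    fun _ _ => Iff.rfl, hcon, hcon⟩
  · intro x hx
    unfold res
    by_cases hb : inbox N x
    · rw [if_pos hb]
    · rw [if_neg hb]
      by_contra hne
      apply hx
      unfold out
      simp only [Finset.mem_filter, Finset.mem_univ, true_and]
      exact ⟨hb, by omega⟩
  · intro x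
    unfold res
    split_ifs
    · exact le_refl _
    · exact Nat.zero_le _
  · intro x hx
    obtain ⟨rfl, h1, _⟩ := hIm x hx
    rw [h0]
    exact h1
  · intro x hx
    obtain ⟨rfl, h1, _⟩ := hIm x hx
    exact h1
  · intro hδ x hx
    obtain ⟨rfl, _, h2⟩ := hIm x hx
    rw [h0]
    exact h2 hδ
  · intro hδ x hx
    obtain ⟨rfl, _, h2⟩ := hIm x hx
    exact h2 hδ

end ZRI
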