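import Pool.Agent.ZRI.Defs2
import Pool.Agent.ZRI.C6a
import Pool.Agent.ZRI.C6b

open scoped BigOperators ENNReal Topology
open MeasureTheory Filter

namespace ZRI

variable {d L : ℕ} {g : ℕ → ℝ} {Γm Γp : ℝ}

theorem mu_total (hg : IsRate g Γm Γp) {φ : ℝ} (hφ : 0 < φ) :
    Summable (fun η : Cfg d L => mu g φ η) ∧ ∑' η : Cfg d L, mu g φ η = 1 := by
  have h0 : ∀ η : Cfg d L, 0 ≤ mu g φ η := fun η => (ZRI.mu_pos hg hφ η).le
  have hs : Summable (fun η : Cfg d L => mu g φ η) :=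
    summable_of_sum_le h0 (fun T => ZRI.mu_le_one hg hφ T)
  refine ⟨hs, le_antisymm ?_ ?_⟩
  · exact hs.tsum_le_of_sum_le (fun T => ZRI.mu_le_one hg hφ T)
  · obtain ⟨hm, hm1, hpos, _⟩ := ZRI.m1_sum hg hφ
    have hlim : Tendsto (fun N : ℕ => ∏ _x : Tor d L, ∑ n ∈ Finset.range N, m1 g φ n) atTop
        (𝓝 (∏ _x : Tor d L, (1 : ℝ))) := by
      apply tendsto_finsetProd
      intro x _
      have := hm.hasSum.tendsto_sum_nat
      rwa [hm1] at this
    rw [Finset.prod_const_one] at hlim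
    refine le_of_tendsto' hlim (fun N => ?_)
    rw [Finset.prod_univ_sum]
    exact hs.sum_le_tsum _ (fun η _ => h0 η)

end ZRI
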