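import Pool.Agent.ZRI.Defs2
import Pool.Agent.ZRI.C5
import Pool.Agent.ZRI.C6a
import Pool.Agent.ZRI.T1
import Pool.Agent.ZRI.T5

open scoped BigOperators ENNReal Topology
open MeasureTheory Filter

namespace ZRI

variable {d L : ℕ} {g : ℕ → ℝ} {Γm Γp : ℝ}

theorem T6_mem_sec (n : ℕ) (η : Cfg d L) : η ∈ sec d L n ↔ ∑ y, η y = n := by
  unfold sec
  rw [Finset.mem_piAntidiag]
  constructor
  · intro h
    exact h.1
  · intro h
    exact ⟨h, fun i _ => Finset.mem_univ i⟩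

theorem T6_sub (η : Cfg d L) (x : Tor d L) (h : 1 ≤ η x) : η - Pi.single x 1 + Pi.single x 1 = η := by
  funext y
  rw [Pi.add_apply, Pi.sub_apply]
  by_cases hy : y = x
  · subst hy
    rw [Pi.single_eq_same]
    omega
  · rw [Pi.single_eq_of_ne hy]
    omega

theorem one_le (hd : 1 ≤ d) (hL : 1 ≤ L) (hg : IsRate g Γm Γp) {φ : ℝ} (hφ : 0 < φ)
    (T : Tor d L → Prop) (W : Tor d L → ℝ) (hW0 : ∀ x, T x → 0 ≤ W x)
    (hW : ∀ x (e : Dir d), W (x + stp e) ≤ W x + 1) (x : Tor d L) (t : ℝ) (ht : 0 ≤ t)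
    (S : Finset (Cfg d L)) :
    ∑ η ∈ S, mu g φ η * (if 1 ≤ η x then Qh g T t (η, {x}, {x}) else 0) ≤
      φ / Γm * Real.exp (kap φ Γm Γp * t + W x) := by
  classical
  set H : Cfg d L → ℝ := fun ξ => Gh g T t ξ x with hH
  have hH0 : ∀ ξ, 0 ≤ H ξ := fun ξ => (ZRI.Qh_mem hd hg T t ht _).1
  set f : Cfg d L → ℝ := fun η => mu g φ η * (if 1 ≤ η x then H (η - Pi.single x 1) else 0) with hf
  have hf0 : ∀ η, 0 ≤ f η := by
    intro η
    refine mul_nonneg (ZRI.mu_pos hg hφ η).le ?_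
    split_ifs
    · exact hH0 _
    · exact le_refl 0
  have h1 : ∀ η ∈ S, mu g φ η * (if 1 ≤ η x then Qh g T t (η, {x}, {x}) else 0) = f η := by
    intro η _
    simp only [hf, hH]
    by_cases h : 1 ≤ η x
    · rw [if_pos h, if_pos h]
      unfold Gh
      rw [T6_sub η x h]
    · rw [if_neg h, if_neg h]
  rw [Finset.sum_congr rfl h1]
  set N : ℕ := ∑ η ∈ S, ∑ y, η y with hN
  have hmaps : ∀ η ∈ S, (∑ y, η y) ∈ Finset.range (N + 1 + 1) := by
    intro η hη
    rw [Finset.mem_range]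
    have := Finset.single_le_sum (f := fun η : Cfg d L => ∑ y, η y) (fun _ _ => Nat.zero_le _) hη
    omega
  rw [← Finset.sum_fiberwise_of_maps_to hmaps]
  have h2 : ∀ m ∈ Finset.range (N + 1 + 1), ∑ η ∈ S.filter (fun η => ∑ y, η y = m), f η ≤ ∑ η ∈ sec d L m, f η := by
    intro m _
    refine Finset.sum_le_sum_of_subset_of_nonneg ?_ (fun η _ _ => hf0 η)
    intro η hη
    rw [T6_mem_sec]
    exact (Finset.mem_filter.1 hη).2
  refine (Finset.sum_le_sum h2).trans ?_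
  rw [Finset.sum_range_succ']
  have h3 : ∑ η ∈ sec d L 0, f η = 0 := by
    refine Finset.sum_eq_zero (fun η hη => ?_)
    rw [T6_mem_sec] at hη
    have h4 : η x = 0 := by
      have := Finset.single_le_sum (f := fun y => η y) (fun _ _ => Nat.zero_le _) (Finset.mem_univ x)
      omega
    simp only [hf]
    rw [if_neg (by omega), mul_zero]
  rw [h3, add_zero]
  have h5 : ∀ m ∈ Finset.range (N + 1), ∑ η ∈ sec d L (m + 1), f η ≤ φ / Γm * ∑ ξ ∈ sec d L m, mu g φ ξ * H ξ :=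
    fun m _ => ZRI.palm_le hg hφ m x H hH0
  refine (Finset.sum_le_sum h5).trans ?_
  rw [← Finset.mul_sum]
  refine mul_le_mul_of_nonneg_left ?_ (div_nonneg hφ.le hg.pos.le)
  exact ZRI.Vh_le hd hL hg hφ T W hW0 hW N x t ht

end ZRI
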