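import Pool.Agent.ZRI.Defs2
import Pool.Agent.ZRI.T1
import Pool.Agent.ZRI.T3

open scoped BigOperators ENNReal Topology
open MeasureTheory Filter

namespace ZRI

variable {d L : ℕ} {g : ℕ → ℝ} {Γm Γp : ℝ}

theorem T7_aux (hd : 1 ≤ d) (hg : IsRate g Γm Γp) (T : Tor d L → Prop) (t : ℝ) (ht : 0 ≤ t)
    (η : Cfg d L) (A : Finset (Tor d L)) :
    Qh g T t (η, A, A) ≤ ∑ x ∈ A, Qh g T t (η, {x}, {x}) := by
  classical
  induction A using Finset.induction_on with
  | empty => rw [ZRI.Qh_empty, Finset.sum_empty]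
  | insert a A ha ih =>
    rw [Finset.sum_insert ha, Finset.insert_eq]
    exact (ZRI.Qh_union hd hg T t ht η {a} A {a} A).trans (by linarith)

/-- T7 -/
theorem out_le (hd : 1 ≤ d) (hg : IsRate g Γm Γp) (T : Tor d L → Prop) (t : ℝ) (ht : 0 ≤ t)
    (N : ℕ) (η : Cfg d L) :
    Qh g T t (η, out N η, out N η) ≤
      ∑ x ∈ Finset.univ.filter (fun x : Tor d L => ¬ inbox N x),
        (if 1 ≤ η x then Qh g T t (η, {x}, {x}) else 0) := by
  refine (T7_aux hd hg T t ht η (out N η)).trans (le_of_eq ?_)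
  rw [← Finset.sum_filter, Finset.filter_filter]
  rfl

end ZRI
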