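import Pool.Agent.ZRI.Defs2

open scoped BigOperators ENNReal Topology
open MeasureTheory Filter

namespace ZRI

variable {d L : ℕ} {g : ℕ → ℝ} {Γm Γp : ℝ}

theorem T8_geom (q : ℝ) (hq0 : 0 ≤ q) (hq : q ≤ 2 / 3) (n : ℕ) :
    ∑ k ∈ Finset.range n, q ^ k ≤ 3 := by
  have h : ∑ k ∈ Finset.range n, q ^ k ≤ 3 - 3 * (2 / 3 : ℝ) ^ n := by
    induction n with
    | zero => simp
    | succ n ih =>
      rw [Finset.sum_range_succ]
      have h1 : q ^ n ≤ (2 / 3 : ℝ) ^ n := pow_le_pow_left₀ hq0 hq n
      rw [pow_succ]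
      linarith
  have h2 : 0 ≤ (2 / 3 : ℝ) ^ n := by positivity
  linarith

theorem T8_one (q : ℝ) (hq0 : 0 ≤ q) (hq : q ≤ 2 / 3) :
    ∑ a : ZMod (L + 1), q ^ (a.valMinAbs.natAbs) ≤ 5 := by
  classical
  have hb : ∀ a : ZMod (L + 1), a.valMinAbs.natAbs ≤ (L + 1) / 2 := fun a =>
    ZMod.natAbs_valMinAbs_le a
  rw [← Finset.sum_filter_add_sum_filter_not Finset.univ
    (fun a : ZMod (L + 1) => 0 ≤ a.valMinAbs)]
  have h1 : ∑ a ∈ Finset.univ.filter (fun a : ZMod (L + 1) => 0 ≤ a.valMinAbs),
      q ^ (a.valMinAbs.natAbs) ≤ 3 := by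
    have hinj : Set.InjOn (fun a : ZMod (L + 1) => a.valMinAbs.natAbs)
        (Finset.univ.filter (fun a : ZMod (L + 1) => 0 ≤ a.valMinAbs)) := by
      intro a ha b hb' hab
      rw [Finset.mem_coe, Finset.mem_filter] at ha hb'
      have hab' : a.valMinAbs.natAbs = b.valMinAbs.natAbs := hab
      apply ZMod.injective_valMinAbs
      have := ha.2
      have := hb'.2
      omega
    calc ∑ a ∈ Finset.univ.filter (fun a : ZMod (L + 1) => 0 ≤ a.valMinAbs),
          q ^ (a.valMinAbs.natAbs)
        = ∑ k ∈ (Finset.univ.filter (fun a : ZMod (L + 1) => 0 ≤ a.valMinAbs)).image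
            (fun a : ZMod (L + 1) => a.valMinAbs.natAbs), q ^ k := by
          rw [Finset.sum_image hinj]
      _ ≤ ∑ k ∈ Finset.range ((L + 1) / 2 + 1), q ^ k := by
          apply Finset.sum_le_sum_of_subset_of_nonneg
          · intro k hk
            rw [Finset.mem_image] at hk
            obtain ⟨a, _, rfl⟩ := hk
            rw [Finset.mem_range]
            have := hb a
            omega
          · intro k _ _
            positivity
      _ ≤ 3 := T8_geom q hq0 hq _
  have h2 : ∑ a ∈ Finset.univ.filter (fun a : ZMod (L + 1) => ¬ 0 ≤ a.valMinAbs),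
      q ^ (a.valMinAbs.natAbs) ≤ 2 := by
    have hinj : Set.InjOn (fun a : ZMod (L + 1) => a.valMinAbs.natAbs - 1)
        (Finset.univ.filter (fun a : ZMod (L + 1) => ¬ 0 ≤ a.valMinAbs)) := by
      intro a ha b hb' hab
      rw [Finset.mem_coe, Finset.mem_filter] at ha hb'
      have hab' : a.valMinAbs.natAbs - 1 = b.valMinAbs.natAbs - 1 := hab
      apply ZMod.injective_valMinAbs
      have := ha.2
      have := hb'.2
      omega
    calc ∑ a ∈ Finset.univ.filter (fun a : ZMod (L + 1) => ¬ 0 ≤ a.valMinAbs),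
          q ^ (a.valMinAbs.natAbs)
        = ∑ a ∈ Finset.univ.filter (fun a : ZMod (L + 1) => ¬ 0 ≤ a.valMinAbs),
          q * q ^ (a.valMinAbs.natAbs - 1) := by
          apply Finset.sum_congr rfl
          intro a ha
          rw [Finset.mem_filter] at ha
          have h3 : a.valMinAbs.natAbs = (a.valMinAbs.natAbs - 1) + 1 := by
            have := ha.2
            omega
          conv_lhs => rw [h3]
          rw [pow_succ, mul_comm]
      _ = q * ∑ k ∈ (Finset.univ.filter (fun a : ZMod (L + 1) => ¬ 0 ≤ a.valMinAbs)).image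
            (fun a : ZMod (L + 1) => a.valMinAbs.natAbs - 1), q ^ k := by
          rw [Finset.sum_image hinj, Finset.mul_sum]
      _ ≤ q * ∑ k ∈ Finset.range ((L + 1) / 2 + 1), q ^ k := by
          apply mul_le_mul_of_nonneg_left _ hq0
          apply Finset.sum_le_sum_of_subset_of_nonneg
          · intro k hk
            rw [Finset.mem_image] at hk
            obtain ⟨a, _, rfl⟩ := hk
            rw [Finset.mem_range]
            have := hb a
            omega
          · intro k _ _
            positivity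
      _ ≤ 2 / 3 * 3 := mul_le_mul hq (T8_geom q hq0 hq _)
          (Finset.sum_nonneg (fun k _ => by positivity)) (by norm_num)
      _ = 2 := by norm_num
  linarith

/-- T8 -/
theorem exp_sum (N : ℕ) :
    ∑ x ∈ Finset.univ.filter (fun x : Tor d L => ¬ inbox N x), Real.exp (-(nrm x : ℝ)) ≤
      Real.exp (-(N / 2)) * 5 ^ d := by
  classical
  set q : ℝ := Real.exp (-(1 / 2)) with hqd
  have hq0 : 0 ≤ q := (Real.exp_pos _).le
  have hq : q ≤ 2 / 3 := by
    have h1 : (3 / 2 : ℝ) ≤ Real.exp (1 / 2) := by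
      have := Real.add_one_le_exp (1 / 2 : ℝ)
      linarith
    rw [hqd, Real.exp_neg]
    rw [inv_le_comm₀ (Real.exp_pos _) (by norm_num)]
    linarith
  have hq1 : q ≤ 1 := by linarith
  have hN : Real.exp (-((N : ℝ) / 2)) = q ^ N := by
    rw [hqd, ← Real.exp_nat_mul]
    congr 1
    ring
  rw [hN]
  have hx : ∀ x ∈ Finset.univ.filter (fun x : Tor d L => ¬ inbox N x),
      Real.exp (-(nrm x : ℝ)) ≤ q ^ N * q ^ (nrm x) := by
    intro x hx
    rw [Finset.mem_filter] at hx
    have h1 : N ≤ nrm x := by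
      have h2 := hx.2
      unfold inbox at h2
      rw [not_forall] at h2
      obtain ⟨i, hi⟩ := h2
      have h3 : (x i).valMinAbs.natAbs ≤ nrm x := by
        unfold nrm
        exact Finset.single_le_sum (f := fun i => (x i).valMinAbs.natAbs)
          (fun _ _ => Nat.zero_le _) (Finset.mem_univ i)
      omega
    have h4 : Real.exp (-(nrm x : ℝ)) = q ^ (nrm x + nrm x) := by
      rw [hqd, ← Real.exp_nat_mul]
      congr 1
      push_cast
      ring
    rw [h4, ← pow_add]
    exact pow_le_pow_of_le_one hq0 hq1 (by omega)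
  calc ∑ x ∈ Finset.univ.filter (fun x : Tor d L => ¬ inbox N x), Real.exp (-(nrm x : ℝ))
      ≤ ∑ x ∈ Finset.univ.filter (fun x : Tor d L => ¬ inbox N x), q ^ N * q ^ (nrm x) :=
        Finset.sum_le_sum hx
    _ ≤ ∑ x : Tor d L, q ^ N * q ^ (nrm x) := by
        apply Finset.sum_le_sum_of_subset_of_nonneg (Finset.filter_subset _ _)
        intro x _ _
        positivity
    _ = q ^ N * ∑ x : Tor d L, ∏ i, q ^ ((x i).valMinAbs.natAbs) := by
        rw [Finset.mul_sum]
        apply Finset.sum_congr rfl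
        intro x _
        rw [Finset.prod_pow_eq_pow_sum]
        rfl
    _ = q ^ N * (∑ a : ZMod (L + 1), q ^ (a.valMinAbs.natAbs)) ^ d := by
        rw [Fintype.sum_pow]
    _ ≤ q ^ N * 5 ^ d := by
        apply mul_le_mul_of_nonneg_left _ (by positivity)
        exact pow_le_pow_left₀ (Finset.sum_nonneg (fun a _ => by positivity))
          (T8_one q hq0 hq) d

end ZRI
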