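import Pool.Agent.ZRI.Defs2
import Pool.Agent.ZRI.B2
import Pool.Agent.ZRI.C6a
import Pool.Agent.ZRI.T6
import Pool.Agent.ZRI.T7
import Pool.Agent.ZRI.T8

open scoped BigOperators ENNReal Topology
open MeasureTheory Filter

namespace ZRI

variable {d L : ℕ} {g : ℕ → ℝ} {Γm Γp : ℝ}

theorem T9_back (x : Tor d L) (e : Dir d) : nrm x ≤ nrm (x + stp e) + 1 := by
  have h1 : x + stp e + stp (e.1, !e.2) = x := by
    unfold stp
    rw [add_assoc, ← Pi.single_add]
    have h2 : ((if e.2 = true then (1 : ZMod (L + 1)) else -1) +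
        (if (!e.2) = true then (1 : ZMod (L + 1)) else -1)) = 0 := by
      cases e.2 <;> simp
    rw [h2, Pi.single_zero, add_zero]
  have h3 := ZRI.nrm_step (x + stp e) (e.1, !e.2)
  rw [h1] at h3
  exact h3

/-- T9 -/
theorem out_sum (hd : 1 ≤ d) (hL : 1 ≤ L) (hg : IsRate g Γm Γp) {φ : ℝ} (hφ : 0 < φ) (R N : ℕ)
    (t : ℝ) (ht : 0 ≤ t) (S : Finset (Cfg d L)) :
    ∑ η ∈ S, mu g φ η * Qh g (fun x : Tor d L => nrm x ≤ R + 1) t (η, out N η, out N η) ≤
      epsN d φ Γm Γp t R N := by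
  classical
  have hmu : ∀ η : Cfg d L, 0 ≤ mu g φ η := fun η => (ZRI.mu_pos hg hφ η).le
  set T : Tor d L → Prop := fun x => nrm x ≤ R + 1 with hT
  set U : Finset (Tor d L) := Finset.univ.filter (fun x : Tor d L => ¬ inbox N x) with hU
  calc ∑ η ∈ S, mu g φ η * Qh g T t (η, out N η, out N η)
      ≤ ∑ η ∈ S, mu g φ η * ∑ x ∈ U, (if 1 ≤ η x then Qh g T t (η, {x}, {x}) else 0) :=
        Finset.sum_le_sum (fun η _ => mul_le_mul_of_nonneg_left
          (ZRI.out_le hd hg T t ht N η) (hmu η))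
    _ = ∑ x ∈ U, ∑ η ∈ S, mu g φ η * (if 1 ≤ η x then Qh g T t (η, {x}, {x}) else 0) := by
        simp_rw [Finset.mul_sum]
        exact Finset.sum_comm
    _ ≤ ∑ x ∈ U, φ / Γm * Real.exp (kap φ Γm Γp * t + ((R : ℝ) + 1 - nrm x)) := by
        refine Finset.sum_le_sum (fun x _ => ?_)
        refine ZRI.one_le hd hL hg hφ T (fun x => (R : ℝ) + 1 - nrm x) ?_ ?_ x t ht S
        · intro y hy
          have h1 : nrm y ≤ R + 1 := hy
          have h2 : (nrm y : ℝ) ≤ (R : ℝ) + 1 := by exact_mod_cast h1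
          change 0 ≤ (R : ℝ) + 1 - nrm y
          linarith
        · intro y e
          have h1 := T9_back y e
          have h2 : (nrm y : ℝ) ≤ (nrm (y + stp e) : ℝ) + 1 := by exact_mod_cast h1
          change (R : ℝ) + 1 - nrm (y + stp e) ≤ (R : ℝ) + 1 - nrm y + 1
          linarith
    _ = φ / Γm * Real.exp (kap φ Γm Γp * t + R + 1) * ∑ x ∈ U, Real.exp (-(nrm x : ℝ)) := by
        rw [Finset.mul_sum]
        refine Finset.sum_congr rfl (fun x _ => ?_)
        have h1 : kap φ Γm Γp * t + ((R : ℝ) + 1 - nrm x) =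
            (kap φ Γm Γp * t + R + 1) + (-(nrm x : ℝ)) := by ring
        rw [h1, Real.exp_add]
        ring
    _ ≤ φ / Γm * Real.exp (kap φ Γm Γp * t + R + 1) * (Real.exp (-(N / 2)) * 5 ^ d) := by
        apply mul_le_mul_of_nonneg_left (ZRI.exp_sum N)
        have h1 : 0 ≤ φ / Γm := (div_pos hφ hg.pos).le
        exact mul_nonneg h1 (Real.exp_pos _).le
    _ = epsN d φ Γm Γp t R N := rfl

end ZRI
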