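import Pool.Agent.ZRI.Defs2
import Pool.Agent.ZRI.B4
import Pool.Agent.ZRI.C6a
import Pool.Agent.ZRI.T9
import Pool.Agent.ZRI.L3
import Pool.Agent.ZRI.L4
import Pool.Agent.ZRI.L5

open scoped BigOperators ENNReal Topology
open MeasureTheory Filter

namespace ZRI

variable {d L : ℕ} {g : ℕ → ℝ} {Γm Γp : ℝ}

theorem L6_main (hd : 1 ≤ d) (hL : 1 ≤ L) (hg : IsRate g Γm Γp) {φ : ℝ} (hφ : 0 < φ) (δ : ℝ≥0∞)
    (R N : ℕ) (t : ℝ) (ht : 0 ≤ t) (b : Bool) :
    |(∑' η : Cfg d L, mu g φ η * sg (Gen g δ) t (FT d L R b) (ini δ (res N η))) -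
      ∑' η : Cfg d L, mu g φ η * sg (Gen g δ) t (FT d L R b) (ini δ η)| ≤
        epsN d φ Γm Γp t R N := by
  have hFT0 : ∀ s, 0 ≤ FT d L R b s := by
    intro s
    unfold FT
    split_ifs
    · exact Set.indicator_nonneg (fun _ _ => zero_le_one) s
    · exact Set.indicator_nonneg (fun _ _ => zero_le_one) s
  have hFT1 : ∀ s, FT d L R b s ≤ 1 := by
    intro s
    unfold FT
    split_ifs
    · exact Set.indicator_le_self' (fun _ _ => zero_le_one) s
    · exact Set.indicator_le_self' (fun _ _ => zero_le_one) s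
  have hmu := (ZRI.mu_total (d := d) (L := L) hg hφ).1
  have hmu0 : ∀ η : Cfg d L, 0 ≤ mu g φ η := fun η => (ZRI.mu_pos hg hφ η).le
  have hs : ∀ h : Cfg d L → St d L,
      Summable fun η : Cfg d L => mu g φ η * sg (Gen g δ) t (FT d L R b) (h η) := by
    intro h
    refine Summable.of_nonneg_of_le (fun η => ?_) (fun η => ?_) hmu
    · exact mul_nonneg (hmu0 η) (ZRI.Gen_mem hd hg δ _ hFT0 hFT1 t ht (h η)).1
    · exact mul_le_of_le_one_right (hmu0 η) (ZRI.Gen_mem hd hg δ _ hFT0 hFT1 t ht (h η)).2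
  have hcpl : ∀ η : Cfg d L, |sg (Gen g δ) t (FT d L R b) (ini δ (res N η)) -
      sg (Gen g δ) t (FT d L R b) (ini δ η)| ≤
      Qh g (fun x : Tor d L => nrm x ≤ R + 1) t (η, out N η, out N η) := fun η =>
    ZRI.coupling hd hg δ R b t ht _ _ _ _ _ _ _ _ (ZRI.Cpl_ini δ R N η)
  have hsum : ∀ S : Finset (Cfg d L), ∑ η ∈ S, mu g φ η *
      Qh g (fun x : Tor d L => nrm x ≤ R + 1) t (η, out N η, out N η) ≤ epsN d φ Γm Γp t R N :=
    fun S => ZRI.out_sum hd hL hg hφ R N t ht S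
  rw [← (hs fun η => ini δ (res N η)).tsum_sub (hs fun η => ini δ η), abs_le]
  have hsub := (hs fun η => ini δ (res N η)).sub (hs fun η => ini δ η)
  constructor
  · rw [neg_le, ← tsum_neg]
    refine hsub.neg.tsum_le_of_sum_le fun S => ?_
    refine le_trans (Finset.sum_le_sum fun η _ => ?_) (hsum S)
    rw [← mul_sub, ← mul_neg]
    refine mul_le_mul_of_nonneg_left ?_ (hmu0 η)
    exact (neg_le_abs _).trans (hcpl η)
  · refine hsub.tsum_le_of_sum_le fun S => ?_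
    refine le_trans (Finset.sum_le_sum fun η _ => ?_) (hsum S)
    rw [← mul_sub]
    refine mul_le_mul_of_nonneg_left ?_ (hmu0 η)
    exact (le_abs_self _).trans (hcpl η)

/-- L6 -/
theorem prbR_sub (hd : 1 ≤ d) (hL : 1 ≤ L) (hg : IsRate g Γm Γp) {φ : ℝ} (hφ : 0 < φ) (δ : ℝ≥0∞)
    (R N : ℕ) (t : ℝ) (ht : 0 ≤ t) :
    |prbR d L N g φ δ t (bad d L R) - prb d L g φ δ t (bad d L R)| ≤ epsN d φ Γm Γp t R N ∧
      |prbR d L N g φ δ t (good d L R) - prb d L g φ δ t (good d L R)| ≤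
        epsN d φ Γm Γp t R N :=
  ⟨L6_main hd hL hg hφ δ R N t ht true, L6_main hd hL hg hφ δ R N t ht false⟩

end ZRI
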