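import Pool.Agent.ZRI.Defs2

open scoped BigOperators ENNReal Topology
open MeasureTheory Filter

namespace ZRI

variable {d L : ℕ} {g : ℕ → ℝ} {Γm Γp : ℝ}

theorem Z1_mem_box {m : ℕ} {x : Zd d} : x ∈ box d m ↔ ∀ i, -(m : ℤ) ≤ x i ∧ x i ≤ m := by
  unfold box
  rw [Finset.mem_Icc, Pi.le_def, Pi.le_def]
  exact ⟨fun h i => ⟨h.1 i, h.2 i⟩, fun h => ⟨fun i => (h i).1, fun i => (h i).2⟩⟩

/-- Z1 -/
theorem cst_inj (m : ℕ) (hm : 2 * m < L + 1) (x y : Zd d) (hx : x ∈ box d m) (hy : y ∈ box d m)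
    (h : cst L x = cst L y) : x = y := by
  funext i
  have h1 : ((x i : ℤ) : ZMod (L + 1)) = ((y i : ℤ) : ZMod (L + 1)) := congrFun h i
  rw [ZMod.intCast_eq_intCast_iff_dvd_sub] at h1
  have hxi := Z1_mem_box.1 hx i
  have hyi := Z1_mem_box.1 hy i
  have h2 : |y i - x i| < ((L + 1 : ℕ) : ℤ) := by
    have h3 : (2 * m : ℤ) < ((L + 1 : ℕ) : ℤ) := by exact_mod_cast hm
    rw [abs_lt]
    constructor <;> linarith [hxi.1, hxi.2, hyi.1, hyi.2]
  have h3 := Int.eq_zero_of_abs_lt_dvd h1 h2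
  linarith

/-- Z1 -/
theorem nrm_cst (m : ℕ) (hm : 2 * m < L + 1) (x : Zd d) (hx : x ∈ box d m) :
    nrm (cst L x : Tor d L) = nrmZ x := by
  unfold nrm nrmZ cst
  refine Finset.sum_congr rfl fun i _ => ?_
  have hxi := Z1_mem_box.1 hx i
  have h1 : (((x i : ℤ) : ZMod (L + 1))).valMinAbs = x i := by
    rw [ZMod.valMinAbs_spec]
    refine ⟨rfl, ?_⟩
    rw [Set.mem_Ioc]
    have h3 : (2 * m : ℤ) < ((L + 1 : ℕ) : ℤ) := by exact_mod_cast hm
    constructor <;> linarith [hxi.1, hxi.2]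
  rw [h1]

/-- Z1 -/
theorem cst_step (x : Zd d) (e : Dir d) : (cst L (x + stpZ e) : Tor d L) = cst L x + stp e := by
  funext i
  unfold cst stpZ stp
  rw [Pi.add_apply, Pi.add_apply, Int.cast_add]
  congr 1
  by_cases h : i = e.1
  · subst h
    rw [Pi.single_eq_same, Pi.single_eq_same]
    split_ifs
    · exact Int.cast_one
    · rw [Int.cast_neg, Int.cast_one]
  · rw [Pi.single_eq_of_ne h, Pi.single_eq_of_ne h, Int.cast_zero]

/-- Z1 -/
theorem box_step (m : ℕ) (x : Zd d) (hx : x ∈ box d m) (e : Dir d) :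
    x + stpZ e ∈ box d (m + 1) := by
  rw [Z1_mem_box] at hx ⊢
  intro i
  have hxi := hx i
  have h1 : -1 ≤ (stpZ e : Zd d) i ∧ (stpZ e : Zd d) i ≤ 1 := by
    unfold stpZ
    by_cases h : i = e.1
    · subst h
      rw [Pi.single_eq_same]
      split_ifs <;> norm_num
    · rw [Pi.single_eq_of_ne h]
      norm_num
  rw [Pi.add_apply]
  push_cast
  constructor <;> linarith [hxi.1, hxi.2, h1.1, h1.2]

/-- Z1 -/
theorem toT_cst (m : ℕ) (hm : 2 * m < L + 1) (η : CfgZ d) (hη : η.support ⊆ box d m) (x : Zd d)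
    (hx : x ∈ box d m) : toT L η (cst L x) = η x := by
  unfold toT
  rw [Finset.sum_eq_single x]
  · rw [if_pos rfl]
  · intro y hy hne
    rw [if_neg]
    intro h
    exact hne (cst_inj m hm y x (hη hy) hx h)
  · intro h
    rw [if_pos rfl]
    exact Finsupp.notMem_support_iff.1 h

end ZRI
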