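import Pool.Agent.ZRI.Defs2
import Pool.Agent.ZRI.Z1

open scoped BigOperators ENNReal Topology
open MeasureTheory Filter

namespace ZRI

variable {d L : ℕ} {g : ℕ → ℝ} {Γm Γp : ℝ}

theorem Z2_mem_box {m : ℕ} {x : Zd d} : x ∈ box d m ↔ ∀ i, -(m : ℤ) ≤ x i ∧ x i ≤ m := by
  unfold box
  rw [Finset.mem_Icc, Pi.le_def, Pi.le_def]
  exact ⟨fun h i => ⟨h.1 i, h.2 i⟩, fun h => ⟨fun i => (h i).1, fun i => (h i).2⟩⟩

theorem Z2_box_mono {m n : ℕ} (h : m ≤ n) : box d m ⊆ box d n := by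
  intro x hx
  rw [Z2_mem_box] at hx ⊢
  intro i
  have h1 : (m : ℤ) ≤ n := by exact_mod_cast h
  constructor <;> linarith [(hx i).1, (hx i).2]

theorem Z2_supp_mv (η : CfgZ d) (x y : Zd d) : (mvZ η x y).support ⊆ insert y η.support := by
  intro z hz
  rw [Finset.mem_insert, or_iff_not_imp_left]
  intro hzy
  rw [Finsupp.mem_support_iff] at hz ⊢
  intro h
  apply hz
  unfold mvZ
  rw [Finsupp.add_apply, Finsupp.tsub_apply, h, Finsupp.single_apply, Finsupp.single_apply,
    if_neg (fun e : y = z => hzy e.symm)]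
  simp

theorem Z2_spr_sub (η : CfgZ d) (I : Finset (Zd d)) (x y : Zd d) : sprZ η I x y ⊆ insert y I := by
  unfold sprZ
  split_ifs
  · exact Finset.insert_subset_insert _ (Finset.erase_subset _ _)
  · exact subset_rfl
  · exact Finset.subset_insert _ _

/-- Z2 -/
theorem inb_jmp (δ : ℝ≥0∞) (m : ℕ) (s : StZ d) (hs : inb m s) (x : Zd d) (hx : x ∈ s.1.support)
    (e : Dir d) : inb (m + 1) (jmpZ δ s x (x + stpZ e)) := by
  obtain ⟨h1, h2, h3⟩ := hs
  have hy : x + stpZ e ∈ box d (m + 1) := ZRI.box_step m x (h1 hx) e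
  have hm : box d m ⊆ box d (m + 1) := Z2_box_mono (Nat.le_succ m)
  have hI : insert (x + stpZ e) s.2.1 ⊆ box d (m + 1) :=
    Finset.insert_subset hy (h2.trans hm)
  unfold jmpZ inb
  refine ⟨?_, ?_, ?_⟩
  · exact (Z2_supp_mv _ _ _).trans (Finset.insert_subset hy (h1.trans hm))
  · simp only
    by_cases hδ : δ = ⊤
    · rw [if_pos hδ]
      exact (Finset.filter_subset _ _).trans ((Z2_spr_sub _ _ _ _).trans hI)
    · rw [if_neg hδ]
      exact (Z2_spr_sub _ _ _ _).trans hI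
  · simp only
    split_ifs
    · exact Finset.insert_subset hy (h3.trans hm)
    · exact h3.trans hm

theorem Z2_toT_eq (η : CfgZ d) (y : Tor d L) :
    toT L η y = η.sum fun x k => if cst L x = y then k else 0 := rfl

theorem Z2_toT_add (η η' : CfgZ d) : toT L (η + η') = toT L η + toT L η' := by
  funext y
  rw [Pi.add_apply, Z2_toT_eq, Z2_toT_eq, Z2_toT_eq]
  refine Finsupp.sum_add_index' (fun x => ?_) (fun x a b => ?_)
  · split_ifs <;> rfl
  · split_ifs
    · rfl
    · rfl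

theorem Z2_toT_single (x : Zd d) (k : ℕ) :
    toT L (Finsupp.single x k) = Pi.single (cst L x) k := by
  funext y
  rw [Z2_toT_eq, Finsupp.sum_single_index (by split_ifs <;> rfl), Pi.single_apply]
  by_cases h : cst L x = y
  · rw [if_pos h, if_pos h.symm]
  · rw [if_neg h, if_neg (fun e => h e.symm)]

theorem Z2_toT_mv (η : CfgZ d) (x y : Zd d) (hx : x ∈ η.support) :
    toT L (mvZ η x y) = mv (toT L η) (cst L x) (cst L y) := by
  have h1 : η = (η - Finsupp.single x 1) + Finsupp.single x 1 := by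
    refine (tsub_add_cancel_of_le ?_).symm
    rw [Finsupp.single_le_iff]
    exact Nat.one_le_iff_ne_zero.2 (Finsupp.mem_support_iff.1 hx)
  have h2 : toT L η = toT L (η - Finsupp.single x 1) + Pi.single (cst L x) 1 := by
    conv_lhs => rw [h1]
    rw [Z2_toT_add, Z2_toT_single]
  unfold mvZ mv
  rw [Z2_toT_add, Z2_toT_single, h2, add_tsub_cancel_right]

theorem Z2_mem_image (m : ℕ) (hm : 2 * m < L + 1) {I : Finset (Zd d)} (hI : I ⊆ box d m)
    {x : Zd d} (hx : x ∈ box d m) : cst L x ∈ I.image (cst L) ↔ x ∈ I := by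
  rw [Finset.mem_image]
  constructor
  · rintro ⟨y, hy, hyx⟩
    have := ZRI.cst_inj m hm y x (hI hy) hx hyx
    rwa [← this]
  · intro h
    exact ⟨x, h, rfl⟩

theorem Z2_image_erase (m : ℕ) (hm : 2 * m < L + 1) {I : Finset (Zd d)} (hI : I ⊆ box d m)
    {x : Zd d} (hx : x ∈ box d m) :
    (I.erase x).image (cst L) = (I.image (cst L)).erase (cst L x) := by
  ext y
  rw [Finset.mem_image, Finset.mem_erase, Finset.mem_image]
  constructor
  · rintro ⟨z, hz, rfl⟩
    rw [Finset.mem_erase] at hz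
    exact ⟨fun h => hz.1 (ZRI.cst_inj m hm z x (hI hz.2) hx h), z, hz.2, rfl⟩
  · rintro ⟨hne, z, hz, rfl⟩
    exact ⟨z, Finset.mem_erase.2 ⟨fun h => hne (by rw [h]), hz⟩, rfl⟩

/-- Z2 -/
theorem toS_jmp (δ : ℝ≥0∞) (m : ℕ) (hm : 2 * (m + 1) < L + 1) (s : StZ d) (hs : inb m s) (x : Zd d)
    (hx : x ∈ s.1.support) (e : Dir d) :
    toS L (jmpZ δ s x (x + stpZ e)) = jmp δ (toS L s) (cst L x) (cst L x + stp e) := by
  obtain ⟨h1, h2, h3⟩ := hs
  have hm' : 2 * m < L + 1 := by omega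
  have hxb : x ∈ box d m := h1 hx
  have hyb : x + stpZ e ∈ box d (m + 1) := ZRI.box_step m x hxb e
  have hmm : box d m ⊆ box d (m + 1) := Z2_box_mono (Nat.le_succ m)
  have hy : (cst L (x + stpZ e) : Tor d L) = cst L x + stp e := ZRI.cst_step x e
  have hmv : toT L (mvZ s.1 x (x + stpZ e)) = mv (toT L s.1) (cst L x) (cst L x + stp e) := by
    rw [Z2_toT_mv _ _ _ hx, hy]
  have hxI : cst L x ∈ s.2.1.image (cst L) ↔ x ∈ s.2.1 := Z2_mem_image m hm' h2 hxb
  have hηx : toT L s.1 (cst L x) = s.1 x := ZRI.toT_cst m hm' s.1 h1 x hxb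
  have hspr : (sprZ s.1 s.2.1 x (x + stpZ e)).image (cst L) =
      spr (toT L s.1) (s.2.1.image (cst L)) (cst L x) (cst L x + stp e) := by
    unfold sprZ spr
    by_cases hI : x ∈ s.2.1
    · rw [if_pos hI, if_pos (hxI.2 hI), Finset.image_insert, hy, hηx]
      by_cases ho : s.1 x = 1
      · rw [if_pos ho, if_pos ho, Z2_image_erase m hm' h2 hxb]
      · rw [if_neg ho, if_neg ho]
    · rw [if_neg hI, if_neg (fun h => hI (hxI.1 h))]
  have hsupp : (mvZ s.1 x (x + stpZ e)).support ⊆ box d (m + 1) :=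
    (Z2_supp_mv _ _ _).trans (Finset.insert_subset hyb (h1.trans hmm))
  unfold toS jmp jmpZ
  refine Prod.ext hmv (Prod.ext ?_ ?_)
  · simp only
    by_cases hδ : δ = ⊤
    · rw [if_pos hδ, if_pos hδ, ← hspr, ← hmv, Finset.filter_image]
      congr 1
      refine Finset.filter_congr fun z hz => ?_
      have hzb : z ∈ box d (m + 1) :=
        Finset.insert_subset hyb (h2.trans hmm) (Z2_spr_sub _ _ _ _ hz)
      rw [ZRI.toT_cst (m + 1) hm _ hsupp z hzb]
    · rw [if_neg hδ, if_neg hδ, hspr]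
  · simp only
    by_cases hI : x ∈ s.2.1
    · rw [if_pos hI, if_pos (hxI.2 hI), Finset.image_insert, hy]
    · rw [if_neg hI, if_neg (fun h => hI (hxI.1 h))]

/-- Z2 -/
theorem toS_heal (m : ℕ) (hm : 2 * m < L + 1) (s : StZ d) (hs : inb m s) (x : Zd d)
    (hx : x ∈ box d m) : toS L (healZ s x) = heal (toS L s) (cst L x) := by
  unfold toS healZ heal
  rw [Z2_image_erase m hm hs.2.1 hx]

/-- Z2 -/
theorem FT_toS (R m : ℕ) (hm : 2 * m < L + 1) (b : Bool) (s : StZ d) (hs : inb m s) :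
    FT d L R b (toS L s) = FZ d R b s := by
  have hnrm : ∀ x ∈ s.2.2, nrm (cst L x : Tor d L) = nrmZ x := fun x hx =>
    ZRI.nrm_cst m hm x (hs.2.2 hx)
  have hbad : toS L s ∈ bad d L R ↔ s ∈ farZ d R := by
    unfold bad farZ toS
    rw [Set.mem_ofPred_eq, Set.mem_ofPred_eq]
    constructor
    · rintro ⟨y, hy, hR⟩
      obtain ⟨x, hx, rfl⟩ := Finset.mem_image.1 hy
      exact ⟨x, hx, by rwa [hnrm x hx] at hR⟩
    · rintro ⟨x, hx, hR⟩
      exact ⟨cst L x, Finset.mem_image_of_mem _ hx, by rwa [hnrm x hx]⟩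
  have hgood : toS L s ∈ good d L R ↔ s ∈ nearZ d R := by
    unfold good nearZ toS
    rw [Set.mem_ofPred_eq, Set.mem_ofPred_eq]
    refine and_congr Finset.image_nonempty ⟨fun h x hx => ?_, fun h y hy => ?_⟩
    · rw [← hnrm x hx]
      exact h _ (Finset.mem_image_of_mem _ hx)
    · obtain ⟨x, hx, rfl⟩ := Finset.mem_image.1 hy
      rw [hnrm x hx]
      exact h x hx
  unfold FT FZ
  cases b
  · simp only [Bool.false_eq_true, if_false]
    by_cases h : s ∈ nearZ d R
    · rw [Set.indicator_of_mem h, Set.indicator_of_mem (hgood.2 h)]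
      rfl
    · rw [Set.indicator_of_notMem h, Set.indicator_of_notMem (fun h' => h (hgood.1 h'))]
  · simp only [if_true]
    by_cases h : s ∈ farZ d R
    · rw [Set.indicator_of_mem h, Set.indicator_of_mem (hbad.2 h)]
      rfl
    · rw [Set.indicator_of_notMem h, Set.indicator_of_notMem (fun h' => h (hbad.1 h'))]

end ZRI
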