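import Pool.Agent.ZRI.Defs2
import Pool.Agent.ZRI.Z1
import Pool.Agent.ZRI.Z2

open scoped BigOperators ENNReal Topology
open MeasureTheory Filter

namespace ZRI

variable {d L : ℕ} {g : ℕ → ℝ} {Γm Γp : ℝ}

theorem Z3_toT_zero (η : CfgZ d) (y : Tor d L) (h : y ∉ η.support.image (cst L)) :
    toT L η y = 0 := by
  unfold toT
  apply Finset.sum_eq_zero
  intro x hx
  rw [if_neg]
  intro hxy
  exact h (Finset.mem_image.mpr ⟨x, hx, hxy⟩)

theorem Z3_inb_mono {m m' : ℕ} (h : m ≤ m') {s : StZ d} (hs : inb m s) : inb m' s := by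
  have hb : box d m ⊆ box d m' := by
    unfold box
    apply Finset.Icc_subset_Icc
    · intro i
      simp only [neg_le_neg_iff, Nat.cast_le]
      exact h
    · intro i
      simp only [Nat.cast_le]
      exact h
  exact ⟨hs.1.trans hb, hs.2.1.trans hb, hs.2.2.trans hb⟩

theorem Z3_inb_heal {m : ℕ} {s : StZ d} (hs : inb m s) (x : Zd d) : inb m (healZ s x) :=
  ⟨hs.1, (Finset.erase_subset x s.2.1).trans hs.2.1, hs.2.2⟩

/-- Z3 -/
theorem Gen_toS (hg : IsRate g Γm Γp) (δ : ℝ≥0∞) (m : ℕ) (hm : 2 * (m + 1) < L + 1)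
    (G : St d L → ℝ) (H : StZ d → ℝ) (hGH : ∀ s, inb (m + 1) s → G (toS L s) = H s) (s : StZ d)
    (hs : inb m s) : Gen g δ G (toS L s) = GenZ g δ H s := by
  have hs' : inb (m + 1) s := Z3_inb_mono (Nat.le_succ m) hs
  have hinj : ∀ x ∈ box d m, ∀ y ∈ box d m, (cst L x : Tor d L) = cst L y → x = y := by
    intro x hx y hy h
    exact ZRI.cst_inj m (by omega) x y hx hy h
  unfold Gen GenZ
  congr 1
  · rw [← Finset.sum_subset (Finset.subset_univ (s.1.support.image (cst L)))]
    · rw [Finset.sum_image]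
      · apply Finset.sum_congr rfl
        intro x hx
        apply Finset.sum_congr rfl
        intro e _
        have h1 : (toS L s).1 (cst L x) = s.1 x :=
          ZRI.toT_cst m (by omega) s.1 hs.1 x (hs.1 hx)
        rw [h1, hGH s hs', ← ZRI.toS_jmp δ m hm s hs x hx e, hGH _ (ZRI.inb_jmp δ m s hs x hx e)]
      · intro x hx y hy h
        exact hinj x (hs.1 hx) y (hs.1 hy) h
    · intro y _ hy
      apply Finset.sum_eq_zero
      intro e _
      have h0 : (toS L s).1 y = 0 := Z3_toT_zero s.1 y hy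
      rw [h0, hg.zero]
      simp
  · have hf : (toS L s).2.1.filter (fun x => (toS L s).1 x = 1) =
        (s.2.1.filter (fun x => s.1 x = 1)).image (cst L) := by
      ext y
      simp only [Finset.mem_filter, Finset.mem_image, toS]
      constructor
      · rintro ⟨⟨x, hx, rfl⟩, h⟩
        rw [ZRI.toT_cst m (by omega) s.1 hs.1 x (hs.2.1 hx)] at h
        exact ⟨x, ⟨hx, h⟩, rfl⟩
      · rintro ⟨x, ⟨hx, h⟩, rfl⟩
        refine ⟨⟨x, hx, rfl⟩, ?_⟩
        rw [ZRI.toT_cst m (by omega) s.1 hs.1 x (hs.2.1 hx)]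
        exact h
    rw [hf, Finset.sum_image]
    · apply Finset.sum_congr rfl
      intro x hx
      have hx' := (Finset.mem_filter.mp hx).1
      rw [hGH s hs', ← ZRI.toS_heal m (by omega) s hs x (hs.2.1 hx'), hGH _ (Z3_inb_heal hs' x)]
    · intro x hx y hy h
      exact hinj x (hs.2.1 (Finset.mem_filter.mp hx).1) y (hs.2.1 (Finset.mem_filter.mp hy).1) h

/-- Z3 -/
theorem iter_toS (hg : IsRate g Γm Γp) (δ : ℝ≥0∞) (R : ℕ) (b : Bool) (k m : ℕ)
    (hm : 2 * (m + k) < L + 1) (s : StZ d) (hs : inb m s) :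
    ((Gen g δ)^[k] (FT d L R b)) (toS L s) = ((GenZ g δ)^[k] (FZ d R b)) s := by
  induction k generalizing m s with
  | zero => exact ZRI.FT_toS R m (by omega) b s hs
  | succ k ih =>
    rw [Function.iterate_succ_apply', Function.iterate_succ_apply']
    exact Gen_toS hg δ m (by omega) _ _ (fun s' hs' => ih (m + 1) (by omega) s' hs') s hs

end ZRI
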