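import Pool.Agent.ZRI.Defs2

open scoped BigOperators ENNReal Topology
open MeasureTheory Filter

namespace ZRI

variable {d L : ℕ} {g : ℕ → ℝ} {Γm Γp : ℝ}

theorem Z4_mv_sum (η : Cfg d L) (x y : Tor d L) (hx : 1 ≤ η x) :
    ∑ z, mv η x y z = ∑ z, η z := by
  have h1 : (∑ z, (η - Pi.single x 1 : Cfg d L) z) + 1 = ∑ z, η z := by
    have h2 : ∀ z, (η - Pi.single x 1 : Cfg d L) z + (Pi.single x 1 : Cfg d L) z = η z := by
      intro z
      by_cases hz : z = x
      · subst hz
        simp only [Pi.sub_apply, Pi.single_eq_same]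
        omega
      · simp [Pi.single_eq_of_ne hz]
    have h3 : ∑ z, (Pi.single x 1 : Cfg d L) z = 1 := by
      rw [Finset.sum_pi_single']
      simp
    calc (∑ z, (η - Pi.single x 1 : Cfg d L) z) + 1
        = ∑ z, ((η - Pi.single x 1 : Cfg d L) z + (Pi.single x 1 : Cfg d L) z) := by
          rw [Finset.sum_add_distrib, h3]
      _ = ∑ z, η z := Finset.sum_congr rfl (fun z _ => h2 z)
  have h4 : ∑ z, (Pi.single y 1 : Cfg d L) z = 1 := by
    rw [Finset.sum_pi_single']
    simp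
  calc ∑ z, mv η x y z
      = ∑ z, ((η - Pi.single x 1 : Cfg d L) z + (Pi.single y 1 : Cfg d L) z) := rfl
    _ = (∑ z, (η - Pi.single x 1 : Cfg d L) z) + 1 := by rw [Finset.sum_add_distrib, h4]
    _ = ∑ z, η z := h1

theorem Z4_g_bounds (hg : IsRate g Γm Γp) (n : ℕ) : 0 ≤ g n ∧ g n ≤ Γp * n := by
  induction n with
  | zero => rw [hg.zero]; simp
  | succ n ih =>
    have h1 := hg.lower n
    have h2 := hg.upper n
    have h3 := hg.pos
    push_cast
    constructor
    · linarith [ih.1]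
    · nlinarith [ih.2]

theorem Z4_step (hd : 1 ≤ d) (hg : IsRate g Γm Γp) (δ : ℝ≥0∞) (F : St d L → ℝ) (n : ℕ) (B : ℝ)
    (hB : 0 ≤ B) (hF : ∀ s : St d L, (∑ z, s.1 z) = n → |F s| ≤ B) (s : St d L)
    (hs : (∑ z, s.1 z) = n) :
    |Gen g δ F s| ≤ (2 * (Γp + δ.toReal) * (n : ℝ)) * B := by
  have hd' : (0 : ℝ) < 2 * d := by
    have : (0 : ℝ) < d := by exact_mod_cast hd
    linarith
  have hδ : 0 ≤ δ.toReal := ENNReal.toReal_nonneg
  have hterm : ∀ (x : Tor d L) (e : Dir d),
      |g (s.1 x) / (2 * d) * (F (jmp δ s x (x + stp e)) - F s)| ≤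
        g (s.1 x) / (2 * d) * (2 * B) := by
    intro x e
    rw [abs_mul, abs_of_nonneg (div_nonneg (Z4_g_bounds hg _).1 hd'.le)]
    by_cases hx : s.1 x = 0
    · rw [hx, hg.zero]
      simp
    · apply mul_le_mul_of_nonneg_left _ (div_nonneg (Z4_g_bounds hg _).1 hd'.le)
      have h1 : |F (jmp δ s x (x + stp e))| ≤ B := by
        apply hF
        have : (jmp δ s x (x + stp e)).1 = mv s.1 x (x + stp e) := rfl
        rw [this, Z4_mv_sum _ _ _ (by omega), hs]
      have h2 : |F s| ≤ B := hF s hs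
      calc |F (jmp δ s x (x + stp e)) - F s| ≤ |F (jmp δ s x (x + stp e))| + |F s| := abs_sub _ _
        _ ≤ 2 * B := by linarith
  have hheal : ∀ x : Tor d L, |δ.toReal * (F (heal s x) - F s)| ≤ δ.toReal * (2 * B) := by
    intro x
    rw [abs_mul, abs_of_nonneg hδ]
    apply mul_le_mul_of_nonneg_left _ hδ
    have h1 : |F (heal s x)| ≤ B := hF _ hs
    have h2 : |F s| ≤ B := hF s hs
    calc |F (heal s x) - F s| ≤ |F (heal s x)| + |F s| := abs_sub _ _
      _ ≤ 2 * B := by linarith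
  have hsum1 : ∑ x : Tor d L, g (s.1 x) ≤ Γp * n := by
    calc ∑ x : Tor d L, g (s.1 x) ≤ ∑ x : Tor d L, Γp * (s.1 x : ℝ) :=
          Finset.sum_le_sum (fun x _ => (Z4_g_bounds hg _).2)
      _ = Γp * n := by rw [← Finset.mul_sum, ← hs]; push_cast; rfl
  have hcard : (((s.2.1.filter (fun x => s.1 x = 1)).card : ℕ) : ℝ) ≤ n := by
    have : (s.2.1.filter (fun x => s.1 x = 1)).card ≤ n := by
      calc (s.2.1.filter (fun x => s.1 x = 1)).card
          = ∑ x ∈ s.2.1.filter (fun x => s.1 x = 1), 1 := by simp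
        _ = ∑ x ∈ s.2.1.filter (fun x => s.1 x = 1), s.1 x := by
            apply Finset.sum_congr rfl
            intro x hx
            exact (Finset.mem_filter.mp hx).2.symm
        _ ≤ ∑ x, s.1 x := Finset.sum_le_sum_of_subset (Finset.subset_univ _)
        _ = n := hs
    exact_mod_cast this
  unfold Gen
  calc |(∑ x, ∑ e : Dir d, g (s.1 x) / (2 * d) * (F (jmp δ s x (x + stp e)) - F s)) +
        ∑ x ∈ s.2.1.filter (fun x => s.1 x = 1), δ.toReal * (F (heal s x) - F s)|
      ≤ |∑ x, ∑ e : Dir d, g (s.1 x) / (2 * d) * (F (jmp δ s x (x + stp e)) - F s)| +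
        |∑ x ∈ s.2.1.filter (fun x => s.1 x = 1), δ.toReal * (F (heal s x) - F s)| :=
        abs_add_le _ _
    _ ≤ (∑ x : Tor d L, ∑ e : Dir d, g (s.1 x) / (2 * d) * (2 * B)) +
        ∑ x ∈ s.2.1.filter (fun x => s.1 x = 1), δ.toReal * (2 * B) := by
        apply add_le_add
        · refine (Finset.abs_sum_le_sum_abs _ _).trans (Finset.sum_le_sum fun x _ => ?_)
          exact (Finset.abs_sum_le_sum_abs _ _).trans (Finset.sum_le_sum fun e _ => hterm x e)
        · exact (Finset.abs_sum_le_sum_abs _ _).trans (Finset.sum_le_sum fun x _ => hheal x)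
    _ = (∑ x : Tor d L, g (s.1 x)) * (2 * B) +
        ((s.2.1.filter (fun x => s.1 x = 1)).card : ℝ) * (δ.toReal * (2 * B)) := by
        congr 1
        · rw [Finset.sum_mul]
          apply Finset.sum_congr rfl
          intro x _
          rw [Finset.sum_const, Finset.card_univ, Fintype.card_prod, Fintype.card_fin,
            Fintype.card_bool, nsmul_eq_mul]
          push_cast
          field_simp
        · rw [Finset.sum_const, nsmul_eq_mul]
    _ ≤ (Γp * n) * (2 * B) + (n : ℝ) * (δ.toReal * (2 * B)) := by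
        apply add_le_add
        · exact mul_le_mul_of_nonneg_right hsum1 (by linarith)
        · exact mul_le_mul_of_nonneg_right hcard (by positivity)
    _ = (2 * (Γp + δ.toReal) * (n : ℝ)) * B := by ring

/-- Z4 -/
theorem Gen_iter_bound (hd : 1 ≤ d) (hg : IsRate g Γm Γp) (δ : ℝ≥0∞) (F : St d L → ℝ)
    (hF : ∀ s, |F s| ≤ 1) (k : ℕ) (s : St d L) :
    |((Gen g δ)^[k] F) s| ≤ (2 * (Γp + δ.toReal) * ((∑ z, s.1 z : ℕ) : ℝ)) ^ k := by
  have hΓ : 0 ≤ Γp := by linarith [hg.one_le]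
  have hδ : 0 ≤ δ.toReal := ENNReal.toReal_nonneg
  have key : ∀ (n k : ℕ) (s : St d L), (∑ z, s.1 z) = n →
      |((Gen g δ)^[k] F) s| ≤ (2 * (Γp + δ.toReal) * (n : ℝ)) ^ k := by
    intro n k
    induction k with
    | zero => intro s _; simpa using hF s
    | succ k ih =>
      intro s hs
      rw [Function.iterate_succ_apply', pow_succ']
      exact Z4_step hd hg δ _ n _ (by positivity) ih s hs
  exact key _ k s rfl

/-- Z4 -/
theorem toT_sum (η : CfgZ d) : ∑ y, toT L η y = ∑ x ∈ η.support, η x := by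
  unfold toT
  rw [Finset.sum_comm]
  apply Finset.sum_congr rfl
  intro x _
  rw [Finset.sum_ite_eq]
  simp

end ZRI
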