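import Pool.Agent.ZRI.Defs2
import Pool.Agent.ZRI.Z3
import Pool.Agent.ZRI.Z4

open scoped BigOperators ENNReal Topology
open MeasureTheory Filter

namespace ZRI


variable {d L : ℕ} {g : ℕ → ℝ} {Γm Γp : ℝ}

theorem Z5_mem_box (x : Zd d) (m : ℕ) (h : nrmZ x ≤ m) : x ∈ box d m := by
  unfold box
  rw [Finset.mem_Icc]
  have h1 : ∀ i, (x i).natAbs ≤ m := fun i =>
    le_trans (Finset.single_le_sum (f := fun i => (x i).natAbs) (fun _ _ => Nat.zero_le _)
      (Finset.mem_univ i)) h
  constructor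
  · intro i
    have := h1 i
    show -(m : ℤ) ≤ x i
    omega
  · intro i
    have := h1 i
    show x i ≤ (m : ℤ)
    omega

theorem Z5_inb (s : StZ d) : ∃ m, inb m s := by
  classical
  let S : Finset (Zd d) := s.1.support ∪ (s.2.1 ∪ s.2.2)
  have hS : ∀ x ∈ S, x ∈ box d (S.sup (fun x => nrmZ x)) := fun x hx =>
    Z5_mem_box x _ (Finset.le_sup (f := fun x => nrmZ x) hx)
  refine ⟨S.sup (fun x => nrmZ x), ?_, ?_, ?_⟩
  · intro x hx
    exact hS x (Finset.mem_union_left _ hx)
  · intro x hx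
    exact hS x (Finset.mem_union_right _ (Finset.mem_union_left _ hx))
  · intro x hx
    exact hS x (Finset.mem_union_right _ (Finset.mem_union_right _ hx))

theorem Z5_FT_le (R : ℕ) (b : Bool) (s : St d L) : |FT d L R b s| ≤ 1 := by
  unfold FT
  have hi : ∀ A : Set (St d L), |A.indicator (1 : St d L → ℝ) s| ≤ 1 := by
    intro A
    by_cases h : s ∈ A
    · rw [Set.indicator_of_mem h]; simp
    · rw [Set.indicator_of_notMem h]; simp
  split_ifs
  · exact hi _
  · exact hi _

theorem sg_toS (hd : 1 ≤ d) (hg : IsRate g Γm Γp) (δ : ℝ≥0∞) (R : ℕ) (b : Bool) (t : ℝ)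
    (s : StZ d) :
    Tendsto (fun L => sg (Gen g δ) t (FT d L R b) (toS L s)) atTop
      (𝓝 (sg (GenZ g δ) t (FZ d R b) s)) := by
  obtain ⟨m, hm⟩ := Z5_inb s
  set n : ℕ := ∑ x ∈ s.1.support, s.1 x with hn
  set C : ℝ := 2 * (Γp + δ.toReal) * (n : ℝ) with hC
  have hsum : Summable (fun k : ℕ => |t| ^ k / (k.factorial : ℝ) * C ^ k) := by
    have h := Real.summable_pow_div_factorial (|t| * C)
    refine h.congr ?_
    intro k
    rw [mul_pow]
    ring
  unfold sg
  refine tendsto_tsum_of_dominated_convergence hsum ?_ ?_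
  · intro k
    refine tendsto_const_nhds.congr' ?_
    filter_upwards [eventually_ge_atTop (2 * (m + k))] with L hL
    rw [ZRI.iter_toS hg δ R b k m (by omega) s hm]
  · refine Eventually.of_forall ?_
    intro L k
    have h1 := ZRI.Gen_iter_bound hd hg δ (FT d L R b) (Z5_FT_le R b) k (toS L s)
    have h2 : ∑ z, (toS L s).1 z = n := ZRI.toT_sum s.1
    rw [h2] at h1
    rw [Real.norm_eq_abs, abs_mul, abs_div, abs_pow, Nat.abs_cast]
    refine mul_le_mul_of_nonneg_left h1 (by positivity)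

end ZRI
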