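import Pool.Agent.ZRI.Defs2
import Pool.Agent.ZRI.C6a
import Pool.Agent.ZRI.Z1

open scoped BigOperators ENNReal Topology
open MeasureTheory Filter

namespace ZRI

variable {d L : ℕ} {g : ℕ → ℝ} {Γm Γp : ℝ}

/-- product of one-site laws over `Fin n` -/
theorem Z6_fin (p : ℕ → ℝ) (hp : ∀ n, 0 ≤ p n) (h1 : HasSum p 1) (n : ℕ) :
    HasSum (fun η : Fin n → ℕ => ∏ i, p (η i)) 1 := by
  induction n with
  | zero =>
    have h := hasSum_unique (fun η : Fin 0 → ℕ => ∏ i, p (η i))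
    rw [Fin.prod_univ_zero] at h
    exact h
  | succ n ih =>
    have h2 : Summable (fun x : ℕ × (Fin n → ℕ) => p x.1 * ∏ i, p (x.2 i)) :=
      h1.summable.mul_of_nonneg ih.summable hp (fun η => Finset.prod_nonneg (fun i _ => hp _))
    have h3 := h1.mul ih h2
    rw [one_mul] at h3
    have h4 := (Fin.consEquiv (fun _ : Fin (n + 1) => ℕ)).symm.hasSum_iff.2 h3
    have h5 : (fun η : Fin (n + 1) → ℕ => ∏ i, p (η i)) =
        (fun x : ℕ × (Fin n → ℕ) => p x.1 * ∏ i, p (x.2 i)) ∘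
          (Fin.consEquiv (fun _ : Fin (n + 1) => ℕ)).symm := by
      funext η
      show ∏ i, p (η i) = p (η 0) * ∏ i, p (η (Fin.succ i))
      rw [Fin.prod_univ_succ]
    rw [h5]
    exact h4

/-- product of one-site laws over a finite index type -/
theorem Z6_pi (p : ℕ → ℝ) (hp : ∀ n, 0 ≤ p n) (h1 : HasSum p 1) (ι : Type) [Fintype ι] :
    HasSum (fun η : ι → ℕ => ∏ i, p (η i)) 1 := by
  have h := Z6_fin p hp h1 (Fintype.card ι)
  let e := Fintype.equivFin ι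
  have h2 := (Equiv.arrowCongr e (Equiv.refl ℕ)).hasSum_iff.2 h
  have h3 : (fun η : ι → ℕ => ∏ i, p (η i)) =
      (fun η : Fin (Fintype.card ι) → ℕ => ∏ i, p (η i)) ∘
        (Equiv.arrowCongr e (Equiv.refl ℕ)) := by
    funext η
    show ∏ i, p (η i) = ∏ i, p (η (e.symm i))
    exact (Equiv.prod_comp e.symm (fun i => p (η i))).symm
  rw [h3]
  exact h2

/-- the finite configuration with given values in the box -/
noncomputable def Z6_E (N : ℕ) (α : {x // x ∈ box d N} → ℕ) : CfgZ d :=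
  Finsupp.onFinset (box d N) (fun x => if h : x ∈ box d N then α ⟨x, h⟩ else 0)
    (fun x hx => by
      by_contra h
      exact hx (dif_neg h))

theorem Z6_E_apply (N : ℕ) (α : {x // x ∈ box d N} → ℕ) (x : {x // x ∈ box d N}) :
    Z6_E N α x.1 = α x := by
  show (if h : x.1 ∈ box d N then α ⟨x.1, h⟩ else 0) = α x
  rw [dif_pos x.2]

theorem Z6_E_supp (N : ℕ) (α : {x // x ∈ box d N} → ℕ) : (Z6_E N α).support ⊆ box d N :=
  Finsupp.support_onFinset_subset

theorem Z6_E_inj (N : ℕ) : Function.Injective (Z6_E (d := d) N) := by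
  intro α β h
  funext x
  rw [← Z6_E_apply N α x, ← Z6_E_apply N β x, h]

theorem Z6_E_surj (N : ℕ) (ζ : CfgZ d) (h : ζ.support ⊆ box d N) :
    Z6_E N (fun x : {x // x ∈ box d N} => ζ x.1) = ζ := by
  ext x
  by_cases hx : x ∈ box d N
  · exact Z6_E_apply N _ ⟨x, hx⟩
  · have h1 : x ∉ ζ.support := fun h2 => hx (h h2)
    have h3 : x ∉ (Z6_E N (fun x : {x // x ∈ box d N} => ζ x.1)).support :=
      fun h2 => hx (Z6_E_supp N _ h2)
    rw [Finsupp.notMem_support_iff.1 h1, Finsupp.notMem_support_iff.1 h3]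

theorem Z6_muZ (N : ℕ) (φ : ℝ) (α : {x // x ∈ box d N} → ℕ) :
    muZ N g φ (Z6_E N α) = ∏ x, m1 g φ (α x) := by
  unfold muZ
  rw [if_pos (Z6_E_supp N α), ← Finset.prod_coe_sort]
  refine Finset.prod_congr rfl ?_
  intro x _
  rw [Z6_E_apply]

theorem Z6_range (N : ℕ) (φ : ℝ) (ζ : CfgZ d) (h : ζ ∉ Set.range (Z6_E (d := d) N)) :
    muZ N g φ ζ = 0 := by
  unfold muZ
  rw [if_neg]
  intro h1
  exact h ⟨_, Z6_E_surj N ζ h1⟩

theorem Z6_m1 (hg : IsRate g Γm Γp) {φ : ℝ} (hφ : 0 < φ) :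
    (∀ n, 0 ≤ m1 g φ n) ∧ HasSum (m1 g φ) 1 := by
  obtain ⟨h1, h2, h3, _⟩ := ZRI.m1_sum hg hφ
  refine ⟨fun n => (h3 n).le, ?_⟩
  have h4 := h1.hasSum
  rw [h2] at h4
  exact h4

/-- Z6 -/
theorem muZ_total (hg : IsRate g Γm Γp) {φ : ℝ} (hφ : 0 < φ) (N : ℕ) :
    (∀ ζ : CfgZ d, 0 ≤ muZ N g φ ζ) ∧ Summable (fun ζ : CfgZ d => muZ N g φ ζ) ∧
      ∑' ζ : CfgZ d, muZ N g φ ζ = 1 := by
  obtain ⟨h0, h1⟩ := Z6_m1 hg hφ
  have h2 : HasSum (fun ζ : CfgZ d => muZ N g φ ζ) 1 := by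
    rw [← (Z6_E_inj (d := d) N).hasSum_iff (Z6_range N φ)]
    have h3 := Z6_pi (m1 g φ) h0 h1 {x // x ∈ box d N}
    have h4 : (fun ζ : CfgZ d => muZ N g φ ζ) ∘ Z6_E N =
        fun α : {x // x ∈ box d N} → ℕ => ∏ x, m1 g φ (α x) := by
      funext α
      exact Z6_muZ N φ α
    rw [h4]
    exact h3
  refine ⟨?_, h2.summable, h2.tsum_eq⟩
  intro ζ
  unfold muZ
  split_ifs
  · exact Finset.prod_nonneg (fun x _ => h0 _)
  · exact le_rfl

theorem Z6_val (N : ℕ) (hN : 2 * N < L + 1) (x : Zd d) (hx : x ∈ box d N) (i : Fin d) :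
    ((cst L x : Tor d L) i).valMinAbs = x i := by
  unfold cst
  rw [ZMod.valMinAbs_spec]
  unfold box at hx
  rw [Finset.mem_Icc] at hx
  have h1 : -(N : ℤ) ≤ x i := hx.1 i
  have h2 : x i ≤ (N : ℤ) := hx.2 i
  refine ⟨rfl, ?_, ?_⟩
  · push_cast
    omega
  · push_cast
    omega

theorem Z6_inbox (N : ℕ) (hN : 2 * N < L + 1) (x : Zd d) (hx : x ∈ box d N) :
    inbox N (cst L x : Tor d L) := by
  intro i
  rw [Z6_val N hN x hx i]
  unfold box at hx
  rw [Finset.mem_Icc] at hx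
  have h1 : -(N : ℤ) ≤ x i := hx.1 i
  have h2 : x i ≤ (N : ℤ) := hx.2 i
  omega

/-- the box on the lattice and on the torus -/
def Z6_e (N : ℕ) (hN : 2 * N < L + 1) :
    {x : Zd d // x ∈ box d N} ≃ {y : Tor d L // inbox N y} where
  toFun x := ⟨cst L x.1, Z6_inbox N hN x.1 x.2⟩
  invFun y := ⟨fun i => (y.1 i).valMinAbs, by
    unfold box
    rw [Finset.mem_Icc]
    constructor
    · intro i
      have := y.2 i
      show -(N : ℤ) ≤ (y.1 i).valMinAbs
      omega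
    · intro i
      have := y.2 i
      show (y.1 i).valMinAbs ≤ (N : ℤ)
      omega⟩
  left_inv x := by
    apply Subtype.ext
    funext i
    exact Z6_val N hN x.1 x.2 i
  right_inv y := by
    apply Subtype.ext
    funext i
    exact ZMod.coe_valMinAbs (y.1 i)

/-- Z6: marginalisation -/
theorem marg (hg : IsRate g Γm Γp) {φ : ℝ} (hφ : 0 < φ) (N : ℕ) (hN : 2 * N < L + 1)
    (f : Cfg d L → ℝ) (hf : ∀ η, 0 ≤ f η) (hf1 : ∀ η, f η ≤ 1) :
    ∑' η : Cfg d L, mu g φ η * f (res N η) = ∑' ζ : CfgZ d, muZ N g φ ζ * f (toT L ζ) := by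
  obtain ⟨h0, h1⟩ := Z6_m1 hg hφ
  -- the common sum
  have hp0 : ∀ α : {x : Zd d // x ∈ box d N} → ℕ, 0 ≤ ∏ x, m1 g φ (α x) :=
    fun α => Finset.prod_nonneg (fun x _ => h0 _)
  have hA := Z6_pi (m1 g φ) h0 h1 {x : Zd d // x ∈ box d N}
  have hS : Summable (fun α : {x : Zd d // x ∈ box d N} → ℕ =>
      (∏ x, m1 g φ (α x)) * f (toT L (Z6_E N α))) := by
    refine Summable.of_nonneg_of_le (fun α => mul_nonneg (hp0 α) (hf _)) (fun α => ?_) hA.summable
    exact mul_le_of_le_one_right (hp0 α) (hf1 _)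
  -- right-hand side
  have hR : ∑' ζ : CfgZ d, muZ N g φ ζ * f (toT L ζ) =
      ∑' α : {x : Zd d // x ∈ box d N} → ℕ, (∏ x, m1 g φ (α x)) * f (toT L (Z6_E N α)) := by
    have h2 : HasSum (fun ζ : CfgZ d => muZ N g φ ζ * f (toT L ζ))
        (∑' α : {x : Zd d // x ∈ box d N} → ℕ,
          (∏ x, m1 g φ (α x)) * f (toT L (Z6_E N α))) := by
      rw [← (Z6_E_inj (d := d) N).hasSum_iff (f := fun ζ : CfgZ d => muZ N g φ ζ * f (toT L ζ))
        (fun ζ hζ => by rw [Z6_range N φ ζ hζ, zero_mul])]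
      have h4 : (fun ζ : CfgZ d => muZ N g φ ζ * f (toT L ζ)) ∘ Z6_E N =
          fun α : {x : Zd d // x ∈ box d N} → ℕ =>
            (∏ x, m1 g φ (α x)) * f (toT L (Z6_E N α)) := by
        funext α
        show muZ N g φ (Z6_E N α) * f (toT L (Z6_E N α)) = _
        rw [Z6_muZ]
      rw [h4]
      exact hS.hasSum
    exact h2.tsum_eq
  -- left-hand side
  have hB := Z6_pi (m1 g φ) h0 h1 {y : Tor d L // ¬ inbox N y}
  have hq0 : ∀ β : {y : Tor d L // ¬ inbox N y} → ℕ, 0 ≤ ∏ x, m1 g φ (β x) :=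
    fun β => Finset.prod_nonneg (fun x _ => h0 _)
  have hSB := hS.mul_of_nonneg hB.summable
    (fun α => mul_nonneg (hp0 α) (hf _)) hq0
  have hmul := hS.hasSum.mul hB hSB
  rw [mul_one] at hmul
  let e : Cfg d L ≃ ({x : Zd d // x ∈ box d N} → ℕ) × ({y : Tor d L // ¬ inbox N y} → ℕ) :=
    (Equiv.piEquivPiSubtypeProd (fun y : Tor d L => inbox N y) (fun _ => ℕ)).trans
      (Equiv.prodCongr (Equiv.arrowCongr (Z6_e N hN).symm (Equiv.refl ℕ)) (Equiv.refl _))
  have he := e.hasSum_iff.2 hmul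
  have hfun : (fun η : Cfg d L => mu g φ η * f (res N η)) =
      (fun x : ({x : Zd d // x ∈ box d N} → ℕ) × ({y : Tor d L // ¬ inbox N y} → ℕ) =>
        ((∏ y, m1 g φ (x.1 y)) * f (toT L (Z6_E N x.1))) * ∏ y, m1 g φ (x.2 y)) ∘ e := by
    funext η
    have h5 : (e η).1 = fun x => η (cst L x.1) := rfl
    have h6 : (e η).2 = fun y => η y.1 := rfl
    have h7 : res N η = toT L (Z6_E N (e η).1) := by
      funext y
      by_cases hy : inbox N y
      · have h8 : y = cst L ((Z6_e N hN).symm ⟨y, hy⟩).1 :=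
          (congrArg Subtype.val ((Z6_e N hN).apply_symm_apply ⟨y, hy⟩)).symm
        have h9 : toT L (Z6_E N (e η).1) (cst L ((Z6_e N hN).symm ⟨y, hy⟩).1) =
            Z6_E N (e η).1 ((Z6_e N hN).symm ⟨y, hy⟩).1 :=
          ZRI.toT_cst N hN _ (Z6_E_supp N _) _ ((Z6_e N hN).symm ⟨y, hy⟩).2
        rw [Z6_E_apply, h5] at h9
        rw [← h8] at h9
        rw [h5, h9]
        unfold res
        rw [if_pos hy]
        exact congrArg η h8
      · unfold res
        rw [if_neg hy]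
        unfold toT
        symm
        refine Finset.sum_eq_zero ?_
        intro x hx
        rw [if_neg]
        intro h8
        apply hy
        rw [← h8]
        exact Z6_inbox N hN x (Z6_E_supp N _ hx)
    have h10 : mu g φ η = (∏ y, m1 g φ ((e η).1 y)) * ∏ y, m1 g φ ((e η).2 y) := by
      unfold mu
      rw [← Fintype.prod_subtype_mul_prod_subtype (fun y : Tor d L => inbox N y)
        (fun y => m1 g φ (η y)), h5, h6]
      congr 1
      exact (Equiv.prod_comp (Z6_e N hN) (fun y => m1 g φ (η y.1))).symm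
    show mu g φ η * f (res N η) =
      ((∏ y, m1 g φ ((e η).1 y)) * f (toT L (Z6_E N (e η).1))) * ∏ y, m1 g φ ((e η).2 y)
    rw [h10, h7]
    ring
  rw [hR, hfun]
  exact he.tsum_eq

end ZRI
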