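import Pool.Agent.ZRI.Defs2
import Pool.Agent.ZRI.B4
import Pool.Agent.ZRI.Z1
import Pool.Agent.ZRI.Z5
import Pool.Agent.ZRI.Z6

open scoped BigOperators ENNReal Topology
open MeasureTheory Filter

namespace ZRI

variable {d L : ℕ} {g : ℕ → ℝ} {Γm Γp : ℝ}

theorem Z7_cst_zero : (cst L (0 : Zd d) : Tor d L) = 0 := by
  funext i
  simp [cst]

theorem Z7_zero_mem (N : ℕ) : (0 : Zd d) ∈ box d N := by
  unfold box
  rw [Finset.mem_Icc]
  constructor
  · intro i
    simp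
  · intro i
    simp

/-- Z7 -/
theorem toS_ini (δ : ℝ≥0∞) (N : ℕ) (hN : 2 * N < L + 1) (ζ : CfgZ d)
    (hζ : ζ.support ⊆ box d N) : toS L (iniZ δ ζ) = ini δ (toT L ζ) := by
  have h0 : (toT L ζ : Cfg d L) 0 = ζ 0 := by
    have h := ZRI.toT_cst (L := L) N hN ζ hζ 0 (Z7_zero_mem N)
    rwa [Z7_cst_zero] at h
  unfold toS iniZ ini
  rw [h0]
  refine Prod.ext rfl (Prod.ext ?_ ?_)
  · simp only
    split_ifs with h
    · rw [Finset.image_singleton, Z7_cst_zero]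
    · rw [Finset.image_empty]
  · simp only
    split_ifs with h
    · rw [Finset.image_singleton, Z7_cst_zero]
    · rw [Finset.image_empty]

theorem Z7_FT_mem (R : ℕ) (b : Bool) (s : St d L) : 0 ≤ FT d L R b s ∧ FT d L R b s ≤ 1 := by
  have key : ∀ A : Set (St d L), 0 ≤ A.indicator (1 : St d L → ℝ) s ∧
      A.indicator (1 : St d L → ℝ) s ≤ 1 := by
    intro A
    by_cases h : s ∈ A
    · rw [Set.indicator_of_mem h]
      simp
    · rw [Set.indicator_of_notMem h]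
      simp
  unfold FT
  split_ifs
  · exact key _
  · exact key _

theorem Z7_aux (hd : 1 ≤ d) (hg : IsRate g Γm Γp) {φ : ℝ} (hφ : 0 < φ) (δ : ℝ≥0∞)
    (R N : ℕ) (b : Bool) (t : ℝ) (ht : 0 ≤ t) :
    Tendsto (fun L => ∑' η : Cfg d L, mu g φ η *
      sg (Gen g δ) t (FT d L R b) (ini δ (res N η))) atTop
      (𝓝 (∑' ζ : CfgZ d, muZ N g φ ζ * sg (GenZ g δ) t (FZ d R b) (iniZ δ ζ))) := by
  have hmem : ∀ (L : ℕ) (η : Cfg d L), 0 ≤ sg (Gen g δ) t (FT d L R b) (ini δ η) ∧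
      sg (Gen g δ) t (FT d L R b) (ini δ η) ≤ 1 := fun L η =>
    ZRI.Gen_mem hd hg δ (FT d L R b) (fun s => (Z7_FT_mem R b s).1)
      (fun s => (Z7_FT_mem R b s).2) t ht _
  have h1 : ∀ᶠ L : ℕ in atTop,
      (∑' ζ : CfgZ d, muZ N g φ ζ * sg (Gen g δ) t (FT d L R b) (ini δ (toT L ζ))) =
      ∑' η : Cfg d L, mu g φ η * sg (Gen g δ) t (FT d L R b) (ini δ (res N η)) := by
    filter_upwards [eventually_ge_atTop (2 * N)] with L hL
    exact (ZRI.marg hg hφ N (by omega)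
      (fun η : Cfg d L => sg (Gen g δ) t (FT d L R b) (ini δ η))
      (fun η => (hmem L η).1) (fun η => (hmem L η).2)).symm
  refine Tendsto.congr' h1 ?_
  obtain ⟨hm0, hms, _⟩ := ZRI.muZ_total (d := d) hg hφ N
  refine tendsto_tsum_of_dominated_convergence (bound := fun ζ : CfgZ d => muZ N g φ ζ) hms ?_ ?_
  · intro ζ
    by_cases hζ : ζ.support ⊆ box d N
    · apply Tendsto.const_mul
      refine (ZRI.sg_toS hd hg δ R b t (iniZ δ ζ)).congr' ?_
      filter_upwards [eventually_ge_atTop (2 * N)] with L hL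
      rw [toS_ini δ N (by omega) ζ hζ]
    · have h0 : muZ N g φ ζ = 0 := if_neg hζ
      simp only [h0, zero_mul]
      exact tendsto_const_nhds
  · refine Eventually.of_forall fun L ζ => ?_
    rw [norm_mul, Real.norm_of_nonneg (hm0 ζ), Real.norm_of_nonneg (hmem L _).1]
    exact mul_le_of_le_one_right (hm0 ζ) (hmem L _).2

/-- Z7 -/
theorem prbR_tendsto (hd : 1 ≤ d) (hg : IsRate g Γm Γp) {φ : ℝ} (hφ : 0 < φ) (δ : ℝ≥0∞)
    (R N : ℕ) (t : ℝ) (ht : 0 ≤ t) :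
    Tendsto (fun L => prbR d L N g φ δ t (bad d L R)) atTop (𝓝 (prbZ d N g φ δ t (farZ d R))) ∧
      Tendsto (fun L => prbR d L N g φ δ t (good d L R)) atTop
        (𝓝 (prbZ d N g φ δ t (nearZ d R))) := by
  constructor
  · exact Z7_aux hd hg hφ δ R N true t ht
  · exact Z7_aux hd hg hφ δ R N false t ht

end ZRI
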