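import Pool.Agent.ZRI.Defs2
import Pool.Agent.ZRI.C8
import Pool.Agent.ZRI.L6
import Pool.Agent.ZRI.Z7

open scoped BigOperators ENNReal Topology
open MeasureTheory Filter

namespace ZRI

variable {d L : ℕ} {g : ℕ → ℝ} {Γm Γp : ℝ}

/-- F2 -/
theorem farZ_le (hd : 1 ≤ d) (hg : IsRate g Γm Γp) {φ : ℝ} (hφ : 0 < φ) (δ : ℝ≥0∞)
    (R N : ℕ) (t : ℝ) (ht : 0 ≤ t) :
    prbZ d N g φ δ t (farZ d R) ≤
      φ / Γm * Real.exp (kap φ Γm Γp * t - R) + epsN d φ Γm Γp t R N := by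
  refine le_of_tendsto (ZRI.prbR_tendsto hd hg hφ δ R N t ht).1 ?_
  filter_upwards [eventually_ge_atTop 1] with L hL
  have h1 := (ZRI.prbR_sub (L := L) hd hL hg hφ δ R N t ht).1
  have h2 := ZRI.prb_bad_le (L := L) hd hL hg hφ δ R t ht
  have h3 := abs_le.1 h1
  linarith [h3.2]

end ZRI
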