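import Pool.Agent.ZRI.Defs2
import Pool.Agent.ZRI.L6
import Pool.Agent.ZRI.Z7

open scoped BigOperators ENNReal Topology
open MeasureTheory Filter

namespace ZRI

variable {d L : ℕ} {g : ℕ → ℝ} {Γm Γp : ℝ}

theorem F3_aux {a b c : ℕ → ℝ} {x y e e' : ℝ} (ha : Tendsto a atTop (𝓝 x))
    (hb : Tendsto b atTop (𝓝 y)) (h1 : ∀ᶠ L in atTop, |a L - c L| ≤ e)
    (h2 : ∀ᶠ L in atTop, |b L - c L| ≤ e') : |x - y| ≤ e + e' := by
  have h := (ha.sub hb).abs
  refine le_of_tendsto h ?_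
  filter_upwards [h1, h2] with L h3 h4
  have h5 := abs_le.mp h3
  have h6 := abs_le.mp h4
  rw [abs_le]
  constructor <;> linarith

/-- F3 -/
theorem prbZ_cauchy (hd : 1 ≤ d) (hg : IsRate g Γm Γp) {φ : ℝ} (hφ : 0 < φ) (δ : ℝ≥0∞)
    (R N N' : ℕ) (t : ℝ) (ht : 0 ≤ t) :
    |prbZ d N g φ δ t (farZ d R) - prbZ d N' g φ δ t (farZ d R)| ≤
        epsN d φ Γm Γp t R N + epsN d φ Γm Γp t R N' ∧
      |prbZ d N g φ δ t (nearZ d R) - prbZ d N' g φ δ t (nearZ d R)| ≤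
        epsN d φ Γm Γp t R N + epsN d φ Γm Γp t R N' := by
  have h1 := ZRI.prbR_tendsto (d := d) hd hg hφ δ R N t ht
  have h2 := ZRI.prbR_tendsto (d := d) hd hg hφ δ R N' t ht
  constructor
  · refine F3_aux h1.1 h2.1 (c := fun L => prb d L g φ δ t (bad d L R)) ?_ ?_
    · filter_upwards [eventually_ge_atTop 1] with L hL
      exact (ZRI.prbR_sub hd hL hg hφ δ R N t ht).1
    · filter_upwards [eventually_ge_atTop 1] with L hL
      exact (ZRI.prbR_sub hd hL hg hφ δ R N' t ht).1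
  · refine F3_aux h1.2 h2.2 (c := fun L => prb d L g φ δ t (good d L R)) ?_ ?_
    · filter_upwards [eventually_ge_atTop 1] with L hL
      exact (ZRI.prbR_sub hd hL hg hφ δ R N t ht).2
    · filter_upwards [eventually_ge_atTop 1] with L hL
      exact (ZRI.prbR_sub hd hL hg hφ δ R N' t ht).2

end ZRI
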