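import Pool.Agent.ZRI.Defs2
import Pool.Agent.ZRI.A1
import Pool.Agent.ZRI.A2
import Pool.Agent.ZRI.B3
import Pool.Agent.ZRI.B4
import Pool.Agent.ZRI.C3
import Pool.Agent.ZRI.Z4

open scoped BigOperators ENNReal Topology
open MeasureTheory Filter

namespace ZRI

variable {d L : ℕ} {g : ℕ → ℝ} {Γm Γp : ℝ}

theorem F4_ind (A : Set (St d L)) (s : St d L) :
    0 ≤ A.indicator (1 : St d L → ℝ) s ∧ A.indicator (1 : St d L → ℝ) s ≤ 1 := by
  by_cases h : s ∈ A <;> simp [h]

theorem F4_abs (A : Set (St d L)) (s : St d L) : |A.indicator (1 : St d L → ℝ) s| ≤ 1 := by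
  have h := F4_ind A s
  rw [abs_of_nonneg h.1]; exact h.2

theorem F4_Gen_add (δ : ℝ≥0∞) (F G : St d L → ℝ) :
    Gen g δ (F + G) = Gen g δ F + Gen g δ G := by
  funext s
  simp only [Gen, Pi.add_apply]
  have h1 : ∀ x : Tor d L, ∑ e : Dir d, g (s.1 x) / (2 * (d : ℝ)) *
      (F (jmp δ s x (x + stp e)) + G (jmp δ s x (x + stp e)) - (F s + G s)) =
      (∑ e : Dir d, g (s.1 x) / (2 * (d : ℝ)) * (F (jmp δ s x (x + stp e)) - F s)) +
      ∑ e : Dir d, g (s.1 x) / (2 * (d : ℝ)) * (G (jmp δ s x (x + stp e)) - G s) := by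
    intro x
    rw [← Finset.sum_add_distrib]
    exact Finset.sum_congr rfl fun e _ => by ring
  rw [Finset.sum_congr rfl fun x _ => h1 x, Finset.sum_add_distrib]
  have h2 : ∑ x ∈ s.2.1.filter (fun x => s.1 x = 1),
      δ.toReal * (F (heal s x) + G (heal s x) - (F s + G s)) =
      (∑ x ∈ s.2.1.filter (fun x => s.1 x = 1), δ.toReal * (F (heal s x) - F s)) +
      ∑ x ∈ s.2.1.filter (fun x => s.1 x = 1), δ.toReal * (G (heal s x) - G s) := by
    rw [← Finset.sum_add_distrib]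
    exact Finset.sum_congr rfl fun e _ => by ring
  rw [h2]; ring

theorem F4_iter_add (δ : ℝ≥0∞) (F G : St d L → ℝ) (k : ℕ) :
    (Gen g δ)^[k] (F + G) = (Gen g δ)^[k] F + (Gen g δ)^[k] G := by
  induction k with
  | zero => rfl
  | succ k ih => rw [Function.iterate_succ_apply', Function.iterate_succ_apply',
      Function.iterate_succ_apply', ih, F4_Gen_add]

theorem F4_summable (hd : 1 ≤ d) (hg : IsRate g Γm Γp) (δ : ℝ≥0∞) (F : St d L → ℝ)
    (hF : ∀ s, |F s| ≤ 1) (t : ℝ) (s : St d L) :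
    Summable (fun k : ℕ => t ^ k / (k.factorial : ℝ) * ((Gen g δ)^[k] F) s) := by
  have h := Real.summable_pow_div_factorial
    (|t| * (2 * (Γp + δ.toReal) * ((∑ z, s.1 z : ℕ) : ℝ)))
  refine Summable.of_norm_bounded h fun k => ?_
  rw [Real.norm_eq_abs, abs_mul, abs_div, abs_pow, Nat.abs_cast, mul_pow, div_mul_eq_mul_div]
  exact div_le_div_of_nonneg_right (mul_le_mul_of_nonneg_left
    (ZRI.Gen_iter_bound hd hg δ F hF k s) (pow_nonneg (abs_nonneg _) _)) (Nat.cast_nonneg _)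

theorem F4_Gen_const (F : St d L → ℝ) (c : ℝ) (hF : ∀ s : St d L, s.2.1.Nonempty → F s = c)
    (s : St d L) (hs : s.2.1.Nonempty) : Gen g 0 F s = 0 := by
  have h1 : ∀ x y : Tor d L, F (jmp 0 s x y) = F s := by
    intro x y
    rw [hF s hs]
    refine hF _ ?_
    have h0 : (jmp 0 s x y).2.1 = spr s.1 s.2.1 x y := by
      simp only [jmp]
      rw [if_neg ENNReal.zero_ne_top]
    rw [h0]
    unfold spr
    split_ifs with hx h1
    · exact Finset.insert_nonempty _ _
    · exact Finset.insert_nonempty _ _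
    · exact hs
  simp [Gen, h1]

theorem F4_iter_const (F : St d L → ℝ) (c : ℝ) (hF : ∀ s : St d L, s.2.1.Nonempty → F s = c)
    (k : ℕ) (s : St d L) (hs : s.2.1.Nonempty) : ((Gen g 0)^[k + 1] F) s = 0 := by
  induction k generalizing s with
  | zero => exact F4_Gen_const F c hF s hs
  | succ k ih => rw [Function.iterate_succ_apply']
                 exact F4_Gen_const _ 0 (fun s hs => ih s hs) s hs

theorem sg_bad_mono (hd : 1 ≤ d) (hg : IsRate g Γm Γp) (δ : ℝ≥0∞) (R : ℕ) (t t' : ℝ)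
    (ht : 0 ≤ t) (htt : t ≤ t') (s : St d L) :
    sg (Gen g δ) t ((bad d L R).indicator 1) s ≤ sg (Gen g δ) t' ((bad d L R).indicator 1) s := by
  have hm : ∀ u : ℝ, 0 ≤ u → ∀ s : St d L, 0 ≤ sg (Gen g δ) u ((bad d L R).indicator 1) s ∧
      sg (Gen g δ) u ((bad d L R).indicator 1) s ≤ 1 := fun u hu s =>
    ZRI.Gen_mem hd hg δ _ (fun s => (F4_ind _ s).1) (fun s => (F4_ind _ s).2) u hu s
  have hder : ∀ (u : ℝ) (s : St d L),
      HasDerivAt (fun u => sg (Gen g δ) u ((bad d L R).indicator 1) s)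
        (Gen g δ (sg (Gen g δ) u ((bad d L R).indicator 1)) s) u := fun u s =>
    ZRI.Gen_deriv hd hg δ _ 1 (fun s => F4_abs _ s) u s
  have hrb : ∀ s' : St d L, ∑ z, s'.1 z = ∑ z, s.1 z →
      (∀ j, 0 ≤ rG g δ j s') ∧ ∑ j, rG g δ j s' ≤
        2 * (Γp + δ.toReal) * ((∑ z, s.1 z : ℕ) : ℝ) ∧
      |(-∑ j, rG g δ j s')| ≤ 2 * (Γp + δ.toReal) * ((∑ z, s.1 z : ℕ) : ℝ) := by
    intro s' hs'
    obtain ⟨h1, h2⟩ := ZRI.rG_bound hd hg δ s'
    rw [hs'] at h2
    have h3 : ∑ j, |rG g δ j s'| = ∑ j, rG g δ j s' :=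
      Finset.sum_congr rfl fun j _ => abs_of_nonneg (h1 j)
    rw [h3] at h2
    have h4 : 0 ≤ ∑ j, rG g δ j s' := Finset.sum_nonneg fun j _ => h1 j
    have h5 := abs_nonneg (-∑ j, rG g δ j s')
    exact ⟨h1, by linarith, by linarith⟩
  have hC : 0 ≤ 2 * (Γp + δ.toReal) * ((∑ z, s.1 z : ℕ) : ℝ) :=
    le_trans (abs_nonneg _) (hrb s rfl).2.2
  have key := ZRI.cmp (fun s' : St d L => ∑ z, s'.1 z = ∑ z, s.1 z)
    (fun u s' => sg (Gen g δ) u ((bad d L R).indicator 1) s' -
      sg (Gen g δ) (u + (t' - t)) ((bad d L R).indicator 1) s')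
    (fun u s' => Gen g δ (sg (Gen g δ) u ((bad d L R).indicator 1)) s' -
      Gen g δ (sg (Gen g δ) (u + (t' - t)) ((bad d L R).indicator 1)) s')
    (fun s' => -∑ j, rG g δ j s') (2 * (Γp + δ.toReal) * ((∑ z, s.1 z : ℕ) : ℝ)) 1 t hC
    (fun s' hs' => (hrb s' hs').2.2)
    (fun s' _ u _ _ => (hder u s').sub ((hder (u + (t' - t)) s').comp_add_const u (t' - t)))
    (fun s' _ u hu _ => by
      have h1 := hm u hu s'
      have h2 := hm (u + (t' - t)) (by linarith) s'
      show _ - _ ≤ (1 : ℝ)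
      linarith [h1.2, h2.1])
    (fun s' hs' u hu _ B hB hle => by
      show Gen g δ (sg (Gen g δ) u ((bad d L R).indicator 1)) s' -
        Gen g δ (sg (Gen g δ) (u + (t' - t)) ((bad d L R).indicator 1)) s' ≤ _
      rw [ZRI.Gen_op]
      simp only [Op]
      have h1 : ∑ j, rG g δ j s' *
          (sg (Gen g δ) u ((bad d L R).indicator 1) (tG δ j s') -
            sg (Gen g δ) (u + (t' - t)) ((bad d L R).indicator 1) (tG δ j s')) ≤
          ∑ j, rG g δ j s' * B := by
        refine Finset.sum_le_sum fun j _ => ?_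
        by_cases hj : rG g δ j s' = 0
        · rw [hj, zero_mul, zero_mul]
        · exact mul_le_mul_of_nonneg_left
            (hle (tG δ j s') (ZRI.rG_inv hg δ _ s' hs' j hj)) ((hrb s' hs').1 j)
      rw [← Finset.sum_mul] at h1
      have h2 := mul_le_mul_of_nonneg_right (hrb s' hs').2.1 hB
      rw [ZRI.Gen_op] at h1
      simp only [mul_sub, Finset.sum_sub_distrib] at h1
      linarith)
    (fun s' _ => by
      show sg (Gen g δ) 0 ((bad d L R).indicator 1) s' -
        sg (Gen g δ) (0 + (t' - t)) ((bad d L R).indicator 1) s' ≤ 0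
      rw [ZRI.sg_zero]
      by_cases hb : s' ∈ bad d L R
      · have h1 : sg (Gen g δ) (0 + (t' - t)) ((bad d L R).indicator 1) s' = 1 :=
          ZRI.Qb_bad δ R (0 + (t' - t)) s' hb
        rw [h1, Set.indicator_of_mem hb]
        simp
      · rw [Set.indicator_of_notMem hb]
        have h2 := (hm (0 + (t' - t)) (by linarith) s').1
        linarith)
    t ht le_rfl s rfl
  have h3 : t + (t' - t) = t' := by ring
  simp only [h3] at key
  linarith

theorem sg_good_add (hd : 1 ≤ d) (hg : IsRate g Γm Γp) (R : ℕ) (t : ℝ) (s : St d L)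
    (hs : s.2.1.Nonempty) :
    sg (Gen g 0) t ((bad d L R).indicator 1) s + sg (Gen g 0) t ((good d L R).indicator 1) s = 1 := by
  have h1 := F4_summable hd hg 0 ((bad d L R).indicator 1) (F4_abs _) t s
  have h2 := F4_summable hd hg 0 ((good d L R).indicator 1) (F4_abs _) t s
  unfold sg
  rw [← h1.tsum_add h2]
  have hF : ∀ s : St d L, s.2.1.Nonempty →
      (((bad d L R).indicator 1 + (good d L R).indicator 1 : St d L → ℝ)) s = 1 := by
    intro s hs
    rw [Pi.add_apply]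
    by_cases hb : s ∈ bad d L R
    · have hg' : s ∉ good d L R := by
        rintro ⟨_, h⟩
        obtain ⟨x, hx, hx'⟩ := hb
        exact absurd (h x hx) (not_le.2 hx')
      simp [hb, hg']
    · have hg' : s ∈ good d L R := by
        refine ⟨hs, fun x hx => ?_⟩
        by_contra hx'
        exact hb ⟨x, hx, not_le.1 hx'⟩
      simp [hb, hg']
  have h3 : ∀ k : ℕ, t ^ k / (k.factorial : ℝ) * ((Gen g 0)^[k] ((bad d L R).indicator 1)) s +
      t ^ k / (k.factorial : ℝ) * ((Gen g 0)^[k] ((good d L R).indicator 1)) s =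
      t ^ k / (k.factorial : ℝ) * ((Gen g 0)^[k]
        ((bad d L R).indicator 1 + (good d L R).indicator 1)) s := by
    intro k
    rw [F4_iter_add, Pi.add_apply]; ring
  rw [tsum_congr h3, tsum_eq_single 0]
  · simpa using hF s hs
  · intro k hk
    obtain ⟨m, rfl⟩ := Nat.exists_eq_succ_of_ne_zero hk
    have h4 := F4_iter_const (g := g) _ 1 hF m s hs
    rw [Nat.succ_eq_add_one, h4, mul_zero]

end ZRI
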