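import Pool.Agent.ZRI.Defs2
import Pool.Agent.ZRI.B4
import Pool.Agent.ZRI.C3
import Pool.Agent.ZRI.C6a
import Pool.Agent.ZRI.L5
import Pool.Agent.ZRI.Z1
import Pool.Agent.ZRI.Z6
import Pool.Agent.ZRI.Z7
import Pool.Agent.ZRI.F4

open scoped BigOperators ENNReal Topology
open MeasureTheory Filter

namespace ZRI

variable {d L : ℕ} {g : ℕ → ℝ} {Γm Γp : ℝ}

theorem F5_ind {S : Type*} (A : Set S) (s : S) :
    0 ≤ A.indicator (1 : S → ℝ) s ∧ A.indicator (1 : S → ℝ) s ≤ 1 := by
  by_cases h : s ∈ A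
  · rw [Set.indicator_of_mem h]
    exact ⟨zero_le_one, le_rfl⟩
  · rw [Set.indicator_of_notMem h]
    exact ⟨le_rfl, zero_le_one⟩

theorem F5_summable (hg : IsRate g Γm Γp) {φ : ℝ} (hφ : 0 < φ) (f : Cfg d L → ℝ)
    (h0 : ∀ η, 0 ≤ f η) (h1 : ∀ η, f η ≤ 1) : Summable fun η => mu g φ η * f η :=
  Summable.of_nonneg_of_le (fun η => mul_nonneg (ZRI.mu_pos hg hφ η).le (h0 η))
    (fun η => mul_le_of_le_one_right (ZRI.mu_pos hg hφ η).le (h1 η)) (ZRI.mu_total hg hφ).1

theorem F5_sg (hd : 1 ≤ d) (hg : IsRate g Γm Γp) (δ : ℝ≥0∞) (A : Set (St d L)) (t : ℝ)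
    (ht : 0 ≤ t) (s : St d L) :
    0 ≤ sg (Gen g δ) t (A.indicator 1) s ∧ sg (Gen g δ) t (A.indicator 1) s ≤ 1 :=
  ZRI.Gen_mem hd hg δ (A.indicator 1) (fun s => (F5_ind A s).1) (fun s => (F5_ind A s).2) t ht s

/-- F5 -/
theorem farZ_mono (hd : 1 ≤ d) (hg : IsRate g Γm Γp) {φ : ℝ} (hφ : 0 < φ) (δ : ℝ≥0∞)
    (R N : ℕ) (t t' : ℝ) (ht : 0 ≤ t) (htt : t ≤ t') :
    prbZ d N g φ δ t (farZ d R) ≤ prbZ d N g φ δ t' (farZ d R) := by
  have h1 := (ZRI.prbR_tendsto hd hg hφ δ R N t ht).1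
  have h2 := (ZRI.prbR_tendsto hd hg hφ δ R N t' (ht.trans htt)).1
  refine le_of_tendsto_of_tendsto' h1 h2 fun L => ?_
  unfold prbR
  refine Summable.tsum_le_tsum (fun η => mul_le_mul_of_nonneg_left
    (ZRI.sg_bad_mono hd hg δ R t t' ht htt _) (ZRI.mu_pos hg hφ η).le) ?_ ?_
  · exact F5_summable hg hφ _ (fun η => (F5_sg hd hg δ _ t ht _).1)
      (fun η => (F5_sg hd hg δ _ t ht _).2)
  · exact F5_summable hg hφ _ (fun η => (F5_sg hd hg δ _ t' (ht.trans htt) _).1)
      (fun η => (F5_sg hd hg δ _ t' (ht.trans htt) _).2)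

theorem F5_inbox (N : ℕ) : inbox N (0 : Tor d L) := by
  intro i
  rw [Pi.zero_apply, ZMod.valMinAbs_zero]
  exact Nat.zero_le _

theorem F5_res (N : ℕ) (η : Cfg d L) : res N η 0 = η 0 := by
  unfold res
  rw [if_pos (F5_inbox N)]

/-- the origin is empty with probability `m1 g φ 0` -/
theorem F5_mass (hg : IsRate g Γm Γp) {φ : ℝ} (hφ : 0 < φ) :
    ∑' η : Cfg d L, mu g φ η * (if η 0 = 0 then 1 else 0) = m1 g φ 0 := by
  have h1 := ZRI.marg (d := d) (L := L) hg hφ 0 (by omega)
    (fun η => if η 0 = 0 then (1 : ℝ) else 0)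
    (fun η => by
      show (0 : ℝ) ≤ if η 0 = 0 then (1 : ℝ) else 0
      split_ifs
      · exact zero_le_one
      · exact le_rfl)
    (fun η => by
      show (if η 0 = 0 then (1 : ℝ) else 0) ≤ 1
      split_ifs
      · exact le_rfl
      · exact zero_le_one)
  simp only [F5_res] at h1
  rw [h1, tsum_eq_single (0 : CfgZ d)]
  · have hbox : box d 0 = {0} := by
      unfold box
      rw [Nat.cast_zero, neg_zero]
      exact Finset.Icc_self _
    have e1 : muZ 0 g φ (0 : CfgZ d) = m1 g φ 0 := by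
      unfold muZ
      rw [if_pos (by rw [Finsupp.support_zero]; exact Finset.empty_subset _), hbox,
        Finset.prod_singleton, Finsupp.zero_apply]
    have e2 : toT L (0 : CfgZ d) 0 = 0 := by
      unfold toT
      rw [Finsupp.support_zero, Finset.sum_empty]
    rw [e1, if_pos e2, mul_one]
  · intro ζ hζ
    by_cases hs : ζ.support ⊆ box d 0
    · have h0 : (0 : Zd d) ∈ box d 0 := by
        unfold box
        rw [Finset.mem_Icc]
        constructor
        · intro i
          simp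
        · intro i
          simp
      have h2 := ZRI.toT_cst (L := L) 0 (by omega) ζ hs 0 h0
      have h3 : (cst L (0 : Zd d) : Tor d L) = 0 := by
        funext i
        show ((((0 : Zd d) i : ℤ)) : ZMod (L + 1)) = 0
        rw [Pi.zero_apply, Int.cast_zero]
      rw [h3] at h2
      have h4 : ζ 0 ≠ 0 := by
        intro h5
        apply hζ
        ext x
        rw [Finsupp.zero_apply]
        by_contra h6
        have h7 := hs (Finsupp.mem_support_iff.2 h6)
        have h8 : x = 0 := by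
          unfold box at h7
          rw [Finset.mem_Icc] at h7
          funext i
          have a1 := h7.1 i
          have a2 := h7.2 i
          simp only [Nat.cast_zero, neg_zero] at a1 a2
          exact le_antisymm a2 a1
        rw [h8] at h6
        exact h6 h5
      rw [h2, if_neg h4, mul_zero]
    · unfold muZ
      rw [if_neg hs, zero_mul]

theorem F5_sum (hd : 1 ≤ d) (hg : IsRate g Γm Γp) {φ : ℝ} (hφ : 0 < φ) (R N : ℕ) (t : ℝ)
    (ht : 0 ≤ t) :
    prbR d L N g φ 0 t (good d L R) + prbR d L N g φ 0 t (bad d L R) = 1 - m1 g φ 0 := by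
  have hs1 := F5_summable (d := d) (L := L) hg hφ
    (fun η => sg (Gen g 0) t ((good d L R).indicator 1) (ini 0 (res N η)))
    (fun η => (F5_sg hd hg 0 _ t ht _).1) (fun η => (F5_sg hd hg 0 _ t ht _).2)
  have hs2 := F5_summable (d := d) (L := L) hg hφ
    (fun η => sg (Gen g 0) t ((bad d L R).indicator 1) (ini 0 (res N η)))
    (fun η => (F5_sg hd hg 0 _ t ht _).1) (fun η => (F5_sg hd hg 0 _ t ht _).2)
  have hs3 := F5_summable (d := d) (L := L) hg hφ (fun η => if η 0 = 0 then (1 : ℝ) else 0)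
    (fun η => by
      show (0 : ℝ) ≤ if η 0 = 0 then (1 : ℝ) else 0
      split_ifs
      · exact zero_le_one
      · exact le_rfl)
    (fun η => by
      show (if η 0 = 0 then (1 : ℝ) else 0) ≤ 1
      split_ifs
      · exact le_rfl
      · exact zero_le_one)
  have htot := ZRI.mu_total (d := d) (L := L) hg hφ
  unfold prbR
  rw [← hs1.tsum_add hs2, ← F5_mass (d := d) (L := L) hg hφ]
  rw [eq_sub_iff_add_eq, ← (hs1.add hs2).tsum_add hs3]
  refine Eq.trans (tsum_congr fun η => ?_) htot.2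
  have key : sg (Gen g 0) t ((good d L R).indicator 1) (ini 0 (res N η)) +
      sg (Gen g 0) t ((bad d L R).indicator 1) (ini 0 (res N η)) +
      (if η 0 = 0 then (1 : ℝ) else 0) = 1 := by
    by_cases h : η 0 = 0
    · have e1 : (ini 0 (res N η) : St d L) = (res N η, ∅, ∅) := by
        unfold ini
        rw [F5_res, if_neg (by omega), if_neg (by omega)]
      have e2 := ZRI.Qg_empty (g := g) R t (res N η)
      have e3 := ZRI.Qb_empty (g := g) 0 R t (res N η)
      unfold Qg at e2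
      unfold Qb at e3
      rw [e1, e2, e3, if_pos h]
      norm_num
    · have hne : (ini 0 (res N η) : St d L).2.1.Nonempty := by
        show (if 1 ≤ res N η 0 ∧ ((0 : ℝ≥0∞) = ⊤ → 2 ≤ res N η 0) then ({0} : Finset (Tor d L))
          else ∅).Nonempty
        rw [F5_res, if_pos ⟨by omega, fun h => absurd h ENNReal.zero_ne_top⟩]
        exact Finset.singleton_nonempty _
      have h2 := ZRI.sg_good_add hd hg R t (ini 0 (res N η)) hne
      rw [if_neg h]
      linarith
  linear_combination (mu g φ η) * key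

/-- F5 -/
theorem nearZ_eq (hd : 1 ≤ d) (hg : IsRate g Γm Γp) {φ : ℝ} (hφ : 0 < φ)
    (R N : ℕ) (t : ℝ) (ht : 0 ≤ t) :
    prbZ d N g φ 0 t (nearZ d R) = 1 - m1 g φ 0 - prbZ d N g φ 0 t (farZ d R) := by
  obtain ⟨h1, h2⟩ := ZRI.prbR_tendsto hd hg hφ 0 R N t ht
  have h3 := h2.add h1
  have h4 : (fun L => prbR d L N g φ 0 t (good d L R) + prbR d L N g φ 0 t (bad d L R)) =
      fun _ => 1 - m1 g φ 0 := by
    funext L
    exact F5_sum hd hg hφ R N t ht
  rw [h4] at h3
  have h5 := tendsto_nhds_unique h3 tendsto_const_nhds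
  linarith

end ZRI
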