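import Pool.Agent.ZRI.Defs2
import Pool.Agent.ZRI.A1
import Pool.Agent.ZRI.A2
import Pool.Agent.ZRI.B3
import Pool.Agent.ZRI.B4
import Pool.Agent.ZRI.C6a
import Pool.Agent.ZRI.L5
import Pool.Agent.ZRI.Z7
import Pool.Agent.ZRI.F1
import Pool.Agent.ZRI.F2
import Pool.Agent.ZRI.F3
import Pool.Agent.ZRI.F5

open scoped BigOperators ENNReal Topology
open MeasureTheory Filter

namespace ZRI

variable {d L : ℕ} {g : ℕ → ℝ} {Γm Γp : ℝ}

/-- the semigroup on the torus is monotone in the function -/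
theorem F6_sg_mono (hd : 1 ≤ d) (hg : IsRate g Γm Γp) (δ : ℝ≥0∞) (F' F : St d L → ℝ)
    (h0 : ∀ s, 0 ≤ F' s) (h : ∀ s, F' s ≤ F s) (h1 : ∀ s, F s ≤ 1) (t : ℝ) (ht : 0 ≤ t)
    (s : St d L) : sg (Gen g δ) t F' s ≤ sg (Gen g δ) t F s := by
  have hF'1 : ∀ s, F' s ≤ 1 := fun s => (h s).trans (h1 s)
  have hF0 : ∀ s, 0 ≤ F s := fun s => (h0 s).trans (h s)
  have ha' : ∀ s, |F' s| ≤ 1 := fun s => by rw [abs_of_nonneg (h0 s)]; exact hF'1 s
  have ha : ∀ s, |F s| ≤ 1 := fun s => by rw [abs_of_nonneg (hF0 s)]; exact h1 s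
  set n : ℕ := ∑ z, s.1 z with hn
  set C : ℝ := 2 * (Γp + δ.toReal) * (n : ℝ) with hCdef
  have hΓ : 0 ≤ Γp := le_trans zero_le_one hg.one_le
  have hC : 0 ≤ C := by positivity
  have key := ZRI.cmp (S := St d L) (fun s => ∑ z, s.1 z = n)
    (fun u s => sg (Gen g δ) u F' s - sg (Gen g δ) u F s)
    (fun u s => Gen g δ (sg (Gen g δ) u F') s - Gen g δ (sg (Gen g δ) u F) s)
    (fun s => -∑ j, rG g δ j s) C 1 t hC ?_ ?_ ?_ ?_ ?_ t ht le_rfl s hn.symm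
  · linarith
  · intro s hs
    obtain ⟨hr, hb⟩ := ZRI.rG_bound hd hg δ s
    rw [hs] at hb
    have : 0 ≤ ∑ j, |rG g δ j s| := Finset.sum_nonneg (fun _ _ => abs_nonneg _)
    linarith
  · intro s _ u _ _
    exact (ZRI.Gen_deriv hd hg δ F' 1 ha' u s).sub (ZRI.Gen_deriv hd hg δ F 1 ha u s)
  · intro s _ u hu _
    have e1 := (ZRI.Gen_mem hd hg δ F' h0 hF'1 u hu s).2
    have e2 := (ZRI.Gen_mem hd hg δ F hF0 h1 u hu s).1
    linarith
  · intro s hs u hu _ B hB hy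
    obtain ⟨hr, hb⟩ := ZRI.rG_bound hd hg δ s
    rw [hs] at hb
    have habs : 0 ≤ |-∑ j, rG g δ j s| := abs_nonneg _
    have hsum : ∑ j, rG g δ j s ≤ C := by
      have : ∑ j, |rG g δ j s| = ∑ j, rG g δ j s :=
        Finset.sum_congr rfl (fun j _ => abs_of_nonneg (hr j))
      linarith
    have hle : ∑ j, rG g δ j s * (sg (Gen g δ) u F' (tG δ j s) - sg (Gen g δ) u F (tG δ j s)) ≤
        C * B := by
      calc ∑ j, rG g δ j s * (sg (Gen g δ) u F' (tG δ j s) - sg (Gen g δ) u F (tG δ j s))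
          ≤ ∑ j, rG g δ j s * B := by
            refine Finset.sum_le_sum (fun j _ => ?_)
            by_cases hj : rG g δ j s = 0
            · simp [hj]
            · exact mul_le_mul_of_nonneg_left (hy _ (ZRI.rG_inv hg δ n s hs j hj)) (hr j)
        _ = (∑ j, rG g δ j s) * B := by rw [Finset.sum_mul]
        _ ≤ C * B := mul_le_mul_of_nonneg_right hsum hB
    have hop : ∀ G : St d L → ℝ, Gen g δ G s =
        ∑ j, rG g δ j s * G (tG δ j s) + (-∑ j, rG g δ j s) * G s := by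
      intro G
      rw [ZRI.Gen_op δ]
      rfl
    rw [hop, hop]
    have : ∑ j, rG g δ j s * (sg (Gen g δ) u F' (tG δ j s) - sg (Gen g δ) u F (tG δ j s)) =
        ∑ j, rG g δ j s * sg (Gen g δ) u F' (tG δ j s) -
          ∑ j, rG g δ j s * sg (Gen g δ) u F (tG δ j s) := by
      rw [← Finset.sum_sub_distrib]
      exact Finset.sum_congr rfl (fun j _ => by ring)
    rw [this] at hle
    nlinarith [hle]
  · intro s _
    rw [ZRI.sg_zero, ZRI.sg_zero]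
    linarith [h s]

theorem F6_ind_mem {S : Type*} (A : Set S) (s : S) :
    0 ≤ A.indicator (1 : S → ℝ) s ∧ A.indicator (1 : S → ℝ) s ≤ 1 := by
  by_cases hs : s ∈ A
  · simp [hs]
  · simp [hs]

theorem F6_summable (hd : 1 ≤ d) (hg : IsRate g Γm Γp) {φ : ℝ} (hφ : 0 < φ) (δ : ℝ≥0∞) (N : ℕ)
    (t : ℝ) (ht : 0 ≤ t) (A : Set (St d L)) :
    Summable (fun η : Cfg d L => mu g φ η * sg (Gen g δ) t (A.indicator 1) (ini δ (res N η))) := by
  refine Summable.of_nonneg_of_le (fun η => ?_) (fun η => ?_)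
    (ZRI.mu_total (d := d) (L := L) hg hφ).1
  · exact mul_nonneg (ZRI.mu_pos hg hφ η).le
      (ZRI.Gen_mem hd hg δ _ (fun s => (F6_ind_mem A s).1) (fun s => (F6_ind_mem A s).2) t ht _).1
  · have h1 := (ZRI.Gen_mem hd hg δ _ (fun s => (F6_ind_mem A s).1)
      (fun s => (F6_ind_mem A s).2) t ht (ini δ (res N η))).2
    have h2 := (ZRI.mu_pos hg hφ η).le
    calc _ ≤ mu g φ η * 1 := mul_le_mul_of_nonneg_left h1 h2
      _ = mu g φ η := mul_one _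

theorem F6_prbR_mono (hd : 1 ≤ d) (hg : IsRate g Γm Γp) {φ : ℝ} (hφ : 0 < φ) (δ : ℝ≥0∞) (N : ℕ)
    (t : ℝ) (ht : 0 ≤ t) (A B : Set (St d L)) (hAB : A ⊆ B) :
    prbR d L N g φ δ t A ≤ prbR d L N g φ δ t B := by
  unfold prbR
  refine (F6_summable hd hg hφ δ N t ht A).tsum_le_tsum (fun η => ?_)
    (F6_summable hd hg hφ δ N t ht B)
  refine mul_le_mul_of_nonneg_left ?_ (ZRI.mu_pos hg hφ η).le
  refine F6_sg_mono hd hg δ _ _ (fun s => (F6_ind_mem A s).1) (fun s => ?_)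
    (fun s => (F6_ind_mem B s).2) t ht _
  exact Set.indicator_le_indicator_of_subset hAB (fun _ => zero_le_one) s

theorem F6_prbR_mem (hd : 1 ≤ d) (hg : IsRate g Γm Γp) {φ : ℝ} (hφ : 0 < φ) (δ : ℝ≥0∞) (N : ℕ)
    (t : ℝ) (ht : 0 ≤ t) (A : Set (St d L)) :
    0 ≤ prbR d L N g φ δ t A ∧ prbR d L N g φ δ t A ≤ 1 := by
  unfold prbR
  constructor
  · refine tsum_nonneg (fun η => mul_nonneg (ZRI.mu_pos hg hφ η).le
      (ZRI.Gen_mem hd hg δ _ (fun s => (F6_ind_mem A s).1) (fun s => (F6_ind_mem A s).2) t ht _).1)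
  · have h := ZRI.mu_total (d := d) (L := L) hg hφ
    rw [← h.2]
    refine (F6_summable hd hg hφ δ N t ht A).tsum_le_tsum (fun η => ?_) h.1
    have h1 := (ZRI.Gen_mem hd hg δ _ (fun s => (F6_ind_mem A s).1)
      (fun s => (F6_ind_mem A s).2) t ht (ini δ (res N η))).2
    have h2 := (ZRI.mu_pos hg hφ η).le
    calc _ ≤ mu g φ η * 1 := mul_le_mul_of_nonneg_left h1 h2
      _ = mu g φ η := mul_one _

theorem F6_far_mem (hd : 1 ≤ d) (hg : IsRate g Γm Γp) {φ : ℝ} (hφ : 0 < φ) (δ : ℝ≥0∞)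
    (R N : ℕ) (t : ℝ) (ht : 0 ≤ t) :
    0 ≤ prbZ d N g φ δ t (farZ d R) ∧ prbZ d N g φ δ t (farZ d R) ≤ 1 := by
  have h := (ZRI.prbR_tendsto hd hg hφ δ R N t ht).1
  exact ⟨ge_of_tendsto' h (fun L => (F6_prbR_mem hd hg hφ δ N t ht _).1),
    le_of_tendsto' h (fun L => (F6_prbR_mem hd hg hφ δ N t ht _).2)⟩

theorem F6_near_nonneg (hd : 1 ≤ d) (hg : IsRate g Γm Γp) {φ : ℝ} (hφ : 0 < φ) (δ : ℝ≥0∞)
    (R N : ℕ) (t : ℝ) (ht : 0 ≤ t) : 0 ≤ prbZ d N g φ δ t (nearZ d R) := by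
  have h := (ZRI.prbR_tendsto hd hg hφ δ R N t ht).2
  exact ge_of_tendsto' h (fun L => (F6_prbR_mem hd hg hφ δ N t ht _).1)

theorem F6_far_anti (hd : 1 ≤ d) (hg : IsRate g Γm Γp) {φ : ℝ} (hφ : 0 < φ) (δ : ℝ≥0∞)
    (R R' N : ℕ) (hR : R ≤ R') (t : ℝ) (ht : 0 ≤ t) :
    prbZ d N g φ δ t (farZ d R') ≤ prbZ d N g φ δ t (farZ d R) := by
  refine le_of_tendsto_of_tendsto' (ZRI.prbR_tendsto hd hg hφ δ R' N t ht).1
    (ZRI.prbR_tendsto hd hg hφ δ R N t ht).1 (fun L => ?_)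
  refine F6_prbR_mono hd hg hφ δ N t ht _ _ ?_
  rintro s ⟨x, hx, hxR⟩
  exact ⟨x, hx, lt_of_le_of_lt hR hxR⟩

theorem F6_lim (hd : 1 ≤ d) (hg : IsRate g Γm Γp) {φ : ℝ} (hφ : 0 < φ) (δ : ℝ≥0∞)
    (R : ℕ) (t : ℝ) (ht : 0 ≤ t) :
    ∃ a : ℝ, Tendsto (fun N => prbZ d N g φ δ t (farZ d R)) atTop (𝓝 a) := by
  refine cauchySeq_tendsto_of_complete (Metric.cauchySeq_iff.2 (fun ε hε => ?_))
  have h := ZRI.epsN_tendsto d φ Γm Γp t R
  have h2 : ∀ᶠ N in atTop, epsN d φ Γm Γp t R N < ε / 2 :=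
    h.eventually (gt_mem_nhds (by positivity))
  obtain ⟨K, hK⟩ := eventually_atTop.1 h2
  refine ⟨K, fun m hm n hn => ?_⟩
  rw [Real.dist_eq]
  have h3 := (ZRI.prbZ_cauchy hd hg hφ δ R m n t ht).1
  have h4 := hK m hm
  have h5 := hK n hn
  linarith

/-- the limit law of the front -/
theorem F6_law (hd : 1 ≤ d) (hg : IsRate g Γm Γp) {φ : ℝ} (hφ : 0 < φ) (δ : ℝ≥0∞) :
    ∃ a : ℝ → ℕ → ℝ, (∀ t, 0 ≤ t → ∀ R : ℕ,
        Tendsto (fun N => prbZ d N g φ δ t (farZ d R)) atTop (𝓝 (a t R))) ∧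
      (∀ t R, 0 ≤ a t R) ∧ (∀ t R, a t R ≤ 1) ∧ (∀ s t, s ≤ t → ∀ R, a s R ≤ a t R) ∧
      (∀ t R R', R ≤ R' → a t R' ≤ a t R) ∧ (∀ t, Tendsto (a t) atTop (𝓝 0)) := by
  choose b hb using (fun (t : ℝ) (R : ℕ) =>
    F6_lim (g := g) (φ := φ) hd hg hφ δ R (max t 0) (le_max_right _ _))
  have hb1 : ∀ t R, 0 ≤ b t R := fun t R => ge_of_tendsto' (hb t R)
    (fun N => (F6_far_mem hd hg hφ δ R N (max t 0) (le_max_right _ _)).1)
  refine ⟨b, ?_, hb1, ?_, ?_, ?_, ?_⟩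
  · intro t ht R
    have := hb t R
    rwa [max_eq_left ht] at this
  · exact fun t R => le_of_tendsto' (hb t R)
      (fun N => (F6_far_mem hd hg hφ δ R N (max t 0) (le_max_right _ _)).2)
  · intro s t hst R
    exact le_of_tendsto_of_tendsto' (hb s R) (hb t R) (fun N =>
      ZRI.farZ_mono hd hg hφ δ R N (max s 0) (max t 0) (le_max_right _ _)
        (max_le_max hst le_rfl))
  · intro t R R' hR
    exact le_of_tendsto_of_tendsto' (hb t R') (hb t R) (fun N =>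
      F6_far_anti hd hg hφ δ R R' N hR (max t 0) (le_max_right _ _))
  · intro t
    have hup : ∀ R : ℕ, b t R ≤ φ / Γm * Real.exp (kap φ Γm Γp * (max t 0) - R) := by
      intro R
      have h1 : Tendsto (fun N => φ / Γm * Real.exp (kap φ Γm Γp * (max t 0) - R) +
          epsN d φ Γm Γp (max t 0) R N) atTop
          (𝓝 (φ / Γm * Real.exp (kap φ Γm Γp * (max t 0) - R) + 0)) :=
        tendsto_const_nhds.add (ZRI.epsN_tendsto d φ Γm Γp (max t 0) R)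
      rw [add_zero] at h1
      exact le_of_tendsto_of_tendsto' (hb t R) h1 (fun N =>
        ZRI.farZ_le hd hg hφ δ R N (max t 0) (le_max_right _ _))
    have hlim : Tendsto (fun R : ℕ => φ / Γm * Real.exp (kap φ Γm Γp * (max t 0) - R)) atTop
        (𝓝 0) := by
      have h2 : Tendsto (fun R : ℕ => kap φ Γm Γp * (max t 0) - (R : ℝ)) atTop atBot := by
        have h3 : Tendsto (fun R : ℕ => -(R : ℝ)) atTop atBot :=
          tendsto_neg_atTop_atBot.comp tendsto_natCast_atTop_atTop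
        exact (tendsto_atBot_add_const_left atTop (kap φ Γm Γp * (max t 0)) h3).congr
          (fun R => by ring)
      have h4 := (Real.tendsto_exp_atBot.comp h2).const_mul (φ / Γm)
      rw [mul_zero] at h4
      exact h4
    exact squeeze_zero (fun R => hb1 t R) hup hlim

open Classical in
/-- quantile construction -/
theorem F6_quantile (a : ℝ → ℕ → ℝ) (h0 : ∀ t R, 0 ≤ a t R) (h1 : ∀ t R, a t R ≤ 1)
    (hm : ∀ s t, s ≤ t → ∀ R, a s R ≤ a t R) (ha : ∀ t R R', R ≤ R' → a t R' ≤ a t R)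
    (hl : ∀ t, Tendsto (a t) atTop (𝓝 0)) :
    ∃ r : ℝ → ℝ → ℕ, (∀ ω s t, s ≤ t → r s ω ≤ r t ω) ∧ (∀ t, Measurable (r t)) ∧
      ∀ t (R : ℕ), {ω | R < r t ω} = Set.Ioo (1 - a t R) 1 := by
  set r : ℝ → ℝ → ℕ := fun t ω =>
    if ω ∈ Set.Ioo (0 : ℝ) 1 then sInf {R : ℕ | ω ≤ 1 - a t R} else 0 with hr
  have hne : ∀ t ω, ω ∈ Set.Ioo (0 : ℝ) 1 → {R : ℕ | ω ≤ 1 - a t R}.Nonempty := by
    intro t ω hω
    have h := (hl t).eventually (gt_mem_nhds (show (0 : ℝ) < 1 - ω by linarith [hω.2]))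
    obtain ⟨R, hR⟩ := h.exists
    refine ⟨R, ?_⟩
    show ω ≤ 1 - a t R
    linarith
  have hset : ∀ t (R : ℕ), {ω | R < r t ω} = Set.Ioo (1 - a t R) 1 := by
    intro t R
    ext ω
    simp only [Set.mem_ofPred_eq, hr]
    by_cases hω : ω ∈ Set.Ioo (0 : ℝ) 1
    · rw [if_pos hω]
      constructor
      · intro h
        have h2 : R ∉ {R : ℕ | ω ≤ 1 - a t R} := Nat.notMem_of_lt_sInf h
        exact ⟨not_le.1 h2, hω.2⟩
      · rintro ⟨h, -⟩
        by_contra hc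
        rw [not_lt] at hc
        have h3 : ω ≤ 1 - a t (sInf {R : ℕ | ω ≤ 1 - a t R}) := Nat.sInf_mem (hne t ω hω)
        have h4 := ha t _ _ hc
        linarith
    · rw [if_neg hω]
      constructor
      · intro h
        exact absurd h (Nat.not_lt_zero _)
      · rintro ⟨h, h'⟩
        exact absurd ⟨lt_of_le_of_lt (by linarith [h1 t R]) h, h'⟩ hω
  refine ⟨r, ?_, ?_, hset⟩
  · intro ω s t hst
    simp only [hr]
    by_cases hω : ω ∈ Set.Ioo (0 : ℝ) 1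
    · rw [if_pos hω, if_pos hω]
      refine Nat.sInf_le ?_
      have h3 : ω ≤ 1 - a t (sInf {R : ℕ | ω ≤ 1 - a t R}) := Nat.sInf_mem (hne t ω hω)
      have h4 := hm s t hst (sInf {R : ℕ | ω ≤ 1 - a t R})
      show ω ≤ 1 - a s (sInf {R : ℕ | ω ≤ 1 - a t R})
      linarith
    · rw [if_neg hω, if_neg hω]
  · intro t
    refine measurable_of_Ioi (fun R => ?_)
    have : r t ⁻¹' Set.Ioi R = Set.Ioo (1 - a t R) 1 := hset t R
    rw [this]
    exact measurableSet_Ioo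

theorem F6_real (x y : ℝ) (hx : 0 ≤ x) (hxy : x ≤ y) (hy : y ≤ 1) :
    (volume.restrict (Set.Ioo (0 : ℝ) 1)).real (Set.Ioo x y) = y - x := by
  rw [Measure.real, Measure.restrict_apply measurableSet_Ioo,
    Set.inter_eq_self_of_subset_left (Set.Ioo_subset_Ioo hx hy), Real.volume_Ioo,
    ENNReal.toReal_ofReal (by linarith)]

theorem F6_prob : IsProbabilityMeasure (volume.restrict (Set.Ioo (0 : ℝ) 1)) := by
  constructor
  rw [Measure.restrict_apply MeasurableSet.univ, Set.univ_inter, Real.volume_Ioo]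
  norm_num

/-- F6: the front exists -/
theorem exists_front (hd : 1 ≤ d) (hg : IsRate g Γm Γp) {φ : ℝ} (hφ : 0 < φ) (δ : ℝ≥0∞) :
    ∃ (P : Measure ℝ) (r : ℝ → ℝ → ℕ), IsProbabilityMeasure P ∧ Front P d g φ δ r := by
  obtain ⟨a, hlaw, h0, h1, hm, ha, hl⟩ := F6_law (g := g) (φ := φ) hd hg hφ δ
  obtain ⟨r, hr1, hr2, hr3⟩ := F6_quantile a h0 h1 hm ha hl
  refine ⟨volume.restrict (Set.Ioo (0 : ℝ) 1), r, F6_prob, hr1, hr2, ?_⟩
  intro t ht R
  rw [hr3 t R, F6_real _ _ (by linarith [h1 t R]) (by linarith [h0 t R]) le_rfl]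
  have := hlaw t ht R
  rwa [sub_sub_cancel]

end ZRI
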