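import Pool.Agent.ZRI.Defs2
import Pool.Agent.ZRI.C6a
import Pool.Agent.ZRI.F5
import Pool.Agent.ZRI.F6

open scoped BigOperators ENNReal Topology
open MeasureTheory Filter

namespace ZRI

variable {d L : ℕ} {g : ℕ → ℝ} {Γm Γp : ℝ}

/-- F7: the front and the survival event without healing exist -/
theorem exists_alive (hd : 1 ≤ d) (hg : IsRate g Γm Γp) {φ : ℝ} (hφ : 0 < φ) :
    ∃ (P : Measure ℝ) (r : ℝ → ℝ → ℕ) (al : ℝ → Set ℝ), IsProbabilityMeasure P ∧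
      Front P d g φ 0 r ∧ Alive P d g φ 0 r al ∧ ∀ t, P.real (al t) = 1 - m1 g φ 0 := by
  obtain ⟨a, hlaw, h0, h1, hm, ha, hl⟩ := F6_law (g := g) (φ := φ) hd hg hφ 0
  obtain ⟨r, hr1, hr2, hr3⟩ := F6_quantile a h0 h1 hm ha hl
  obtain ⟨hs1, hs2, hs3, -, -⟩ := ZRI.m1_sum hg hφ
  have hm0 : 0 ≤ m1 g φ 0 := (hs3 0).le
  have hm1 : m1 g φ 0 ≤ 1 := by
    rw [← hs2]
    exact hs1.le_tsum 0 (fun n _ => (hs3 n).le)
  refine ⟨volume.restrict (Set.Ioo (0 : ℝ) 1), r, fun _ => Set.Ioo (m1 g φ 0) 1, F6_prob,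
    ⟨hr1, hr2, ?_⟩, ⟨fun _ _ _ _ => le_rfl, fun _ => measurableSet_Ioo, ?_⟩, ?_⟩
  · intro t ht R
    rw [hr3 t R, F6_real _ _ (by linarith [h1 t R]) (by linarith [h0 t R]) le_rfl]
    have := hlaw t ht R
    rwa [sub_sub_cancel]
  · intro t ht R
    have hlim : Tendsto (fun N => prbZ d N g φ 0 t (nearZ d R)) atTop
        (𝓝 (1 - m1 g φ 0 - a t R)) := by
      refine Tendsto.congr (fun N => (ZRI.nearZ_eq hd hg hφ R N t ht).symm) ?_
      exact tendsto_const_nhds.sub (hlaw t ht R)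
    have hnn : 0 ≤ 1 - m1 g φ 0 - a t R :=
      ge_of_tendsto' hlim (fun N => F6_near_nonneg hd hg hφ 0 R N t ht)
    have hset : Set.Ioo (m1 g φ 0) 1 ∩ {ω | r t ω ≤ R} =
        Set.Ioo (m1 g φ 0) 1 \ Set.Ioo (1 - a t R) 1 := by
      rw [← hr3 t R]
      ext ω
      simp [not_lt]
    rw [hset]
    have hP := F6_prob
    have hsub : Set.Ioo (1 - a t R) 1 ⊆ Set.Ioo (m1 g φ 0) 1 :=
      Set.Ioo_subset_Ioo (by linarith) le_rfl
    rw [measureReal_sdiff hsub measurableSet_Ioo,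
      F6_real _ _ hm0 hm1 le_rfl,
      F6_real _ _ (by linarith [h1 t R]) (by linarith [h0 t R]) le_rfl]
    convert hlim using 2
    ring
  · intro t
    exact F6_real _ _ hm0 hm1 le_rfl

end ZRI
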