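import Pool.Agent.ZRI.Defs2
import Pool.Agent.ZRI.B1
import Pool.Agent.ZRI.C6a

open scoped BigOperators ENNReal Topology
open MeasureTheory Filter

namespace ZRI

variable {g : ℕ → ℝ} {Γm Γp : ℝ}

theorem G1_wt_succ (g : ℕ → ℝ) (φ : ℝ) (n : ℕ) : wt g φ (n + 1) = φ / g (n + 1) * wt g φ n := by
  unfold wt
  rw [Finset.prod_range_succ, pow_succ, div_mul_div_comm, mul_comm (φ ^ n), mul_comm (∏ i ∈ Finset.range n, g (i + 1))]

theorem G1_summable_n (hg : IsRate g Γm Γp) {φ : ℝ} (hφ : 0 < φ) :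
    Summable (fun n : ℕ => (n : ℝ) * wt g φ n) := by
  obtain ⟨_, h2, h3, _⟩ := ZRI.wt_summable hg hφ
  refine Summable.of_nonneg_of_le (fun n => mul_nonneg (Nat.cast_nonneg n) (h3 n).le) (fun n => ?_) h2
  refine mul_le_mul_of_nonneg_right ?_ (h3 n).le
  have h : n ≤ n ^ 2 := Nat.le_self_pow (by norm_num) n
  exact_mod_cast h

theorem G1_dens (g : ℕ → ℝ) (φ : ℝ) :
    dens g φ = (∑' n : ℕ, (n : ℝ) * wt g φ n) / ∑' n, wt g φ n := by
  unfold dens m1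
  rw [← tsum_div_const]
  exact tsum_congr fun n => by rw [mul_div_assoc]

theorem G1_wt_mono (hg : IsRate g Γm Γp) {φ R : ℝ} (hφ : 0 ≤ φ) (hR : φ ≤ R) (n : ℕ) :
    0 ≤ wt g φ n ∧ wt g φ n ≤ wt g R n := by
  have h : 0 ≤ ∏ i ∈ Finset.range n, g (i + 1) :=
    Finset.prod_nonneg fun i _ => ZRI.g_nonneg hg _
  unfold wt
  exact ⟨div_nonneg (pow_nonneg hφ n) h, div_le_div_of_nonneg_right (pow_le_pow_left₀ hφ hR n) h⟩

theorem G1_cont_wt (g : ℕ → ℝ) (n : ℕ) : Continuous fun φ : ℝ => wt g φ n := by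
  unfold wt
  exact (continuous_pow n).div_const _

theorem G1_cont (hg : IsRate g Γm Γp) {a b : ℝ} (ha : 0 < a) (hab : a ≤ b) :
    ContinuousOn (dens g) (Set.Icc a b) := by
  have hb : 0 < b := lt_of_lt_of_le ha hab
  have h1 : ContinuousOn (fun φ : ℝ => ∑' n, wt g φ n) (Set.Icc a b) :=
    continuousOn_tsum (fun n => (G1_cont_wt g n).continuousOn) (ZRI.wt_summable hg hb).1
      fun n φ hφ => by
        have h := G1_wt_mono hg (ha.le.trans hφ.1) hφ.2 n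
        rw [Real.norm_eq_abs, abs_of_nonneg h.1]
        exact h.2
  have h2 : ContinuousOn (fun φ : ℝ => ∑' n : ℕ, (n : ℝ) * wt g φ n) (Set.Icc a b) :=
    continuousOn_tsum (fun n => ((G1_cont_wt g n).const_mul _).continuousOn) (G1_summable_n hg hb)
      fun n φ hφ => by
        have h := G1_wt_mono hg (ha.le.trans hφ.1) hφ.2 n
        rw [Real.norm_eq_abs, abs_of_nonneg (mul_nonneg (Nat.cast_nonneg n) h.1)]
        exact mul_le_mul_of_nonneg_left h.2 (Nat.cast_nonneg n)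
  have h3 : ContinuousOn (fun φ : ℝ => (∑' n : ℕ, (n : ℝ) * wt g φ n) / ∑' n, wt g φ n)
      (Set.Icc a b) :=
    h2.div h1 fun φ hφ => (ZRI.wt_summable hg (lt_of_lt_of_le ha hφ.1)).2.2.2.ne'
  exact h3.congr fun φ _ => G1_dens g φ

theorem G1_bounds (hg : IsRate g Γm Γp) {φ : ℝ} (hφ : 0 < φ) :
    dens g φ ≤ φ / Γm ∧ φ / Γp ≤ dens g φ := by
  obtain ⟨hs, _, hpos, hsum⟩ := ZRI.wt_summable hg hφ
  have hGp : 0 < Γp := lt_of_lt_of_le one_pos hg.one_le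
  have hB : ∑' n : ℕ, (n : ℝ) * wt g φ n = ∑' n : ℕ, ((n + 1 : ℕ) : ℝ) * wt g φ (n + 1) := by
    rw [(G1_summable_n hg hφ).tsum_eq_zero_add, Nat.cast_zero, zero_mul, zero_add]
  have hsB : Summable fun n : ℕ => ((n + 1 : ℕ) : ℝ) * wt g φ (n + 1) :=
    (summable_nat_add_iff 1).2 (G1_summable_n hg hφ)
  have hterm : ∀ n : ℕ, ((n + 1 : ℕ) : ℝ) * wt g φ (n + 1) ≤ φ / Γm * wt g φ n ∧
      φ / Γp * wt g φ n ≤ ((n + 1 : ℕ) : ℝ) * wt g φ (n + 1) := by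
    intro n
    have hlo := ZRI.g_lo hg (n + 1)
    have hhi := ZRI.g_hi hg (n + 1)
    have hn : (0 : ℝ) < ((n + 1 : ℕ) : ℝ) := by positivity
    have hgn : 0 < g (n + 1) := lt_of_lt_of_le (mul_pos hg.pos hn) hlo
    rw [G1_wt_succ, ← mul_assoc]
    constructor
    · refine mul_le_mul_of_nonneg_right ?_ (hpos n).le
      rw [mul_div_assoc', div_le_div_iff₀ hgn hg.pos]
      nlinarith
    · refine mul_le_mul_of_nonneg_right ?_ (hpos n).le
      rw [mul_div_assoc', div_le_div_iff₀ hGp hgn]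
      nlinarith
  rw [G1_dens, hB]
  constructor
  · rw [div_le_iff₀ hsum, ← tsum_mul_left]
    exact hsB.tsum_le_tsum (fun n => (hterm n).1) (hs.mul_left _)
  · rw [le_div_iff₀ hsum, ← tsum_mul_left]
    exact (hs.mul_left _).tsum_le_tsum (fun n => (hterm n).2) hsB

/-- G1: every density is attained -/
theorem exists_fug (hg : IsRate g Γm Γp) {ρ : ℝ} (hρ : 0 < ρ) :
    ∃ φ : ℝ, 0 < φ ∧ dens g φ = ρ := by
  have hGp : 0 < Γp := lt_of_lt_of_le one_pos hg.one_le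
  have ha : 0 < Γm * ρ := mul_pos hg.pos hρ
  have hab : Γm * ρ ≤ Γp * ρ :=
    mul_le_mul_of_nonneg_right (hg.le_one.trans hg.one_le) hρ.le
  have h1 : dens g (Γm * ρ) ≤ ρ := by
    have h := (G1_bounds hg ha).1
    rwa [mul_div_cancel_left₀ ρ hg.pos.ne'] at h
  have h2 : ρ ≤ dens g (Γp * ρ) := by
    have h := (G1_bounds hg (lt_of_lt_of_le ha hab)).2
    rwa [mul_div_cancel_left₀ ρ hGp.ne'] at h
  obtain ⟨φ, hφ, h⟩ := intermediate_value_Icc hab (G1_cont hg ha hab) ⟨h1, h2⟩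
  exact ⟨φ, lt_of_lt_of_le ha hφ.1, h⟩

end ZRI
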