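import Pool.Agent.ZRI.Defs2
import Pool.Agent.ZRI.C6a

open scoped BigOperators ENNReal Topology
open MeasureTheory Filter

namespace ZRI

variable {g : ℕ → ℝ} {Γm Γp : ℝ}

lemma G2_sum (hg : IsRate g Γm Γp) {φ : ℝ} (hφ : 0 < φ) :
    Summable (fun n : ℕ => (n : ℝ) * wt g φ n) := by
  obtain ⟨-, s2, wpos, -⟩ := ZRI.wt_summable hg hφ
  refine Summable.of_nonneg_of_le (fun n => mul_nonneg n.cast_nonneg (wpos n).le) (fun n => ?_) s2
  refine mul_le_mul_of_nonneg_right ?_ (wpos n).le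
  have : n ≤ n ^ 2 := by nlinarith [Nat.zero_le n, Nat.le_self_pow (n := 2) (by norm_num) n]
  exact_mod_cast this

lemma G2_dens (φ : ℝ) :
    dens g φ = (∑' n : ℕ, (n : ℝ) * wt g φ n) / ∑' m, wt g φ m := by
  unfold dens m1
  rw [← tsum_div_const]
  refine tsum_congr fun n => ?_
  rw [mul_div_assoc]

/-- G2: the density determines the fugacity -/
theorem dens_strictMono (hg : IsRate g Γm Γp) : StrictMonoOn (dens g) (Set.Ioi 0) := by
  intro φ hφ φ' hφ' hlt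
  have hφ0 : 0 < φ := hφ
  have hφ0' : 0 < φ' := hφ'
  obtain ⟨s1, -, wpos, W⟩ := ZRI.wt_summable hg hφ0
  obtain ⟨s2, -, wpos', W'⟩ := ZRI.wt_summable hg hφ0'
  have n1 := G2_sum hg hφ0
  have n2 := G2_sum hg hφ0'
  have hρ : 0 < dens g φ := (ZRI.m1_sum hg hφ0).2.2.2.2
  set ρ : ℝ := dens g φ with hρdef
  have hmean : ∑' n : ℕ, (n : ℝ) * wt g φ n = ρ * ∑' m, wt g φ m := by
    rw [hρdef, G2_dens, div_mul_cancel₀ _ W.ne']
  set q : ℝ := φ' / φ with hq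
  have hq1 : 1 < q := (one_lt_div hφ0).2 hlt
  have hq0 : 0 < q := by linarith
  have hw : ∀ n, wt g φ' n = q ^ n * wt g φ n := by
    intro n
    unfold wt
    rw [hq, div_pow, div_mul_div_comm, mul_comm (φ ^ n), mul_div_mul_right _ _ (by positivity)]
  -- the sum of nonnegative terms
  have hterm : ∀ n : ℕ, ((n : ℝ) * wt g φ' n - ρ * wt g φ' n) -
      q ^ ρ * ((n : ℝ) * wt g φ n - ρ * wt g φ n) = ((n : ℝ) - ρ) * (q ^ (n : ℝ) - q ^ ρ) * wt g φ n := by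
    intro n
    rw [hw n, Real.rpow_natCast]
    ring
  have hnn : ∀ n : ℕ, 0 ≤ ((n : ℝ) - ρ) * (q ^ (n : ℝ) - q ^ ρ) * wt g φ n := by
    intro n
    refine mul_nonneg ?_ (wpos n).le
    rcases le_total (n : ℝ) ρ with h | h
    · exact mul_nonneg_of_nonpos_of_nonpos (sub_nonpos.2 h)
        (sub_nonpos.2 (Real.rpow_le_rpow_of_exponent_le hq1.le h))
    · exact mul_nonneg (sub_nonneg.2 h)
        (sub_nonneg.2 (Real.rpow_le_rpow_of_exponent_le hq1.le h))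
  have hs1 : Summable (fun n : ℕ => (n : ℝ) * wt g φ n - ρ * wt g φ n) := n1.sub (s1.mul_left ρ)
  have hs2 : Summable (fun n : ℕ => (n : ℝ) * wt g φ' n - ρ * wt g φ' n) := n2.sub (s2.mul_left ρ)
  have hs3 : Summable (fun n : ℕ => ((n : ℝ) - ρ) * (q ^ (n : ℝ) - q ^ ρ) * wt g φ n) := by
    have := hs2.sub (hs1.mul_left (q ^ ρ))
    refine this.congr fun n => hterm n
  have hpos : 0 < ∑' n : ℕ, ((n : ℝ) - ρ) * (q ^ (n : ℝ) - q ^ ρ) * wt g φ n := by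
    refine hs3.tsum_pos hnn 0 ?_
    refine mul_pos (mul_pos_of_neg_of_neg (by simpa using hρ) ?_) (wpos 0)
    have : q ^ (((0 : ℕ) : ℝ)) < q ^ ρ := Real.rpow_lt_rpow_of_exponent_lt hq1 (by simpa using hρ)
    linarith
  have heq : ∑' n : ℕ, ((n : ℝ) - ρ) * (q ^ (n : ℝ) - q ^ ρ) * wt g φ n =
      (∑' n : ℕ, (n : ℝ) * wt g φ' n) - ρ * ∑' n, wt g φ' n := by
    rw [← tsum_congr hterm, hs2.tsum_sub (hs1.mul_left _), tsum_mul_left,
      n1.tsum_sub (s1.mul_left ρ), n2.tsum_sub (s2.mul_left ρ), tsum_mul_left, tsum_mul_left, hmean]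
    ring
  rw [heq] at hpos
  rw [G2_dens, lt_div_iff₀ W']
  linarith

end ZRI
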