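import Pool.Agent.ZRI.Defs
import Pool.Agent.ZRI.A1
import Pool.Agent.ZRI.A2

open scoped BigOperators ENNReal Topology
open MeasureTheory Filter

namespace ZRI

theorem A5_ineq {w x y p : ℝ} (hw : 0 < w) (hx : 0 < x) (hy : 0 < y) (hp : 0 < p) (hp1 : p < 1) :
    w * x ^ p ≤ p * (x * y ^ (p - 1)) + (1 - p) * (w ^ (1 / (1 - p)) * y ^ p) := by
  have hy1 : 0 < y ^ (p - 1) := Real.rpow_pos_of_pos hy _
  have hy2 : 0 < y ^ p := Real.rpow_pos_of_pos hy _
  have hw1 : 0 < w ^ (1 / (1 - p)) := Real.rpow_pos_of_pos hw _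
  have h := Real.geom_mean_le_arith_mean2_weighted (w₁ := p) (w₂ := 1 - p)
    (p₁ := x * y ^ (p - 1)) (p₂ := w ^ (1 / (1 - p)) * y ^ p) hp.le (by linarith)
    (by positivity) (by positivity) (by ring)
  refine le_trans (le_of_eq ?_) h
  rw [Real.mul_rpow hx.le hy1.le, Real.mul_rpow hw1.le hy2.le, ← Real.rpow_mul hy.le,
    ← Real.rpow_mul hw.le, ← Real.rpow_mul hy.le]
  have hne : 1 - p ≠ 0 := by linarith
  have e1 : 1 / (1 - p) * (1 - p) = 1 := by field_simp
  have e2 : y ^ ((p - 1) * p) * y ^ (p * (1 - p)) = 1 := by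
    rw [← Real.rpow_add hy]
    have e3 : (p - 1) * p + p * (1 - p) = 0 := by ring
    rw [e3, Real.rpow_zero]
  rw [e1, Real.rpow_one]
  calc w * x ^ p = x ^ p * w * 1 := by ring
    _ = x ^ p * w * (y ^ ((p - 1) * p) * y ^ (p * (1 - p))) := by rw [e2]
    _ = x ^ p * y ^ ((p - 1) * p) * (w * y ^ (p * (1 - p))) := by ring

section

variable {S ι : Type*} [Fintype ι]

/-- the Feynman-Kac functional of `1` is bounded below -/
theorem A5_low (r : ι → S → ℝ) (τ : ι → S → S) (V : S → ℝ) (P : S → Prop) (C : ℝ) (hC0 : 0 ≤ C)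
    (hr : ∀ s, P s → ∀ j, 0 ≤ r j s) (hV : ∀ s, P s → 0 ≤ V s)
    (hP : ∀ s, P s → ∀ j, r j s ≠ 0 → P (τ j s))
    (hC : ∀ s, P s → ∑ j, r j s + V s ≤ C) (t : ℝ) (ht : 0 ≤ t) (s : S) (hs : P s) :
    Real.exp (-C * t) ≤ sg (Op r τ (fun s => -∑ j, r j s - V s)) t (fun _ => 1) s := by
  have hsum : ∀ s, P s → 0 ≤ ∑ j, r j s := fun s hs => Finset.sum_nonneg fun j _ => hr s hs j
  have hC2 : ∀ s, P s → ∑ j, |r j s| + |-∑ j, r j s - V s| ≤ 2 * C := by
    intro s hs
    have e1 : ∑ j, |r j s| = ∑ j, r j s := Finset.sum_congr rfl fun j _ => abs_of_nonneg (hr s hs j)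
    have e2 : |-∑ j, r j s - V s| = ∑ j, r j s + V s := by
      rw [← neg_add', abs_neg, abs_of_nonneg (add_nonneg (hsum s hs) (hV s hs))]
    rw [e1, e2]
    linarith [hC s hs, hV s hs]
  have hM1 : ∀ s, P s → |(fun _ : S => (1 : ℝ)) s| ≤ 1 := fun s _ => by simp
  have hderiv := fun (u : ℝ) (s : S) (hs : P s) =>
    ZRI.sg_deriv r τ (fun s => -∑ j, r j s - V s) P (2 * C) 1 hP hC2 (fun _ => 1) hM1 u s hs
  have hbound := fun (u : ℝ) (s : S) (hs : P s) =>
    ZRI.sg_bound r τ (fun s => -∑ j, r j s - V s) P (2 * C) 1 hP hC2 (fun _ => 1) hM1 u s hs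
  have hzero : ∀ s, sg (Op r τ (fun s => -∑ j, r j s - V s)) 0 (fun _ => 1) s = 1 := fun s =>
    ZRI.sg_zero _ _ s
  generalize hf : (fun (u : ℝ) (s : S) =>
    sg (Op r τ (fun s => -∑ j, r j s - V s)) u (fun _ => 1) s) = f
  have hf' : ∀ u s, sg (Op r τ (fun s => -∑ j, r j s - V s)) u (fun _ => 1) s = f u s :=
    fun u s => by rw [← hf]
  have hf'' : ∀ u, sg (Op r τ (fun s => -∑ j, r j s - V s)) u (fun _ => 1) = f u :=
    fun u => by rw [← hf]
  simp only [hf'] at hderiv hbound hzero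
  rw [hf']
  simp only [hf''] at hderiv
  have key := ZRI.cmp P (fun u s => Real.exp (-C * u) - f u s)
    (fun u s => Real.exp (-C * u) * (-C * 1) - Op r τ (fun s => -∑ j, r j s - V s) (f u) s)
    (fun s => -∑ j, r j s - V s) C (1 + Real.exp (2 * C * t) * 1) t hC0 ?_ ?_ ?_ ?_ ?_ t ht le_rfl s hs
  · exact sub_nonpos.1 key
  · intro s hs
    rw [← neg_add', abs_neg, abs_of_nonneg (add_nonneg (hsum s hs) (hV s hs))]
    exact hC s hs
  · intro s hs u _ _
    exact (((hasDerivAt_id' u).const_mul (-C)).exp).sub (hderiv u s hs)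
  · intro s hs u hu hut
    have h1 := hbound u s hs
    have h2 : Real.exp (-C * u) ≤ 1 := by
      rw [Real.exp_le_one_iff]
      have := mul_nonneg hC0 hu
      linarith
    have h3 : Real.exp (2 * C * |u|) ≤ Real.exp (2 * C * t) := by
      apply Real.exp_le_exp.2
      rw [abs_of_nonneg hu]
      exact mul_le_mul_of_nonneg_left hut (by linarith)
    have h4 := (abs_le.1 h1).1
    linarith
  · intro s hs u hu _ B hB hy
    have h1 : ∑ j, r j s * (Real.exp (-C * u) - f u (τ j s)) ≤ C * B := by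
      have h2 : ∑ j, r j s * (Real.exp (-C * u) - f u (τ j s)) ≤ ∑ j, r j s * B := by
        refine Finset.sum_le_sum fun j _ => ?_
        by_cases h : r j s = 0
        · rw [h, zero_mul, zero_mul]
        · exact mul_le_mul_of_nonneg_left (hy _ (hP s hs j h)) (hr s hs j)
      rw [← Finset.sum_mul] at h2
      refine h2.trans (mul_le_mul_of_nonneg_right ?_ hB)
      linarith [hC s hs, hV s hs]
    have h3 : ∑ j, r j s * (Real.exp (-C * u) - f u (τ j s)) =
        (∑ j, r j s) * Real.exp (-C * u) - ∑ j, r j s * f u (τ j s) := by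
      rw [Finset.sum_mul, ← Finset.sum_sub_distrib]
      exact Finset.sum_congr rfl fun j _ => by ring
    have h4 : (V s - C) * Real.exp (-C * u) ≤ 0 :=
      mul_nonpos_of_nonpos_of_nonneg (by linarith [hC s hs, hsum s hs]) (Real.exp_pos _).le
    show Real.exp (-C * u) * (-C * 1) - (∑ j, r j s * f u (τ j s) +
      (-∑ j, r j s - V s) * f u s) ≤ (-∑ j, r j s - V s) * (Real.exp (-C * u) - f u s) + C * B
    rw [h3] at h1
    linarith
  · intro s hs
    show Real.exp (-C * 0) - f 0 s ≤ 0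
    rw [hzero, mul_zero, Real.exp_zero, sub_self]

/-- A5: power of a Feynman-Kac functional as a supersolution -/
theorem young (r w : ι → S → ℝ) (τ : ι → S → S) (V : S → ℝ) (P : S → Prop) (C p K : ℝ)
    (hr : ∀ s, P s → ∀ j, 0 ≤ r j s) (hw : ∀ s, P s → ∀ j, 0 < w j s) (hV : ∀ s, P s → 0 ≤ V s)
    (hP : ∀ s, P s → ∀ j, r j s ≠ 0 → P (τ j s))
    (hC : ∀ s, P s → ∑ j, r j s * (1 + w j s) + V s ≤ C)
    (hp : 0 < p) (hp1 : p < 1) (hK : 0 ≤ K)
    (hY : ∀ s, P s → (1 - p) * ∑ j, r j s * (w j s ^ (1 / (1 - p)) - 1) ≤ K - p * V s)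
    (t : ℝ) (ht : 0 ≤ t) (s : S) (hs : P s) :
    sg (Op (fun j s => r j s * w j s) τ (fun s => -∑ j, r j s)) t (fun _ => 1) s ≤
      Real.exp (K * t) *
        (sg (Op r τ (fun s => -∑ j, r j s - V s)) t (fun _ => 1) s) ^ p := by
  have hsum : ∀ s, P s → 0 ≤ ∑ j, r j s := fun s hs => Finset.sum_nonneg fun j _ => hr s hs j
  have hsumw : ∀ s, P s → 0 ≤ ∑ j, r j s * w j s :=
    fun s hs => Finset.sum_nonneg fun j _ => mul_nonneg (hr s hs j) (hw s hs j).le
  have hsplit : ∀ s, ∑ j, r j s * (1 + w j s) = ∑ j, r j s + ∑ j, r j s * w j s := by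
    intro s
    rw [← Finset.sum_add_distrib]
    exact Finset.sum_congr rfl fun j _ => by ring
  have hC1 : ∀ s, P s → ∑ j, r j s + V s ≤ C := by
    intro s hs
    have h1 := hC s hs
    rw [hsplit] at h1
    linarith [hsumw s hs]
  have hC0 : 0 ≤ C := le_trans (add_nonneg (hsum s hs) (hV s hs)) (hC1 s hs)
  have hlow := fun (u : ℝ) (hu : 0 ≤ u) (s : S) (hs : P s) =>
    A5_low r τ V P C hC0 hr hV hP hC1 u hu s hs
  have hC2 : ∀ s, P s → ∑ j, |r j s| + |-∑ j, r j s - V s| ≤ 2 * C := by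
    intro s hs
    have e1 : ∑ j, |r j s| = ∑ j, r j s := Finset.sum_congr rfl fun j _ => abs_of_nonneg (hr s hs j)
    have e2 : |-∑ j, r j s - V s| = ∑ j, r j s + V s := by
      rw [← neg_add', abs_neg, abs_of_nonneg (add_nonneg (hsum s hs) (hV s hs))]
    rw [e1, e2]
    linarith [hC1 s hs, hV s hs]
  have hC3 : ∀ s, P s → ∑ j, |r j s * w j s| + |-∑ j, r j s| ≤ C := by
    intro s hs
    have e1 : ∑ j, |r j s * w j s| = ∑ j, r j s * w j s :=
      Finset.sum_congr rfl fun j _ => abs_of_nonneg (mul_nonneg (hr s hs j) (hw s hs j).le)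
    rw [e1, abs_neg, abs_of_nonneg (hsum s hs)]
    have h1 := hC s hs
    rw [hsplit] at h1
    linarith [hV s hs]
  have hP3 : ∀ s, P s → ∀ j, r j s * w j s ≠ 0 → P (τ j s) := fun s hs j h =>
    hP s hs j (left_ne_zero_of_mul h)
  have hM1 : ∀ s, P s → |(fun _ : S => (1 : ℝ)) s| ≤ 1 := fun s _ => by simp
  have hderiv := fun (u : ℝ) (s : S) (hs : P s) =>
    ZRI.sg_deriv r τ (fun s => -∑ j, r j s - V s) P (2 * C) 1 hP hC2 (fun _ => 1) hM1 u s hs
  have hzero : ∀ s, sg (Op r τ (fun s => -∑ j, r j s - V s)) 0 (fun _ => 1) s = 1 := fun s =>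
    ZRI.sg_zero _ _ s
  have hderivW := fun (u : ℝ) (s : S) (hs : P s) =>
    ZRI.sg_deriv (fun j s => r j s * w j s) τ (fun s => -∑ j, r j s) P C 1 hP3 hC3
      (fun _ => 1) hM1 u s hs
  have hboundW := fun (u : ℝ) (s : S) (hs : P s) =>
    ZRI.sg_bound (fun j s => r j s * w j s) τ (fun s => -∑ j, r j s) P C 1 hP3 hC3
      (fun _ => 1) hM1 u s hs
  have hzeroW : ∀ s, sg (Op (fun j s => r j s * w j s) τ (fun s => -∑ j, r j s)) 0
      (fun _ => 1) s = 1 := fun s => ZRI.sg_zero _ _ s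
  generalize hf : (fun (u : ℝ) (s : S) =>
    sg (Op r τ (fun s => -∑ j, r j s - V s)) u (fun _ => 1) s) = f
  have hf' : ∀ u s, sg (Op r τ (fun s => -∑ j, r j s - V s)) u (fun _ => 1) s = f u s :=
    fun u s => by rw [← hf]
  have hf'' : ∀ u, sg (Op r τ (fun s => -∑ j, r j s - V s)) u (fun _ => 1) = f u :=
    fun u => by rw [← hf]
  generalize hW : (fun (u : ℝ) (s : S) =>
    sg (Op (fun j s => r j s * w j s) τ (fun s => -∑ j, r j s)) u (fun _ => 1) s) = W
  have hW' : ∀ u s, sg (Op (fun j s => r j s * w j s) τ (fun s => -∑ j, r j s)) u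
    (fun _ => 1) s = W u s := fun u s => by rw [← hW]
  have hW'' : ∀ u, sg (Op (fun j s => r j s * w j s) τ (fun s => -∑ j, r j s)) u
    (fun _ => 1) = W u := fun u => by rw [← hW]
  simp only [hf'] at hderiv hzero hlow
  simp only [hf''] at hderiv
  simp only [hW'] at hderivW hboundW hzeroW
  simp only [hW''] at hderivW
  rw [hf', hW']
  have hfpos : ∀ (u : ℝ), 0 ≤ u → ∀ s, P s → 0 < f u s := fun u hu s hs =>
    lt_of_lt_of_le (Real.exp_pos _) (hlow u hu s hs)
  have key := ZRI.cmp P (fun u s => W u s - Real.exp (K * u) * f u s ^ p)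
    (fun u s => Op (fun j s => r j s * w j s) τ (fun s => -∑ j, r j s) (W u) s -
      (Real.exp (K * u) * (K * 1) * f u s ^ p + Real.exp (K * u) *
        (Op r τ (fun s => -∑ j, r j s - V s) (f u) s * p * f u s ^ (p - 1))))
    (fun s => -∑ j, r j s) C (Real.exp (C * t) * 1) t hC0 ?_ ?_ ?_ ?_ ?_ t ht le_rfl s hs
  · exact sub_nonpos.1 key
  · intro s hs
    rw [abs_neg, abs_of_nonneg (hsum s hs)]
    linarith [hC1 s hs, hV s hs]
  · intro s hs u hu _
    exact (hderivW u s hs).sub ((((hasDerivAt_id' u).const_mul K).exp).mul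
      ((hderiv u s hs).rpow_const (Or.inl (hfpos u hu s hs).ne')))
  · intro s hs u hu hut
    have h1 := (abs_le.1 (hboundW u s hs)).2
    have h2 : 0 ≤ Real.exp (K * u) * f u s ^ p :=
      mul_nonneg (Real.exp_pos _).le (Real.rpow_nonneg (hfpos u hu s hs).le _)
    have h3 : Real.exp (C * |u|) ≤ Real.exp (C * t) := by
      apply Real.exp_le_exp.2
      rw [abs_of_nonneg hu]
      exact mul_le_mul_of_nonneg_left hut hC0
    linarith
  · intro s hs u hu _ B hB hy
    have hE : 0 < Real.exp (K * u) := Real.exp_pos _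
    have hfs := hfpos u hu s hs
    have hfsp : 0 < f u s ^ p := Real.rpow_pos_of_pos hfs _
    generalize Real.exp (K * u) = E at hE hy
    -- the terms of the jumps
    have h1 : ∑ j, r j s * w j s * (W u (τ j s) - E * f u (τ j s) ^ p) ≤ C * B := by
      have h2 : ∑ j, r j s * w j s * (W u (τ j s) - E * f u (τ j s) ^ p) ≤
          ∑ j, r j s * w j s * B := by
        refine Finset.sum_le_sum fun j _ => ?_
        by_cases h : r j s = 0
        · rw [h, zero_mul, zero_mul, zero_mul]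
        · exact mul_le_mul_of_nonneg_left (hy _ (hP s hs j h))
            (mul_nonneg (hr s hs j) (hw s hs j).le)
      rw [← Finset.sum_mul] at h2
      refine h2.trans (mul_le_mul_of_nonneg_right ?_ hB)
      have h3 := hC s hs
      rw [hsplit] at h3
      linarith [hsum s hs, hV s hs]
    have h3 : ∑ j, r j s * w j s * (W u (τ j s) - E * f u (τ j s) ^ p) =
        ∑ j, r j s * w j s * W u (τ j s) - E * ∑ j, r j s * (w j s * f u (τ j s) ^ p) := by
      rw [Finset.mul_sum, ← Finset.sum_sub_distrib]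
      exact Finset.sum_congr rfl fun j _ => by ring
    -- Young
    have h4 : ∑ j, r j s * (w j s * f u (τ j s) ^ p) ≤
        p * f u s ^ (p - 1) * (∑ j, r j s * f u (τ j s)) +
        (1 - p) * f u s ^ p * ∑ j, r j s * w j s ^ (1 / (1 - p)) := by
      rw [Finset.mul_sum, Finset.mul_sum, ← Finset.sum_add_distrib]
      refine Finset.sum_le_sum fun j _ => ?_
      by_cases h : r j s = 0
      · rw [h]
        simp
      · have h5 := A5_ineq (hw s hs j) (hfpos u hu _ (hP s hs j h)) hfs hp hp1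
        have h6 := mul_le_mul_of_nonneg_left h5 (hr s hs j)
        refine h6.trans (le_of_eq ?_)
        ring
    have h7 : ∑ j, r j s * (w j s ^ (1 / (1 - p)) - 1) =
        ∑ j, r j s * w j s ^ (1 / (1 - p)) - ∑ j, r j s := by
      rw [← Finset.sum_sub_distrib]
      exact Finset.sum_congr rfl fun j _ => by ring
    have h8 := hY s hs
    rw [h7] at h8
    have h9 : f u s ^ (p - 1) * f u s = f u s ^ p := by
      rw [Real.rpow_sub_one hfs.ne', div_mul_cancel₀ _ hfs.ne']
    show ∑ j, r j s * w j s * W u (τ j s) + -(∑ j, r j s) * W u s -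
      (E * (K * 1) * f u s ^ p + E * ((∑ j, r j s * f u (τ j s) +
        (-∑ j, r j s - V s) * f u s) * p * f u s ^ (p - 1))) ≤
      -(∑ j, r j s) * (W u s - E * f u s ^ p) + C * B
    rw [h3] at h1
    generalize ∑ j, r j s * w j s ^ (1 / (1 - p)) = Y at h4 h8
    generalize ∑ j, r j s * f u (τ j s) = X at h4
    generalize ∑ j, r j s * (w j s * f u (τ j s) ^ p) = Z at h1 h4
    generalize ∑ j, r j s * w j s * W u (τ j s) = G at h1
    generalize ∑ j, r j s = R at h8
    generalize f u s ^ (p - 1) = a at h4 h9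
    generalize f u s ^ p = b at h4 h9 hfsp
    have h10 : E * Z ≤ E * (p * a * X + (1 - p) * b * Y) := mul_le_mul_of_nonneg_left h4 hE.le
    have h11 : E * b * ((1 - p) * (Y - R)) ≤ E * b * (K - p * V s) :=
      mul_le_mul_of_nonneg_left h8 (mul_nonneg hE.le hfsp.le)
    have h12 : (X + (-R - V s) * f u s) * p * a = p * a * X - (R + V s) * p * b := by
      rw [← h9]
      ring
    rw [h12]
    linarith
  · intro s hs
    show W 0 s - Real.exp (K * 0) * f 0 s ^ p ≤ 0
    rw [hzero, hzeroW, mul_zero, Real.exp_zero, Real.one_rpow, mul_one, sub_self]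

end

end ZRI
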