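import Pool.Agent.ZRI.Defs

open scoped BigOperators ENNReal Topology
open MeasureTheory Filter

namespace ZRI

section C

variable {d L : ℕ} {g : ℕ → ℝ} {Γm Γp : ℝ}

/-- C9 -/
theorem as_upper {Ω : Type*} [MeasurableSpace Ω] (P : Measure Ω) [IsProbabilityMeasure P]
    (r : ℝ → Ω → ℕ) (hr : ∀ ω s t, s ≤ t → r s ω ≤ r t ω) (hm : ∀ t, Measurable (r t)) (K κ : ℝ)
    (hκ : 0 < κ)
    (h : ∀ t, 0 ≤ t → ∀ R : ℕ, P.real {ω | R < r t ω} ≤ K * Real.exp (κ * t - R)) :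
    ∀ᵐ ω ∂P, ∀ᶠ t : ℝ in atTop, (r t ω : ℝ) ≤ (κ + 2) * t := by
  have hK : 0 ≤ K := by
    have h1 := h 0 le_rfl 0
    have h2 : 0 ≤ K * Real.exp (κ * 0 - (0 : ℕ)) := measureReal_nonneg.trans h1
    exact nonneg_of_mul_nonneg_left h2 (Real.exp_pos _)
  have hb : ∀ n : ℕ, P {ω | ⌈(κ + 1) * n⌉₊ < r n ω} ≤
      ENNReal.ofReal (K * Real.exp (-1) ^ n) := by
    intro n
    have h1 := h n (Nat.cast_nonneg n) ⌈(κ + 1) * n⌉₊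
    have h2 : (κ + 1) * n ≤ (⌈(κ + 1) * (n : ℝ)⌉₊ : ℝ) := Nat.le_ceil _
    have h3 : K * Real.exp (κ * n - (⌈(κ + 1) * (n : ℝ)⌉₊ : ℝ)) ≤ K * Real.exp (-1) ^ n := by
      refine mul_le_mul_of_nonneg_left ?_ hK
      rw [← Real.exp_nat_mul]
      exact Real.exp_le_exp.2 (by linarith)
    rw [← ENNReal.ofReal_toReal (measure_ne_top P {ω | ⌈(κ + 1) * (n : ℝ)⌉₊ < r n ω})]
    exact ENNReal.ofReal_le_ofReal (h1.trans h3)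
  have hsum : Summable (fun n : ℕ => K * Real.exp (-1) ^ n) := by
    refine (summable_geometric_of_lt_one (Real.exp_pos _).le ?_).mul_left K
    rw [Real.exp_lt_one_iff]
    norm_num
  have hfin : ∑' n : ℕ, P {ω | ⌈(κ + 1) * (n : ℝ)⌉₊ < r n ω} ≠ ⊤ := by
    refine ne_top_of_le_ne_top ?_ (ENNReal.tsum_le_tsum hb)
    rw [← ENNReal.ofReal_tsum_of_nonneg (fun n => by positivity) hsum]
    exact ENNReal.ofReal_ne_top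
  filter_upwards [ae_eventually_notMem hfin] with ω hω
  obtain ⟨N, hN⟩ := eventually_atTop.1 hω
  filter_upwards [eventually_ge_atTop (max (N : ℝ) (κ + 2))] with t ht
  have ht1 : (N : ℝ) ≤ t := (le_max_left _ _).trans ht
  have ht2 : κ + 2 ≤ t := (le_max_right _ _).trans ht
  have ht0 : 0 ≤ t := by linarith
  have hn : N ≤ ⌈t⌉₊ := by
    have : (N : ℝ) ≤ (⌈t⌉₊ : ℝ) := ht1.trans (Nat.le_ceil t)
    exact_mod_cast this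
  have h1 := hN ⌈t⌉₊ hn
  have h2 : r (⌈t⌉₊ : ℝ) ω ≤ ⌈(κ + 1) * (⌈t⌉₊ : ℝ)⌉₊ := by
    by_contra hc
    exact h1 (not_le.1 hc)
  have h3 : r t ω ≤ ⌈(κ + 1) * (⌈t⌉₊ : ℝ)⌉₊ := (hr ω _ _ (Nat.le_ceil t)).trans h2
  have h4 : (r t ω : ℝ) ≤ (⌈(κ + 1) * (⌈t⌉₊ : ℝ)⌉₊ : ℝ) := by exact_mod_cast h3
  have h5 : (⌈(κ + 1) * (⌈t⌉₊ : ℝ)⌉₊ : ℝ) < (κ + 1) * (⌈t⌉₊ : ℝ) + 1 :=
    Nat.ceil_lt_add_one (by positivity)
  have h6 : (⌈t⌉₊ : ℝ) < t + 1 := Nat.ceil_lt_add_one ht0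
  nlinarith

end C

end ZRI
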