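import Pool.Agent.ZRI.Defs
import Pool.Agent.ZRI.B1
import Pool.Agent.ZRI.B2
import Pool.Agent.ZRI.B3

open scoped BigOperators ENNReal Topology
open MeasureTheory Filter

namespace ZRI

section D

variable {d L : ℕ} {g : ℕ → ℝ} {Γm Γp : ℝ}

/-- D1 -/
theorem Agr_op [NeZero d] (θ lam : ℝ) :
    (Agr g θ lam : (Cfg d L × Tor d L → ℝ) → Cfg d L × Tor d L → ℝ) =
      Op (fun j s => rA g j s * wA θ j s) tA (fun s => -∑ j, rA g j s - VA g lam s) := by
  funext F s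
  unfold Agr Op VA
  have h1 : ∀ (z : Tor d L) (e : Dir d), g (s.1 z) / (2 * d) *
      ((if z = s.2 then gw θ s e * F (mv s.1 z (z + stp e), gx s e)
        else F (mv s.1 z (z + stp e), s.2)) - F s) =
      rA g (z, e) s * wA θ (z, e) s * F (tA (z, e) s) - rA g (z, e) s * F s := by
    intro z e
    unfold rA wA tA
    by_cases hz : z = s.2
    · simp only [hz, if_true]
      ring
    · simp only [hz, if_false]
      ring
  have h2 : (∑ z : Tor d L, ∑ e : Dir d, g (s.1 z) / (2 * d) *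
      ((if z = s.2 then gw θ s e * F (mv s.1 z (z + stp e), gx s e)
        else F (mv s.1 z (z + stp e), s.2)) - F s)) =
      ∑ j : Tor d L × Dir d, rA g j s * wA θ j s * F (tA j s) -
        (∑ j : Tor d L × Dir d, rA g j s) * F s := by
    rw [Fintype.sum_prod_type, Fintype.sum_prod_type, Finset.sum_mul, ← Finset.sum_sub_distrib]
    refine Finset.sum_congr rfl fun z _ => ?_
    rw [Finset.sum_mul, ← Finset.sum_sub_distrib]
    exact Finset.sum_congr rfl fun e _ => h1 z e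
  rw [h2]
  ring

/-- D1 -/
theorem wA_zero [NeZero d] (j : Tor d L × Dir d) (s : Cfg d L × Tor d L) : wA 0 j s = 1 := by
  unfold wA gw
  simp

/-- D1 -/
theorem tA_inv [NeZero d] (hg : IsRate g Γm Γp) (n : ℕ) (s : Cfg d L × Tor d L)
    (hs : ∑ z, s.1 z = n) (j : Tor d L × Dir d) (hj : rA g j s ≠ 0) :
    ∑ z, (tA j s).1 z = n ∧ (1 ≤ s.1 s.2 → 1 ≤ (tA j s).1 (tA j s).2) := by
  have hgj : g (s.1 j.1) ≠ 0 := by
    intro h
    apply hj
    unfold rA
    rw [h, zero_div]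
  have hj1 : 1 ≤ s.1 j.1 := ZRI.g_ne hg _ hgj
  refine ⟨?_, fun h1 => ?_⟩
  · unfold tA
    show ∑ z, mv s.1 j.1 (j.1 + stp j.2) z = n
    rw [ZRI.sum_mv _ _ _ hj1, hs]
  · unfold tA
    show 1 ≤ mv s.1 j.1 (j.1 + stp j.2) (if j.1 = s.2 then gx s j.2 else s.2)
    by_cases hz : j.1 = s.2
    · rw [if_pos hz]
      unfold gx mv
      by_cases he : j.2 = (0, true) ∨ s.1 s.2 = 1
      · rw [if_pos he, hz]
        simp
      · rw [if_neg he]
        push Not at he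
        have h2 : 2 ≤ s.1 s.2 := by
          have := he.2
          omega
        rw [hz]
        simp only [Pi.add_apply, Pi.sub_apply, Pi.single_eq_same]
        omega
    · rw [if_neg hz]
      unfold mv
      have h3 : (Pi.single j.1 1 : Cfg d L) s.2 = 0 := Pi.single_eq_of_ne (Ne.symm hz) 1
      simp only [Pi.add_apply, Pi.sub_apply, h3]
      omega

/-- D1 -/
theorem rA_bound [NeZero d] (hg : IsRate g Γm Γp) (θ lam : ℝ) (hθ : 0 ≤ θ) (hlam : 0 ≤ lam)
    (s : Cfg d L × Tor d L) :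
    (∀ j, 0 ≤ rA g j s) ∧ (∀ j, 0 < wA θ j s ∧ wA θ j s ≤ Real.exp θ) ∧ 0 ≤ VA g lam s ∧
      ∑ j, rA g j s ≤ Γp * ((∑ z, s.1 z : ℕ) : ℝ) ∧
      VA g lam s ≤ lam * Γp * ((∑ z, s.1 z : ℕ) : ℝ) := by
  have hΓ : 0 ≤ Γp := zero_le_one.trans hg.one_le
  have h0 : ∀ n, 0 ≤ g n := ZRI.g_nonneg hg
  have hexp1 : 1 ≤ Real.exp θ := Real.one_le_exp hθ
  have hexp2 : Real.exp (-θ) ≤ Real.exp θ := Real.exp_le_exp.2 (by linarith)
  refine ⟨fun j => ?_, fun j => ?_, ?_, ?_, ?_⟩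
  · unfold rA
    exact div_nonneg (h0 _) (by positivity)
  · unfold wA gw
    split_ifs
    · exact ⟨Real.exp_pos _, hexp2⟩
    · exact ⟨Real.exp_pos _, le_rfl⟩
    · exact ⟨one_pos, hexp1⟩
    · exact ⟨one_pos, hexp1⟩
  · unfold VA
    refine mul_nonneg hlam ?_
    split_ifs
    · exact h0 _
    · exact le_rfl
  · rw [Fintype.sum_prod_type]
    exact ZRI.sum_rate (NeZero.one_le) hg s.1
  · unfold VA
    rw [mul_assoc]
    refine mul_le_mul_of_nonneg_left ?_ hlam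
    have h1 : ((s.1 s.2 : ℕ) : ℝ) ≤ ((∑ z, s.1 z : ℕ) : ℝ) := by
      exact_mod_cast Finset.single_le_sum (f := s.1) (fun _ _ => Nat.zero_le _)
        (Finset.mem_univ s.2)
    have h2 : g (s.1 s.2) ≤ Γp * ((∑ z, s.1 z : ℕ) : ℝ) :=
      (ZRI.g_hi hg _).trans (mul_le_mul_of_nonneg_left h1 hΓ)
    split_ifs
    · exact h2
    · exact (h0 (s.1 s.2)).trans h2

end D

end ZRI
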