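import Pool.Agent.ZRI.Defs

open scoped BigOperators ENNReal Topology
open MeasureTheory Filter

namespace ZRI

variable {d L : ℕ} {g : ℕ → ℝ} {Γm Γp : ℝ}

/-- splitting of a coordinate -/
noncomputable def D10a_e (m : ℕ) : Bool × Fin m ≃ Fin (2 * m) :=
  (Equiv.prodCongr finTwoEquiv.symm (Equiv.refl (Fin m))).trans finProdFinEquiv

theorem D10a_val (m : ℕ) (b : Bool) (i : Fin m) :
    ((D10a_e m (b, i) : Fin (2 * m)) : ℕ) = (if b then m else 0) + i := by
  unfold D10a_e
  cases b <;> simp [finTwoEquiv, finProdFinEquiv] <;> ring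

/-- D10 -/
theorem Blk_double (m : ℕ) (hm : 1 ≤ m) (v : Tor d L → ℝ) (x : Tor d L) :
    Blk (2 * m) v x = (∑ u : Fin d → Bool,
      Blk m v (x + fun i => if u i then (m : ZMod (L + 1)) else 0)) / 2 ^ d := by
  unfold Blk
  have key : ∑ u : Fin d → Fin (2 * m), v (x + fun i => ((u i : ℕ) : ZMod (L + 1))) =
      ∑ a : Fin d → Bool, ∑ u : Fin d → Fin m,
        v ((x + fun i => if a i then (m : ZMod (L + 1)) else 0) +
          fun i => ((u i : ℕ) : ZMod (L + 1))) := by
    rw [← Fintype.sum_prod_type' (f := fun (a : Fin d → Bool) (u : Fin d → Fin m) =>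
      v ((x + fun i => if a i then (m : ZMod (L + 1)) else 0) +
          fun i => ((u i : ℕ) : ZMod (L + 1))))]
    symm
    apply Fintype.sum_equiv
      ((Equiv.arrowProdEquivProdArrow (Fin d) (fun _ => Bool) (fun _ => Fin m)).symm.trans
        (Equiv.piCongrRight (fun _ => D10a_e m)))
    rintro ⟨a, u⟩
    congr 1
    funext i
    simp only [Pi.add_apply, Equiv.trans_apply, Equiv.piCongrRight_apply, Pi.map_apply,
      Equiv.arrowProdEquivProdArrow_symm_apply]
    rw [D10a_val]
    push_cast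
    split_ifs <;> simp [add_assoc]
  rw [key, ← Finset.sum_div, div_div]
  congr 1
  push_cast
  rw [mul_pow]
  ring

end ZRI
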