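import Pool.Agent.ZRI.Defs

open scoped BigOperators ENNReal Topology
open MeasureTheory Filter

namespace ZRI

variable {d L : ℕ} {g : ℕ → ℝ} {Γm Γp : ℝ}

/-- D9 -/
theorem Blk_one (v : Tor d L → ℝ) (x : Tor d L) : Blk 1 v x = v x := by
  unfold Blk
  rw [Fintype.sum_unique]
  simp only [Nat.cast_one, one_pow, div_one]
  congr 1
  ext i
  simp

theorem D9_inj (m : ℕ) (hmL : m ≤ L + 1) (x : Tor d L) :
    Function.Injective (fun u : Fin d → Fin m => x + fun i => (((u i : ℕ) : ZMod (L + 1)))) := by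
  intro u u' h
  ext i
  have h1 := congrFun h i
  simp only [Pi.add_apply, add_right_inj] at h1
  have h2 := (ZMod.natCast_eq_natCast_iff' _ _ _).mp h1
  rw [Nat.mod_eq_of_lt (lt_of_lt_of_le (u i).2 hmL),
    Nat.mod_eq_of_lt (lt_of_lt_of_le (u' i).2 hmL)] at h2
  exact h2

theorem D9_sum_le (m : ℕ) (hmL : m ≤ L + 1) (x : Tor d L) (h : Tor d L → ℝ) (hh : ∀ z, 0 ≤ h z) :
    ∑ u : Fin d → Fin m, h (x + fun i => ((u i : ℕ) : ZMod (L + 1))) ≤ ∑ z, h z := by
  classical
  rw [← Finset.sum_image (s := Finset.univ)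
    (g := fun u : Fin d → Fin m => x + fun i => (((u i : ℕ) : ZMod (L + 1))))
    (f := h) (fun a _ b _ hab => D9_inj m hmL x hab)]
  exact Finset.sum_le_sum_of_subset_of_nonneg (Finset.subset_univ _) fun z _ _ => hh z

/-- D9 -/
theorem Blk_full (v : Tor d L → ℝ) (x y : Tor d L) : Blk (L + 1) v x = Blk (L + 1) v y := by
  classical
  have key : ∀ x : Tor d L, ∑ u : Fin d → Fin (L + 1), v (x + fun i => ((u i : ℕ) : ZMod (L + 1)))
      = ∑ z, v z := by
    intro x
    refine Function.Bijective.sum_comp ?_ v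
    rw [Fintype.bijective_iff_injective_and_card]
    refine ⟨D9_inj (L + 1) le_rfl x, ?_⟩
    simp [ZMod.card]
  unfold Blk
  rw [key x, key y]

theorem D9_tel (m : ℕ) (a : ℕ → ℝ) : (a 0 - a m) ^ 2 ≤ m * ∑ l ∈ Finset.range m,
    (a (l + 1) - a l) ^ 2 := by
  have h1 : a m - a 0 = ∑ l ∈ Finset.range m, (a (l + 1) - a l) :=
    (Finset.sum_range_sub a m).symm
  have h2 := sq_sum_le_card_mul_sum_sq (s := Finset.range m) (f := fun l => a (l + 1) - a l)
  rw [Finset.card_range, ← h1] at h2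
  calc (a 0 - a m) ^ 2 = (a m - a 0) ^ 2 := by ring
    _ ≤ _ := h2

theorem D9_En (v : Tor d L → ℝ) (i : Fin d) :
    ∑ z, (v (z + Pi.single i 1) - v z) ^ 2 ≤ En v := by
  unfold En
  refine Finset.sum_le_sum fun z _ => ?_
  have h1 : (v (z + Pi.single i 1) - v z) ^ 2 = (v (z + stp ((i, true) : Dir d)) - v z) ^ 2 := by
    unfold stp
    simp
  rw [h1]
  exact Finset.single_le_sum (f := fun e : Dir d => (v (z + stp e) - v z) ^ 2)
    (fun e _ => sq_nonneg _) (Finset.mem_univ ((i, true) : Dir d))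

/-- D9 -/
theorem Blk_step (m : ℕ) (hm : 1 ≤ m) (hmL : m ≤ L + 1) (v : Tor d L → ℝ) (x : Tor d L)
    (i : Fin d) :
    (Blk m v x - Blk m v (x + Pi.single i (m : ZMod (L + 1)))) ^ 2 ≤
      (m : ℝ) ^ 2 / (m : ℝ) ^ d * En v := by
  classical
  have hm0 : (0 : ℝ) < m := by exact_mod_cast hm
  have hmd : (0 : ℝ) < (m : ℝ) ^ d := by positivity
  obtain ⟨ut, hut⟩ : ∃ ut : (Fin d → Fin m) → Tor d L,
      ∀ u, (fun i => ((u i : ℕ) : ZMod (L + 1))) = ut u := ⟨_, fun u => rfl⟩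
  obtain ⟨f, hf⟩ : ∃ f : (Fin d → Fin m) → ℝ, ∀ u,
      v (x + ut u) - v (x + Pi.single i (m : ZMod (L + 1)) + ut u) = f u := ⟨_, fun u => rfl⟩
  have h1 : Blk m v x - Blk m v (x + Pi.single i (m : ZMod (L + 1))) =
      (∑ u, f u) / (m : ℝ) ^ d := by
    unfold Blk
    rw [← sub_div, ← Finset.sum_sub_distrib]
    simp only [hut, hf]
  have hcard : ((Finset.univ : Finset (Fin d → Fin m)).card : ℝ) = (m : ℝ) ^ d := by
    simp [Finset.card_univ]
  have h2 : (∑ u, f u) ^ 2 ≤ (m : ℝ) ^ d * ∑ u, f u ^ 2 := by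
    have := sq_sum_le_card_mul_sum_sq (s := (Finset.univ : Finset (Fin d → Fin m))) (f := f)
    rwa [hcard] at this
  have h3 : ∀ u, f u ^ 2 ≤ m * ∑ l ∈ Finset.range m,
      (v (x + Pi.single i (l : ZMod (L + 1)) + ut u + Pi.single i 1) -
        v (x + Pi.single i (l : ZMod (L + 1)) + ut u)) ^ 2 := by
    intro u
    have h4 := D9_tel m (fun l => v (x + Pi.single i ((l : ℕ) : ZMod (L + 1)) + ut u))
    have h5 : v (x + Pi.single i (((0 : ℕ)) : ZMod (L + 1)) + ut u) = v (x + ut u) := by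
      simp
    have h6 : ∀ l : ℕ, v (x + Pi.single i (((l + 1 : ℕ)) : ZMod (L + 1)) + ut u) =
        v (x + Pi.single i ((l : ℕ) : ZMod (L + 1)) + ut u + Pi.single i 1) := by
      intro l
      congr 1
      rw [Nat.cast_add, Nat.cast_one, Pi.single_add]
      abel
    simp only [h5, h6] at h4
    rw [← hf u]
    exact h4
  have h7 : ∑ u, f u ^ 2 ≤ m * (m * En v) := by
    calc ∑ u, f u ^ 2 ≤ ∑ u, (m : ℝ) * ∑ l ∈ Finset.range m,
          (v (x + Pi.single i (l : ZMod (L + 1)) + ut u + Pi.single i 1) -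
            v (x + Pi.single i (l : ZMod (L + 1)) + ut u)) ^ 2 :=
          Finset.sum_le_sum fun u _ => h3 u
      _ = m * ∑ l ∈ Finset.range m, ∑ u,
          (v (x + Pi.single i (l : ZMod (L + 1)) + ut u + Pi.single i 1) -
            v (x + Pi.single i (l : ZMod (L + 1)) + ut u)) ^ 2 := by
          rw [← Finset.mul_sum]
          congr 1
          exact Finset.sum_comm
      _ ≤ m * ∑ _l ∈ Finset.range m, En v := by
          refine mul_le_mul_of_nonneg_left (Finset.sum_le_sum fun l _ => ?_) hm0.le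
          refine le_trans ?_ (D9_En v i)
          have h8 := D9_sum_le m hmL (x + Pi.single i (l : ZMod (L + 1)))
            (fun z => (v (z + Pi.single i 1) - v z) ^ 2) (fun z => sq_nonneg _)
          simp only [hut] at h8
          exact h8
      _ = m * (m * En v) := by
          rw [Finset.sum_const, Finset.card_range, nsmul_eq_mul]
  rw [h1, div_pow, div_le_iff₀ (by positivity)]
  calc (∑ u, f u) ^ 2 ≤ (m : ℝ) ^ d * ∑ u, f u ^ 2 := h2
    _ ≤ (m : ℝ) ^ d * (m * (m * En v)) := by gcongr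
    _ = (m : ℝ) ^ 2 / (m : ℝ) ^ d * En v * ((m : ℝ) ^ d) ^ 2 := by
      field_simp

end ZRI
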