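import Pool.Agent.ZRI.Defs
import Pool.Agent.ZRI.D9
import Pool.Agent.ZRI.D10a

open scoped BigOperators ENNReal Topology
open MeasureTheory Filter

namespace ZRI

variable {d L : ℕ} {g : ℕ → ℝ} {Γm Γp : ℝ}

theorem D10b_En_nonneg (v : Tor d L → ℝ) : 0 ≤ En v := by
  unfold En
  exact Finset.sum_nonneg fun z _ => Finset.sum_nonneg fun e _ => sq_nonneg _

theorem D10b_rat (hd : 3 ≤ d) (m : ℕ) (hm : 1 ≤ m) :
    (m : ℝ) ^ 2 / (m : ℝ) ^ d ≤ 1 / (m : ℝ) := by
  have hm0 : (0 : ℝ) < (m : ℝ) := Nat.cast_pos.mpr hm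
  have hm1 : (1 : ℝ) ≤ (m : ℝ) := Nat.one_le_cast.mpr hm
  rw [div_le_div_iff₀ (pow_pos hm0 d) hm0, one_mul]
  calc (m : ℝ) ^ 2 * (m : ℝ) = (m : ℝ) ^ 3 := (pow_succ (m : ℝ) 2).symm
    _ ≤ (m : ℝ) ^ d := pow_le_pow_right₀ hm1 hd

theorem D10b_aux (a b E c : ℝ) (hE : 0 ≤ E) (h : (a - b) ^ 2 ≤ c * E) (r : ℝ) (hc : c ≤ r) :
    |a - b| ≤ Real.sqrt E * Real.sqrt r := by
  rw [← Real.sqrt_mul hE]
  apply Real.abs_le_sqrt
  refine le_trans h ?_
  rw [mul_comm E r]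
  exact mul_le_mul_of_nonneg_right hc hE

theorem D10b_step (hd : 3 ≤ d) (m : ℕ) (hm : 1 ≤ m) (hmL : m ≤ L + 1) (v : Tor d L → ℝ)
    (x : Tor d L) (i : Fin d) :
    |Blk m v x - Blk m v (x + Pi.single i (m : ZMod (L + 1)))| ≤
      Real.sqrt (En v) * Real.sqrt (1 / (m : ℝ)) :=
  D10b_aux _ _ _ _ (D10b_En_nonneg v) (ZRI.Blk_step m hm hmL v x i) _ (D10b_rat hd m hm)

theorem D10b_set (hd : 3 ≤ d) (m : ℕ) (hm : 1 ≤ m) (hmL : m ≤ L + 1) (v : Tor d L → ℝ)
    (x : Tor d L) (T : Finset (Fin d)) :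
    |Blk m v x - Blk m v (x + ∑ i ∈ T, Pi.single i (m : ZMod (L + 1)))| ≤
      (T.card : ℝ) * (Real.sqrt (En v) * Real.sqrt (1 / (m : ℝ))) := by
  classical
  induction T using Finset.induction_on with
  | empty => simp
  | insert a T ha ih =>
    rw [Finset.sum_insert ha, Finset.card_insert_of_notMem ha]
    have h1 := D10b_step hd m hm hmL v (x + ∑ i ∈ T, Pi.single i (m : ZMod (L + 1))) a
    have e1 : x + (Pi.single a (m : ZMod (L + 1)) + ∑ i ∈ T, Pi.single i (m : ZMod (L + 1))) =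
        x + ∑ i ∈ T, Pi.single i (m : ZMod (L + 1)) + Pi.single a (m : ZMod (L + 1)) := by
      abel
    rw [e1]
    have h2 := abs_sub_le (Blk m v x) (Blk m v (x + ∑ i ∈ T, Pi.single i (m : ZMod (L + 1))))
      (Blk m v (x + ∑ i ∈ T, Pi.single i (m : ZMod (L + 1)) + Pi.single a (m : ZMod (L + 1))))
    push_cast
    nlinarith [h1, h2, ih]

theorem D10b_eps (hd : 3 ≤ d) (m : ℕ) (hm : 1 ≤ m) (hmL : m ≤ L + 1) (v : Tor d L → ℝ)
    (x : Tor d L) (u : Fin d → Bool) :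
    |Blk m v x - Blk m v (x + fun i => if u i then (m : ZMod (L + 1)) else 0)| ≤
      (d : ℝ) * (Real.sqrt (En v) * Real.sqrt (1 / (m : ℝ))) := by
  classical
  have e1 : (fun i => if u i then (m : ZMod (L + 1)) else 0 : Tor d L) =
      ∑ i ∈ Finset.univ.filter (fun i => u i = true), Pi.single i (m : ZMod (L + 1)) := by
    funext j
    rw [Finset.sum_apply, Finset.sum_filter]
    simp only [Pi.single_apply]
    rw [Finset.sum_eq_single j]
    · simp
    · intro b _ hb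
      have : ¬ j = b := fun h => hb h.symm
      simp [this]
    · intro h
      exact absurd (Finset.mem_univ j) h
  rw [e1]
  refine le_trans (D10b_set hd m hm hmL v x _) ?_
  have h2 : ((Finset.univ.filter (fun i : Fin d => u i = true)).card : ℝ) ≤ d := by
    have := Finset.card_le_univ (Finset.univ.filter (fun i : Fin d => u i = true))
    rw [Fintype.card_fin] at this
    exact_mod_cast this
  exact mul_le_mul_of_nonneg_right h2 (by positivity)

theorem D10b_double (hd : 3 ≤ d) (m : ℕ) (hm : 1 ≤ m) (hmL : m ≤ L + 1) (v : Tor d L → ℝ)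
    (x : Tor d L) :
    |Blk m v x - Blk (2 * m) v x| ≤
      (d : ℝ) * (Real.sqrt (En v) * Real.sqrt (1 / (m : ℝ))) := by
  classical
  rw [ZRI.Blk_double m hm v x]
  set c := (d : ℝ) * (Real.sqrt (En v) * Real.sqrt (1 / (m : ℝ))) with hc
  have hcard : (∑ _u : Fin d → Bool, (1 : ℝ)) = 2 ^ d := by
    simp [Finset.card_univ]
  have h2 : (0 : ℝ) < 2 ^ d := by positivity
  have e1 : Blk m v x - (∑ u : Fin d → Bool,
      Blk m v (x + fun i => if u i then (m : ZMod (L + 1)) else 0)) / 2 ^ d =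
      (∑ u : Fin d → Bool, (Blk m v x -
        Blk m v (x + fun i => if u i then (m : ZMod (L + 1)) else 0))) / 2 ^ d := by
    rw [Finset.sum_sub_distrib, Finset.sum_const, Finset.card_univ]
    rw [show Fintype.card (Fin d → Bool) = 2 ^ d by simp]
    rw [nsmul_eq_mul]
    push_cast
    field_simp
  rw [e1, abs_div, abs_of_pos h2, div_le_iff₀ h2]
  calc |∑ u : Fin d → Bool, (Blk m v x -
        Blk m v (x + fun i => if u i then (m : ZMod (L + 1)) else 0))|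
      ≤ ∑ u : Fin d → Bool, |Blk m v x -
        Blk m v (x + fun i => if u i then (m : ZMod (L + 1)) else 0)| :=
        Finset.abs_sum_le_sum_abs _ _
    _ ≤ ∑ _u : Fin d → Bool, c := Finset.sum_le_sum fun u _ => D10b_eps hd m hm hmL v x u
    _ = c * 2 ^ d := by
        rw [Finset.sum_const, Finset.card_univ]
        rw [show Fintype.card (Fin d → Bool) = 2 ^ d by simp]
        rw [nsmul_eq_mul]
        push_cast
        ring

theorem D10b_sqrt (j : ℕ) : Real.sqrt (1 / ((2 ^ j : ℕ) : ℝ)) ≤ (3 / 4 : ℝ) ^ j := by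
  apply Real.sqrt_le_iff.mpr
  refine ⟨by positivity, ?_⟩
  rw [← pow_mul, mul_comm j 2, pow_mul]
  push_cast
  rw [one_div, ← inv_pow]
  apply pow_le_pow_left₀ (by norm_num)
  norm_num

theorem D10b_tel (hd : 3 ≤ d) (v : Tor d L → ℝ) (x : Tor d L) (j : ℕ) (hj : 2 ^ j ≤ L + 1) :
    |v x - Blk (2 ^ j) v x| ≤ (d : ℝ) * Real.sqrt (En v) * (4 * (1 - (3 / 4 : ℝ) ^ j)) := by
  induction j with
  | zero => simp [ZRI.Blk_one]
  | succ j ih =>
    have h1 : 2 ^ j ≤ L + 1 := le_trans (Nat.pow_le_pow_right (by norm_num) (Nat.le_succ j)) hj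
    have h2 := ih h1
    have h3 := D10b_double hd (2 ^ j) (Nat.one_le_two_pow) h1 v x
    rw [show 2 * 2 ^ j = 2 ^ (j + 1) by ring] at h3
    have h4 := D10b_sqrt j
    have h5 := abs_sub_le (v x) (Blk (2 ^ j) v x) (Blk (2 ^ (j + 1)) v x)
    have hs : 0 ≤ (d : ℝ) * Real.sqrt (En v) := by positivity
    have h6 : (d : ℝ) * (Real.sqrt (En v) * Real.sqrt (1 / ((2 ^ j : ℕ) : ℝ))) ≤
        (d : ℝ) * Real.sqrt (En v) * (3 / 4 : ℝ) ^ j := by
      rw [← mul_assoc]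
      exact mul_le_mul_of_nonneg_left h4 hs
    have h7 : (d : ℝ) * Real.sqrt (En v) * (4 * (1 - (3 / 4 : ℝ) ^ (j + 1))) =
        (d : ℝ) * Real.sqrt (En v) * (4 * (1 - (3 / 4 : ℝ) ^ j)) +
        (d : ℝ) * Real.sqrt (En v) * (3 / 4 : ℝ) ^ j := by
      rw [pow_succ]
      ring
    rw [h7]
    linarith

/-- D10 -/
theorem trans (hd : 3 ≤ d) (k : ℕ) (hk : L + 1 = 2 ^ k) (v : Tor d L → ℝ) (x z : Tor d L) :
    (v z - v x) ^ 2 ≤ 64 * (d : ℝ) ^ 2 * En v := by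
  have hE := D10b_En_nonneg v
  have hs : 0 ≤ (d : ℝ) * Real.sqrt (En v) := by positivity
  have hb : ∀ y : Tor d L, |v y - Blk (2 ^ k) v y| ≤ (d : ℝ) * Real.sqrt (En v) * 4 := by
    intro y
    refine le_trans (D10b_tel hd v y k (le_of_eq hk.symm)) ?_
    apply mul_le_mul_of_nonneg_left _ hs
    have : (0 : ℝ) ≤ (3 / 4 : ℝ) ^ k := by positivity
    linarith
  have hx := hb x
  have hz := hb z
  have hf : Blk (2 ^ k) v x = Blk (2 ^ k) v z := by
    rw [← hk]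
    exact ZRI.Blk_full v x z
  rw [hf] at hx
  have h1 : |v z - v x| ≤ 8 * ((d : ℝ) * Real.sqrt (En v)) := by
    have h2 := abs_sub_le (v z) (Blk (2 ^ k) v z) (v x)
    rw [abs_sub_comm (Blk (2 ^ k) v z) (v x)] at h2
    linarith
  have h3 : (v z - v x) ^ 2 ≤ (8 * ((d : ℝ) * Real.sqrt (En v))) ^ 2 := by
    rw [← sq_abs (v z - v x)]
    exact pow_le_pow_left₀ (abs_nonneg _) h1 2
  refine le_trans h3 (le_of_eq ?_)
  rw [mul_pow, mul_pow, Real.sq_sqrt hE]
  ring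

end ZRI
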