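import Pool.Agent.ZRI.Defs
import Pool.Agent.ZRI.B1
import Pool.Agent.ZRI.C5
import Pool.Agent.ZRI.C6a
import Pool.Agent.ZRI.D10b

open scoped BigOperators ENNReal Topology
open MeasureTheory Filter

namespace ZRI

variable {d L : ℕ} {g : ℕ → ℝ} {Γm Γp : ℝ}

theorem D11_point (hg : IsRate g Γm Γp) (n : ℕ) (η : Cfg d L) (hη : ∑ z, η z = n + 1)
    (x : Tor d L) :
    Γm * n * (η x : ℝ) ≤ ∑ z, g (η z) * ((η - Pi.single z 1 : Cfg d L) x : ℝ) := by
  have h0 : ∀ z, 0 ≤ g (η z) * ((η - Pi.single z 1 : Cfg d L) x : ℝ) := fun z =>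
    mul_nonneg (ZRI.g_nonneg hg _) (Nat.cast_nonneg _)
  by_cases hx : η x = 0
  · rw [hx, Nat.cast_zero, mul_zero]
    exact Finset.sum_nonneg fun z _ => h0 z
  · have hx1 : 1 ≤ η x := Nat.one_le_iff_ne_zero.2 hx
    have hx1' : (1 : ℝ) ≤ (η x : ℝ) := by exact_mod_cast hx1
    rw [← Finset.add_sum_erase Finset.univ _ (Finset.mem_univ x)]
    have h1 : ((η - Pi.single x 1 : Cfg d L) x : ℝ) = (η x : ℝ) - 1 := by
      rw [Pi.sub_apply, Pi.single_eq_same]
      push_cast [hx1]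
      ring
    have h2 : ∑ z ∈ Finset.univ.erase x, Γm * (η z : ℝ) * (η x : ℝ) ≤
        ∑ z ∈ Finset.univ.erase x, g (η z) * ((η - Pi.single z 1 : Cfg d L) x : ℝ) := by
      refine Finset.sum_le_sum fun z hz => ?_
      have hzx : z ≠ x := Finset.ne_of_mem_erase hz
      have h3 : (η - Pi.single z 1 : Cfg d L) x = η x := by
        rw [Pi.sub_apply, Pi.single_eq_of_ne hzx.symm, Nat.sub_zero]
      rw [h3]
      exact mul_le_mul_of_nonneg_right (ZRI.g_lo hg _) (Nat.cast_nonneg _)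
    have h4 : ∑ z ∈ Finset.univ.erase x, (η z : ℝ) = (n : ℝ) + 1 - η x := by
      have h5 := Finset.add_sum_erase Finset.univ (fun z => (η z : ℝ)) (Finset.mem_univ x)
      have h6 : ∑ z, (η z : ℝ) = (n : ℝ) + 1 := by exact_mod_cast hη
      linarith
    have h7 : ∑ z ∈ Finset.univ.erase x, Γm * (η z : ℝ) * (η x : ℝ) =
        Γm * ((n : ℝ) + 1 - η x) * η x := by
      rw [← h4, Finset.mul_sum, Finset.sum_mul]
    rw [h7] at h2
    rw [h1]
    have h8 : Γm * (η x : ℝ) * ((η x : ℝ) - 1) ≤ g (η x) * ((η x : ℝ) - 1) :=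
      mul_le_mul_of_nonneg_right (ZRI.g_lo hg _) (by linarith)
    nlinarith [h2, h8]

theorem D11_mu_nonneg (hg : IsRate g Γm Γp) {φ : ℝ} (hφ : 0 < φ) (η : Cfg d L) :
    0 ≤ mu g φ η := (ZRI.mu_pos hg hφ η).le

/-- D11 -/
theorem N2_le (hd : 3 ≤ d) (hg : IsRate g Γm Γp) {φ : ℝ} (hφ : 0 < φ) (k : ℕ)
    (hk : L + 1 = 2 ^ k) (n : ℕ) (F : Cfg d L → Tor d L → ℝ) :
    Γm * n * N2 g φ (n + 1) F ≤ ((L : ℝ) + 1) ^ d *
      (2 * N0 g φ n F + 512 * (d : ℝ) ^ 3 * D1 g φ n F) := by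
  have hd0 : (0 : ℝ) < (d : ℝ) := by exact_mod_cast (by omega : 0 < d)
  -- step 1
  have h1 : Γm * n * N2 g φ (n + 1) F ≤ ∑ η ∈ sec d L (n + 1), ∑ x, ∑ z,
      mu g φ η * (g (η z) * (((η - Pi.single z 1 : Cfg d L) x : ℝ) * (F η x) ^ 2)) := by
    unfold N2
    rw [Finset.mul_sum]
    refine Finset.sum_le_sum fun η hη => ?_
    rw [Finset.mul_sum]
    refine Finset.sum_le_sum fun x _ => ?_
    have hsum : ∑ z, η z = n + 1 := by
      unfold sec at hη
      exact (Finset.mem_piAntidiag.1 hη).1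
    have h2 := D11_point hg n η hsum x
    have h3 : 0 ≤ mu g φ η * (F η x) ^ 2 := mul_nonneg (D11_mu_nonneg hg hφ η) (sq_nonneg _)
    calc Γm * n * (mu g φ η * η x * (F η x) ^ 2)
        = (mu g φ η * (F η x) ^ 2) * (Γm * n * η x) := by ring
      _ ≤ (mu g φ η * (F η x) ^ 2) *
          ∑ z, g (η z) * ((η - Pi.single z 1 : Cfg d L) x : ℝ) :=
          mul_le_mul_of_nonneg_left h2 h3
      _ = _ := by
          rw [Finset.mul_sum]
          refine Finset.sum_congr rfl fun z _ => ?_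
          ring
  -- step 2: Palm
  have h2 : ∑ η ∈ sec d L (n + 1), ∑ x, ∑ z,
      mu g φ η * (g (η z) * (((η - Pi.single z 1 : Cfg d L) x : ℝ) * (F η x) ^ 2)) =
      ∑ ξ ∈ sec d L n, ∑ x, φ * mu g φ ξ * ξ x * ∑ z, (F (ξ + Pi.single z 1) x) ^ 2 := by
    rw [Finset.sum_comm]
    have e1 : ∀ x : Tor d L, ∑ η ∈ sec d L (n + 1), ∑ z,
        mu g φ η * (g (η z) * (((η - Pi.single z 1 : Cfg d L) x : ℝ) * (F η x) ^ 2)) =
        ∑ z, φ * ∑ ξ ∈ sec d L n, mu g φ ξ * ((ξ x : ℝ) * (F (ξ + Pi.single z 1) x) ^ 2) := by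
      intro x
      rw [Finset.sum_comm]
      refine Finset.sum_congr rfl fun z _ => ?_
      refine (ZRI.palm hg φ n z
        (fun η => ((η - Pi.single z 1 : Cfg d L) x : ℝ) * (F η x) ^ 2)).trans ?_
      refine congrArg _ (Finset.sum_congr rfl fun ξ _ => ?_)
      rw [add_tsub_cancel_right]
    rw [Finset.sum_congr rfl fun x _ => e1 x]
    rw [Finset.sum_comm (s := sec d L n)]
    refine Finset.sum_congr rfl fun x _ => ?_
    simp only [Finset.mul_sum]
    rw [Finset.sum_comm]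
    refine Finset.sum_congr rfl fun ξ _ => Finset.sum_congr rfl fun z _ => ?_
    ring
  -- step 3: transport
  have h3 : ∑ ξ ∈ sec d L n, ∑ x, φ * mu g φ ξ * ξ x * ∑ z, (F (ξ + Pi.single z 1) x) ^ 2 ≤
      ∑ ξ ∈ sec d L n, ∑ x, φ * mu g φ ξ * ξ x * (((L : ℝ) + 1) ^ d *
        (2 * (F (ξ + Pi.single x 1) x) ^ 2 +
          512 * (d : ℝ) ^ 3 * (En (fun z => F (ξ + Pi.single z 1) x) / (4 * d)))) := by
    refine Finset.sum_le_sum fun ξ _ => Finset.sum_le_sum fun x _ => ?_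
    refine mul_le_mul_of_nonneg_left ?_ (mul_nonneg (mul_nonneg hφ.le (D11_mu_nonneg hg hφ ξ))
      (Nat.cast_nonneg _))
    have h4 : ∀ z : Tor d L, (F (ξ + Pi.single z 1) x) ^ 2 ≤
        2 * (F (ξ + Pi.single x 1) x) ^ 2 +
          512 * (d : ℝ) ^ 3 * (En (fun z => F (ξ + Pi.single z 1) x) / (4 * d)) := by
      intro z
      have h5 := ZRI.trans hd k hk (fun z => F (ξ + Pi.single z 1) x) x z
      have h6 : 512 * (d : ℝ) ^ 3 * (En (fun z => F (ξ + Pi.single z 1) x) / (4 * d)) =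
          128 * (d : ℝ) ^ 2 * En (fun z => F (ξ + Pi.single z 1) x) := by
        field_simp
        ring
      rw [h6]
      nlinarith [sq_nonneg (2 * F (ξ + Pi.single x 1) x - F (ξ + Pi.single z 1) x), h5]
    calc ∑ z, (F (ξ + Pi.single z 1) x) ^ 2 ≤ ∑ _z : Tor d L,
          (2 * (F (ξ + Pi.single x 1) x) ^ 2 +
          512 * (d : ℝ) ^ 3 * (En (fun z => F (ξ + Pi.single z 1) x) / (4 * d))) :=
          Finset.sum_le_sum fun z _ => h4 z
      _ = _ := by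
          rw [Finset.sum_const, Finset.card_univ, nsmul_eq_mul]
          congr 1
          rw [Fintype.card_fun, ZMod.card, Fintype.card_fin]
          push_cast
          rfl
  refine h1.trans (h2.le.trans (h3.trans (le_of_eq ?_)))
  unfold N0 D1
  rw [mul_add, ← mul_assoc, ← mul_assoc, Finset.mul_sum, Finset.mul_sum, ← Finset.sum_add_distrib]
  refine Finset.sum_congr rfl fun ξ _ => ?_
  rw [Finset.mul_sum, Finset.mul_sum, ← Finset.sum_add_distrib]
  refine Finset.sum_congr rfl fun x _ => ?_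
  ring

end ZRI
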