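import Pool.Agent.ZRI.Defs
import Pool.Agent.ZRI.B2
import Pool.Agent.ZRI.C5
import Pool.Agent.ZRI.C6a

open scoped BigOperators ENNReal Topology
open MeasureTheory Filter

namespace ZRI

variable {d L : ℕ} {g : ℕ → ℝ} {Γm Γp : ℝ}

theorem D5_dir (v : Tor d L → ℝ) (e : Dir d) :
    ∑ z, v z * (v (z + stp e) - v z) = -(∑ z, (v (z + stp e) - v z) ^ 2) / 2 := by
  have h1 : ∑ z, v (z + stp e) ^ 2 = ∑ z, v z ^ 2 :=
    Equiv.sum_comp (Equiv.addRight (stp e)) (fun z => v z ^ 2)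
  have h2 : ∑ z, (v (z + stp e) - v z) ^ 2 =
      ∑ z, v (z + stp e) ^ 2 - 2 * ∑ z, v z * v (z + stp e) + ∑ z, v z ^ 2 := by
    rw [Finset.mul_sum, ← Finset.sum_sub_distrib, ← Finset.sum_add_distrib]
    refine Finset.sum_congr rfl fun z _ => ?_
    ring
  have h3 : ∑ z, v z * (v (z + stp e) - v z) = ∑ z, v z * v (z + stp e) - ∑ z, v z ^ 2 := by
    rw [← Finset.sum_sub_distrib]
    refine Finset.sum_congr rfl fun z _ => ?_
    ring
  rw [h3, h2, h1]
  ring

/-- D5 -/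
theorem sum_grad (v : Tor d L → ℝ) :
    ∑ z, ∑ e : Dir d, v z * (v (z + stp e) - v z) = -(En v) / 2 := by
  calc ∑ z, ∑ e : Dir d, v z * (v (z + stp e) - v z)
      = ∑ e : Dir d, ∑ z, v z * (v (z + stp e) - v z) := Finset.sum_comm
    _ = ∑ e : Dir d, -(∑ z, (v (z + stp e) - v z) ^ 2) / 2 :=
        Finset.sum_congr rfl fun e _ => D5_dir v e
    _ = -(∑ e : Dir d, ∑ z, (v (z + stp e) - v z) ^ 2) / 2 := by
        rw [← Finset.sum_div, Finset.sum_neg_distrib]
    _ = -(En v) / 2 := by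
        rw [En, Finset.sum_comm]

theorem D5_sub (ξ : Cfg d L) (z : Tor d L) : ξ + Pi.single z 1 - Pi.single z 1 = ξ := by
  funext y
  simp

theorem D5_swap (g : ℕ → ℝ) (φ : ℝ) (hg : IsRate g Γm Γp) (n : ℕ) (z : Tor d L)
    (H : Cfg d L → ℝ) :
    ∑ η ∈ sec d L (n + 1), mu g φ η * (g (η z) * H η) =
      ∑ ξ ∈ sec d L n, φ * (mu g φ ξ * H (ξ + Pi.single z 1)) := by
  rw [ZRI.palm hg, Finset.mul_sum]

/-- D5 -/
theorem sum1_eq (hg : IsRate g Γm Γp) (φ : ℝ) (n : ℕ) (F : Cfg d L → Tor d L → ℝ) :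
    ∑ η ∈ sec d L (n + 1), ∑ x, mu g φ η * (F η x * ∑ z, ∑ e : Dir d, g (η z) / (2 * d) *
      ((η - Pi.single z 1 : Cfg d L) x : ℝ) * (F (mv η z (z + stp e)) x - F η x)) =
      - D1 g φ n F := by
  have key : ∀ x z : Tor d L, ∑ η ∈ sec d L (n + 1), mu g φ η * (g (η z) *
      (F η x * ∑ e : Dir d, 1 / (2 * d) * ((η - Pi.single z 1 : Cfg d L) x : ℝ) *
        (F (mv η z (z + stp e)) x - F η x))) =
      ∑ ξ ∈ sec d L n, φ * (mu g φ ξ * (F (ξ + Pi.single z 1) x * ∑ e : Dir d, 1 / (2 * d) *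
        (ξ x : ℝ) * (F (ξ + Pi.single (z + stp e) 1) x - F (ξ + Pi.single z 1) x))) := by
    intro x z
    rw [D5_swap g φ hg n z]
    refine Finset.sum_congr rfl fun ξ _ => ?_
    simp only [D5_sub, ZRI.mv_add_self]
  calc ∑ η ∈ sec d L (n + 1), ∑ x, mu g φ η * (F η x * ∑ z, ∑ e : Dir d, g (η z) / (2 * d) *
      ((η - Pi.single z 1 : Cfg d L) x : ℝ) * (F (mv η z (z + stp e)) x - F η x))
      = ∑ η ∈ sec d L (n + 1), ∑ x, ∑ z, mu g φ η * (g (η z) *
      (F η x * ∑ e : Dir d, 1 / (2 * d) * ((η - Pi.single z 1 : Cfg d L) x : ℝ) *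
        (F (mv η z (z + stp e)) x - F η x))) := by
        refine Finset.sum_congr rfl fun η _ => Finset.sum_congr rfl fun x _ => ?_
        rw [Finset.mul_sum, Finset.mul_sum]
        refine Finset.sum_congr rfl fun z _ => ?_
        simp only [Finset.mul_sum]
        refine Finset.sum_congr rfl fun e _ => ?_
        ring
    _ = ∑ x, ∑ z, ∑ η ∈ sec d L (n + 1), mu g φ η * (g (η z) *
      (F η x * ∑ e : Dir d, 1 / (2 * d) * ((η - Pi.single z 1 : Cfg d L) x : ℝ) *
        (F (mv η z (z + stp e)) x - F η x))) := by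
        rw [Finset.sum_comm]
        refine Finset.sum_congr rfl fun x _ => ?_
        rw [Finset.sum_comm]
    _ = ∑ x, ∑ z, ∑ ξ ∈ sec d L n, φ * (mu g φ ξ * (F (ξ + Pi.single z 1) x *
        ∑ e : Dir d, 1 / (2 * d) *
        (ξ x : ℝ) * (F (ξ + Pi.single (z + stp e) 1) x - F (ξ + Pi.single z 1) x))) :=
        Finset.sum_congr rfl fun x _ => Finset.sum_congr rfl fun z _ => key x z
    _ = ∑ ξ ∈ sec d L n, ∑ x, ∑ z, φ * (mu g φ ξ * (F (ξ + Pi.single z 1) x *
        ∑ e : Dir d, 1 / (2 * d) *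
        (ξ x : ℝ) * (F (ξ + Pi.single (z + stp e) 1) x - F (ξ + Pi.single z 1) x))) := by
        rw [Finset.sum_comm (s := sec d L n)]
        refine Finset.sum_congr rfl fun x _ => ?_
        rw [Finset.sum_comm]
    _ = - D1 g φ n F := by
        rw [D1, ← Finset.sum_neg_distrib]
        refine Finset.sum_congr rfl fun ξ _ => ?_
        rw [← Finset.sum_neg_distrib]
        refine Finset.sum_congr rfl fun x _ => ?_
        have h1 := sum_grad (fun z => F (ξ + Pi.single z 1) x)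
        have h2 : ∑ z, φ * (mu g φ ξ * (F (ξ + Pi.single z 1) x * ∑ e : Dir d, 1 / (2 * d) *
            (ξ x : ℝ) * (F (ξ + Pi.single (z + stp e) 1) x - F (ξ + Pi.single z 1) x))) =
            φ * mu g φ ξ * ξ x * (1 / (2 * d)) * ∑ z, ∑ e : Dir d, F (ξ + Pi.single z 1) x *
              (F (ξ + Pi.single (z + stp e) 1) x - F (ξ + Pi.single z 1) x) := by
          rw [Finset.mul_sum]
          refine Finset.sum_congr rfl fun z _ => ?_
          simp only [Finset.mul_sum]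
          refine Finset.sum_congr rfl fun e _ => ?_
          ring
        rw [h2, h1]
        ring

/-- D5 -/
theorem sum2_le (hg : IsRate g Γm Γp) {φ : ℝ} (hφ : 0 < φ) (n : ℕ) (F : Cfg d L → Tor d L → ℝ) :
    ∑ η ∈ sec d L (n + 1), ∑ x, mu g φ η * (F η x * ∑ e : Dir d, g (η x) / (2 * d) *
      (F (mv η x (x + stp e)) (x + stp e) - F η x)) ≤ 0 := by
  have key : ∀ x : Tor d L, ∑ η ∈ sec d L (n + 1), mu g φ η * (g (η x) *
      (F η x * ∑ e : Dir d, 1 / (2 * d) * (F (mv η x (x + stp e)) (x + stp e) - F η x))) =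
      ∑ ξ ∈ sec d L n, φ * (mu g φ ξ * (F (ξ + Pi.single x 1) x * ∑ e : Dir d, 1 / (2 * d) *
        (F (ξ + Pi.single (x + stp e) 1) (x + stp e) - F (ξ + Pi.single x 1) x))) := by
    intro x
    rw [D5_swap g φ hg n x]
    refine Finset.sum_congr rfl fun ξ _ => ?_
    simp only [ZRI.mv_add_self]
  have h0 : ∑ η ∈ sec d L (n + 1), ∑ x, mu g φ η * (F η x * ∑ e : Dir d, g (η x) / (2 * d) *
      (F (mv η x (x + stp e)) (x + stp e) - F η x)) =
      ∑ ξ ∈ sec d L n, φ * mu g φ ξ * (1 / (2 * d)) *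
        (-(En (fun x => F (ξ + Pi.single x 1) x)) / 2) := by
    calc ∑ η ∈ sec d L (n + 1), ∑ x, mu g φ η * (F η x * ∑ e : Dir d, g (η x) / (2 * d) *
        (F (mv η x (x + stp e)) (x + stp e) - F η x))
        = ∑ η ∈ sec d L (n + 1), ∑ x, mu g φ η * (g (η x) *
      (F η x * ∑ e : Dir d, 1 / (2 * d) * (F (mv η x (x + stp e)) (x + stp e) - F η x))) := by
          refine Finset.sum_congr rfl fun η _ => Finset.sum_congr rfl fun x _ => ?_
          simp only [Finset.mul_sum]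
          refine Finset.sum_congr rfl fun e _ => ?_
          ring
      _ = ∑ x, ∑ η ∈ sec d L (n + 1), mu g φ η * (g (η x) *
      (F η x * ∑ e : Dir d, 1 / (2 * d) * (F (mv η x (x + stp e)) (x + stp e) - F η x))) :=
          Finset.sum_comm
      _ = ∑ x, ∑ ξ ∈ sec d L n, φ * (mu g φ ξ * (F (ξ + Pi.single x 1) x *
        ∑ e : Dir d, 1 / (2 * d) *
        (F (ξ + Pi.single (x + stp e) 1) (x + stp e) - F (ξ + Pi.single x 1) x))) :=
          Finset.sum_congr rfl fun x _ => key x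
      _ = ∑ ξ ∈ sec d L n, ∑ x, φ * (mu g φ ξ * (F (ξ + Pi.single x 1) x *
        ∑ e : Dir d, 1 / (2 * d) *
        (F (ξ + Pi.single (x + stp e) 1) (x + stp e) - F (ξ + Pi.single x 1) x))) :=
          Finset.sum_comm
      _ = ∑ ξ ∈ sec d L n, φ * mu g φ ξ * (1 / (2 * d)) *
        (-(En (fun x => F (ξ + Pi.single x 1) x)) / 2) := by
          refine Finset.sum_congr rfl fun ξ _ => ?_
          have h1 := sum_grad (fun x => F (ξ + Pi.single x 1) x)
          have h2 : ∑ x, φ * (mu g φ ξ * (F (ξ + Pi.single x 1) x *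
              ∑ e : Dir d, 1 / (2 * d) *
              (F (ξ + Pi.single (x + stp e) 1) (x + stp e) - F (ξ + Pi.single x 1) x))) =
              φ * mu g φ ξ * (1 / (2 * d)) * ∑ x, ∑ e : Dir d, F (ξ + Pi.single x 1) x *
              (F (ξ + Pi.single (x + stp e) 1) (x + stp e) - F (ξ + Pi.single x 1) x) := by
            rw [Finset.mul_sum]
            refine Finset.sum_congr rfl fun x _ => ?_
            simp only [Finset.mul_sum]
            refine Finset.sum_congr rfl fun e _ => ?_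
            ring
          rw [h2, h1]
  rw [h0]
  refine Finset.sum_nonpos fun ξ _ => ?_
  have h1 : 0 < mu g φ ξ := ZRI.mu_pos hg hφ ξ
  have h2 : 0 ≤ En (fun x => F (ξ + Pi.single x 1) x) :=
    Finset.sum_nonneg fun z _ => Finset.sum_nonneg fun e _ => sq_nonneg _
  have h3 : 0 ≤ φ * mu g φ ξ * (1 / (2 * (d : ℝ))) := by positivity
  have h4 : -(En (fun x => F (ξ + Pi.single x 1) x)) / 2 ≤ 0 := by linarith
  exact mul_nonpos_of_nonneg_of_nonpos h3 h4

end ZRI
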