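import Pool.Agent.ZRI.Defs
import Pool.Agent.ZRI.B1

open scoped BigOperators ENNReal Topology
open MeasureTheory Filter

namespace ZRI

variable {d L : ℕ} {g : ℕ → ℝ} {Γm Γp : ℝ}

theorem D6_gw [NeZero d] (s : Cfg d L × Tor d L) (e : Dir d) : gw 0 s e = 1 := by
  unfold gw
  split_ifs <;> simp

theorem D6_agr [NeZero d] (lam : ℝ) (F : Cfg d L → Tor d L → ℝ) (η : Cfg d L) (x : Tor d L) :
    Agr g 0 lam (fun s => F s.1 s.2) (η, x) =
      (∑ z, ∑ e : Dir d, g (η z) / (2 * d) *
        ((if z = x then F (mv η z (z + stp e)) (gx (η, x) e) else F (mv η z (z + stp e)) x) -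
          F η x)) - lam * (if 2 ≤ η x then g (η x) else 0) * F η x := by
  unfold Agr
  simp only [D6_gw, one_mul]

theorem D6_pt (f a b α : ℝ) (hα : 0 < α) :
    f * (a - b) ≤ α * f ^ 2 + 1 / (2 * α) * (a ^ 2 + b ^ 2) := by
  have h : α * f ^ 2 + 1 / (2 * α) * (a ^ 2 + b ^ 2) - f * (a - b) =
      1 / (2 * α) * ((α * f - a) ^ 2 + (α * f + b) ^ 2) := by
    field_simp
    ring
  have h2 : 0 ≤ 1 / (2 * α) * ((α * f - a) ^ 2 + (α * f + b) ^ 2) := by positivity
  linarith

theorem D6_other [NeZero d] (F : Cfg d L → Tor d L → ℝ) (η : Cfg d L) (x z : Tor d L)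
    (hz : z ≠ x) :
    (η x : ℝ) * (F η x * ∑ e : Dir d, g (η z) / (2 * d) *
        ((if z = x then F (mv η z (z + stp e)) (gx (η, x) e) else F (mv η z (z + stp e)) x) -
          F η x)) =
      F η x * ∑ e : Dir d, g (η z) / (2 * d) *
        ((η - Pi.single z 1 : Cfg d L) x : ℝ) * (F (mv η z (z + stp e)) x - F η x) := by
  have h1 : (η - Pi.single z 1 : Cfg d L) x = η x := by
    rw [Pi.sub_apply, Pi.single_eq_of_ne (Ne.symm hz)]
    rfl
  rw [h1, Finset.mul_sum, Finset.mul_sum, Finset.mul_sum]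
  refine Finset.sum_congr rfl fun e _ => ?_
  rw [if_neg hz]
  ring

/-- D6: pointwise comparison of the greedy particle with the tagged particle -/
theorem greedy_tagged [NeZero d] (hg : IsRate g Γm Γp) (lam α : ℝ) (hlam : 0 ≤ lam) (hα : 0 < α)
    (F : Cfg d L → Tor d L → ℝ) (η : Cfg d L) (x : Tor d L) :
    (η x : ℝ) * (F η x * Agr g 0 lam (fun s => F s.1 s.2) (η, x)) ≤
      (F η x * ∑ z, ∑ e : Dir d, g (η z) / (2 * d) *
        ((η - Pi.single z 1 : Cfg d L) x : ℝ) * (F (mv η z (z + stp e)) x - F η x)) +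
      (F η x * ∑ e : Dir d, g (η x) / (2 * d) *
        (F (mv η x (x + stp e)) (x + stp e) - F η x)) +
      g (η x) * (((η - Pi.single x 1 : Cfg d L) x : ℝ) * ((α - lam) * (F η x) ^ 2 +
        1 / (2 * α) * ((∑ e : Dir d, (F (mv η x (x + stp e)) x) ^ 2) / (2 * d) +
          (∑ e : Dir d, (F (mv η x (x + stp e)) (x + stp e)) ^ 2) / (2 * d)))) := by
  have hd : (0 : ℝ) < d := by
    have := Nat.pos_of_ne_zero (NeZero.ne d)
    exact_mod_cast this
  have hgn : 0 ≤ g (η x) := ZRI.g_nonneg hg _
  rw [D6_agr]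
  -- the terms with `z ≠ x` agree
  have hsum : (∑ z, (η x : ℝ) * (F η x * ∑ e : Dir d, g (η z) / (2 * d) *
        ((if z = x then F (mv η z (z + stp e)) (gx (η, x) e) else F (mv η z (z + stp e)) x) -
          F η x))) -
      ∑ z, F η x * ∑ e : Dir d, g (η z) / (2 * d) *
        ((η - Pi.single z 1 : Cfg d L) x : ℝ) * (F (mv η z (z + stp e)) x - F η x) =
      (η x : ℝ) * (F η x * ∑ e : Dir d, g (η x) / (2 * d) *
        (F (mv η x (x + stp e)) (gx (η, x) e) - F η x)) -
      F η x * ∑ e : Dir d, g (η x) / (2 * d) *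
        ((η - Pi.single x 1 : Cfg d L) x : ℝ) * (F (mv η x (x + stp e)) x - F η x) := by
    rw [← Finset.sum_sub_distrib, Finset.sum_eq_single x]
    · simp only [if_true]
    · intro z _ hz
      rw [D6_other F η x z hz, sub_self]
    · intro h
      exact absurd (Finset.mem_univ x) h
  have hxx : ((η - Pi.single x 1 : Cfg d L) x : ℝ) = ((η x - 1 : ℕ) : ℝ) := by
    rw [Pi.sub_apply, Pi.single_eq_same]
  -- the main estimate at `z = x`
  have main : (η x : ℝ) * (F η x * ∑ e : Dir d, g (η x) / (2 * d) *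
        (F (mv η x (x + stp e)) (gx (η, x) e) - F η x)) -
      F η x * (∑ e : Dir d, g (η x) / (2 * d) *
        ((η - Pi.single x 1 : Cfg d L) x : ℝ) * (F (mv η x (x + stp e)) x - F η x)) -
      (F η x * ∑ e : Dir d, g (η x) / (2 * d) *
        (F (mv η x (x + stp e)) (x + stp e) - F η x)) -
      (η x : ℝ) * (F η x * (lam * (if 2 ≤ η x then g (η x) else 0) * F η x)) ≤
      g (η x) * (((η - Pi.single x 1 : Cfg d L) x : ℝ) * ((α - lam) * (F η x) ^ 2 +
        1 / (2 * α) * ((∑ e : Dir d, (F (mv η x (x + stp e)) x) ^ 2) / (2 * d) +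
          (∑ e : Dir d, (F (mv η x (x + stp e)) (x + stp e)) ^ 2) / (2 * d)))) := by
    rw [hxx]
    have hcomb : (η x : ℝ) * (F η x * ∑ e : Dir d, g (η x) / (2 * d) *
        (F (mv η x (x + stp e)) (gx (η, x) e) - F η x)) -
      F η x * (∑ e : Dir d, g (η x) / (2 * d) *
        ((η x - 1 : ℕ) : ℝ) * (F (mv η x (x + stp e)) x - F η x)) -
      (F η x * ∑ e : Dir d, g (η x) / (2 * d) *
        (F (mv η x (x + stp e)) (x + stp e) - F η x)) =
      ∑ e : Dir d, g (η x) / (2 * d) * (F η x *
        ((η x : ℝ) * (F (mv η x (x + stp e)) (gx (η, x) e) - F η x) -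
          ((η x - 1 : ℕ) : ℝ) * (F (mv η x (x + stp e)) x - F η x) -
          (F (mv η x (x + stp e)) (x + stp e) - F η x))) := by
      simp only [Finset.mul_sum]
      rw [← Finset.sum_sub_distrib, ← Finset.sum_sub_distrib]
      refine Finset.sum_congr rfl fun e _ => ?_
      ring
    rw [hcomb]
    rcases Nat.lt_or_ge (η x) 2 with h2 | h2
    · rw [if_neg (by omega)]
      rcases Nat.eq_zero_or_pos (η x) with h0 | h1
      · have hg0 : g (η x) = 0 := by rw [h0, hg.zero]
        rw [hg0, h0]
        simp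
      · have h1' : η x = 1 := by omega
        have hz : ∀ e : Dir d, g (η x) / (2 * d) * (F η x *
            ((η x : ℝ) * (F (mv η x (x + stp e)) (gx (η, x) e) - F η x) -
            ((η x - 1 : ℕ) : ℝ) * (F (mv η x (x + stp e)) x - F η x) -
            (F (mv η x (x + stp e)) (x + stp e) - F η x))) = 0 := by
          intro e
          have hgx : gx (η, x) e = x + stp e := by
            unfold gx
            rw [if_pos (Or.inr h1')]
          rw [hgx, h1']
          simp
        rw [Finset.sum_eq_zero fun e _ => hz e, h1']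
        simp
    · rw [if_pos h2]
      have hk1 : (1 : ℝ) ≤ ((η x - 1 : ℕ) : ℝ) := by
        have : 1 ≤ η x - 1 := by omega
        exact_mod_cast this
      have hk : (η x : ℝ) = ((η x - 1 : ℕ) : ℝ) + 1 := by
        have : η x = (η x - 1) + 1 := by omega
        exact_mod_cast this
      have hpt : ∀ e : Dir d, F η x *
            ((η x : ℝ) * (F (mv η x (x + stp e)) (gx (η, x) e) - F η x) -
            ((η x - 1 : ℕ) : ℝ) * (F (mv η x (x + stp e)) x - F η x) -
            (F (mv η x (x + stp e)) (x + stp e) - F η x)) ≤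
          ((η x - 1 : ℕ) : ℝ) * (α * F η x ^ 2 + 1 / (2 * α) *
            (F (mv η x (x + stp e)) x ^ 2 + F (mv η x (x + stp e)) (x + stp e) ^ 2)) := by
        intro e
        have hM : 0 ≤ α * F η x ^ 2 + 1 / (2 * α) *
            (F (mv η x (x + stp e)) x ^ 2 + F (mv η x (x + stp e)) (x + stp e) ^ 2) := by
          positivity
        by_cases he : e = (0, true)
        · have hgx : gx (η, x) e = x + stp e := by
            unfold gx
            rw [if_pos (Or.inl he)]
          have h3 := D6_pt (F η x) (F (mv η x (x + stp e)) (x + stp e))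
            (F (mv η x (x + stp e)) x) α hα
          have h4 := mul_le_mul_of_nonneg_left h3 (by linarith : (0 : ℝ) ≤ ((η x - 1 : ℕ) : ℝ))
          rw [hgx, hk]
          linarith
        · have hgx : gx (η, x) e = x := by
            unfold gx
            rw [if_neg]
            rintro (h | h)
            · exact he h
            · have : η x = 1 := h
              omega
          have h3 := D6_pt (F η x) (F (mv η x (x + stp e)) x)
            (F (mv η x (x + stp e)) (x + stp e)) α hα
          have h4 := mul_le_mul_of_nonneg_right hk1 hM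
          rw [hgx, hk]
          linarith
      have hc : 0 ≤ g (η x) / (2 * d) := div_nonneg hgn (by positivity)
      have h5 : ∑ e : Dir d, g (η x) / (2 * d) * (F η x *
            ((η x : ℝ) * (F (mv η x (x + stp e)) (gx (η, x) e) - F η x) -
            ((η x - 1 : ℕ) : ℝ) * (F (mv η x (x + stp e)) x - F η x) -
            (F (mv η x (x + stp e)) (x + stp e) - F η x))) ≤
          ∑ e : Dir d, g (η x) / (2 * d) * (((η x - 1 : ℕ) : ℝ) * (α * F η x ^ 2 + 1 / (2 * α) *
            (F (mv η x (x + stp e)) x ^ 2 + F (mv η x (x + stp e)) (x + stp e) ^ 2))) :=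
        Finset.sum_le_sum fun e _ => mul_le_mul_of_nonneg_left (hpt e) hc
      have h6 : ∑ e : Dir d, g (η x) / (2 * d) * (((η x - 1 : ℕ) : ℝ) * (α * F η x ^ 2 +
            1 / (2 * α) *
            (F (mv η x (x + stp e)) x ^ 2 + F (mv η x (x + stp e)) (x + stp e) ^ 2))) =
          g (η x) * (((η x - 1 : ℕ) : ℝ) * (α * F η x ^ 2 +
        1 / (2 * α) * ((∑ e : Dir d, (F (mv η x (x + stp e)) x) ^ 2) / (2 * d) +
          (∑ e : Dir d, (F (mv η x (x + stp e)) (x + stp e)) ^ 2) / (2 * d)))) := by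
        have h7 : ∀ e : Dir d, g (η x) / (2 * d) * (((η x - 1 : ℕ) : ℝ) * (α * F η x ^ 2 +
            1 / (2 * α) *
            (F (mv η x (x + stp e)) x ^ 2 + F (mv η x (x + stp e)) (x + stp e) ^ 2))) =
            g (η x) / (2 * d) * (((η x - 1 : ℕ) : ℝ) * (α * F η x ^ 2)) +
            (g (η x) / (2 * d) * ((η x - 1 : ℕ) : ℝ) * (1 / (2 * α))) *
              F (mv η x (x + stp e)) x ^ 2 +
            (g (η x) / (2 * d) * ((η x - 1 : ℕ) : ℝ) * (1 / (2 * α))) *
              F (mv η x (x + stp e)) (x + stp e) ^ 2 := by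
          intro e
          ring
        rw [Finset.sum_congr rfl fun e _ => h7 e, Finset.sum_add_distrib, Finset.sum_add_distrib,
          Finset.sum_const, ← Finset.mul_sum, ← Finset.mul_sum]
        have hcard : (Finset.univ : Finset (Dir d)).card = d * 2 := by
          rw [Finset.card_univ, Fintype.card_prod, Fintype.card_fin, Fintype.card_bool]
        rw [hcard, nsmul_eq_mul]
        push_cast
        generalize ∑ e : Dir d, F (mv η x (x + stp e)) x ^ 2 = A
        generalize ∑ e : Dir d, F (mv η x (x + stp e)) (x + stp e) ^ 2 = B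
        field_simp
        try ring
      have h8 : 0 ≤ lam * g (η x) * F η x ^ 2 := by positivity
      rw [h6] at h5
      rw [hk] at h5 ⊢
      nlinarith
  have e1 : (η x : ℝ) * (F η x * ((∑ z, ∑ e : Dir d, g (η z) / (2 * d) *
        ((if z = x then F (mv η z (z + stp e)) (gx (η, x) e) else F (mv η z (z + stp e)) x) -
          F η x)) - lam * (if 2 ≤ η x then g (η x) else 0) * F η x)) =
      (∑ z, (η x : ℝ) * (F η x * ∑ e : Dir d, g (η z) / (2 * d) *
        ((if z = x then F (mv η z (z + stp e)) (gx (η, x) e) else F (mv η z (z + stp e)) x) -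
          F η x))) -
      (η x : ℝ) * (F η x * (lam * (if 2 ≤ η x then g (η x) else 0) * F η x)) := by
    rw [← Finset.mul_sum, ← Finset.mul_sum]
    ring
  have e2 : (F η x * ∑ z, ∑ e : Dir d, g (η z) / (2 * d) *
        ((η - Pi.single z 1 : Cfg d L) x : ℝ) * (F (mv η z (z + stp e)) x - F η x)) =
      ∑ z, F η x * ∑ e : Dir d, g (η z) / (2 * d) *
        ((η - Pi.single z 1 : Cfg d L) x : ℝ) * (F (mv η z (z + stp e)) x - F η x) := by
    rw [Finset.mul_sum]
  rw [e1, e2]
  linarith

end ZRI
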