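import Pool.Agent.ZRI.Defs
import Pool.Agent.ZRI.B2
import Pool.Agent.ZRI.C5
import Pool.Agent.ZRI.C6a
import Pool.Agent.ZRI.D5
import Pool.Agent.ZRI.D6

open scoped BigOperators ENNReal Topology
open MeasureTheory Filter

namespace ZRI

variable {d L : ℕ} {g : ℕ → ℝ} {Γm Γp : ℝ}

theorem D7_add_sub (ξ : Cfg d L) (x : Tor d L) :
    (ξ + Pi.single x 1 - Pi.single x 1 : Cfg d L) = ξ := by
  funext z
  simp

theorem D7_third (hg : IsRate g Γm Γp) {φ : ℝ} (n : ℕ) (lam α : ℝ)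
    (F : Cfg d L → Tor d L → ℝ) :
    ∑ η ∈ sec d L (n + 1), ∑ x, mu g φ η *
      (g (η x) * (((η - Pi.single x 1 : Cfg d L) x : ℝ) * ((α - lam) * (F η x) ^ 2 +
        1 / (2 * α) * ((∑ e : Dir d, (F (mv η x (x + stp e)) x) ^ 2) / (2 * d) +
          (∑ e : Dir d, (F (mv η x (x + stp e)) (x + stp e)) ^ 2) / (2 * d))))) =
      (α - lam) * N0 g φ n F + 1 / (2 * α) * (Ta g φ n F + Tb g φ n F) := by
  rw [Finset.sum_comm]
  have h1 : ∀ x : Tor d L, ∑ η ∈ sec d L (n + 1), mu g φ η *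
      (g (η x) * (((η - Pi.single x 1 : Cfg d L) x : ℝ) * ((α - lam) * (F η x) ^ 2 +
        1 / (2 * α) * ((∑ e : Dir d, (F (mv η x (x + stp e)) x) ^ 2) / (2 * d) +
          (∑ e : Dir d, (F (mv η x (x + stp e)) (x + stp e)) ^ 2) / (2 * d))))) =
      ∑ ξ ∈ sec d L n, ((α - lam) * (φ * mu g φ ξ * ξ x * (F (ξ + Pi.single x 1) x) ^ 2) +
        1 / (2 * α) * (φ * mu g φ ξ * ξ x *
          ((∑ e : Dir d, (F (ξ + Pi.single (x + stp e) 1) x) ^ 2) / (2 * d)) +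
          φ * mu g φ ξ * ξ x *
          ((∑ e : Dir d, (F (ξ + Pi.single (x + stp e) 1) (x + stp e)) ^ 2) / (2 * d)))) := by
    intro x
    refine (ZRI.palm hg φ n x (fun η => ((η - Pi.single x 1 : Cfg d L) x : ℝ) *
      ((α - lam) * (F η x) ^ 2 +
        1 / (2 * α) * ((∑ e : Dir d, (F (mv η x (x + stp e)) x) ^ 2) / (2 * d) +
          (∑ e : Dir d, (F (mv η x (x + stp e)) (x + stp e)) ^ 2) / (2 * d))))).trans ?_
    rw [Finset.mul_sum]
    refine Finset.sum_congr rfl fun ξ _ => ?_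
    simp only [D7_add_sub, ZRI.mv_add_self]
    ring
  rw [Finset.sum_congr rfl fun x _ => h1 x, Finset.sum_comm]
  simp only [N0, Ta, Tb, Finset.mul_sum, ← Finset.sum_add_distrib]

theorem energy_one [NeZero d] (hg : IsRate g Γm Γp) {φ : ℝ} (hφ : 0 < φ) (n : ℕ) (lam α : ℝ)
    (hlam : 0 ≤ lam) (hα : 0 < α) (F : Cfg d L → Tor d L → ℝ) :
    ∑ η ∈ sec d L (n + 1), ∑ x, mu g φ η *
      ((η x : ℝ) * (F η x * Agr g 0 lam (fun s => F s.1 s.2) (η, x))) ≤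
      - D1 g φ n F + (α - lam) * N0 g φ n F + 1 / (2 * α) * (Ta g φ n F + Tb g φ n F) := by
  have h2 := ZRI.sum2_le hg hφ n F
  have h1 := ZRI.sum1_eq hg φ n F
  have h3 := D7_third hg (φ := φ) n lam α F
  refine (Finset.sum_le_sum fun η _ => Finset.sum_le_sum fun x _ =>
    mul_le_mul_of_nonneg_left (ZRI.greedy_tagged hg lam α hlam hα F η x)
      (ZRI.mu_pos hg hφ η).le).trans ?_
  simp only [mul_add, Finset.sum_add_distrib] at h1 h2 h3 ⊢
  linarith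

end ZRI
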