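import Pool.Agent.ZRI.Defs
import Pool.Agent.ZRI.C6a

open scoped BigOperators ENNReal Topology
open MeasureTheory Filter

namespace ZRI

variable {d L : ℕ} {g : ℕ → ℝ} {Γm Γp : ℝ}

theorem D8a_pt [NeZero d] (v : Tor d L → ℝ) (x : Tor d L) :
    (∑ e : Dir d, (v (x + stp e)) ^ 2) / (2 * d) ≤ 2 * (v x) ^ 2 + 4 * (En v / (4 * d)) := by
  have hd : (0 : ℝ) < d := by
    have := Nat.pos_of_ne_zero (NeZero.ne d)
    exact_mod_cast this
  have h1 : ∑ e : Dir d, (v (x + stp e)) ^ 2 ≤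
      ∑ e : Dir d, (2 * (v x) ^ 2 + 2 * (v (x + stp e) - v x) ^ 2) := by
    apply Finset.sum_le_sum
    intro e _
    nlinarith [sq_nonneg (v (x + stp e) - 2 * v x)]
  have h2 : ∑ e : Dir d, (2 * (v x) ^ 2 + 2 * (v (x + stp e) - v x) ^ 2) =
      4 * d * (v x) ^ 2 + 2 * ∑ e : Dir d, (v (x + stp e) - v x) ^ 2 := by
    rw [Finset.sum_add_distrib, ← Finset.mul_sum, ← Finset.mul_sum]
    simp only [Finset.sum_const, Finset.card_univ, Fintype.card_prod, Fintype.card_fin,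
      Fintype.card_bool, nsmul_eq_mul]
    push_cast
    generalize ∑ e : Dir d, (v (x + stp e) - v x) ^ 2 = E
    ring
  have h3 : ∑ e : Dir d, (v (x + stp e) - v x) ^ 2 ≤ En v := by
    unfold En
    exact Finset.single_le_sum (f := fun z => ∑ e : Dir d, (v (z + stp e) - v z) ^ 2)
      (fun z _ => Finset.sum_nonneg (fun e _ => sq_nonneg _)) (Finset.mem_univ x)
  rw [div_le_iff₀ (by positivity)]
  have h4 : (2 * (v x) ^ 2 + 4 * (En v / (4 * d))) * (2 * d) = 4 * d * (v x) ^ 2 + 2 * En v := by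
    field_simp
    ring
  rw [h4]
  linarith

/-- D8 -/
theorem Ta_le [NeZero d] (hg : IsRate g Γm Γp) {φ : ℝ} (hφ : 0 < φ) (n : ℕ)
    (F : Cfg d L → Tor d L → ℝ) :
    Ta g φ n F ≤ 2 * N0 g φ n F + 4 * D1 g φ n F := by
  unfold Ta N0 D1
  rw [Finset.mul_sum, Finset.mul_sum, ← Finset.sum_add_distrib]
  apply Finset.sum_le_sum
  intro ξ _
  rw [Finset.mul_sum, Finset.mul_sum, ← Finset.sum_add_distrib]
  apply Finset.sum_le_sum
  intro x _
  have h0 : 0 ≤ φ * mu g φ ξ * ξ x := by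
    have := (ZRI.mu_pos hg hφ ξ).le
    positivity
  have h1 := D8a_pt (fun z => F (ξ + Pi.single z 1) x) x
  have h2 := mul_le_mul_of_nonneg_left h1 h0
  calc _ ≤ _ := h2
    _ = _ := by ring

end ZRI
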