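import Pool.Agent.ZRI.Defs
import Pool.Agent.ZRI.B1
import Pool.Agent.ZRI.B2
import Pool.Agent.ZRI.C5
import Pool.Agent.ZRI.C6a

open scoped BigOperators ENNReal Topology
open MeasureTheory Filter

namespace ZRI

variable {d L : ℕ} {g : ℕ → ℝ} {Γm Γp : ℝ}

/-- the opposite direction -/
def D8b_neg : Dir d ≃ Dir d := Equiv.prodCongr (Equiv.refl (Fin d)) Equiv.boolNot

theorem D8b_stp (e : Dir d) : (stp (D8b_neg e) : Tor d L) = - stp e := by
  unfold stp D8b_neg
  rcases e with ⟨i, b⟩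
  cases b <;> simp [← Pi.single_neg]

theorem D8b_palm (hg : IsRate g Γm Γp) (hL : 1 ≤ L) (φ : ℝ) (n : ℕ) (x : Tor d L) (e : Dir d)
    (G : Cfg d L → ℝ) :
    ∑ ξ ∈ sec d L n, φ * mu g φ ξ * ξ x * G (ξ + Pi.single (x + stp e) 1) =
      ∑ η ∈ sec d L (n + 1), mu g φ η * (g (η (x + stp e)) * ((η x : ℝ) * G η)) := by
  rw [ZRI.palm hg φ n (x + stp e) (fun η => (η x : ℝ) * G η), Finset.mul_sum]
  apply Finset.sum_congr rfl
  intro ξ _
  have h : ((ξ + Pi.single (x + stp e) 1 : Cfg d L) x) = ξ x := by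
    rw [Pi.add_apply, Pi.single_eq_of_ne (ZRI.stp_ne hL x e).symm, add_zero]
  simp only [h]
  ring

/-- D8 -/
theorem Tb_le [NeZero d] (hL : 1 ≤ L) (hg : IsRate g Γm Γp) {φ : ℝ} (hφ : 0 < φ) (n : ℕ)
    (F : Cfg d L → Tor d L → ℝ) : Tb g φ n F ≤ Γp / Γm * Ta g φ n F := by
  have hd : (0 : ℝ) < d := by
    have := Nat.pos_of_ne_zero (NeZero.ne d)
    exact_mod_cast this
  have e1 : Tb g φ n F = (∑ x : Tor d L, ∑ e : Dir d, ∑ η ∈ sec d L (n + 1),
      mu g φ η * (g (η (x + stp e)) * ((η x : ℝ) * (F η (x + stp e)) ^ 2))) / (2 * d) := by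
    unfold Tb
    rw [Finset.sum_comm, Finset.sum_div]
    apply Finset.sum_congr rfl
    intro x _
    calc ∑ ξ ∈ sec d L n, φ * mu g φ ξ * ξ x *
          ((∑ e : Dir d, (F (ξ + Pi.single (x + stp e) 1) (x + stp e)) ^ 2) / (2 * d))
        = ∑ ξ ∈ sec d L n, ∑ e : Dir d, (φ * mu g φ ξ * ξ x *
          (F (ξ + Pi.single (x + stp e) 1) (x + stp e)) ^ 2) / (2 * d) := by
          apply Finset.sum_congr rfl
          intro ξ _
          rw [← Finset.sum_div, ← Finset.mul_sum]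
          ring
      _ = _ := by
          rw [Finset.sum_comm, Finset.sum_div]
          apply Finset.sum_congr rfl
          intro e _
          rw [← Finset.sum_div]
          congr 1
          exact D8b_palm hg hL φ n x e (fun η => (F η (x + stp e)) ^ 2)
  have e2 : Ta g φ n F = (∑ x : Tor d L, ∑ e : Dir d, ∑ η ∈ sec d L (n + 1),
      mu g φ η * (g (η (x + stp e)) * ((η x : ℝ) * (F η x) ^ 2))) / (2 * d) := by
    unfold Ta
    rw [Finset.sum_comm, Finset.sum_div]
    apply Finset.sum_congr rfl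
    intro x _
    calc ∑ ξ ∈ sec d L n, φ * mu g φ ξ * ξ x *
          ((∑ e : Dir d, (F (ξ + Pi.single (x + stp e) 1) x) ^ 2) / (2 * d))
        = ∑ ξ ∈ sec d L n, ∑ e : Dir d, (φ * mu g φ ξ * ξ x *
          (F (ξ + Pi.single (x + stp e) 1) x) ^ 2) / (2 * d) := by
          apply Finset.sum_congr rfl
          intro ξ _
          rw [← Finset.sum_div, ← Finset.mul_sum]
          ring
      _ = _ := by
          rw [Finset.sum_comm, Finset.sum_div]
          apply Finset.sum_congr rfl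
          intro e _
          rw [← Finset.sum_div]
          congr 1
          exact D8b_palm hg hL φ n x e (fun η => (F η x) ^ 2)
  have e3 : (∑ x : Tor d L, ∑ e : Dir d, ∑ η ∈ sec d L (n + 1),
      mu g φ η * (g (η (x + stp e)) * ((η x : ℝ) * (F η (x + stp e)) ^ 2))) =
      ∑ x : Tor d L, ∑ e : Dir d, ∑ η ∈ sec d L (n + 1),
      mu g φ η * (g (η x) * ((η (x + stp e) : ℝ) * (F η x) ^ 2)) := by
    rw [Finset.sum_comm]
    conv_rhs => rw [Finset.sum_comm]
    symm
    apply Fintype.sum_equiv D8b_neg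
    intro e
    apply Fintype.sum_equiv (Equiv.addRight (stp e : Tor d L))
    intro x
    simp only [Equiv.coe_addRight]
    rw [D8b_stp, add_neg_cancel_right]
  rw [e1, e2, e3, ← mul_div_assoc]
  apply div_le_div_of_nonneg_right _ (by positivity)
  rw [Finset.mul_sum]
  apply Finset.sum_le_sum
  intro x _
  rw [Finset.mul_sum]
  apply Finset.sum_le_sum
  intro e _
  rw [Finset.mul_sum]
  apply Finset.sum_le_sum
  intro η _
  have hm := (ZRI.mu_pos hg hφ η).le
  have hp : 0 < Γm := hg.pos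
  have hp1 : 0 ≤ Γp := by linarith [hg.one_le]
  have h1 := ZRI.g_hi hg (η x)
  have h2 := ZRI.g_lo hg (η (x + stp e))
  have h3 : g (η x) * (η (x + stp e) : ℝ) ≤ Γp / Γm * (g (η (x + stp e)) * (η x : ℝ)) := by
    calc g (η x) * (η (x + stp e) : ℝ) ≤ (Γp * η x) * (η (x + stp e) : ℝ) :=
          mul_le_mul_of_nonneg_right h1 (Nat.cast_nonneg _)
      _ = Γp / Γm * ((Γm * η (x + stp e)) * (η x : ℝ)) := by
          field_simp
      _ ≤ Γp / Γm * (g (η (x + stp e)) * (η x : ℝ)) := by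
          apply mul_le_mul_of_nonneg_left _ (by positivity)
          exact mul_le_mul_of_nonneg_right h2 (Nat.cast_nonneg _)
  calc mu g φ η * (g (η x) * ((η (x + stp e) : ℝ) * (F η x) ^ 2))
      = (mu g φ η * (F η x) ^ 2) * (g (η x) * (η (x + stp e) : ℝ)) := by ring
    _ ≤ (mu g φ η * (F η x) ^ 2) * (Γp / Γm * (g (η (x + stp e)) * (η x : ℝ))) :=
        mul_le_mul_of_nonneg_left h3 (by positivity)
    _ = _ := by ring

end ZRI
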