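import Pool.Agent.ZRI.Defs
import Pool.Agent.ZRI.C6a
import Pool.Agent.ZRI.D7
import Pool.Agent.ZRI.D8a
import Pool.Agent.ZRI.D8b
import Pool.Agent.ZRI.D11

open scoped BigOperators ENNReal Topology
open MeasureTheory Filter

namespace ZRI

variable {d L : ℕ} {g : ℕ → ℝ} {Γm Γp : ℝ}

theorem D12_N2_nonneg (hg : IsRate g Γm Γp) {φ : ℝ} (hφ : 0 < φ) (n : ℕ)
    (F : Cfg d L → Tor d L → ℝ) : 0 ≤ N2 g φ n F := by
  unfold N2
  refine Finset.sum_nonneg fun η _ => Finset.sum_nonneg fun x _ => ?_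
  exact mul_nonneg (mul_nonneg (ZRI.mu_pos hg hφ η).le (Nat.cast_nonneg _)) (sq_nonneg _)

theorem D12_N0_nonneg (hg : IsRate g Γm Γp) {φ : ℝ} (hφ : 0 < φ) (n : ℕ)
    (F : Cfg d L → Tor d L → ℝ) : 0 ≤ N0 g φ n F := by
  unfold N0
  refine Finset.sum_nonneg fun η _ => Finset.sum_nonneg fun x _ => ?_
  exact mul_nonneg (mul_nonneg (mul_nonneg hφ.le (ZRI.mu_pos hg hφ η).le) (Nat.cast_nonneg _))
    (sq_nonneg _)

theorem D12_D1_nonneg (hg : IsRate g Γm Γp) {φ : ℝ} (hφ : 0 < φ) (n : ℕ)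
    (F : Cfg d L → Tor d L → ℝ) : 0 ≤ D1 g φ n F := by
  unfold D1
  refine Finset.sum_nonneg fun η _ => Finset.sum_nonneg fun x _ => ?_
  refine mul_nonneg (mul_nonneg (mul_nonneg hφ.le (ZRI.mu_pos hg hφ η).le) (Nat.cast_nonneg _))
    (div_nonneg ?_ (by positivity))
  unfold En
  exact Finset.sum_nonneg fun z _ => Finset.sum_nonneg fun e _ => sq_nonneg _

/-- D12 -/
theorem energy [NeZero d] (hd : 3 ≤ d) (hg : IsRate g Γm Γp) {φ : ℝ} (hφ : 0 < φ) (k : ℕ)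
    (hk : L + 1 = 2 ^ k) (hk1 : 1 ≤ k) (n : ℕ) (c : ℝ) (hc0 : 0 ≤ c)
    (hc : c * ((L : ℝ) + 1) ^ d * (4 + 1024 * (d : ℝ) ^ 3) ≤ Γm * n)
    (F : Cfg d L → Tor d L → ℝ) :
    ∑ η ∈ sec d L (n + 1), ∑ x, mu g φ η *
      ((η x : ℝ) * (F η x * Agr g 0 (lamv Γm Γp) (fun s => F s.1 s.2) (η, x))) ≤
      - c * N2 g φ (n + 1) F := by
  have hΓm := hg.pos
  have hΓp : 0 < Γp := lt_of_lt_of_le one_pos hg.one_le
  have hr : 0 < 1 + Γp / Γm := by positivity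
  have hL : 1 ≤ L := by
    have h2 : 2 ^ 1 ≤ 2 ^ k := Nat.pow_le_pow_right (by norm_num) hk1
    omega
  have hα : 0 < 4 * (1 + Γp / Γm) := by positivity
  have hlam : 0 ≤ lamv Γm Γp := by
    unfold lamv
    positivity
  have h1 := ZRI.energy_one hg hφ n (lamv Γm Γp) (4 * (1 + Γp / Γm)) hlam hα F
  have hTa := ZRI.Ta_le hg hφ n F
  have hTb := ZRI.Tb_le hL hg hφ n F
  have hN2 := ZRI.N2_le hd hg hφ k hk n F
  have hN2' := D12_N2_nonneg hg hφ (n + 1) F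
  have hN0' := D12_N0_nonneg hg hφ n F
  have hD1' := D12_D1_nonneg hg hφ n F
  have e1 : 4 * (1 + Γp / Γm) - lamv Γm Γp = -1 := by
    unfold lamv
    ring
  rw [e1] at h1
  have h2 : 1 / (2 * (4 * (1 + Γp / Γm))) * (Ta g φ n F + Tb g φ n F) ≤ Ta g φ n F / 8 := by
    have h3 : Ta g φ n F + Tb g φ n F ≤ (1 + Γp / Γm) * Ta g φ n F := by
      rw [add_mul, one_mul]
      linarith
    calc 1 / (2 * (4 * (1 + Γp / Γm))) * (Ta g φ n F + Tb g φ n F)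
        ≤ 1 / (2 * (4 * (1 + Γp / Γm))) * ((1 + Γp / Γm) * Ta g φ n F) :=
          mul_le_mul_of_nonneg_left h3 (by positivity)
      _ = Ta g φ n F / 8 := by
          field_simp
          ring
  have hS : 0 < ((L : ℝ) + 1) ^ d := by positivity
  have hQ : 0 < 4 + 1024 * (d : ℝ) ^ 3 := by positivity
  have h4 : c * (4 + 1024 * (d : ℝ) ^ 3) * N2 g φ (n + 1) F ≤
      2 * N0 g φ n F + 512 * (d : ℝ) ^ 3 * D1 g φ n F := by
    have h5 : (c * ((L : ℝ) + 1) ^ d * (4 + 1024 * (d : ℝ) ^ 3)) * N2 g φ (n + 1) F ≤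
        ((L : ℝ) + 1) ^ d * (2 * N0 g φ n F + 512 * (d : ℝ) ^ 3 * D1 g φ n F) :=
      (mul_le_mul_of_nonneg_right hc hN2').trans hN2
    have h6 : ((L : ℝ) + 1) ^ d * (c * (4 + 1024 * (d : ℝ) ^ 3) * N2 g φ (n + 1) F) ≤
        ((L : ℝ) + 1) ^ d * (2 * N0 g φ n F + 512 * (d : ℝ) ^ 3 * D1 g φ n F) := by
      linarith
    exact le_of_mul_le_mul_left h6 hS
  have h7 : c * N2 g φ (n + 1) F ≤ D1 g φ n F / 2 + 3 / 4 * N0 g φ n F := by
    have h8 : (4 + 1024 * (d : ℝ) ^ 3) * (c * N2 g φ (n + 1) F) ≤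
        (4 + 1024 * (d : ℝ) ^ 3) * (D1 g φ n F / 2 + 3 / 4 * N0 g φ n F) := by
      have h9 : 0 ≤ (d : ℝ) ^ 3 * N0 g φ n F := mul_nonneg (by positivity) hN0'
      nlinarith [h4, h9, hN0', hD1']
    exact le_of_mul_le_mul_left h8 hQ
  linarith

end ZRI
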