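import Pool.Agent.ZRI.Defs
import Pool.Agent.ZRI.A1
import Pool.Agent.ZRI.A3
import Pool.Agent.ZRI.D1

open scoped BigOperators ENNReal Topology
open MeasureTheory Filter

namespace ZRI

variable {d L : ℕ} {g : ℕ → ℝ} {Γm Γp : ℝ}

theorem D2_bound [NeZero d] (hg : IsRate g Γm Γp) (θ lam : ℝ) (hθ : 0 ≤ θ) (hlam : 0 ≤ lam)
    (n : ℕ) (s : Cfg d L × Tor d L) (hs : ∑ z, s.1 z = n) :
    ∑ j, |rA g j s * wA θ j s| + |-∑ j, rA g j s - VA g lam s| ≤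
      (Real.exp θ * (Γp * (n : ℝ))) + (Γp * (n : ℝ) + lam * Γp * (n : ℝ)) := by
  obtain ⟨h0, hw, hV, h1, h2⟩ := ZRI.rA_bound hg θ lam hθ hlam s
  rw [hs] at h1 h2
  have hr : 0 ≤ ∑ j, rA g j s := Finset.sum_nonneg fun j _ => h0 j
  refine add_le_add ?_ ?_
  · calc ∑ j, |rA g j s * wA θ j s| ≤ ∑ j, Real.exp θ * rA g j s := by
          refine Finset.sum_le_sum fun j _ => ?_
          rw [abs_of_nonneg (mul_nonneg (h0 j) (hw j).1.le), mul_comm]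
          exact mul_le_mul_of_nonneg_right (hw j).2 (h0 j)
      _ = Real.exp θ * ∑ j, rA g j s := by rw [Finset.mul_sum]
      _ ≤ _ := mul_le_mul_of_nonneg_left h1 (Real.exp_pos _).le
  · have : -∑ j, rA g j s - VA g lam s = -(∑ j, rA g j s + VA g lam s) := by ring
    rw [this, abs_neg, abs_of_nonneg (add_nonneg hr hV)]
    exact add_le_add h1 h2

/-- D2 -/
theorem Phi_deriv [NeZero d] (hg : IsRate g Γm Γp) (θ lam : ℝ) (hθ : 0 ≤ θ) (hlam : 0 ≤ lam)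
    (t : ℝ) (s : Cfg d L × Tor d L) :
    HasDerivAt (fun u => Phi g θ lam u s) (Agr g θ lam (Phi g θ lam t) s) t := by
  have h := ZRI.sg_deriv (fun j s => rA g j s * wA θ j s) (tA (d := d) (L := L))
    (fun s => -∑ j, rA g j s - VA g lam s) (fun s' => ∑ z, s'.1 z = ∑ z, s.1 z)
    _ 1 (fun s' hs' j hj => (ZRI.tA_inv hg _ s' hs' j (left_ne_zero_of_mul hj)).1)
    (fun s' hs' => D2_bound hg θ lam hθ hlam _ s' hs') (fun _ => 1) (by simp) t s rfl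
  rw [← ZRI.Agr_op θ lam] at h
  exact h

/-- D2 -/
theorem Phi_nonneg [NeZero d] (hg : IsRate g Γm Γp) (θ lam : ℝ) (hθ : 0 ≤ θ) (hlam : 0 ≤ lam)
    (t : ℝ) (ht : 0 ≤ t) (s : Cfg d L × Tor d L) : 0 ≤ Phi g θ lam t s := by
  have h := ZRI.sg_nonneg (fun j s => rA g j s * wA θ j s) (tA (d := d) (L := L))
    (fun s => -∑ j, rA g j s - VA g lam s) (fun s' => ∑ z, s'.1 z = ∑ z, s.1 z)
    _ 1 (fun s' _ j => mul_nonneg ((ZRI.rA_bound hg θ lam hθ hlam s').1 j)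
      ((ZRI.rA_bound hg θ lam hθ hlam s').2.1 j).1.le)
    (fun s' hs' j hj => (ZRI.tA_inv hg _ s' hs' j (left_ne_zero_of_mul hj)).1)
    (fun s' hs' => D2_bound hg θ lam hθ hlam _ s' hs') (fun _ => 1) (by simp) (by simp) t ht s rfl
  rw [← ZRI.Agr_op θ lam] at h
  exact h

/-- D2 -/
theorem Phi_le_one [NeZero d] (hg : IsRate g Γm Γp) (lam : ℝ) (hlam : 0 ≤ lam)
    (t : ℝ) (ht : 0 ≤ t) (s : Cfg d L × Tor d L) : Phi g 0 lam t s ≤ 1 := by
  have h := ZRI.sg_le_one (fun j s => rA g j s * wA 0 j s) (tA (d := d) (L := L))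
    (fun s => -∑ j, rA g j s - VA g lam s) (fun s' => ∑ z, s'.1 z = ∑ z, s.1 z)
    _ (fun s' _ j => mul_nonneg ((ZRI.rA_bound hg 0 lam le_rfl hlam s').1 j)
      ((ZRI.rA_bound hg 0 lam le_rfl hlam s').2.1 j).1.le)
    (fun s' hs' j hj => (ZRI.tA_inv hg _ s' hs' j (left_ne_zero_of_mul hj)).1)
    (fun s' hs' => D2_bound hg 0 lam le_rfl hlam _ s' hs') (fun s' _ => by
      have hV := (ZRI.rA_bound hg 0 lam le_rfl hlam s').2.2.1
      simp only [ZRI.wA_zero, mul_one]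
      linarith) (fun _ => 1) (by simp) (by simp) t ht s rfl
  rw [← ZRI.Agr_op 0 lam] at h
  exact h

/-- D2 -/
theorem Phi_zero [NeZero d] (θ lam : ℝ) (s : Cfg d L × Tor d L) : Phi g θ lam 0 s = 1 :=
  ZRI.sg_zero _ _ _

end ZRI
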