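import Pool.Agent.ZRI.Defs
import Pool.Agent.ZRI.D2
import Pool.Agent.ZRI.D12

open scoped BigOperators ENNReal Topology
open MeasureTheory Filter

namespace ZRI

variable {d L : ℕ} {g : ℕ → ℝ} {Γm Γp : ℝ}

/-- D13 -/
theorem energy_decay [NeZero d] (hd : 3 ≤ d) (hg : IsRate g Γm Γp) {φ : ℝ} (hφ : 0 < φ) (k : ℕ)
    (hk : L + 1 = 2 ^ k) (hk1 : 1 ≤ k) (n : ℕ) (c : ℝ) (hc0 : 0 ≤ c)
    (hc : c * ((L : ℝ) + 1) ^ d * (4 + 1024 * (d : ℝ) ^ 3) ≤ Γm * n) (t : ℝ) (ht : 0 ≤ t) :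
    N2 g φ (n + 1) (fun (η : Cfg d L) x => Phi g 0 (lamv Γm Γp) t (η, x)) ≤
      Real.exp (-(2 * c * t)) * N2 g φ (n + 1) (fun (_ : Cfg d L) _ => 1) := by
  have hΓm := hg.pos
  have hΓp : 0 < Γp := lt_of_lt_of_le one_pos hg.one_le
  have hlam : 0 ≤ lamv Γm Γp := by
    unfold lamv
    positivity
  set lam := lamv Γm Γp with hlamdef
  -- the derivative of the energy
  have hder : ∀ u : ℝ, HasDerivAt
      (fun v => N2 g φ (n + 1) (fun (η : Cfg d L) x => Phi g 0 lam v (η, x)))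
      (2 * ∑ η ∈ sec d L (n + 1), ∑ x, mu g φ η *
        ((η x : ℝ) * (Phi g 0 lam u (η, x) * Agr g 0 lam (Phi g 0 lam u) (η, x)))) u := by
    intro u
    unfold N2
    rw [Finset.mul_sum]
    refine HasDerivAt.fun_sum fun η _ => ?_
    rw [Finset.mul_sum]
    refine HasDerivAt.fun_sum fun x _ => ?_
    have h1 := ((ZRI.Phi_deriv hg 0 lam le_rfl hlam u (η, x)).pow 2).const_mul
      (mu g φ η * (η x : ℝ))
    refine h1.congr_deriv ?_
    push_cast
    ring
  have hle : ∀ u : ℝ, ∑ η ∈ sec d L (n + 1), ∑ x, mu g φ η *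
        ((η x : ℝ) * (Phi g 0 lam u (η, x) * Agr g 0 lam (Phi g 0 lam u) (η, x))) ≤
      -c * N2 g φ (n + 1) (fun (η : Cfg d L) x => Phi g 0 lam u (η, x)) := fun u =>
    ZRI.energy hd hg hφ k hk hk1 n c hc0 hc (fun (η : Cfg d L) x => Phi g 0 lam u (η, x))
  have hder2 : ∀ u : ℝ, HasDerivAt
      (fun v => Real.exp (2 * c * v) *
        N2 g φ (n + 1) (fun (η : Cfg d L) x => Phi g 0 lam v (η, x)))
      (Real.exp (2 * c * u) * (2 * c) *
          N2 g φ (n + 1) (fun (η : Cfg d L) x => Phi g 0 lam u (η, x)) +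
        Real.exp (2 * c * u) * (2 * ∑ η ∈ sec d L (n + 1), ∑ x, mu g φ η *
        ((η x : ℝ) * (Phi g 0 lam u (η, x) * Agr g 0 lam (Phi g 0 lam u) (η, x))))) u := by
    intro u
    have h1 : HasDerivAt (fun v : ℝ => Real.exp (2 * c * v)) (Real.exp (2 * c * u) * (2 * c)) u := by
      have h2 : HasDerivAt (fun v : ℝ => 2 * c * v) (2 * c) u := by
        simpa using (hasDerivAt_id u).const_mul (2 * c)
      exact h2.exp
    exact h1.mul (hder u)
  have hanti : Antitone (fun v => Real.exp (2 * c * v) *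
        N2 g φ (n + 1) (fun (η : Cfg d L) x => Phi g 0 lam v (η, x))) := by
    refine antitone_of_deriv_nonpos (fun u => (hder2 u).differentiableAt) fun u => ?_
    rw [(hder2 u).deriv]
    have h3 := mul_le_mul_of_nonneg_left (hle u) (Real.exp_nonneg (2 * c * u))
    nlinarith [h3]
  have h4 := hanti ht
  simp only [mul_zero, Real.exp_zero, one_mul, ZRI.Phi_zero] at h4
  have h5 : Real.exp (-(2 * c * t)) * (Real.exp (2 * c * t) *
        N2 g φ (n + 1) (fun (η : Cfg d L) x => Phi g 0 lam t (η, x))) ≤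
      Real.exp (-(2 * c * t)) * N2 g φ (n + 1) (fun (_ : Cfg d L) _ => 1) :=
    mul_le_mul_of_nonneg_left h4 (Real.exp_nonneg _)
  rw [← mul_assoc, ← Real.exp_add, neg_add_cancel, Real.exp_zero, one_mul] at h5
  exact h5

end ZRI
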