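import Pool.Agent.ZRI.Defs
import Pool.Agent.ZRI.A4
import Pool.Agent.ZRI.D13

open scoped BigOperators ENNReal Topology
open MeasureTheory Filter

namespace ZRI

section D

variable {d L : ℕ} {g : ℕ → ℝ} {Γm Γp : ℝ}

/-- translation of a configuration -/
def D14_sh (y : Tor d L) (η : Cfg d L) : Cfg d L := fun z => η (z - y)

theorem D14_sh_apply (y : Tor d L) (η : Cfg d L) (z : Tor d L) : D14_sh y η z = η (z - y) := rfl

theorem D14_sh_add (y : Tor d L) (η : Cfg d L) (z : Tor d L) : D14_sh y η (z + y) = η z := by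
  rw [D14_sh_apply, add_sub_cancel_right]

theorem D14_single (y w u : Tor d L) :
    (Pi.single (w + y) (1 : ℕ) : Cfg d L) u = (Pi.single w (1 : ℕ) : Cfg d L) (u - y) := by
  rw [Pi.single_apply, Pi.single_apply]
  by_cases h : u = w + y
  · rw [if_pos h, if_pos (by rw [h, add_sub_cancel_right])]
  · rw [if_neg h, if_neg (fun h' => h (by rw [← h', sub_add_cancel]))]

theorem D14_mv (y : Tor d L) (η : Cfg d L) (z w : Tor d L) :
    mv (D14_sh y η) (z + y) (w + y) = D14_sh y (mv η z w) := by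
  funext u
  unfold mv
  rw [D14_sh_apply, Pi.add_apply, Pi.sub_apply, Pi.add_apply, Pi.sub_apply, D14_sh_apply,
    D14_single, D14_single]

theorem D14_Agr [NeZero d] (θ lam : ℝ) (y : Tor d L) (G : Cfg d L × Tor d L → ℝ) :
    Agr g θ lam (fun s : Cfg d L × Tor d L => G (D14_sh y s.1, s.2 + y)) =
      fun s => Agr g θ lam G (D14_sh y s.1, s.2 + y) := by
  funext s
  obtain ⟨η, x⟩ := s
  have hgw : ∀ e, gw θ (D14_sh y η, x + y) e = gw θ (η, x) e := fun e => by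
    unfold gw
    simp only [D14_sh_add]
  have hgx : ∀ e, gx (D14_sh y η, x + y) e = gx (η, x) e + y := fun e => by
    unfold gx
    simp only [D14_sh_add]
    split_ifs
    · rw [add_right_comm]
    · rfl
  unfold Agr
  simp only [D14_sh_add]
  congr 1
  rw [← Equiv.sum_comp (Equiv.addRight y) (fun z => ∑ e : Dir d, g (D14_sh y η z) / (2 * (d : ℝ)) *
    ((if z = x + y then gw θ (D14_sh y η, x + y) e *
        G (mv (D14_sh y η) z (z + stp e), gx (D14_sh y η, x + y) e)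
      else G (mv (D14_sh y η) z (z + stp e), x + y)) - G (D14_sh y η, x + y)))]
  refine Finset.sum_congr rfl fun z _ => Finset.sum_congr rfl fun e _ => ?_
  rw [Equiv.coe_addRight, D14_sh_add, hgw, hgx, add_right_comm z y, D14_mv]
  have h : (z + y = x + y) = (z = x) := by rw [add_left_inj]
  simp only [h]

/-- D14 -/
theorem Phi_shift [NeZero d] (θ lam t : ℝ) (η : Cfg d L) (x y : Tor d L) :
    Phi g θ lam t ((fun z => η (z - y)), x + y) = Phi g θ lam t (η, x) := by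
  have h := ZRI.sg_inter (Agr g θ lam : (Cfg d L × Tor d L → ℝ) → Cfg d L × Tor d L → ℝ)
    (Agr g θ lam) (fun s : Cfg d L × Tor d L => (D14_sh y s.1, s.2 + y)) (D14_Agr θ lam y)
    (fun _ => 1) t (η, x)
  exact h.symm

theorem D14_mem (n : ℕ) (y : Tor d L) {η : Cfg d L} (h : η ∈ sec d L n) :
    D14_sh y η ∈ sec d L n := by
  unfold sec at h ⊢
  rw [Finset.mem_piAntidiag] at h ⊢
  refine ⟨?_, fun _ _ => Finset.mem_univ _⟩
  rw [← h.1]
  exact Equiv.sum_comp (Equiv.subRight y) η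

theorem D14_mu (φ : ℝ) (y : Tor d L) (η : Cfg d L) : mu g φ (D14_sh y η) = mu g φ η := by
  unfold mu
  exact Equiv.prod_comp (Equiv.subRight y) fun x => m1 g φ (η x)

theorem D14_sum (φ : ℝ) (n : ℕ) (F : Cfg d L → Tor d L → ℝ) (y : Tor d L)
    (hF : ∀ η, F (D14_sh y η) (0 + y) = F η 0) :
    ∑ η ∈ sec d L n, mu g φ η * η y * (F η y) ^ 2 =
      ∑ η ∈ sec d L n, mu g φ η * η 0 * (F η 0) ^ 2 := by
  symm
  refine Finset.sum_bij' (fun η _ => D14_sh y η) (fun η _ => D14_sh (-y) η)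
    (fun η h => D14_mem n y h) (fun η h => D14_mem n (-y) h) ?_ ?_ ?_
  · intro η _
    funext z
    rw [D14_sh_apply, D14_sh_apply]
    congr 1
    abel
  · intro η _
    funext z
    rw [D14_sh_apply, D14_sh_apply]
    congr 1
    abel
  · intro η _
    have h1 := hF η
    have h2 := D14_sh_add y η 0
    rw [zero_add] at h1 h2
    rw [D14_mu, h1, h2]

theorem D14_N2 (φ : ℝ) (n : ℕ) (F : Cfg d L → Tor d L → ℝ)
    (hF : ∀ y η, F (D14_sh y η) (0 + y) = F η 0) :
    N2 g φ n F = (Fintype.card (Tor d L) : ℝ) *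
      ∑ η ∈ sec d L n, mu g φ η * η 0 * (F η 0) ^ 2 := by
  unfold N2
  rw [Finset.sum_comm, Finset.sum_congr rfl fun y _ => D14_sum φ n F y (hF y), Finset.sum_const,
    Finset.card_univ, nsmul_eq_mul]

/-- D14 -/
theorem energy_decay0 [NeZero d] (hd : 3 ≤ d) (hg : IsRate g Γm Γp) {φ : ℝ} (hφ : 0 < φ) (k : ℕ)
    (hk : L + 1 = 2 ^ k) (hk1 : 1 ≤ k) (n : ℕ) (c : ℝ) (hc0 : 0 ≤ c)
    (hc : c * ((L : ℝ) + 1) ^ d * (4 + 1024 * (d : ℝ) ^ 3) ≤ Γm * n) (t : ℝ) (ht : 0 ≤ t) :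
    ∑ η ∈ sec d L (n + 1), mu g φ η * η 0 * (Phi g 0 (lamv Γm Γp) t (η, 0)) ^ 2 ≤
      Real.exp (-(2 * c * t)) * ∑ η ∈ sec d L (n + 1), mu g φ η * η 0 := by
  have h := ZRI.energy_decay hd hg hφ k hk hk1 n c hc0 hc t ht
  rw [D14_N2 φ (n + 1) (fun (η : Cfg d L) x => Phi g 0 (lamv Γm Γp) t (η, x))
    (fun y η => Phi_shift 0 (lamv Γm Γp) t η 0 y),
    D14_N2 φ (n + 1) (fun (_ : Cfg d L) _ => (1 : ℝ)) (fun _ _ => rfl)] at h
  have hV : (0 : ℝ) < (Fintype.card (Tor d L) : ℝ) := by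
    exact_mod_cast Fintype.card_pos
  rw [mul_left_comm] at h
  have h1 := le_of_mul_le_mul_left h hV
  simpa only [one_pow, mul_one] using h1

end D

end ZRI
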