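import Pool.Agent.ZRI.Defs

open scoped BigOperators ENNReal Topology
open MeasureTheory Filter

namespace ZRI

variable {d L : ℕ} {g : ℕ → ℝ} {Γm Γp : ℝ}

/-- D15 -/
theorem holder (T : Finset (Cfg d L)) (m a : Cfg d L → ℝ) (hm : ∀ η ∈ T, 0 ≤ m η)
    (ha : ∀ η ∈ T, 0 ≤ a η) (p : ℝ) (hp : 0 < p) (hp1 : p ≤ 1) :
    ∑ η ∈ T, m η * (if 1 ≤ η 0 then (a η) ^ p else 0) ≤
      (∑ η ∈ T, m η * η 0 * (a η) ^ 2) ^ (p / 2) * (∑ η ∈ T, m η) ^ (1 - p / 2) := by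
  have hq : (p / 2)⁻¹⁻¹ = p / 2 := inv_inv _
  have hq0 : 0 < p / 2 := by linarith
  have hq1 : 1 ≤ (p / 2)⁻¹ := by
    rw [one_le_inv₀ hq0]
    linarith
  have h := Real.inner_le_weight_mul_Lp_of_nonneg T hq1 (fun η => |m η|)
    (fun η => ((η 0 : ℝ) * (a η) ^ 2) ^ (p / 2)) (fun η => abs_nonneg _)
    (fun η => Real.rpow_nonneg (by positivity) _)
  rw [hq] at h
  have e1 : ∑ η ∈ T, |m η| = ∑ η ∈ T, m η :=
    Finset.sum_congr rfl fun η hη => abs_of_nonneg (hm η hη)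
  have e2 : ∑ η ∈ T, |m η| * (((η 0 : ℝ) * (a η) ^ 2) ^ (p / 2)) ^ (p / 2)⁻¹ =
      ∑ η ∈ T, m η * η 0 * (a η) ^ 2 := by
    refine Finset.sum_congr rfl fun η hη => ?_
    rw [abs_of_nonneg (hm η hη), ← Real.rpow_mul (by positivity), mul_inv_cancel₀ hq0.ne',
      Real.rpow_one, mul_assoc]
  rw [e1, e2, mul_comm] at h
  refine le_trans (Finset.sum_le_sum fun η hη => ?_) h
  rw [abs_of_nonneg (hm η hη)]
  refine mul_le_mul_of_nonneg_left ?_ (hm η hη)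
  split_ifs with h1
  · have h2 : (1 : ℝ) ≤ η 0 := by exact_mod_cast h1
    have h3 : a η ^ p = ((a η) ^ 2) ^ (p / 2) := by
      rw [← Real.rpow_natCast, ← Real.rpow_mul (ha η hη)]
      congr 1
      push_cast
      ring
    rw [h3]
    exact Real.rpow_le_rpow (by positivity) (le_mul_of_one_le_left (by positivity) h2) hq0.le
  · exact Real.rpow_nonneg (by positivity) _

end ZRI
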