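import Pool.Agent.ZRI.Defs
import Pool.Agent.ZRI.C6a
import Pool.Agent.ZRI.C6b

open scoped BigOperators ENNReal Topology
open MeasureTheory Filter

namespace ZRI

variable {d L : ℕ} {g : ℕ → ℝ} {Γm Γp : ℝ}

theorem D16_summable (hg : IsRate g Γm Γp) {φ : ℝ} (hφ : 0 < φ) (s : ℝ) (hs : 0 < s) :
    Summable (fun n : ℕ => m1 g φ n * Real.exp (-(s * n))) := by
  obtain ⟨h1, -, h3, -, -⟩ := ZRI.m1_sum hg hφ
  refine Summable.of_nonneg_of_le (fun n => mul_nonneg (h3 n).le (Real.exp_pos _).le)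
    (fun n => ?_) h1
  refine mul_le_of_le_one_right (h3 n).le ?_
  rw [Real.exp_le_one_iff]
  have : (0 : ℝ) ≤ s * n := mul_nonneg hs.le (Nat.cast_nonneg n)
  linarith

/-- D16 -/
theorem low_exp (hg : IsRate g Γm Γp) {φ : ℝ} (hφ : 0 < φ) :
    ∃ ρ₀ s : ℝ, 0 < ρ₀ ∧ 0 < s ∧
      Real.exp (s * ρ₀) * ∑' n : ℕ, m1 g φ n * Real.exp (-(s * n)) < 1 := by
  obtain ⟨h1, h2, h3, -, -⟩ := ZRI.m1_sum hg hφ
  have hs := D16_summable hg hφ 1 one_pos
  set M : ℝ := ∑' n : ℕ, m1 g φ n * Real.exp (-(1 * (n : ℝ))) with hM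
  have hM1 : M < 1 := by
    rw [← h2, hM]
    refine Summable.tsum_lt_tsum (i := 1) (fun n => ?_) ?_ hs h1
    · refine mul_le_of_le_one_right (h3 n).le ?_
      rw [Real.exp_le_one_iff]
      have : (0 : ℝ) ≤ 1 * n := mul_nonneg one_pos.le (Nat.cast_nonneg n)
      linarith
    · refine mul_lt_of_lt_one_right (h3 1) ?_
      rw [Real.exp_lt_one_iff]
      norm_num
  have hM0 : 0 < M := by
    rw [hM]
    refine hs.tsum_pos (fun n => mul_nonneg (h3 n).le (Real.exp_pos _).le) 0 ?_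
    exact mul_pos (h3 0) (Real.exp_pos _)
  have hlog : Real.log M < 0 := Real.log_neg hM0 hM1
  refine ⟨-Real.log M / 2, 1, by linarith, one_pos, ?_⟩
  have e1 : Real.exp (1 * (-Real.log M / 2)) * M = Real.exp (Real.log M / 2) := by
    nth_rewrite 2 [← Real.exp_log hM0]
    rw [← Real.exp_add]
    congr 1
    ring
  rw [← hM, e1, Real.exp_lt_one_iff]
  linarith

/-- D16 -/
theorem low_sum (hg : IsRate g Γm Γp) {φ : ℝ} (hφ : 0 < φ) (s A : ℝ) (hs : 0 < s)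
    (T : Finset (Cfg d L)) (hT : ∀ η ∈ T, ((∑ x, η x : ℕ) : ℝ) ≤ A) :
    ∑ η ∈ T, mu g φ η ≤ Real.exp (s * A) *
      (∑' n : ℕ, m1 g φ n * Real.exp (-(s * n))) ^ ((L + 1) ^ d) := by
  obtain ⟨h1, h2, h3, -, -⟩ := ZRI.m1_sum hg hφ
  have hsm := D16_summable hg hφ s hs
  have hcard : Fintype.card (Tor d L) = (L + 1) ^ d := by
    simp [Tor, ZMod.card]
  have key := ZRI.mu_prod (d := d) (L := L) hg hφ
    (fun _ n => Real.exp (-(s * (n : ℝ)))) (fun _ _ => (Real.exp_pos _).le)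
    (fun _ => ∑' n : ℕ, m1 g φ n * Real.exp (-(s * n)))
    (fun _ N => hsm.sum_le_tsum _ (fun n _ => mul_nonneg (h3 n).le (Real.exp_pos _).le)) T
  rw [Finset.prod_const, Finset.card_univ, hcard] at key
  refine le_trans ?_ (mul_le_mul_of_nonneg_left key (Real.exp_pos (s * A)).le)
  rw [Finset.mul_sum]
  refine Finset.sum_le_sum fun η hη => ?_
  have e2 : ∏ x : Tor d L, Real.exp (-(s * ((η x : ℕ) : ℝ))) =
      Real.exp (-(s * ((∑ x, η x : ℕ) : ℝ))) := by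
    rw [← Real.exp_sum]
    congr 1
    push_cast
    rw [Finset.mul_sum, Finset.sum_neg_distrib]
  have e3 : (1 : ℝ) ≤ Real.exp (s * A) * Real.exp (-(s * ((∑ x, η x : ℕ) : ℝ))) := by
    rw [← Real.exp_add, Real.one_le_exp_iff]
    have := mul_le_mul_of_nonneg_left (hT η hη) hs.le
    linarith
  have e4 := mul_le_mul_of_nonneg_left e3 (ZRI.mu_pos hg hφ η).le
  rw [mul_one] at e4
  calc mu g φ η ≤ mu g φ η * (Real.exp (s * A) * Real.exp (-(s * ((∑ x, η x : ℕ) : ℝ)))) := e4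
    _ = Real.exp (s * A) * (mu g φ η * ∏ x : Tor d L, Real.exp (-(s * ((η x : ℕ) : ℝ)))) := by
        rw [e2]; ring

end ZRI
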