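import Pool.Agent.ZRI.Defs

open scoped BigOperators ENNReal Topology
open MeasureTheory Filter

namespace ZRI

open ZRI

variable {d L : ℕ}

theorem D3a_shift (R : ℕ) (hR : 2 * (R + 1) < L + 1) (a : ZMod (L + 1))
    (ha : a.valMinAbs.natAbs ≤ R) (k : ℤ) (hk : |k| ≤ 1) :
    (a + (k : ZMod (L + 1))).valMinAbs = a.valMinAbs + k := by
  rw [ZMod.valMinAbs_spec]
  have h1 : |a.valMinAbs| ≤ (R : ℤ) := by
    rw [Int.abs_eq_natAbs]
    exact_mod_cast ha
  have h2 := abs_le.mp h1
  have h3 := abs_le.mp hk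
  have h4 : 2 * ((R : ℤ) + 1) < (L : ℤ) + 1 := by exact_mod_cast hR
  constructor
  · push_cast
    rfl
  · rw [Set.mem_Ioc]
    push_cast
    constructor
    · linarith [h2.1, h2.2, h3.1, h3.2]
    · linarith [h2.1, h2.2, h3.1, h3.2]

theorem D3a_le (R : ℕ) (x : Tor d L) (hx : nrm x ≤ R) (i : Fin d) :
    (x i).valMinAbs.natAbs ≤ R := by
  refine le_trans ?_ hx
  unfold nrm
  exact Finset.single_le_sum (f := fun i => (x i).valMinAbs.natAbs) (fun _ _ => Nat.zero_le _)
    (Finset.mem_univ i)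

/-- D3 -/
theorem c1_step [NeZero d] (R : ℕ) (hR : 2 * (R + 1) < L + 1) (x : Tor d L) (hx : nrm x ≤ R) :
    c1 x ≤ R ∧ c1 (x + stp (0, true)) = c1 x + 1 ∧ c1 (x + stp (0, false)) = c1 x - 1 ∧
      ∀ e : Dir d, e ≠ (0, true) → e ≠ (0, false) → c1 (x + stp e) = c1 x := by
  have h0 := D3a_le R x hx 0
  refine ⟨?_, ?_, ?_, ?_⟩
  · unfold c1
    have h1 : |(x 0).valMinAbs| ≤ (R : ℤ) := by
      rw [Int.abs_eq_natAbs]
      exact_mod_cast h0
    have h2 := (abs_le.mp h1).2
    exact_mod_cast h2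
  · unfold c1
    have h := D3a_shift R hR (x 0) h0 1 (by norm_num)
    have e1 : (x + stp ((0 : Fin d), true) : Tor d L) 0 = x 0 + ((1 : ℤ) : ZMod (L + 1)) := by
      simp [stp]
    rw [e1, h]
    push_cast
    ring
  · unfold c1
    have h := D3a_shift R hR (x 0) h0 (-1) (by norm_num)
    have e1 : (x + stp ((0 : Fin d), false) : Tor d L) 0 = x 0 + ((-1 : ℤ) : ZMod (L + 1)) := by
      simp [stp]
    rw [e1, h]
    push_cast
    ring
  · intro e he1 he2
    unfold c1
    have hne : e.1 ≠ 0 := by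
      intro h
      rcases e with ⟨i, b⟩
      simp only at h
      subst h
      rcases b with _ | _
      · exact he2 rfl
      · exact he1 rfl
    have e1 : (x + stp e : Tor d L) 0 = x 0 := by
      simp only [stp, Pi.add_apply]
      rw [Pi.single_eq_of_ne (Ne.symm hne), add_zero]
    rw [e1]

end ZRI
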