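import Pool.Agent.ZRI.Defs
import Pool.Agent.ZRI.A1
import Pool.Agent.ZRI.A2
import Pool.Agent.ZRI.B1
import Pool.Agent.ZRI.B2
import Pool.Agent.ZRI.B3
import Pool.Agent.ZRI.B4
import Pool.Agent.ZRI.C3
import Pool.Agent.ZRI.D2
import Pool.Agent.ZRI.D3a

/-! # [ZRI-D3b] the greedy particle dominates the event that the front stays close -/

open scoped BigOperators ENNReal Topology
open MeasureTheory Filter

namespace ZRI

section D

variable {d L : ℕ} {g : ℕ → ℝ} {Γm Γp : ℝ}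

/-- the invariant of the comparison -/
def D3b_P (n R : ℕ) (w : Cfg d L × Finset (Tor d L) × Finset (Tor d L) × Tor d L) : Prop :=
  w.2.2.2 ∈ w.2.1 ∧ w.2.1 ⊆ w.2.2.1 ∧ (∀ y ∈ w.2.2.1, nrm y ≤ R) ∧ 1 ≤ w.1 w.2.2.2 ∧
    ∑ z, w.1 z = n

/-- the moves of the comparison -/
noncomputable def D3b_mv [NeZero d] (z : Tor d L) (e : Dir d)
    (w : Cfg d L × Finset (Tor d L) × Finset (Tor d L) × Tor d L) :
    Cfg d L × Finset (Tor d L) × Finset (Tor d L) × Tor d L :=
  (mv w.1 z (z + stp e), spr w.1 w.2.1 z (z + stp e),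
    if z ∈ w.2.1 then insert (z + stp e) w.2.2.1 else w.2.2.1,
    if z = w.2.2.2 then gx (w.1, w.2.2.2) e else w.2.2.2)

theorem D3b_mv_ge (η : Cfg d L) (x y u : Tor d L) (hu : u ≠ x) : η u ≤ mv η x y u := by
  unfold mv
  rw [Pi.add_apply, Pi.sub_apply, Pi.single_eq_of_ne hu, Nat.sub_zero]
  exact Nat.le_add_right _ _

theorem D3b_mv_self (η : Cfg d L) (x y : Tor d L) : 1 ≤ mv η x y y := by
  unfold mv
  rw [Pi.add_apply, Pi.single_eq_same]
  exact Nat.le_add_left _ _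

theorem D3b_mv_src (η : Cfg d L) (x y : Tor d L) (h : 2 ≤ η x) : 1 ≤ mv η x y x := by
  unfold mv
  rw [Pi.add_apply, Pi.sub_apply, Pi.single_eq_same]
  omega

theorem D3b_inv [NeZero d] (n R : ℕ)
    (w : Cfg d L × Finset (Tor d L) × Finset (Tor d L) × Tor d L) (hw : D3b_P n R w)
    (z : Tor d L) (e : Dir d) (hz : 1 ≤ w.1 z) :
    D3b_P n R (D3b_mv z e w) ∨ ∃ y ∈ (D3b_mv z e w).2.2.1, R < nrm y := by
  obtain ⟨ζ, I, J, x⟩ := w
  obtain ⟨h1, h2, h3, h4, h5⟩ := hw
  simp only at h1 h2 h3 h4 h5 hz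
  by_cases hb : ∃ y ∈ (D3b_mv z e (ζ, I, J, x)).2.2.1, R < nrm y
  · exact Or.inr hb
  · left
    push Not at hb
    refine ⟨?_, ?_, hb, ?_, ?_⟩
    · simp only [D3b_mv, spr, gx]
      by_cases hzx : z = x
      · subst hzx
        rw [if_pos rfl, if_pos h1]
        by_cases h6 : e = (0, true) ∨ ζ z = 1
        · rw [if_pos h6]
          exact Finset.mem_insert_self _ _
        · rw [if_neg h6, if_neg (fun h => h6 (Or.inr h))]
          exact Finset.mem_insert_of_mem h1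
      · rw [if_neg hzx]
        by_cases hzI : z ∈ I
        · rw [if_pos hzI]
          refine Finset.mem_insert_of_mem ?_
          by_cases h7 : ζ z = 1
          · rw [if_pos h7]
            exact Finset.mem_erase.2 ⟨fun h => hzx h.symm, h1⟩
          · rw [if_neg h7]
            exact h1
        · rw [if_neg hzI]
          exact h1
    · simp only [D3b_mv, spr]
      by_cases hzI : z ∈ I
      · rw [if_pos hzI, if_pos hzI]
        refine Finset.insert_subset_insert _ ?_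
        by_cases h7 : ζ z = 1
        · rw [if_pos h7]
          exact (Finset.erase_subset _ _).trans h2
        · rw [if_neg h7]
          exact h2
      · rw [if_neg hzI, if_neg hzI]
        exact h2
    · simp only [D3b_mv, gx]
      by_cases hzx : z = x
      · subst hzx
        rw [if_pos rfl]
        by_cases h6 : e = (0, true) ∨ ζ z = 1
        · rw [if_pos h6]
          exact D3b_mv_self _ _ _
        · rw [if_neg h6]
          refine D3b_mv_src _ _ _ ?_
          have h8 : ζ z ≠ 1 := fun h => h6 (Or.inr h)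
          omega
      · rw [if_neg hzx]
        exact h4.trans (D3b_mv_ge _ _ _ _ (fun h => hzx h.symm))
    · simp only [D3b_mv]
      rw [ZRI.sum_mv ζ z (z + stp e) hz]
      exact h5

theorem D3b_gw [NeZero d] (R : ℕ) (hR : 2 * (R + 1) < L + 1) (θ : ℝ) (ζ : Cfg d L)
    (x : Tor d L) (hx : nrm x ≤ R) (e : Dir d) :
    Real.exp (θ * (R - c1 x)) * gw θ (ζ, x) e =
      Real.exp (θ * (R - c1 (gx (ζ, x) e))) := by
  obtain ⟨-, h1, h2, h3⟩ := ZRI.c1_step R hR x hx
  simp only [gw, gx]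
  by_cases he : e = (0, true)
  · subst he
    rw [if_pos rfl, if_pos (Or.inl rfl), h1, ← Real.exp_add]
    congr 1
    ring
  · rw [if_neg he]
    by_cases he' : e = (0, false)
    · subst he'
      by_cases hζ : ζ x = 1
      · rw [if_pos ⟨rfl, hζ⟩, if_pos (Or.inr hζ), h2, ← Real.exp_add]
        congr 1
        ring
      · rw [if_neg (fun h => hζ h.2), if_neg (fun h => h.elim he hζ), mul_one]
    · rw [if_neg (fun h => he' h.1), mul_one]
      by_cases hζ : ζ x = 1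
      · rw [if_pos (Or.inr hζ), h3 e he he']
      · rw [if_neg (fun h => h.elim he hζ)]

theorem D3b_gen (F : St d L → ℝ) (s : St d L) : Gen g 0 F s =
    ∑ x, ∑ e : Dir d, g (s.1 x) / (2 * d) * (F (jmp 0 s x (x + stp e)) - F s) := by
  unfold Gen
  rw [ENNReal.toReal_zero]
  simp only [zero_mul, Finset.sum_const_zero, add_zero]

theorem D3b_agr [NeZero d] (θ : ℝ) (F : Cfg d L × Tor d L → ℝ) (s : Cfg d L × Tor d L) :
    Agr g θ 0 F s = ∑ z, ∑ e : Dir d, g (s.1 z) / (2 * d) *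
    ((if z = s.2 then gw θ s e * F (mv s.1 z (z + stp e), gx s e)
      else F (mv s.1 z (z + stp e), s.2)) - F s) := by
  unfold Agr
  rw [zero_mul, zero_mul, sub_zero]

theorem D3b_jmp [NeZero d] (ζ : Cfg d L) (I J : Finset (Tor d L)) (x z : Tor d L) (e : Dir d) :
    jmp 0 (ζ, I, J) z (z + stp e) = ((D3b_mv z e (ζ, I, J, x)).1,
      (D3b_mv z e (ζ, I, J, x)).2.1, (D3b_mv z e (ζ, I, J, x)).2.2.1) := by
  simp only [jmp, D3b_mv]
  rw [if_neg ENNReal.zero_ne_top]

/-- the difference of the two sides -/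
noncomputable def D3b_y [NeZero d] (g : ℕ → ℝ) (R : ℕ) (θ t : ℝ)
    (w : Cfg d L × Finset (Tor d L) × Finset (Tor d L) × Tor d L) : ℝ :=
  Qg g R t (w.1, w.2.1, w.2.2.1) -
    Real.exp (θ * (R - c1 w.2.2.2)) * Phi g θ 0 t (w.1, w.2.2.2)

theorem D3b_ind (R : ℕ) (s : St d L) :
    0 ≤ (good d L R).indicator (1 : St d L → ℝ) s ∧
      (good d L R).indicator (1 : St d L → ℝ) s ≤ 1 := by
  by_cases h : s ∈ good d L R
  · rw [Set.indicator_of_mem h]
    exact ⟨zero_le_one, le_rfl⟩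
  · rw [Set.indicator_of_notMem h]
    exact ⟨le_rfl, zero_le_one⟩

/-- D3 -/
theorem Qg_le [NeZero d] (hg : IsRate g Γm Γp) (R : ℕ) (hR : 2 * (R + 1) < L + 1) (θ : ℝ)
    (hθ : 0 ≤ θ) (t : ℝ) (ht : 0 ≤ t) (ζ : Cfg d L) (I J : Finset (Tor d L)) (x : Tor d L)
    (hx : x ∈ I) (hIJ : I ⊆ J) (hJ : ∀ y ∈ J, nrm y ≤ R) (hζ : 1 ≤ ζ x) :
    Qg g R t (ζ, I, J) ≤ Real.exp (θ * (R - c1 x)) * Phi g θ 0 t (ζ, x) := by
  have hd : 1 ≤ d := Nat.one_le_iff_ne_zero.2 (NeZero.ne d)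
  set n : ℕ := ∑ z, ζ z with hn
  have hΓ : 0 ≤ Γp := le_trans zero_le_one hg.one_le
  have hr0 : ∀ (η : Cfg d L) (z : Tor d L), 0 ≤ g (η z) / (2 * (d : ℝ)) := fun η z =>
    div_nonneg (ZRI.g_nonneg hg _) (by positivity)
  have key := ZRI.cmp (D3b_P (d := d) (L := L) n R) (D3b_y g R θ)
    (fun u w => Gen g 0 (sg (Gen g 0) u ((good d L R).indicator 1)) (w.1, w.2.1, w.2.2.1) -
      Real.exp (θ * (R - c1 w.2.2.2)) * Agr g θ 0 (Phi g θ 0 u) (w.1, w.2.2.2))
    (fun w => -∑ z, ∑ _e : Dir d, g (w.1 z) / (2 * d)) (Γp * (n : ℝ)) 1 t (by positivity)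
    ?_ ?_ ?_ ?_ ?_ t ht le_rfl (ζ, I, J, x) ⟨hx, hIJ, hJ, hζ, rfl⟩
  · unfold D3b_y at key
    simp only at key
    linarith
  · -- the bound of the rates
    intro w hw
    have h1 := ZRI.sum_rate hd hg w.1
    rw [hw.2.2.2.2] at h1
    rw [abs_neg, abs_of_nonneg (Finset.sum_nonneg fun z _ => Finset.sum_nonneg fun _ _ =>
      hr0 w.1 z)]
    exact h1
  · -- derivatives
    intro w hw u hu hut
    have h1 := ZRI.Gen_deriv hd hg 0 ((good d L R).indicator (1 : St d L → ℝ)) 1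
      (fun s => abs_le.2 ⟨by linarith [(D3b_ind R s).1], (D3b_ind R s).2⟩) u
      (w.1, w.2.1, w.2.2.1)
    have h2 := ZRI.Phi_deriv hg θ 0 hθ le_rfl u (w.1, w.2.2.2)
    exact h1.sub (h2.const_mul (Real.exp (θ * (R - c1 w.2.2.2))))
  · -- upper bound
    intro w hw u hu hut
    have h1 := (ZRI.Gen_mem hd hg 0 ((good d L R).indicator (1 : St d L → ℝ))
      (fun s => (D3b_ind R s).1) (fun s => (D3b_ind R s).2) u hu (w.1, w.2.1, w.2.2.1)).2
    have h2 := ZRI.Phi_nonneg hg θ 0 hθ le_rfl u hu (w.1, w.2.2.2)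
    have h3 : 0 ≤ Real.exp (θ * (R - c1 w.2.2.2)) * Phi g θ 0 u (w.1, w.2.2.2) :=
      mul_nonneg (Real.exp_pos _).le h2
    unfold D3b_y Qg
    linarith
  · -- the differential inequality
    intro w hw u hu hut B hB hyB
    obtain ⟨ζ, I, J, x⟩ := w
    have hw' := hw
    obtain ⟨h1, h2, h3, h4, h5⟩ := hw'
    simp only at h1 h2 h3 h4 h5
    simp only
    have hnx : nrm x ≤ R := h3 x (h2 h1)
    set Y : Tor d L → Dir d → ℝ := fun z e => D3b_y g R θ u (D3b_mv z e (ζ, I, J, x)) with hY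
    have hYe : ∀ z e, Qg g R u (jmp 0 (ζ, I, J) z (z + stp e)) -
        Real.exp (θ * (R - c1 x)) *
        (if z = x then gw θ (ζ, x) e * Phi g θ 0 u (mv ζ z (z + stp e), gx (ζ, x) e)
          else Phi g θ 0 u (mv ζ z (z + stp e), x)) = Y z e := by
      intro z e
      rw [hY]
      simp only
      rw [D3b_jmp ζ I J x z e]
      unfold D3b_y
      congr 1
      by_cases hzx : z = x
      · rw [if_pos hzx, ← mul_assoc, D3b_gw R hR θ ζ x hnx e]
        simp only [D3b_mv]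
        rw [if_pos hzx]
      · rw [if_neg hzx]
        simp only [D3b_mv]
        rw [if_neg hzx]
    have hYB : ∀ z e, 1 ≤ ζ z → Y z e ≤ B := by
      intro z e hz
      rcases D3b_inv n R (ζ, I, J, x) hw z e hz with h6 | h6
      · exact hyB _ h6
      · rw [hY]
        simp only
        unfold D3b_y
        rw [ZRI.Qg_bad R u _ h6]
        have h7 := ZRI.Phi_nonneg hg θ 0 hθ le_rfl u hu
          ((D3b_mv z e (ζ, I, J, x)).1, (D3b_mv z e (ζ, I, J, x)).2.2.2)
        have h8 := mul_nonneg (Real.exp_pos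
          (θ * (R - c1 (D3b_mv z e (ζ, I, J, x)).2.2.2))).le h7
        linarith
    set y0 : ℝ := D3b_y g R θ u (ζ, I, J, x) with hy0
    have hy : Gen g 0 (sg (Gen g 0) u ((good d L R).indicator 1)) (ζ, I, J) -
        Real.exp (θ * (R - c1 x)) * Agr g θ 0 (Phi g θ 0 u) (ζ, x) =
        ∑ z, ∑ e : Dir d, g (ζ z) / (2 * d) * (Y z e - y0) := by
      rw [D3b_gen, D3b_agr, Finset.mul_sum, ← Finset.sum_sub_distrib]
      refine Finset.sum_congr rfl fun z _ => ?_
      rw [Finset.mul_sum, ← Finset.sum_sub_distrib]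
      refine Finset.sum_congr rfl fun e _ => ?_
      rw [← hYe z e, hy0]
      unfold D3b_y Qg
      simp only
      ring
    rw [hy]
    have hle : ∑ z, ∑ e : Dir d, g (ζ z) / (2 * d) * (Y z e - y0) ≤
        ∑ z, ∑ _e : Dir d, g (ζ z) / (2 * d) * (B - y0) := by
      refine Finset.sum_le_sum fun z _ => Finset.sum_le_sum fun e _ => ?_
      by_cases hz : g (ζ z) = 0
      · rw [hz, zero_div, zero_mul, zero_mul]
      · refine mul_le_mul_of_nonneg_left ?_ (hr0 ζ z)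
        have := hYB z e (ZRI.g_ne hg _ hz)
        linarith
    have heq : ∑ z, ∑ _e : Dir d, g (ζ z) / (2 * d) * (B - y0) =
        (∑ z, ∑ _e : Dir d, g (ζ z) / (2 * d)) * (B - y0) := by
      rw [Finset.sum_mul]
      refine Finset.sum_congr rfl fun z _ => ?_
      rw [Finset.sum_mul]
    have h6 := ZRI.sum_rate hd hg ζ
    rw [h5] at h6
    have h7 : (∑ z, ∑ _e : Dir d, g (ζ z) / (2 * d)) * B ≤ Γp * (n : ℝ) * B :=
      mul_le_mul_of_nonneg_right h6 hB
    calc _ ≤ (∑ z, ∑ _e : Dir d, g (ζ z) / (2 * d)) * (B - y0) := hle.trans_eq heq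
      _ = (-∑ z, ∑ _e : Dir d, g (ζ z) / (2 * d)) * y0 +
          (∑ z, ∑ _e : Dir d, g (ζ z) / (2 * d)) * B := by ring
      _ ≤ _ := by linarith
  · -- the initial value
    intro w hw
    obtain ⟨h1, h2, h3, h4, h5⟩ := hw
    unfold D3b_y Qg
    rw [ZRI.sg_zero, ZRI.Phi_zero, mul_one]
    have h6 := (ZRI.c1_step R hR w.2.2.2 (h3 _ (h2 h1))).1
    have h7 : (1 : ℝ) ≤ Real.exp (θ * (R - c1 w.2.2.2)) :=
      Real.one_le_exp (mul_nonneg hθ (by linarith))
    have h8 := (D3b_ind R ((w.1, w.2.1, w.2.2.1) : St d L)).2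
    linarith

end D

end ZRI
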