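import Pool.Agent.ZRI.Defs
import Pool.Agent.ZRI.A5
import Pool.Agent.ZRI.B1
import Pool.Agent.ZRI.D1

open scoped BigOperators ENNReal Topology
open MeasureTheory Filter

namespace ZRI

variable {d L : ℕ} {g : ℕ → ℝ} {Γm Γp : ℝ}

theorem D4_sum [NeZero d] (θ q : ℝ) (s : Cfg d L × Tor d L) :
    ∑ j : Tor d L × Dir d, rA g j s * (wA θ j s ^ q - 1) =
      ∑ e : Dir d, g (s.1 s.2) / (2 * d) * (gw θ s e ^ q - 1) := by
  rw [Fintype.sum_prod_type, Finset.sum_eq_single s.2]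
  · simp [rA, wA]
  · intro z _ hz
    simp [wA, hz]
  · simp

theorem D4_two [NeZero d] (θ q c : ℝ) (s : Cfg d L × Tor d L) (h : 2 ≤ s.1 s.2) :
    ∑ e : Dir d, c * (gw θ s e ^ q - 1) = c * (Real.exp (-(θ * q)) - 1) := by
  rw [Finset.sum_eq_single ((0, true) : Dir d)]
  · rw [gw, if_pos rfl, ← Real.exp_mul]
    congr 3
    ring
  · intro e _ he
    have h1 : ¬ (e = (0, false) ∧ s.1 s.2 = 1) := by omega
    rw [gw, if_neg he, if_neg h1, Real.one_rpow]
    ring
  · simp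

theorem D4_one [NeZero d] (θ q c : ℝ) (s : Cfg d L × Tor d L) (h : s.1 s.2 = 1) :
    ∑ e : Dir d, c * (gw θ s e ^ q - 1) = 2 * c * (Real.cosh (θ * q) - 1) := by
  have hne : ((0, true) : Dir d) ≠ (0, false) := by
    intro h
    have := congrArg Prod.snd h
    simp at this
  rw [Finset.sum_eq_add ((0, true) : Dir d) ((0, false) : Dir d) hne]
  · rw [gw, if_pos rfl, gw, if_neg (Ne.symm hne), if_pos ⟨rfl, h⟩, ← Real.exp_mul, ← Real.exp_mul,
      Real.cosh_eq]
    have e1 : -θ * q = -(θ * q) := by ring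
    rw [e1]
    ring
  · intro e _ he
    have h1 : ¬ (e = (0, false) ∧ s.1 s.2 = 1) := fun h2 => he.2 h2.1
    rw [gw, if_neg he.1, if_neg h1, Real.one_rpow]
    ring
  · simp
  · simp

/-- D4 -/
theorem Phi_le [NeZero d] (hg : IsRate g Γm Γp) (θ lam : ℝ) (hθ : 0 < θ) (hlam : 0 < lam)
    (p : ℝ) (hp : p = (1 - Real.exp (-θ)) / (4 * d * lam)) (hp2 : p ≤ 1 / 2) (t : ℝ) (ht : 0 ≤ t)
    (η : Cfg d L) (x : Tor d L) (hx : 1 ≤ η x) :
    Phi g θ 0 t (η, x) ≤
      Real.exp (Γp / d * (Real.cosh (2 * θ) - 1) * t) * (Phi g 0 lam t (η, x)) ^ p := by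
  have hd : (0 : ℝ) < d := by
    have := Nat.pos_of_ne_zero (NeZero.ne d)
    exact_mod_cast this
  have hexp : Real.exp (-θ) < 1 := by
    rw [Real.exp_lt_one_iff]
    linarith
  have hp0 : 0 < p := by
    rw [hp]
    exact div_pos (by linarith) (by positivity)
  have hp1 : p < 1 := by linarith
  have hplam : p * lam = (1 - Real.exp (-θ)) / (4 * d) := by
    rw [hp]
    field_simp
  have hΓp : 0 ≤ Γp := le_trans zero_le_one hg.one_le
  have hcosh : 0 ≤ Real.cosh (2 * θ) - 1 := by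
    have := Real.one_le_cosh (2 * θ)
    linarith
  have hK : 0 ≤ Γp / d * (Real.cosh (2 * θ) - 1) := mul_nonneg (div_nonneg hΓp hd.le) hcosh
  have hq1 : 1 ≤ 1 / (1 - p) := by
    rw [le_div_iff₀ (by linarith)]
    linarith
  have hq2 : 1 / (1 - p) ≤ 2 := by
    rw [div_le_iff₀ (by linarith)]
    linarith
  have hA1 : (Phi g θ 0 t (η, x)) = sg (Op (fun j s => rA g j s * wA θ j s) tA
      (fun s => -∑ j, rA g j s)) t (fun _ => 1) (η, x) := by
    rw [Phi, ZRI.Agr_op]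
    congr 2
    funext s
    simp [VA]
  have hA2 : (Phi g 0 lam t (η, x)) = sg (Op (rA g) tA
      (fun s => -∑ j, rA g j s - VA g lam s)) t (fun _ => 1) (η, x) := by
    rw [Phi, ZRI.Agr_op]
    congr 2
    funext j s
    rw [ZRI.wA_zero, mul_one]
  rw [hA1, hA2]
  refine ZRI.young (rA g) (wA θ) tA (VA g lam)
    (fun s => ∑ z, s.1 z = ∑ z, η z ∧ 1 ≤ s.1 s.2)
    ((1 + Real.exp θ) * (Γp * ((∑ z, η z : ℕ) : ℝ)) + lam * Γp * ((∑ z, η z : ℕ) : ℝ)) p
    (Γp / d * (Real.cosh (2 * θ) - 1)) ?_ ?_ ?_ ?_ ?_ hp0 hp1 hK ?_ t ht (η, x) ⟨rfl, hx⟩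
  · intro s _ j
    exact (ZRI.rA_bound hg θ lam hθ.le hlam.le s).1 j
  · intro s _ j
    exact ((ZRI.rA_bound hg θ lam hθ.le hlam.le s).2.1 j).1
  · intro s _
    exact (ZRI.rA_bound hg θ lam hθ.le hlam.le s).2.2.1
  · intro s hs j hj
    have h1 := ZRI.tA_inv hg _ s hs.1 j hj
    exact ⟨h1.1, h1.2 hs.2⟩
  · intro s hs
    obtain ⟨h1, h2, h3, h4, h5⟩ := ZRI.rA_bound hg θ lam hθ.le hlam.le s
    rw [hs.1] at h4 h5
    have h6 : ∑ j, rA g j s * (1 + wA θ j s) ≤ ∑ j, rA g j s * (1 + Real.exp θ) := by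
      refine Finset.sum_le_sum fun j _ => ?_
      exact mul_le_mul_of_nonneg_left (by linarith [(h2 j).2]) (h1 j)
    rw [← Finset.sum_mul] at h6
    have h7 : (∑ j, rA g j s) * (1 + Real.exp θ) ≤
        (Γp * ((∑ z, η z : ℕ) : ℝ)) * (1 + Real.exp θ) :=
      mul_le_mul_of_nonneg_right h4 (by positivity)
    linarith
  · intro s hs
    rw [D4_sum]
    have hgn : 0 ≤ g (s.1 s.2) := ZRI.g_nonneg hg _
    have hc : 0 ≤ g (s.1 s.2) / (2 * d) := div_nonneg hgn (by positivity)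
    rcases Nat.lt_or_ge (s.1 s.2) 2 with h2 | h2
    · have h1 : s.1 s.2 = 1 := by have := hs.2; omega
      have hV : VA g lam s = 0 := by
        rw [VA, if_neg (by omega), mul_zero]
      rw [hV, D4_one θ _ _ s h1]
      have hg1 : g (s.1 s.2) ≤ Γp := by
        have := ZRI.g_hi hg (s.1 s.2)
        rw [h1] at this ⊢
        simpa using this
      have hch : Real.cosh (θ * (1 / (1 - p))) ≤ Real.cosh (2 * θ) := by
        rw [Real.cosh_le_cosh, abs_of_nonneg (by positivity), abs_of_nonneg (by positivity)]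
        nlinarith
      have hch1 : 0 ≤ Real.cosh (θ * (1 / (1 - p))) - 1 := by
        have := Real.one_le_cosh (θ * (1 / (1 - p)))
        linarith
      have e1 : 2 * (g (s.1 s.2) / (2 * d)) = g (s.1 s.2) / d := by
        field_simp
      rw [e1]
      have h8 : g (s.1 s.2) / d * (Real.cosh (θ * (1 / (1 - p))) - 1) ≤
          Γp / d * (Real.cosh (2 * θ) - 1) := by
        refine mul_le_mul ?_ (by linarith) hch1 (div_nonneg hΓp hd.le)
        exact div_le_div_of_nonneg_right hg1 hd.le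
      have h9 : 0 ≤ g (s.1 s.2) / d * (Real.cosh (θ * (1 / (1 - p))) - 1) :=
        mul_nonneg (div_nonneg hgn hd.le) hch1
      nlinarith
    · have hV : VA g lam s = lam * g (s.1 s.2) := by
        rw [VA, if_pos h2]
      rw [hV, D4_two θ _ _ s h2]
      have h8 : Real.exp (-(θ * (1 / (1 - p)))) ≤ Real.exp (-θ) := by
        rw [Real.exp_le_exp]
        nlinarith
      have h9 : p * (lam * g (s.1 s.2)) = g (s.1 s.2) / (2 * d) * (1 - Real.exp (-θ)) * (1 / 2) := by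
        rw [← mul_assoc, hplam]
        field_simp
        ring
      rw [h9]
      have h10 : g (s.1 s.2) / (2 * d) * (Real.exp (-(θ * (1 / (1 - p)))) - 1) ≤
          - (g (s.1 s.2) / (2 * d) * (1 - Real.exp (-θ))) := by
        have := mul_le_mul_of_nonneg_left h8 hc
        linarith
      have h11 : 0 ≤ g (s.1 s.2) / (2 * d) * (1 - Real.exp (-θ)) :=
        mul_nonneg hc (by linarith)
      nlinarith

end ZRI
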