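import Pool.Agent.ZRI.Defs
import Pool.Agent.ZRI.B4
import Pool.Agent.ZRI.C3
import Pool.Agent.ZRI.C6a
import Pool.Agent.ZRI.C6b
import Pool.Agent.ZRI.D2
import Pool.Agent.ZRI.D3b
import Pool.Agent.ZRI.D4
import Pool.Agent.ZRI.D14
import Pool.Agent.ZRI.D15
import Pool.Agent.ZRI.D16

open scoped BigOperators ENNReal Topology
open MeasureTheory Filter

namespace ZRI

variable {d L : ℕ} {g : ℕ → ℝ} {Γm Γp : ℝ}

theorem D17_ind_nonneg (R : ℕ) (s : St d L) :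
    0 ≤ ((good d L R).indicator (1 : St d L → ℝ)) s := by
  classical
  rw [Set.indicator_apply]
  split_ifs
  · simp
  · exact le_refl _

theorem D17_ind_le (R : ℕ) (s : St d L) :
    ((good d L R).indicator (1 : St d L → ℝ)) s ≤ 1 := by
  classical
  rw [Set.indicator_apply]
  split_ifs
  · simp
  · exact zero_le_one

theorem D17_mem (hd : 1 ≤ d) (hg : IsRate g Γm Γp) (R : ℕ) (t : ℝ) (ht : 0 ≤ t)
    (s : St d L) : 0 ≤ Qg g R t s ∧ Qg g R t s ≤ 1 :=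
  ZRI.Gen_mem hd hg 0 _ (D17_ind_nonneg R) (D17_ind_le R) t ht s

theorem D17_sec_mem (n : ℕ) (η : Cfg d L) : η ∈ sec d L n ↔ ∑ x, η x = n := by
  unfold sec
  rw [Finset.mem_piAntidiag]
  simp

/-- the pointwise bound -/
theorem D17_point [NeZero d] (hd : 3 ≤ d) (hg : IsRate g Γm Γp) (R : ℕ)
    (hR : 2 * (R + 1) < L + 1) (t : ℝ) (ht : 0 ≤ t) (θ p : ℝ) (hθ : 0 < θ)
    (hlam : 0 < lamv Γm Γp)
    (hp : p = (1 - Real.exp (-θ)) / (4 * d * lamv Γm Γp)) (hp2 : p ≤ 1 / 2) (η : Cfg d L) :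
    Qg g R t (ini 0 η) ≤ Real.exp (θ * R + Γp / d * (Real.cosh (2 * θ) - 1) * t) *
      (if 1 ≤ η 0 then (Phi g 0 (lamv Γm Γp) t (η, 0)) ^ p else 0) := by
  by_cases h0 : 1 ≤ η 0
  · rw [if_pos h0]
    have h1 : (ini 0 η : St d L) = (η, {0}, {0}) := by
      unfold ini
      simp [h0]
    have hc0 : c1 (0 : Tor d L) = 0 := by
      unfold c1
      simp
    have h2 := ZRI.Qg_le hg R hR θ hθ.le t ht η {0} {0} 0 (Finset.mem_singleton_self _)
      (Finset.Subset.refl _) (by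
        intro y hy
        rw [Finset.mem_singleton] at hy
        rw [hy]
        unfold nrm
        simp) h0
    have h3 := ZRI.Phi_le hg θ (lamv Γm Γp) hθ hlam p hp hp2 t ht η 0 h0
    rw [h1]
    rw [hc0, sub_zero] at h2
    calc Qg g R t (η, {0}, {0}) ≤ Real.exp (θ * R) * Phi g θ 0 t (η, 0) := h2
      _ ≤ Real.exp (θ * R) * (Real.exp (Γp / d * (Real.cosh (2 * θ) - 1) * t) *
          (Phi g 0 (lamv Γm Γp) t (η, 0)) ^ p) := by
        exact mul_le_mul_of_nonneg_left h3 (Real.exp_pos _).le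
      _ = _ := by rw [Real.exp_add]; ring
  · rw [if_neg h0, mul_zero]
    have h1 : (ini 0 η : St d L) = (η, ∅, ∅) := by
      unfold ini
      simp [h0]
    rw [h1, ZRI.Qg_empty]

theorem D17_high [NeZero d] (hd : 3 ≤ d) (hg : IsRate g Γm Γp) {φ : ℝ} (hφ : 0 < φ) (k : ℕ)
    (hk : L + 1 = 2 ^ k) (hk1 : 1 ≤ k) (t : ℝ) (ht : 0 ≤ t) (c ρ₀ : ℝ) (hc0 : 0 ≤ c)
    (hc : c * (4 + 1024 * (d : ℝ) ^ 3) ≤ Γm * ρ₀) (T : Finset (Cfg d L))
    (hT : ∀ η ∈ T, ρ₀ * ((L : ℝ) + 1) ^ d + 1 < ((∑ x, η x : ℕ) : ℝ)) :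
    ∑ η ∈ T, mu g φ η * η 0 * (Phi g 0 (lamv Γm Γp) t (η, 0)) ^ 2 ≤
      Real.exp (-(2 * c * t)) * dens g φ := by
  classical
  set A : ℝ := ρ₀ * ((L : ℝ) + 1) ^ d + 1 with hA
  set N : ℕ := T.sup (fun η => ∑ x, η x) with hN
  set S : Finset ℕ := (Finset.range (N + 1)).filter (fun m => A < (m : ℝ) ∧ 1 ≤ m) with hS
  set U : Finset (Cfg d L) := S.biUnion (fun m => sec d L m) with hU
  have hρ : 0 ≤ c * (4 + 1024 * (d : ℝ) ^ 3) := by positivity
  have hΓ := hg.pos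
  have hA1 : 1 ≤ A := by
    have h1 : 0 ≤ Γm * ρ₀ := le_trans hρ hc
    have h2 : 0 ≤ ρ₀ := by
      by_contra h
      push_neg at h
      have : Γm * ρ₀ < 0 := mul_neg_of_pos_of_neg hΓ h
      linarith
    have : 0 ≤ ρ₀ * ((L : ℝ) + 1) ^ d := by positivity
    linarith
  have hTU : T ⊆ U := by
    intro η hη
    rw [hU, Finset.mem_biUnion]
    refine ⟨∑ x, η x, ?_, ?_⟩
    · rw [hS, Finset.mem_filter, Finset.mem_range]
      have h1 := hT η hη
      refine ⟨?_, h1, ?_⟩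
      · have : ∑ x, η x ≤ N := Finset.le_sup (f := fun η : Cfg d L => ∑ x, η x) hη
        omega
      · have h2 : (1 : ℝ) < ((∑ x, η x : ℕ) : ℝ) := lt_of_le_of_lt hA1 h1
        have h3 : 1 < ∑ x, η x := by exact_mod_cast h2
        omega
    · rw [D17_sec_mem]
  have hdisj : ∀ a ∈ S, ∀ b ∈ S, a ≠ b → Disjoint (sec d L a) (sec d L b) := by
    intro a _ b _ hab
    rw [Finset.disjoint_left]
    intro η h1 h2
    rw [D17_sec_mem] at h1 h2
    exact hab (h1.symm.trans h2)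
  have hpw : (S : Set ℕ).PairwiseDisjoint (fun m => sec d L m) := by
    intro a ha b hb hab
    exact hdisj a ha b hb hab
  have hmu : ∀ η : Cfg d L, 0 ≤ mu g φ η := fun η => (ZRI.mu_pos hg hφ η).le
  calc ∑ η ∈ T, mu g φ η * η 0 * (Phi g 0 (lamv Γm Γp) t (η, 0)) ^ 2
      ≤ ∑ η ∈ U, mu g φ η * η 0 * (Phi g 0 (lamv Γm Γp) t (η, 0)) ^ 2 := by
        refine Finset.sum_le_sum_of_subset_of_nonneg hTU fun η _ _ => ?_
        have := hmu η
        positivity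
    _ = ∑ m ∈ S, ∑ η ∈ sec d L m, mu g φ η * η 0 * (Phi g 0 (lamv Γm Γp) t (η, 0)) ^ 2 :=
        Finset.sum_biUnion hpw
    _ ≤ ∑ m ∈ S, Real.exp (-(2 * c * t)) * ∑ η ∈ sec d L m, mu g φ η * η 0 := by
        refine Finset.sum_le_sum fun m hm => ?_
        rw [hS, Finset.mem_filter] at hm
        obtain ⟨_, hm2, hm3⟩ := hm
        obtain ⟨n, rfl⟩ : ∃ n, m = n + 1 := ⟨m - 1, by omega⟩
        refine ZRI.energy_decay0 hd hg hφ k hk hk1 n c hc0 ?_ t ht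
        have h1 : ρ₀ * ((L : ℝ) + 1) ^ d ≤ n := by
          rw [hA] at hm2
          push_cast at hm2
          linarith
        have h2 : (0 : ℝ) ≤ ((L : ℝ) + 1) ^ d := by positivity
        calc c * ((L : ℝ) + 1) ^ d * (4 + 1024 * (d : ℝ) ^ 3)
            = (c * (4 + 1024 * (d : ℝ) ^ 3)) * ((L : ℝ) + 1) ^ d := by ring
          _ ≤ (Γm * ρ₀) * ((L : ℝ) + 1) ^ d := by gcongr
          _ = Γm * (ρ₀ * ((L : ℝ) + 1) ^ d) := by ring
          _ ≤ Γm * n := by gcongr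
    _ = Real.exp (-(2 * c * t)) * ∑ η ∈ U, mu g φ η * η 0 := by
        rw [← Finset.mul_sum, hU, Finset.sum_biUnion hpw]
    _ ≤ Real.exp (-(2 * c * t)) * dens g φ :=
        mul_le_mul_of_nonneg_left (ZRI.mu_first hg hφ U 0) (Real.exp_pos _).le

/-- D17 -/
theorem prb_good_le [NeZero d] (hd : 3 ≤ d) (hg : IsRate g Γm Γp) {φ : ℝ} (hφ : 0 < φ) (k : ℕ)
    (hk : L + 1 = 2 ^ k) (hk1 : 1 ≤ k) (R : ℕ) (hR : 2 * (R + 1) < L + 1) (t : ℝ) (ht : 0 ≤ t)
    (θ p c ρ₀ s : ℝ) (hθ : 0 < θ) (hp : p = (1 - Real.exp (-θ)) / (4 * d * lamv Γm Γp))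
    (hp2 : p ≤ 1 / 2) (hc0 : 0 ≤ c) (hρ : 0 < ρ₀) (hc : c * (4 + 1024 * (d : ℝ) ^ 3) ≤ Γm * ρ₀)
    (hs : 0 < s) :
    prb d L g φ 0 t (good d L R) ≤
      Real.exp (θ * R + Γp / d * (Real.cosh (2 * θ) - 1) * t - c * p * t) *
        (dens g φ) ^ (p / 2) +
      Real.exp (s * (ρ₀ * ((L : ℝ) + 1) ^ d + 1)) *
        (∑' n : ℕ, m1 g φ n * Real.exp (-(s * n))) ^ ((L + 1) ^ d) := by
  classical
  obtain ⟨-, -, hm1, -, hdens⟩ := ZRI.m1_sum hg hφ
  have hlam : 0 < lamv Γm Γp := by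
    unfold lamv
    have h1 := hg.pos
    have h2 : 0 < Γp := lt_of_lt_of_le one_pos hg.one_le
    positivity
  have hp0 : 0 < p := by
    rw [hp]
    have h1 : Real.exp (-θ) < 1 := by
      rw [Real.exp_lt_one_iff]
      linarith
    have h2 : (0 : ℝ) < d := by exact_mod_cast (by omega : 0 < d)
    have h3 : 0 < 1 - Real.exp (-θ) := by linarith
    positivity
  have hmu : ∀ η : Cfg d L, 0 ≤ mu g φ η := fun η => (ZRI.mu_pos hg hφ η).le
  have hM0 : 0 ≤ ∑' n : ℕ, m1 g φ n * Real.exp (-(s * n)) :=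
    tsum_nonneg fun n => mul_nonneg (hm1 n).le (Real.exp_pos _).le
  set A : ℝ := ρ₀ * ((L : ℝ) + 1) ^ d + 1 with hA
  set K : ℝ := θ * R + Γp / d * (Real.cosh (2 * θ) - 1) * t with hK
  have hB : 0 ≤ Real.exp (K - c * p * t) * (dens g φ) ^ (p / 2) +
      Real.exp (s * A) * (∑' n : ℕ, m1 g φ n * Real.exp (-(s * n))) ^ ((L + 1) ^ d) := by
    have := Real.rpow_nonneg hdens.le (p / 2)
    positivity
  show (∑' η : Cfg d L, mu g φ η * Qg g R t (ini 0 η)) ≤ _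
  refine tsum_le_of_sum_le' hB fun T => ?_
  rw [← Finset.sum_filter_add_sum_filter_not T (fun η => ((∑ x, η x : ℕ) : ℝ) ≤ A), add_comm]
  refine add_le_add ?_ ?_
  · set T' := T.filter (fun η => ¬ ((∑ x, η x : ℕ) : ℝ) ≤ A) with hT'
    have h1 : ∑ η ∈ T', mu g φ η * Qg g R t (ini 0 η) ≤
        Real.exp K * ∑ η ∈ T', mu g φ η *
          (if 1 ≤ η 0 then (Phi g 0 (lamv Γm Γp) t (η, 0)) ^ p else 0) := by
      rw [Finset.mul_sum]
      refine Finset.sum_le_sum fun η _ => ?_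
      have := D17_point hd hg R hR t ht θ p hθ hlam hp hp2 η
      calc mu g φ η * Qg g R t (ini 0 η) ≤ mu g φ η * (Real.exp K *
            (if 1 ≤ η 0 then (Phi g 0 (lamv Γm Γp) t (η, 0)) ^ p else 0)) :=
            mul_le_mul_of_nonneg_left this (hmu η)
        _ = _ := by ring
    have h2 := ZRI.holder T' (fun η => mu g φ η) (fun η => Phi g 0 (lamv Γm Γp) t (η, 0))
      (fun η _ => hmu η)
      (fun η _ => ZRI.Phi_nonneg hg 0 (lamv Γm Γp) le_rfl hlam.le t ht (η, 0)) p hp0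
      (by linarith)
    have h3 : ∑ η ∈ T', mu g φ η * η 0 * (Phi g 0 (lamv Γm Γp) t (η, 0)) ^ 2 ≤
        Real.exp (-(2 * c * t)) * dens g φ := by
      refine D17_high hd hg hφ k hk hk1 t ht c ρ₀ hc0 hc T' fun η hη => ?_
      rw [hT', Finset.mem_filter] at hη
      exact not_le.mp hη.2
    have h4 : 0 ≤ ∑ η ∈ T', mu g φ η * η 0 * (Phi g 0 (lamv Γm Γp) t (η, 0)) ^ 2 :=
      Finset.sum_nonneg fun η _ => by
        have := hmu η
        positivity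
    have h5 : (∑ η ∈ T', mu g φ η * η 0 * (Phi g 0 (lamv Γm Γp) t (η, 0)) ^ 2) ^ (p / 2) ≤
        Real.exp (-(c * p * t)) * (dens g φ) ^ (p / 2) := by
      calc _ ≤ (Real.exp (-(2 * c * t)) * dens g φ) ^ (p / 2) :=
            Real.rpow_le_rpow h4 h3 (by positivity)
        _ = _ := by
          rw [Real.mul_rpow (Real.exp_pos _).le hdens.le, ← Real.exp_mul]
          congr 2
          ring
    have h6 : (∑ η ∈ T', mu g φ η) ^ (1 - p / 2) ≤ 1 := by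
      refine Real.rpow_le_one (Finset.sum_nonneg fun η _ => hmu η) (ZRI.mu_le_one hg hφ T') ?_
      linarith
    have h7 : 0 ≤ (∑ η ∈ T', mu g φ η) ^ (1 - p / 2) :=
      Real.rpow_nonneg (Finset.sum_nonneg fun η _ => hmu η) _
    calc ∑ η ∈ T', mu g φ η * Qg g R t (ini 0 η)
        ≤ Real.exp K * ∑ η ∈ T', mu g φ η *
          (if 1 ≤ η 0 then (Phi g 0 (lamv Γm Γp) t (η, 0)) ^ p else 0) := h1
      _ ≤ Real.exp K * ((∑ η ∈ T', mu g φ η * η 0 *
            (Phi g 0 (lamv Γm Γp) t (η, 0)) ^ 2) ^ (p / 2) *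
            (∑ η ∈ T', mu g φ η) ^ (1 - p / 2)) :=
          mul_le_mul_of_nonneg_left h2 (Real.exp_pos _).le
      _ ≤ Real.exp K * ((Real.exp (-(c * p * t)) * (dens g φ) ^ (p / 2)) * 1) := by
          refine mul_le_mul_of_nonneg_left ?_ (Real.exp_pos _).le
          refine mul_le_mul h5 h6 h7 ?_
          have := Real.rpow_nonneg hdens.le (p / 2)
          positivity
      _ = Real.exp (K - c * p * t) * (dens g φ) ^ (p / 2) := by
          rw [mul_one, ← mul_assoc, ← Real.exp_add, sub_eq_add_neg]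
  · have h1 := ZRI.low_sum hg hφ s A hs (T.filter (fun η => ((∑ x, η x : ℕ) : ℝ) ≤ A))
      (fun η hη => (Finset.mem_filter.mp hη).2)
    refine le_trans (Finset.sum_le_sum fun η _ => ?_) h1
    have h2 := D17_mem (d := d) (by omega) hg R t ht (ini 0 η)
    calc mu g φ η * Qg g R t (ini 0 η) ≤ mu g φ η * 1 :=
          mul_le_mul_of_nonneg_left h2.2 (hmu η)
      _ = mu g φ η := mul_one _

end ZRI
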