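import Pool.Agent.ZRI.Defs

open scoped BigOperators ENNReal Topology
open MeasureTheory Filter

namespace ZRI

variable {d L : ℕ} {g : ℕ → ℝ} {Γm Γp : ℝ}

theorem D18_cosh {θ : ℝ} (hθ : 0 < θ) (hθ2 : θ ≤ 1 / 2) :
    Real.cosh (2 * θ) - 1 ≤ 4 * θ ^ 2 := by
  have h1 := Real.cosh_le_exp_half_sq (2 * θ)
  have h2 : (2 * θ) ^ 2 / 2 = 2 * θ ^ 2 := by ring
  rw [h2] at h1
  have h3 : |2 * θ ^ 2| = 2 * θ ^ 2 := abs_of_nonneg (by positivity)
  have h4 : |2 * θ ^ 2| ≤ 1 := by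
    rw [h3]
    nlinarith
  have h5 := Real.abs_exp_sub_one_le h4
  rw [h3] at h5
  have h6 := le_abs_self (Real.exp (2 * θ ^ 2) - 1)
  linarith

theorem D18_exp {θ : ℝ} (hθ : 0 < θ) (hθ2 : θ ≤ 1 / 2) : θ / 2 ≤ 1 - Real.exp (-θ) := by
  have h1 := Real.add_one_le_exp θ
  have h2 : Real.exp (-θ) * Real.exp θ = 1 := by
    rw [← Real.exp_add, neg_add_cancel, Real.exp_zero]
  have h3 := Real.exp_pos (-θ)
  have h4 : Real.exp (-θ) * (θ + 1) ≤ 1 := by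
    have h5 := mul_le_mul_of_nonneg_left h1 h3.le
    rw [h2] at h5
    exact h5
  nlinarith

theorem D18_small {c lam : ℝ} (hd : 1 ≤ d) (hc : 0 < c) (hlam : 0 < lam) (hΓ : 0 < Γp)
    {θ : ℝ} (hθ : 0 < θ) (hθ2 : θ ≤ 1 / 2) (hθ3 : θ ≤ c / (64 * lam * Γp)) :
    0 < c * ((1 - Real.exp (-θ)) / (4 * d * lam)) - Γp / d * (Real.cosh (2 * θ) - 1) := by
  have hd0 : (0 : ℝ) < d := by exact_mod_cast hd
  have h1 := D18_cosh hθ hθ2
  have h2 := D18_exp hθ hθ2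
  have h3 : c * (θ / 2 / (4 * d * lam)) ≤ c * ((1 - Real.exp (-θ)) / (4 * d * lam)) := by
    gcongr
  have h4 : Γp / d * (Real.cosh (2 * θ) - 1) ≤ Γp / d * (4 * θ ^ 2) := by
    gcongr
  have h5 : θ * (64 * lam * Γp) ≤ c := by
    rwa [le_div_iff₀ (by positivity)] at hθ3
  have h6 : 0 < c * (θ / 2 / (4 * d * lam)) - Γp / d * (4 * θ ^ 2) := by
    have e : c * (θ / 2 / (4 * d * lam)) - Γp / d * (4 * θ ^ 2) =
        θ * (c - 32 * lam * Γp * θ) / (8 * d * lam) := by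
      field_simp
      ring
    rw [e]
    have : 0 < c - 32 * lam * Γp * θ := by
      have : 0 < 32 * lam * Γp * θ := by positivity
      nlinarith
    positivity
  linarith

theorem D18_term (s ρ₀ M : ℝ) :
    Real.exp (s * (ρ₀ * ((L : ℝ) + 1) ^ d + 1)) * M ^ ((L + 1) ^ d) =
      Real.exp s * (Real.exp (s * ρ₀) * M) ^ ((L + 1) ^ d) := by
  have e : s * (ρ₀ * ((L : ℝ) + 1) ^ d + 1) = s + (((L + 1) ^ d : ℕ) : ℝ) * (s * ρ₀) := by
    push_cast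
    ring
  rw [e, Real.exp_add, Real.exp_nat_mul, mul_pow, mul_assoc]

theorem D18_lim (hd : 1 ≤ d) (s q : ℝ) (hq0 : 0 ≤ q) (hq1 : q < 1) :
    Tendsto (fun L : ℕ => Real.exp s * q ^ ((L + 1) ^ d)) atTop (𝓝 0) := by
  have h1 : Tendsto (fun L : ℕ => (L + 1) ^ d) atTop atTop :=
    (tendsto_pow_atTop (by omega)).comp (tendsto_add_atTop_nat 1)
  have h2 := ((tendsto_pow_atTop_nhds_zero_of_lt_one hq0 hq1).comp h1).const_mul (Real.exp s)
  simpa using h2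

end ZRI
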