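import Pool.Agent.ZRI.Defs

/-! # [ZRI-D19] almost sure lower bound -/

open scoped BigOperators ENNReal Topology
open MeasureTheory Filter

namespace ZRI

section D

/-- D19 -/
theorem as_lower {Ω : Type*} [MeasurableSpace Ω] (P : Measure Ω) [IsProbabilityMeasure P]
    (r : ℝ → Ω → ℕ) (al : ℝ → Set Ω) (hr : ∀ ω s t, s ≤ t → r s ω ≤ r t ω)
    (hm : ∀ t, Measurable (r t)) (ha : ∀ t, MeasurableSet (al t)) (K θ ε : ℝ)
    (hθ : 0 < θ) (hε : 0 < ε)
    (h : ∀ t, 0 ≤ t → ∀ R : ℕ,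
      P.real (al t ∩ {ω | r t ω ≤ R}) ≤ K * Real.exp (θ * R - ε * t)) :
    ∀ᵐ ω ∂P, (∀ t, 0 ≤ t → ω ∈ al t) → ∀ᶠ t : ℝ in atTop, ε / (4 * θ) * t ≤ (r t ω : ℝ) := by
  have hK : 0 ≤ K := by
    have h1 := h 0 le_rfl 0
    have h2 : 0 ≤ P.real (al 0 ∩ {ω | r 0 ω ≤ 0}) := measureReal_nonneg
    simp only [Nat.cast_zero, mul_zero, sub_zero, Real.exp_zero, mul_one] at h1
    linarith
  set A : ℕ → Set Ω := fun n => al (n : ℝ) ∩ {ω | r (n : ℝ) ω ≤ ⌊ε * n / (2 * θ)⌋₊} with hA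
  have hAn : ∀ n : ℕ, P.real (A n) ≤ K * (Real.exp (-(ε / 2))) ^ n := by
    intro n
    refine (h n (Nat.cast_nonneg n) _).trans ?_
    refine mul_le_mul_of_nonneg_left ?_ hK
    rw [← Real.exp_nat_mul]
    refine Real.exp_le_exp.2 ?_
    have h1 : (⌊ε * n / (2 * θ)⌋₊ : ℝ) ≤ ε * n / (2 * θ) := Nat.floor_le (by positivity)
    have h2 : θ * (⌊ε * n / (2 * θ)⌋₊ : ℝ) ≤ ε * n / 2 := by
      calc θ * (⌊ε * n / (2 * θ)⌋₊ : ℝ) ≤ θ * (ε * n / (2 * θ)) :=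
            mul_le_mul_of_nonneg_left h1 hθ.le
        _ = ε * n / 2 := by field_simp
    linarith
  have hsum : Summable fun n : ℕ => K * (Real.exp (-(ε / 2))) ^ n := by
    refine (summable_geometric_of_lt_one (Real.exp_pos _).le ?_).mul_left K
    rw [Real.exp_lt_one_iff]
    linarith
  have hfin : ∑' n, P (A n) ≠ ∞ := by
    have h1 : ∀ n, P (A n) ≤ ENNReal.ofReal (K * (Real.exp (-(ε / 2))) ^ n) := by
      intro n
      rw [← ENNReal.ofReal_toReal (measure_ne_top P (A n))]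
      exact ENNReal.ofReal_le_ofReal (hAn n)
    refine ne_top_of_le_ne_top ?_ (ENNReal.tsum_le_tsum h1)
    exact hsum.tsum_ofReal_ne_top
  have hBC := ae_eventually_notMem hfin
  filter_upwards [hBC] with ω hω hal
  obtain ⟨n0, hn0⟩ := eventually_atTop.1 hω
  refine eventually_atTop.2 ⟨max 2 (n0 + 1), fun t ht => ?_⟩
  have ht2 : 2 ≤ t := (le_max_left _ _).trans ht
  have htn : (n0 : ℝ) + 1 ≤ t := (le_max_right _ _).trans ht
  set n : ℕ := ⌊t⌋₊ with hn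
  have hnt : (n : ℝ) ≤ t := Nat.floor_le (by linarith)
  have hnt' : t < n + 1 := Nat.lt_floor_add_one t
  have hnn : n0 ≤ n := by
    rw [hn, Nat.le_floor_iff (by linarith)]
    linarith
  have h3 := hn0 n hnn
  have h4 : ⌊ε * n / (2 * θ)⌋₊ < r (n : ℝ) ω := by
    by_contra hcon
    exact h3 ⟨hal n (Nat.cast_nonneg n), not_lt.1 hcon⟩
  have h5 : ε * n / (2 * θ) < r (n : ℝ) ω := (Nat.floor_lt (by positivity)).1 h4
  have h6 : (r (n : ℝ) ω : ℝ) ≤ r t ω := by exact_mod_cast hr ω n t hnt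
  have h7 : ε / (4 * θ) * t ≤ ε * n / (2 * θ) := by
    rw [div_mul_eq_mul_div, div_le_div_iff₀ (by positivity) (by positivity)]
    have h8 : t ≤ 2 * n := by linarith
    nlinarith [mul_pos hε hθ]
  linarith

end D

end ZRI
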