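import Pool.Agent.ZRI.Model

/-!
# Infection in a zero-range environment on the torus: auxiliary definitions for the proofs
-/

open scoped BigOperators ENNReal Topology
open MeasureTheory Filter

noncomputable section

namespace ZRI

/-- the torus of side `L + 1` -/
abbrev Tor (d L : ℕ) := Fin d → ZMod (L + 1)

/-- configurations: number of particles at each site -/
abbrev Cfg (d L : ℕ) := Tor d L → ℕ

/-- states `(η, I, J)`: configuration, sites whose particles are infected, sites that have been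
occupied by an infected particle so far -/
abbrev St (d L : ℕ) := Cfg d L × Finset (Tor d L) × Finset (Tor d L)

variable {d L : ℕ}

/-- the unit vector of a direction -/
def stp (e : Dir d) : Tor d L := Pi.single e.1 (if e.2 then 1 else -1)

/-- the `ℓ¹` distance from the origin -/
def nrm (x : Tor d L) : ℕ := ∑ i, (x i).valMinAbs.natAbs

/-- one particle moves from `x` to `y` -/
def mv (η : Cfg d L) (x y : Tor d L) : Cfg d L := η - Pi.single x 1 + Pi.single y 1

/-- the new set of infected sites before instantaneous healing -/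
def spr (η : Cfg d L) (I : Finset (Tor d L)) (x y : Tor d L) : Finset (Tor d L) :=
  if x ∈ I then insert y (if η x = 1 then I.erase x else I) else I

/-- a particle jumps from `x` to `y`; if `δ = ∞`, every infected particle that is alone at its site
after the jump heals at once -/
def jmp (δ : ℝ≥0∞) (s : St d L) (x y : Tor d L) : St d L :=
  (mv s.1 x y,
    if δ = ⊤ then (spr s.1 s.2.1 x y).filter (fun z => 2 ≤ mv s.1 x y z) else spr s.1 s.2.1 x y,
    if x ∈ s.2.1 then insert y s.2.2 else s.2.2)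

/-- the infected particle at `x` heals -/
def heal (s : St d L) (x : Tor d L) : St d L := (s.1, s.2.1.erase x, s.2.2)

/-- the generator: a site holding `n` particles sends a particle to each of its `2d` neighbours at
rate `g n / (2d)`; an infected particle alone at its site heals at rate `δ` (if `δ < ∞`) -/
def Gen (g : ℕ → ℝ) (δ : ℝ≥0∞) (F : St d L → ℝ) (s : St d L) : ℝ :=
  (∑ x, ∑ e : Dir d, g (s.1 x) / (2 * d) * (F (jmp δ s x (x + stp e)) - F s)) +
    ∑ x ∈ s.2.1.filter (fun x => s.1 x = 1), δ.toReal * (F (heal s x) - F s)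

/-- the product measure with fugacity `φ` -/
def mu (g : ℕ → ℝ) (φ : ℝ) (η : Cfg d L) : ℝ := ∏ x, m1 g φ (η x)

/-- the initial state: the particles at the origin are infected (for `δ = ∞` an infected particle
alone at the origin heals at once) -/
def ini (δ : ℝ≥0∞) (η : Cfg d L) : St d L :=
  (η, if 1 ≤ η 0 ∧ (δ = ⊤ → 2 ≤ η 0) then {0} else ∅, if 1 ≤ η 0 then {0} else ∅)

/-- the probability on the torus of side `L + 1` that the state at time `t` belongs to `A` -/
def prb (d L : ℕ) (g : ℕ → ℝ) (φ : ℝ) (δ : ℝ≥0∞) (t : ℝ) (A : Set (St d L)) : ℝ :=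
  ∑' η : Cfg d L, mu g φ η * sg (Gen g δ) t (A.indicator 1) (ini δ η)

/-- the front is at distance more than `R` from the origin -/
def bad (d L R : ℕ) : Set (St d L) := {s | ∃ x ∈ s.2.2, R < nrm x}

/-- some particle is infected and the front is at distance at most `R` from the origin -/
def good (d L R : ℕ) : Set (St d L) := {s | s.2.1.Nonempty ∧ ∀ x ∈ s.2.2, nrm x ≤ R}

/-! ### Auxiliary definitions for the proofs -/

/-- jump-type operators -/
def Op {S ι : Type*} [Fintype ι] (r : ι → S → ℝ) (τ : ι → S → S) (q : S → ℝ) (F : S → ℝ) (s : S) :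
    ℝ := ∑ j, r j s * F (τ j s) + q s * F s

/-- configurations with `n` particles -/
def sec (d L n : ℕ) : Finset (Cfg d L) := Finset.univ.piAntidiag n

/-- the probability that the front is beyond `R` at time `t` -/
def Qb (g : ℕ → ℝ) (δ : ℝ≥0∞) (R : ℕ) (t : ℝ) (s : St d L) : ℝ :=
  sg (Gen g δ) t ((bad d L R).indicator 1) s

/-- the same for a single infected site `x` with one added particle, no healing -/
def Gf (g : ℕ → ℝ) (R : ℕ) (t : ℝ) (η : Cfg d L) (x : Tor d L) : ℝ :=
  Qb g 0 R t (η + Pi.single x 1, {x}, {x})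

/-- the probability that the infection is alive and the front is within `R` at time `t`, no
healing -/
def Qg (g : ℕ → ℝ) (R : ℕ) (t : ℝ) (s : St d L) : ℝ :=
  sg (Gen g 0) t ((good d L R).indicator 1) s

/-- the growth constant of the upper bound -/
def kap (φ Γm Γp : ℝ) : ℝ := Real.exp 1 * (Γp + φ) + Γp * φ / Γm

/-- new position of the greedy particle when a particle leaves its site in direction `e` -/
def gx [NeZero d] (s : Cfg d L × Tor d L) (e : Dir d) : Tor d L :=
  if e = (0, true) ∨ s.1 s.2 = 1 then s.2 + stp e else s.2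

/-- exponential weight of the displacement of the greedy particle -/
def gw [NeZero d] (θ : ℝ) (s : Cfg d L × Tor d L) (e : Dir d) : ℝ :=
  if e = (0, true) then Real.exp (-θ)
  else if e = (0, false) ∧ s.1 s.2 = 1 then Real.exp θ else 1

/-- the weighted generator of the greedy particle -/
def Agr [NeZero d] (g : ℕ → ℝ) (θ lam : ℝ) (F : Cfg d L × Tor d L → ℝ)
    (s : Cfg d L × Tor d L) : ℝ :=
  (∑ z, ∑ e : Dir d, g (s.1 z) / (2 * d) *
    ((if z = s.2 then gw θ s e * F (mv s.1 z (z + stp e), gx s e)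
      else F (mv s.1 z (z + stp e), s.2)) - F s)) -
    lam * (if 2 ≤ s.1 s.2 then g (s.1 s.2) else 0) * F s

/-- the weighted semigroup of the greedy particle applied to `1` -/
def Phi [NeZero d] (g : ℕ → ℝ) (θ lam t : ℝ) (s : Cfg d L × Tor d L) : ℝ :=
  sg (Agr g θ lam) t (fun _ => 1) s

/-- first coordinate of a site -/
def c1 [NeZero d] (x : Tor d L) : ℝ := ((x 0).valMinAbs : ℝ)

/-- gradient energy of a function on the torus -/
def En (v : Tor d L → ℝ) : ℝ := ∑ z, ∑ e : Dir d, (v (z + stp e) - v z) ^ 2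

/-- rates of the moves of the infection -/
def rG (g : ℕ → ℝ) (δ : ℝ≥0∞) (j : (Tor d L × Dir d) ⊕ Tor d L) (s : St d L) : ℝ :=
  match j with
  | .inl p => g (s.1 p.1) / (2 * d)
  | .inr x => if x ∈ s.2.1 ∧ s.1 x = 1 then δ.toReal else 0

/-- the moves of the infection -/
def tG (δ : ℝ≥0∞) (j : (Tor d L × Dir d) ⊕ Tor d L) (s : St d L) : St d L :=
  match j with
  | .inl p => jmp δ s p.1 (p.1 + stp p.2)
  | .inr x => heal s x

/-- rates of the moves of the greedy particle -/
def rA (g : ℕ → ℝ) (j : Tor d L × Dir d) (s : Cfg d L × Tor d L) : ℝ := g (s.1 j.1) / (2 * d)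

/-- weights of the moves of the greedy particle -/
def wA [NeZero d] (θ : ℝ) (j : Tor d L × Dir d) (s : Cfg d L × Tor d L) : ℝ :=
  if j.1 = s.2 then gw θ s j.2 else 1

/-- the moves of the greedy particle -/
def tA [NeZero d] (j : Tor d L × Dir d) (s : Cfg d L × Tor d L) : Cfg d L × Tor d L :=
  (mv s.1 j.1 (j.1 + stp j.2), if j.1 = s.2 then gx s j.2 else s.2)

/-- the killing rate of the greedy particle -/
def VA (g : ℕ → ℝ) (lam : ℝ) (s : Cfg d L × Tor d L) : ℝ :=
  lam * (if 2 ≤ s.1 s.2 then g (s.1 s.2) else 0)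

/-- Dirichlet form of the other particles -/
def D1 (g : ℕ → ℝ) (φ : ℝ) (n : ℕ) (F : Cfg d L → Tor d L → ℝ) : ℝ :=
  ∑ ξ ∈ sec d L n, ∑ x, φ * mu g φ ξ * ξ x * (En (fun z => F (ξ + Pi.single z 1) x) / (4 * d))

/-- the weight of the states in which the tagged particle has company -/
def N0 (g : ℕ → ℝ) (φ : ℝ) (n : ℕ) (F : Cfg d L → Tor d L → ℝ) : ℝ :=
  ∑ ξ ∈ sec d L n, ∑ x, φ * mu g φ ξ * ξ x * (F (ξ + Pi.single x 1) x) ^ 2

/-- one of the two companions of `N0` after a jump -/
def Ta (g : ℕ → ℝ) (φ : ℝ) (n : ℕ) (F : Cfg d L → Tor d L → ℝ) : ℝ :=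
  ∑ ξ ∈ sec d L n, ∑ x, φ * mu g φ ξ * ξ x *
    ((∑ e : Dir d, (F (ξ + Pi.single (x + stp e) 1) x) ^ 2) / (2 * d))

/-- the other companion of `N0` after a jump -/
def Tb (g : ℕ → ℝ) (φ : ℝ) (n : ℕ) (F : Cfg d L → Tor d L → ℝ) : ℝ :=
  ∑ ξ ∈ sec d L n, ∑ x, φ * mu g φ ξ * ξ x *
    ((∑ e : Dir d, (F (ξ + Pi.single (x + stp e) 1) (x + stp e)) ^ 2) / (2 * d))

/-- the squared norm -/
def N2 (g : ℕ → ℝ) (φ : ℝ) (n : ℕ) (F : Cfg d L → Tor d L → ℝ) : ℝ :=
  ∑ η ∈ sec d L n, ∑ x, mu g φ η * η x * (F η x) ^ 2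

/-- block averages -/
def Blk (m : ℕ) (v : Tor d L → ℝ) (x : Tor d L) : ℝ :=
  (∑ u : Fin d → Fin m, v (x + fun i => ((u i : ℕ) : ZMod (L + 1)))) / (m : ℝ) ^ d

/-- the value of the killing parameter -/
def lamv (Γm Γp : ℝ) : ℝ := 4 * (1 + Γp / Γm) + 1

end ZRI

end
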