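import Pool.Agent.ZRI.Defs

/-!
# Auxiliary definitions: general targets, locality, transfer between `ℤ^d` and large tori
-/

open scoped BigOperators ENNReal Topology
open MeasureTheory Filter

noncomputable section

namespace ZRI

open Classical in
/-- some site of the target `T` has been occupied by an infected particle -/
def hit {d L : ℕ} (T : Tor d L → Prop) : Set (St d L) := {s | ∃ x ∈ s.2.2, T x}

variable {d L : ℕ}

/-- the probability that the target has been reached at time `t`, no healing -/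
def Qh (g : ℕ → ℝ) (T : Tor d L → Prop) (t : ℝ) (s : St d L) : ℝ :=
  sg (Gen g 0) t ((hit T).indicator 1) s

/-- the same for a single infected site `x` with one added particle -/
def Gh (g : ℕ → ℝ) (T : Tor d L → Prop) (t : ℝ) (η : Cfg d L) (x : Tor d L) : ℝ :=
  Qh g T t (η + Pi.single x 1, {x}, {x})

/-- the sites of the box `[-N, N]^d` in the torus -/
def inbox (N : ℕ) (x : Tor d L) : Prop := ∀ i, (x i).valMinAbs.natAbs ≤ N

instance (N : ℕ) (x : Tor d L) : Decidable (inbox N x) := by unfold inbox; infer_instance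

/-- the configuration restricted to the box -/
def res (N : ℕ) (η : Cfg d L) : Cfg d L := fun x => if inbox N x then η x else 0

/-- the occupied sites outside the box -/
def out (N : ℕ) (η : Cfg d L) : Finset (Tor d L) :=
  Finset.univ.filter (fun x => ¬ inbox N x ∧ 1 ≤ η x)

/-- the torus probabilities for the system started from the particles in the box -/
def prbR (d L N : ℕ) (g : ℕ → ℝ) (φ : ℝ) (δ : ℝ≥0∞) (t : ℝ) (A : Set (St d L)) : ℝ :=
  ∑' η : Cfg d L, mu g φ η * sg (Gen g δ) t (A.indicator 1) (ini δ (res N η))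

/-- the error of the restriction to the box `[-N, N]^d` -/
def epsN (d : ℕ) (φ Γm Γp t : ℝ) (R N : ℕ) : ℝ :=
  φ / Γm * Real.exp (kap φ Γm Γp * t + R + 1) * (Real.exp (-(N / 2)) * 5 ^ d)

/-- the invariants of the coupling of the restricted system `(ζ, I, J)`, the full system
`(η, I', J')` and the marks `(K, M)` -/
structure Cpl (δ : ℝ≥0∞) (R : ℕ) (ζ η : Cfg d L) (I I' J J' K M : Finset (Tor d L)) : Prop where
  sub : K ⊆ M
  eq : ∀ x, x ∉ K → ζ x = η x
  le : ∀ x, ζ x ≤ η x
  occ : ∀ x ∈ I, 1 ≤ ζ x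
  occ' : ∀ x ∈ I', 1 ≤ η x
  two : δ = ⊤ → ∀ x ∈ I, 2 ≤ ζ x
  two' : δ = ⊤ → ∀ x ∈ I', 2 ≤ η x
  vis : I ⊆ J
  vis' : I' ⊆ J'
  agI : ∀ x, x ∉ K → (x ∈ I ↔ x ∈ I')
  agJ : ∀ x, x ∉ M → (x ∈ J ↔ x ∈ J')
  con : (∃ x ∈ J, R < nrm x) → ∃ x ∈ J, nrm x = R + 1
  con' : (∃ x ∈ J', R < nrm x) → ∃ x ∈ J', nrm x = R + 1

/-- the projection of `ℤ^d` to the torus -/
def cst (L : ℕ) (x : Zd d) : Tor d L := fun i => ((x i : ℤ) : ZMod (L + 1))

/-- the configuration on the torus of a configuration on `ℤ^d` -/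
def toT (L : ℕ) (η : CfgZ d) : Cfg d L := fun y => ∑ x ∈ η.support, if cst L x = y then η x else 0

/-- the state on the torus of a state on `ℤ^d` -/
def toS (L : ℕ) (s : StZ d) : St d L := (toT L s.1, s.2.1.image (cst L), s.2.2.image (cst L))

/-- the state lives in the box `[-m, m]^d` -/
def inb (m : ℕ) (s : StZ d) : Prop := s.1.support ⊆ box d m ∧ s.2.1 ⊆ box d m ∧ s.2.2 ⊆ box d m

/-- the function of a state used for the front (`b = true`) and for the survival (`b = false`) -/
def FT (d L R : ℕ) (b : Bool) : St d L → ℝ :=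
  if b then (bad d L R).indicator 1 else (good d L R).indicator 1

/-- the same on `ℤ^d` -/
def FZ (d R : ℕ) (b : Bool) : StZ d → ℝ :=
  if b then (farZ d R).indicator 1 else (nearZ d R).indicator 1

end ZRI

end
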