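import Pool.Agent.ZRI.Defs2
import Pool.Agent.ZRI.C6a
import Pool.Agent.ZRI.D16
import Pool.Agent.ZRI.D17
import Pool.Agent.ZRI.D18
import Pool.Agent.ZRI.L6
import Pool.Agent.ZRI.Z7

open scoped BigOperators ENNReal Topology
open MeasureTheory Filter

namespace ZRI

variable {d L : ℕ} {g : ℕ → ℝ} {Γm Γp : ℝ}

/-- F2 -/
theorem nearZ_le (hd : 3 ≤ d) (hg : IsRate g Γm Γp) {φ : ℝ} (hφ : 0 < φ) :
    ∃ K θ ε : ℝ, 0 < K ∧ 0 < θ ∧ 0 < ε ∧ ∀ (R N : ℕ) (t : ℝ), 0 ≤ t →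
      prbZ d N g φ 0 t (nearZ d R) ≤ K * Real.exp (θ * R - ε * t) + epsN d φ Γm Γp t R N := by
  have : NeZero d := ⟨by omega⟩
  obtain ⟨ρ₀, s, hρ, hs, hM⟩ := ZRI.low_exp hg hφ
  obtain ⟨h1, h2, h3, -, hdens⟩ := ZRI.m1_sum hg hφ
  set M : ℝ := ∑' n : ℕ, m1 g φ n * Real.exp (-(s * n)) with hMdef
  have hM0 : 0 ≤ M := tsum_nonneg fun n => mul_nonneg (h3 n).le (Real.exp_pos _).le
  have hΓp : 0 < Γp := lt_of_lt_of_le one_pos hg.one_le
  have hΓm : 0 < Γm := hg.pos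
  have hd0 : (3 : ℝ) ≤ d := by exact_mod_cast hd
  have hlam : 5 ≤ lamv Γm Γp := by
    have : 0 < Γp / Γm := by positivity
    unfold lamv
    linarith
  have hlam0 : 0 < lamv Γm Γp := by linarith
  set c : ℝ := Γm * ρ₀ / (4 + 1024 * (d : ℝ) ^ 3) with hcdef
  have hden : 0 < 4 + 1024 * (d : ℝ) ^ 3 := by positivity
  have hc : 0 < c := by positivity
  set θ : ℝ := min (1 / 2) (c / (64 * lamv Γm Γp * Γp)) with hθdef
  have hθ : 0 < θ := lt_min (by norm_num) (by positivity)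
  have hθ2 : θ ≤ 1 / 2 := min_le_left _ _
  have hθ3 : θ ≤ c / (64 * lamv Γm Γp * Γp) := min_le_right _ _
  set p : ℝ := (1 - Real.exp (-θ)) / (4 * d * lamv Γm Γp) with hpdef
  have hp2 : p ≤ 1 / 2 := by
    rw [hpdef, div_le_iff₀ (by positivity)]
    have e1 := Real.exp_pos (-θ)
    have e2 : (15 : ℝ) ≤ d * lamv Γm Γp := by nlinarith
    nlinarith
  have hε := D18_small (d := d) (by omega) hc hlam0 hΓp hθ hθ2 hθ3
  rw [← hpdef] at hε
  refine ⟨(dens g φ) ^ (p / 2), θ, c * p - Γp / d * (Real.cosh (2 * θ) - 1),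
    Real.rpow_pos_of_pos hdens _, hθ, hε, ?_⟩
  intro R N t ht
  have hsub : Tendsto (fun k : ℕ => 2 ^ k - 1) atTop (atTop : Filter ℕ) := by
    refine tendsto_atTop_mono (fun k => ?_) tendsto_id
    have := Nat.lt_two_pow_self (n := k)
    simp only [id]
    omega
  have lim1 := (ZRI.prbR_tendsto (d := d) (by omega) hg hφ 0 R N t ht).2.comp hsub
  have lim2 := (D18_lim (d := d) (by omega) s (Real.exp (s * ρ₀) * M)
    (mul_nonneg (Real.exp_pos _).le hM0) hM).comp hsub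
  have lim3 := lim2.const_add (Real.exp (θ * R + Γp / d * (Real.cosh (2 * θ) - 1) * t - c * p * t) *
        (dens g φ) ^ (p / 2) + epsN d φ Γm Γp t R N)
  rw [add_zero] at lim3
  have key := le_of_tendsto_of_tendsto lim1 lim3 (by
    filter_upwards [eventually_ge_atTop (R + 2)] with k hk
    have hk1 : 1 ≤ k := by omega
    have hpow : k < 2 ^ k := Nat.lt_two_pow_self
    have hL : 2 ^ k - 1 + 1 = 2 ^ k := by omega
    have hR : 2 * (R + 1) < 2 ^ k - 1 + 1 := by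
      rw [hL]
      obtain ⟨j, rfl⟩ : ∃ j, k = j + 1 := ⟨k - 1, by omega⟩
      have hj : j < 2 ^ j := Nat.lt_two_pow_self
      rw [pow_succ]
      omega
    have hb := ZRI.prb_good_le hd hg hφ k hL hk1 R hR t ht θ p c ρ₀ s hθ hpdef hp2 hc.le hρ
      (by rw [hcdef, div_mul_cancel₀ _ hden.ne']) hs
    rw [← hMdef, D18_term] at hb
    have hs2 := (ZRI.prbR_sub (d := d) (by omega) (by omega : 1 ≤ 2 ^ k - 1) hg hφ 0 R N t ht).2
    have hs3 := (abs_le.mp hs2).2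
    simp only [Function.comp]
    linarith)
  refine key.trans (le_of_eq ?_)
  rw [mul_comm]
  congr 3
  ring

end ZRI
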