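import Pool.Agent.ZRI.Defs2
import Pool.Agent.ZRI.C9
import Pool.Agent.ZRI.D19
import Pool.Agent.ZRI.F1
import Pool.Agent.ZRI.F2
import Pool.Agent.ZRI.F2b

open scoped BigOperators ENNReal Topology
open MeasureTheory Filter

namespace ZRI

variable {d : ℕ} {g : ℕ → ℝ} {Γm Γp : ℝ}

theorem kap_pos (hg : IsRate g Γm Γp) {φ : ℝ} (hφ : 0 < φ) : 0 < kap φ Γm Γp := by
  have h1 := hg.pos
  have h2 : 0 < Γp := lt_of_lt_of_le one_pos hg.one_le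
  unfold kap
  positivity

theorem upper_law (hd : 1 ≤ d) (hg : IsRate g Γm Γp) {φ : ℝ} (hφ : 0 < φ) (δ : ℝ≥0∞)
    {Ω : Type*} [MeasurableSpace Ω] (P : Measure Ω) (r : ℝ → Ω → ℕ)
    (h : Front P d g φ δ r) (t : ℝ) (ht : 0 ≤ t) (R : ℕ) :
    P.real {ω | R < r t ω} ≤ φ / Γm * Real.exp (kap φ Γm Γp * t - R) := by
  have h1 := h.law t ht R
  have h2 := (ZRI.epsN_tendsto d φ Γm Γp t R).const_add
    (φ / Γm * Real.exp (kap φ Γm Γp * t - R))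
  rw [add_zero] at h2
  exact le_of_tendsto_of_tendsto h1 h2
    (Eventually.of_forall fun N => ZRI.farZ_le hd hg hφ δ R N t ht)

theorem speed_above (hd : 1 ≤ d) (hg : IsRate g Γm Γp) {φ : ℝ} (hφ : 0 < φ) (δ : ℝ≥0∞)
    {Ω : Type*} [MeasurableSpace Ω] (P : Measure Ω) [IsProbabilityMeasure P] (r : ℝ → Ω → ℕ)
    (h : Front P d g φ δ r) :
    ∀ᵐ ω ∂P, ∀ᶠ t : ℝ in atTop, (r t ω : ℝ) ≤ (kap φ Γm Γp + 2) * t :=
  ZRI.as_upper P r h.mono h.meas (φ / Γm) (kap φ Γm Γp) (kap_pos hg hφ)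
    (fun t ht R => upper_law hd hg hφ δ P r h t ht R)

theorem speed_below (hd : 3 ≤ d) (hg : IsRate g Γm Γp) {φ : ℝ} (hφ : 0 < φ) :
    ∃ c : ℝ, 0 < c ∧ ∀ {Ω : Type*} [MeasurableSpace Ω] (P : Measure Ω) [IsProbabilityMeasure P]
      (r : ℝ → Ω → ℕ) (al : ℝ → Set Ω), Front P d g φ 0 r → Alive P d g φ 0 r al →
      ∀ᵐ ω ∂P, (∀ t, 0 ≤ t → ω ∈ al t) → ∀ᶠ t : ℝ in atTop, c * t ≤ (r t ω : ℝ) := by
  obtain ⟨K, θ, ε, hK, hθ, hε, hlaw⟩ := ZRI.nearZ_le hd hg hφ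
  refine ⟨ε / (4 * θ), by positivity, ?_⟩
  intro Ω _ P _ r al h ha
  refine ZRI.as_lower P r al h.mono h.meas ha.meas K θ ε hθ hε (fun t ht R => ?_)
  have h2 := (ZRI.epsN_tendsto d φ Γm Γp t R).const_add (K * Real.exp (θ * R - ε * t))
  rw [add_zero] at h2
  exact le_of_tendsto_of_tendsto (ha.law t ht R) h2
    (Eventually.of_forall fun N => hlaw R N t ht)

end ZRI
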