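import Mathlib

/-!
# Infection in a zero-range environment on `ℤ^d`: the model

Systems with finitely many particles on `ℤ^d`, their semigroup, the product measure, and the front
of the infection for the infinite system, which is the limit of the systems started from the
particles in the boxes `[-N, N]^d`.
-/

open scoped BigOperators ENNReal Topology
open MeasureTheory Filter

noncomputable section

namespace ZRI

/-- `g` is an admissible rate function with constants `Γm ≤ 1 ≤ Γp`. -/
structure IsRate (g : ℕ → ℝ) (Γm Γp : ℝ) : Prop where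
  zero : g 0 = 0
  pos : 0 < Γm
  le_one : Γm ≤ 1
  one_le : 1 ≤ Γp
  lower : ∀ n, Γm ≤ g (n + 1) - g n
  upper : ∀ n, g (n + 1) - g n ≤ Γp

/-- the lattice `ℤ^d` -/
abbrev Zd (d : ℕ) := Fin d → ℤ

/-- the `2d` directions -/
abbrev Dir (d : ℕ) := Fin d × Bool

/-- configurations with finitely many particles on `ℤ^d` -/
abbrev CfgZ (d : ℕ) := Zd d →₀ ℕ

/-- states `(η, I, J)`: configuration, sites whose particles are infected, sites that have been
occupied by an infected particle so far -/
abbrev StZ (d : ℕ) := CfgZ d × Finset (Zd d) × Finset (Zd d)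

variable {d : ℕ}

/-- the unit vector of a direction -/
def stpZ (e : Dir d) : Zd d := Pi.single e.1 (if e.2 then 1 else -1)

/-- the `ℓ¹` distance from the origin -/
def nrmZ (x : Zd d) : ℕ := ∑ i, (x i).natAbs

/-- one particle moves from `x` to `y` -/
def mvZ (η : CfgZ d) (x y : Zd d) : CfgZ d := η - Finsupp.single x 1 + Finsupp.single y 1

/-- the infected sites after a particle has moved from `x` to `y` (before instantaneous healing):
if `x` was infected, `y` becomes infected, and `x` stays infected if it still holds a particle -/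
def sprZ (η : CfgZ d) (I : Finset (Zd d)) (x y : Zd d) : Finset (Zd d) :=
  if x ∈ I then insert y (if η x = 1 then I.erase x else I) else I

/-- a particle jumps from `x` to `y`; if `δ = ∞`, every infected particle that is alone at its site
after the jump heals at once -/
def jmpZ (δ : ℝ≥0∞) (s : StZ d) (x y : Zd d) : StZ d :=
  (mvZ s.1 x y,
    if δ = ⊤ then (sprZ s.1 s.2.1 x y).filter (fun z => 2 ≤ mvZ s.1 x y z)
    else sprZ s.1 s.2.1 x y,
    if x ∈ s.2.1 then insert y s.2.2 else s.2.2)

/-- the infected particle at `x` heals -/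
def healZ (s : StZ d) (x : Zd d) : StZ d := (s.1, s.2.1.erase x, s.2.2)

/-- the generator: a site holding `n` particles sends a particle to each of its `2d` neighbours at
rate `g n / (2d)`; an infected particle alone at its site heals at rate `δ` (if `δ < ∞`) -/
def GenZ (g : ℕ → ℝ) (δ : ℝ≥0∞) (F : StZ d → ℝ) (s : StZ d) : ℝ :=
  (∑ x ∈ s.1.support, ∑ e : Dir d, g (s.1 x) / (2 * d) * (F (jmpZ δ s x (x + stpZ e)) - F s)) +
    ∑ x ∈ s.2.1.filter (fun x => s.1 x = 1), δ.toReal * (F (healZ s x) - F s)

/-- the semigroup `exp (t A)` applied to `F`, at the state `s` -/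
def sg {S : Type*} (A : (S → ℝ) → S → ℝ) (t : ℝ) (F : S → ℝ) (s : S) : ℝ :=
  ∑' k : ℕ, t ^ k / (k.factorial : ℝ) * (A^[k] F) s

/-- weights of the one-site marginal with fugacity `φ` -/
def wt (g : ℕ → ℝ) (φ : ℝ) (n : ℕ) : ℝ := φ ^ n / ∏ i ∈ Finset.range n, g (i + 1)

/-- the one-site marginal with fugacity `φ` -/
def m1 (g : ℕ → ℝ) (φ : ℝ) (n : ℕ) : ℝ := wt g φ n / ∑' m, wt g φ m

/-- the density of the marginal with fugacity `φ` -/
def dens (g : ℕ → ℝ) (φ : ℝ) : ℝ := ∑' n : ℕ, (n : ℝ) * m1 g φ n

/-- the box `[-N, N]^d` -/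
def box (d N : ℕ) : Finset (Zd d) := Finset.Icc (fun _ => -(N : ℤ)) (fun _ => (N : ℤ))

/-- the product measure with fugacity `φ` in the box, no particles outside -/
def muZ (N : ℕ) (g : ℕ → ℝ) (φ : ℝ) (η : CfgZ d) : ℝ :=
  if η.support ⊆ box d N then ∏ x ∈ box d N, m1 g φ (η x) else 0

/-- the initial state: the particles at the origin are infected (for `δ = ∞` an infected particle
alone at the origin heals at once) -/
def iniZ (δ : ℝ≥0∞) (η : CfgZ d) : StZ d :=
  (η, if 1 ≤ η 0 ∧ (δ = ⊤ → 2 ≤ η 0) then {0} else ∅, if 1 ≤ η 0 then {0} else ∅)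

/-- the probability that the state at time `t` belongs to `A`, for the system on `ℤ^d` started from
the particles in the box `[-N, N]^d` -/
def prbZ (d N : ℕ) (g : ℕ → ℝ) (φ : ℝ) (δ : ℝ≥0∞) (t : ℝ) (A : Set (StZ d)) : ℝ :=
  ∑' η : CfgZ d, muZ N g φ η * sg (GenZ g δ) t (A.indicator 1) (iniZ δ η)

/-- the front is at distance more than `R` from the origin -/
def farZ (d R : ℕ) : Set (StZ d) := {s | ∃ x ∈ s.2.2, R < nrmZ x}

/-- some particle is infected and the front is at distance at most `R` from the origin -/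
def nearZ (d R : ℕ) : Set (StZ d) := {s | s.2.1.Nonempty ∧ ∀ x ∈ s.2.2, nrmZ x ≤ R}

/-- `r t` is the position of the front at time `t`, for the infection on `ℤ^d` with fugacity `φ` and
healing rate `δ`: it is nondecreasing in `t`, and its law at each time is the limit of the laws for
the systems started from the particles in the boxes `[-N, N]^d` -/
structure Front {Ω : Type*} [MeasurableSpace Ω] (P : Measure Ω) (d : ℕ) (g : ℕ → ℝ) (φ : ℝ)
    (δ : ℝ≥0∞) (r : ℝ → Ω → ℕ) : Prop where
  mono : ∀ ω s t, s ≤ t → r s ω ≤ r t ω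
  meas : ∀ t, Measurable (r t)
  law : ∀ t, 0 ≤ t → ∀ R : ℕ,
    Tendsto (fun N => prbZ d N g φ δ t (farZ d R)) atTop (𝓝 (P.real {ω | R < r t ω}))

/-- `al t` is the event that some particle is infected at time `t`: it is nonincreasing in `t`, and
the joint law of `al t` and `r t` is the limit of the joint laws for the systems started from the
particles in the boxes `[-N, N]^d` -/
structure Alive {Ω : Type*} [MeasurableSpace Ω] (P : Measure Ω) (d : ℕ) (g : ℕ → ℝ) (φ : ℝ)
    (δ : ℝ≥0∞) (r : ℝ → Ω → ℕ) (al : ℝ → Set Ω) : Prop where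
  anti : ∀ s t, 0 ≤ s → s ≤ t → al t ⊆ al s
  meas : ∀ t, MeasurableSet (al t)
  law : ∀ t, 0 ≤ t → ∀ R : ℕ,
    Tendsto (fun N => prbZ d N g φ δ t (nearZ d R)) atTop (𝓝 (P.real (al t ∩ {ω | r t ω ≤ R})))

end ZRI

end
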